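import Pool.Agent.Lib.MP_3efbeb_nt.DL.Spec

/-!
# AVG: the average of the singular series, from AVG1 and the inequality of the means
-/

set_option autoImplicit false

namespace Pool.Agent.Lib.MP_3efbeb_nt.DL

open Finset
open scoped Classical

namespace AVGM

/-- the primes of `hh` -/
noncomputable def Pn (M : ℕ) (n : ℤ) : Finset ℕ := n.natAbs.primeFactors.filter (fun p => ¬ p ∣ M)

lemma mem_Pn {M : ℕ} {n : ℤ} {p : ℕ} : p ∈ Pn M n ↔ (p.Prime ∧ (p : ℤ) ∣ n ∧ n ≠ 0) ∧ ¬ p ∣ M := by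
  unfold Pn
  rw [Finset.mem_filter, Nat.mem_primeFactors, Int.natAbs_ne_zero, Int.natCast_dvd]

lemma hh_eq (A : ℝ) (M : ℕ) (n : ℤ) : hh A M n = ∏ p ∈ Pn M n, (1 + A / p) := rfl

lemma one_le_prod (A : ℝ) (hA : 0 ≤ A) (P : Finset ℕ) : 1 ≤ ∏ p ∈ P, (1 + A / (p : ℝ)) := by
  have h := Finset.prod_le_prod (s := P) (f := fun _ : ℕ => (1 : ℝ)) (g := fun p : ℕ => 1 + A / (p : ℝ))
    (fun _ _ => zero_le_one) (fun p _ => by
      have : 0 ≤ A / (p : ℝ) := div_nonneg hA (Nat.cast_nonneg p)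
      linarith)
  simpa using h

lemma one_le_hh (A : ℝ) (hA : 0 ≤ A) (M : ℕ) (n : ℤ) : 1 ≤ hh A M n := one_le_prod A hA _

lemma prod_biUnion_le {ι : Type*} (A : ℝ) (hA : 0 ≤ A) (I : Finset ι) (P : ι → Finset ℕ) :
    ∏ p ∈ I.biUnion P, (1 + A / (p : ℝ)) ≤ ∏ i ∈ I, ∏ p ∈ P i, (1 + A / (p : ℝ)) := by
  induction I using Finset.induction_on with
  | empty => simp
  | insert i I hi ih =>
    rw [Finset.biUnion_insert, Finset.prod_insert hi]
    have h1 := Finset.prod_union_inter (s₁ := P i) (s₂ := I.biUnion P) (f := fun p : ℕ => 1 + A / (p : ℝ))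
    have h2 := one_le_prod A hA (P i ∩ I.biUnion P)
    have h3 := one_le_prod A hA (P i ∪ I.biUnion P)
    have h4 := one_le_prod A hA (P i)
    calc ∏ p ∈ P i ∪ I.biUnion P, (1 + A / (p : ℝ))
        ≤ (∏ p ∈ P i ∪ I.biUnion P, (1 + A / (p : ℝ))) * ∏ p ∈ P i ∩ I.biUnion P, (1 + A / (p : ℝ)) :=
          le_mul_of_one_le_right (by linarith) h2
      _ = (∏ p ∈ P i, (1 + A / (p : ℝ))) * ∏ p ∈ I.biUnion P, (1 + A / (p : ℝ)) := h1
      _ ≤ _ := mul_le_mul_of_nonneg_left ih (by linarith)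

lemma hh_prod_le {ι : Type*} (A : ℝ) (hA : 0 ≤ A) (M : ℕ) (I : Finset ι) (n : ι → ℤ) :
    hh A M (∏ i ∈ I, n i) ≤ ∏ i ∈ I, hh A M (n i) := by
  by_cases h0 : ∏ i ∈ I, n i = 0
  · rw [h0]
    have h1 : hh A M 0 = 1 := by simp [hh]
    rw [h1]
    have h := Finset.prod_le_prod (s := I) (f := fun _ => (1 : ℝ)) (g := fun i => hh A M (n i))
      (fun _ _ => zero_le_one) (fun i _ => one_le_hh A hA M (n i))
    simpa using h
  · have h1 : Pn M (∏ i ∈ I, n i) ⊆ I.biUnion (fun i => Pn M (n i)) := by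
      intro p hp
      obtain ⟨⟨hp1, hp2, _⟩, hp3⟩ := mem_Pn.mp hp
      obtain ⟨i, hi, hdv⟩ := (Prime.dvd_finsetProd_iff (Nat.prime_iff_prime_int.mp hp1) _).mp hp2
      refine Finset.mem_biUnion.mpr ⟨i, hi, mem_Pn.mpr ⟨⟨hp1, hdv, ?_⟩, hp3⟩⟩
      exact Finset.prod_ne_zero_iff.mp h0 i hi
    have h2 : ∏ p ∈ Pn M (∏ i ∈ I, n i), (1 + A / (p : ℝ)) ≤ ∏ p ∈ I.biUnion (fun i => Pn M (n i)), (1 + A / (p : ℝ)) := by
      rw [← Finset.prod_sdiff h1]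
      have h3 := one_le_prod A hA (I.biUnion (fun i => Pn M (n i)) \ Pn M (∏ i ∈ I, n i))
      have h4 := one_le_prod A hA (Pn M (∏ i ∈ I, n i))
      exact le_mul_of_one_le_left (by linarith) h3
    rw [hh_eq]
    exact h2.trans (prod_biUnion_le A hA I _)

lemma loc_pow (a p : ℝ) (ha : 0 ≤ a) (hp : 1 ≤ p) (N : ℕ) : (1 + a / p) ^ N ≤ 1 + ((1 + a) ^ N - 1) / p := by
  have hp0 : (0 : ℝ) < p := by linarith
  induction N with
  | zero => simp
  | succ N ih =>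
    have h1 : (1 + a / p) ^ (N + 1) ≤ (1 + ((1 + a) ^ N - 1) / p) * (1 + a / p) := by
      rw [pow_succ]
      exact mul_le_mul_of_nonneg_right ih (by positivity)
    refine h1.trans ?_
    have h2 : (1 : ℝ) ≤ (1 + a) ^ N := one_le_pow₀ (by linarith)
    have h3 : (1 + ((1 + a) ^ N - 1) / p) * (1 + a / p) =
        1 + (((1 + a) ^ N - 1) + a + ((1 + a) ^ N - 1) * (a / p)) / p := by
      field_simp
      ring
    rw [h3]
    have h4 : a / p ≤ a := div_le_self ha hp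
    have h5 : ((1 + a) ^ N - 1) + a + ((1 + a) ^ N - 1) * (a / p) ≤ (1 + a) ^ (N + 1) - 1 := by
      rw [pow_succ]
      nlinarith [mul_le_mul_of_nonneg_left h4 (by linarith : 0 ≤ (1 + a) ^ N - 1)]
    have h6 := div_le_div_of_nonneg_right h5 hp0.le
    linarith

/-- the powers are absorbed in the constant -/
lemma hh_pow_le (a : ℝ) (ha : 0 ≤ a) (N M : ℕ) (n : ℤ) : hh a M n ^ N ≤ hh ((1 + a) ^ N - 1) M n := by
  rw [hh_eq, hh_eq, ← Finset.prod_pow]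
  refine Finset.prod_le_prod (fun p _ => by positivity) fun p hp => ?_
  have hp1 : (1 : ℝ) ≤ p := by exact_mod_cast (mem_Pn.mp hp).1.1.one_le
  exact loc_pow a p ha hp1 N

/-- the inequality of the means -/
lemma am_gm {ι : Type*} (I : Finset ι) (hI : I.Nonempty) (x : ι → ℝ) (hx : ∀ i ∈ I, 0 ≤ x i) :
    ∏ i ∈ I, x i ≤ (I.card : ℝ)⁻¹ * ∑ i ∈ I, x i ^ I.card := by
  have hc : I.card ≠ 0 := Finset.card_ne_zero.mpr hI
  have hc' : (I.card : ℝ) ≠ 0 := by exact_mod_cast hc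
  have h := Real.geom_mean_le_arith_mean_weighted I (fun _ => (I.card : ℝ)⁻¹) (fun i => x i ^ I.card)
    (fun _ _ => by positivity) (by rw [Finset.sum_const, nsmul_eq_mul, mul_inv_cancel₀ hc'])
    (fun i hi => pow_nonneg (hx i hi) _)
  rw [← Finset.mul_sum] at h
  refine le_trans (le_of_eq ?_) h
  exact Finset.prod_congr rfl fun i hi => (Real.pow_rpow_inv_natCast (hx i hi) hc).symm

end AVGM

open AVGM in
/-- AVG. -/
theorem specAVG (h1 : SpecAVG1) : SpecAVG := by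
  intro S η hη hS
  set a : ℝ := 2 * ((S.card : ℝ) + 1) with ha
  have ha0 : 0 ≤ a := by positivity
  set I : Finset (ℤ × ℤ) := S ×ˢ S with hI
  set N : ℕ := I.card with hN
  set A : ℝ := (1 + a) ^ N - 1 with hA
  have hA0 : 0 ≤ A := by
    have : (1 : ℝ) ≤ (1 + a) ^ N := one_le_pow₀ (by linarith)
    rw [hA]; linarith
  -- the constants for the pairs
  have hex : ∀ x : ℤ × ℤ, ∃ P0 : ℕ, x ∈ I → ∀ M : ℕ, 1 ≤ M → (∀ p : ℕ, p.Prime → ¬ p ∣ M → P0 < p) →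
      ∃ j0 : ℕ, ∀ j : ℕ, j0 ≤ j → ∀ q ∈ blk M j,
        ∑ q' ∈ (blk M j).erase q, (hh A M (x.1 * (q' : ℤ) - x.2 * (q : ℤ)) - 1) ≤ η * (blk M j).card := by
    intro x
    by_cases hx : x ∈ I
    · obtain ⟨hx1, hx2⟩ := Finset.mem_product.mp hx
      obtain ⟨P0, hP0⟩ := h1 A η x.1 x.2 hA0 hη (hS _ hx1) (hS _ hx2)
      exact ⟨P0, fun _ => hP0⟩
    · exact ⟨0, fun h => absurd h hx⟩
  choose P0 hP0 using hex
  refine ⟨∑ x ∈ I, P0 x, fun M hM1 hM => ?_⟩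
  have hex2 : ∀ x : ℤ × ℤ, ∃ j0 : ℕ, x ∈ I → ∀ j : ℕ, j0 ≤ j → ∀ q ∈ blk M j,
        ∑ q' ∈ (blk M j).erase q, (hh A M (x.1 * (q' : ℤ) - x.2 * (q : ℤ)) - 1) ≤ η * (blk M j).card := by
    intro x
    by_cases hx : x ∈ I
    · obtain ⟨j0, hj0⟩ := hP0 x hx M hM1 (fun p hp hpM =>
        lt_of_le_of_lt (Finset.single_le_sum (f := P0) (fun _ _ => Nat.zero_le _) hx) (hM p hp hpM))
      exact ⟨j0, fun _ => hj0⟩
    · exact ⟨0, fun h => absurd h hx⟩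
  choose j0 hj0 using hex2
  refine ⟨∑ x ∈ I, j0 x, fun j hj q hq => ?_⟩
  have hDel : ∀ q' : ℕ, Del S q q' = ∏ x ∈ I, (x.1 * (q' : ℤ) - x.2 * (q : ℤ)) := by
    intro q'
    unfold Del
    rw [hI, Finset.prod_product]
  have hcoef : (2 * ((S.card : ℝ) + 1)) = a := rfl
  rcases I.eq_empty_or_nonempty with hIe | hIne
  · have h2 : ∀ q' ∈ (blk M j).erase q, hh a M (Del S q q') - 1 = 0 := by
      intro q' _
      rw [hDel, hIe, Finset.prod_empty]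
      simp [hh]
    rw [Finset.sum_congr rfl h2, Finset.sum_const_zero]
    positivity
  · have hNpos : (0 : ℝ) < N := by
      rw [hN]; exact_mod_cast Finset.card_pos.mpr hIne
    have h3 : ∀ q' ∈ (blk M j).erase q, hh a M (Del S q q') - 1 ≤
        (N : ℝ)⁻¹ * ∑ x ∈ I, (hh A M (x.1 * (q' : ℤ) - x.2 * (q : ℤ)) - 1) := by
      intro q' _
      rw [hDel]
      have h4 := hh_prod_le a ha0 M I (fun x => x.1 * (q' : ℤ) - x.2 * (q : ℤ))
      have h5 := am_gm I hIne (fun x => hh a M (x.1 * (q' : ℤ) - x.2 * (q : ℤ)))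
        (fun x _ => zero_le_one.trans (one_le_hh a ha0 M _))
      have h6 : (N : ℝ)⁻¹ * ∑ x ∈ I, hh a M (x.1 * (q' : ℤ) - x.2 * (q : ℤ)) ^ I.card ≤
          (N : ℝ)⁻¹ * ∑ x ∈ I, hh A M (x.1 * (q' : ℤ) - x.2 * (q : ℤ)) := by
        refine mul_le_mul_of_nonneg_left (Finset.sum_le_sum fun x _ => ?_) (by positivity)
        exact hh_pow_le a ha0 N M _
      have h7 : (N : ℝ)⁻¹ * ∑ x ∈ I, (hh A M (x.1 * (q' : ℤ) - x.2 * (q : ℤ)) - 1) =
          (N : ℝ)⁻¹ * ∑ x ∈ I, hh A M (x.1 * (q' : ℤ) - x.2 * (q : ℤ)) - 1 := by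
        rw [Finset.sum_sub_distrib, Finset.sum_const, nsmul_eq_mul, mul_one, ← hN, mul_sub,
          inv_mul_cancel₀ hNpos.ne']
      rw [h7]
      linarith
    calc ∑ q' ∈ (blk M j).erase q, (hh a M (Del S q q') - 1)
        ≤ ∑ q' ∈ (blk M j).erase q, (N : ℝ)⁻¹ * ∑ x ∈ I, (hh A M (x.1 * (q' : ℤ) - x.2 * (q : ℤ)) - 1) :=
          Finset.sum_le_sum h3
      _ = (N : ℝ)⁻¹ * ∑ x ∈ I, ∑ q' ∈ (blk M j).erase q, (hh A M (x.1 * (q' : ℤ) - x.2 * (q : ℤ)) - 1) := by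
          rw [← Finset.mul_sum, Finset.sum_comm]
      _ ≤ (N : ℝ)⁻¹ * ∑ _x ∈ I, η * (blk M j).card := by
          refine mul_le_mul_of_nonneg_left (Finset.sum_le_sum fun x hx => ?_) (by positivity)
          exact hj0 x hx j ((Finset.single_le_sum (f := j0) (fun _ _ => Nat.zero_le _) hx).trans hj) q hq
      _ = η * (blk M j).card := by
          rw [Finset.sum_const, nsmul_eq_mul, ← hN, ← mul_assoc, inv_mul_cancel₀ hNpos.ne', one_mul]

end Pool.Agent.Lib.MP_3efbeb_nt.DL
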