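import Pool.Agent.Lib.MP_3efbeb_nt.DL.Spec

/-!
# AVG1: the average of `∏_{p ∣ n} (1 + A/p)`, `n = s q' - s' q`, over the primes `q'` of a block
-/

set_option autoImplicit false

namespace Pool.Agent.Lib.MP_3efbeb_nt.DL

open Finset
open scoped Classical

namespace AVG1M

/-- the primes of `hh` -/
noncomputable def Pn (M : ℕ) (n : ℤ) : Finset ℕ := n.natAbs.primeFactors.filter (fun p => ¬ p ∣ M)

lemma mem_Pn {M : ℕ} {n : ℤ} {p : ℕ} (h : p ∈ Pn M n) : p.Prime ∧ (p : ℤ) ∣ n ∧ ¬ p ∣ M ∧ n ≠ 0 := by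
  obtain ⟨h1, h2⟩ := Finset.mem_filter.mp h
  obtain ⟨h3, h4, h5⟩ := Nat.mem_primeFactors.mp h1
  exact ⟨h3, Int.natCast_dvd.mpr h4, h2, Int.natAbs_ne_zero.mp h5⟩

/-- the weight of a set of primes -/
noncomputable def g (A : ℝ) (t : Finset ℕ) : ℝ := ∏ p ∈ t, (A / p)

lemma g_nonneg {A : ℝ} (hA : 0 ≤ A) (t : Finset ℕ) : 0 ≤ g A t :=
  Finset.prod_nonneg fun p _ => by positivity

lemma g_eq (A : ℝ) (t : Finset ℕ) : g A t = A ^ t.card / ((∏ p ∈ t, p : ℕ) : ℝ) := by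
  unfold g
  rw [Finset.prod_div_distrib, Finset.prod_const]
  push_cast; rfl

lemma hh_sub_one (A : ℝ) (M : ℕ) (n : ℤ) : hh A M n - 1 = ∑ t ∈ (Pn M n).powerset.erase ∅, g A t := by
  have h1 : hh A M n = ∑ t ∈ (Pn M n).powerset, g A t := by
    unfold hh Pn g
    rw [Finset.prod_one_add]
  rw [h1, ← Finset.add_sum_erase _ _ (Finset.empty_mem_powerset (Pn M n))]
  simp [g]

lemma prod_Pn_le (M : ℕ) (n : ℤ) (hn : n ≠ 0) : ∏ p ∈ Pn M n, p ≤ n.natAbs := by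
  have h1 : ∏ p ∈ Pn M n, p ∣ n.natAbs := by
    refine (Finset.prod_dvd_prod_of_subset _ _ _ (Finset.filter_subset _ _)).trans ?_
    exact Nat.prod_primeFactors_dvd _
  exact Nat.le_of_dvd (Int.natAbs_pos.mpr hn) h1

/-- the number of sets, weighted -/
lemma pow_card_le (A : ℝ) (hA : 0 ≤ A) (M P0 : ℕ) (n : ℤ) (hP : (1 + A) ^ 8 ≤ P0)
    (hM : ∀ p : ℕ, p.Prime → ¬ p ∣ M → P0 < p) : ((1 + A) ^ (Pn M n).card) ^ 8 ≤ max 1 (n.natAbs : ℝ) := by
  by_cases hn : n = 0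
  · subst hn
    simp [Pn]
  · refine le_max_of_le_right ?_
    have h1 : ((1 + A) ^ (Pn M n).card) ^ 8 = ∏ _p ∈ Pn M n, (1 + A) ^ 8 := by
      rw [Finset.prod_const, ← pow_mul, ← pow_mul, mul_comm]
    rw [h1]
    have h2 : ∏ _p ∈ Pn M n, (1 + A) ^ 8 ≤ ∏ p ∈ Pn M n, (p : ℝ) := by
      refine Finset.prod_le_prod (fun p _ => by positivity) fun p hp => ?_
      have h3 := hM p (mem_Pn hp).1 (mem_Pn hp).2.2.1
      have h4 : (P0 : ℝ) ≤ p := by exact_mod_cast h3.le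
      exact hP.trans h4
    refine h2.trans ?_
    have h5 : ((∏ p ∈ Pn M n, p : ℕ) : ℝ) ≤ (n.natAbs : ℝ) := by exact_mod_cast prod_Pn_le M n hn
    push_cast at h5
    exact h5

/-- sets with large product -/
lemma large_part (A B : ℝ) (hA : 0 ≤ A) (hB : 0 < B) (M : ℕ) (n : ℤ) :
    ∑ t ∈ ((Pn M n).powerset.erase ∅).filter (fun t => ¬ (((∏ p ∈ t, p : ℕ) : ℝ) ≤ B)), g A t ≤
      (1 + A) ^ (Pn M n).card / B := by
  have h1 : ∀ t ∈ ((Pn M n).powerset.erase ∅).filter (fun t => ¬ (((∏ p ∈ t, p : ℕ) : ℝ) ≤ B)),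
      g A t ≤ A ^ t.card / B := by
    intro t ht
    rw [g_eq]
    have h2 := not_le.mp (Finset.mem_filter.mp ht).2
    gcongr
  refine (Finset.sum_le_sum h1).trans ?_
  rw [← Finset.sum_div]
  refine div_le_div_of_nonneg_right ?_ hB.le
  have h3 : ∑ t ∈ (Pn M n).powerset, A ^ t.card = (1 + A) ^ (Pn M n).card := by
    have h4 := Finset.prod_one_add (s := Pn M n) (f := fun _ => A)
    simp only [Finset.prod_const] at h4
    exact h4.symm
  rw [← h3]
  refine Finset.sum_le_sum_of_subset_of_nonneg ?_ (fun t _ _ => by positivity)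
  exact (Finset.filter_subset _ _).trans (Finset.erase_subset _ _)

lemma totient_prod (t : Finset ℕ) (ht : ∀ p ∈ t, p.Prime) : Nat.totient (∏ p ∈ t, p) = ∏ p ∈ t, (p - 1) := by
  induction t using Finset.induction_on with
  | empty => simp
  | insert a t ha ih =>
    have h1 : ∀ p ∈ t, p.Prime := fun p hp => ht p (Finset.mem_insert_of_mem hp)
    have h2 : a.Prime := ht a (Finset.mem_insert_self a t)
    have h3 : Nat.Coprime a (∏ p ∈ t, p) :=
      Nat.Coprime.prod_right fun p hp => (Nat.coprime_primes h2 (h1 p hp)).mpr fun h => ha (h ▸ hp)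
    rw [Finset.prod_insert ha, Finset.prod_insert ha, Nat.totient_mul h3, Nat.totient_prime h2, ih h1]

/-- the primes that can occur in small sets -/
noncomputable def Pr (M B : ℕ) : Finset ℕ := (range (B + 1)).filter (fun p => p.Prime ∧ ¬ p ∣ M)

lemma mem_Pr {M B p : ℕ} : p ∈ Pr M B ↔ p ≤ B ∧ p.Prime ∧ ¬ p ∣ M := by
  simp [Pr]

/-- the sum of `1/(p(p-1))` -/
lemma sum_tail (M P0 B : ℕ) (hP : 1 ≤ P0) (hM : ∀ p : ℕ, p.Prime → ¬ p ∣ M → P0 < p) :
    ∑ p ∈ Pr M B, 1 / ((p : ℝ) * ((p - 1 : ℕ) : ℝ)) ≤ 1 / P0 := by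
  have h1 : Pr M B ⊆ Finset.Ico (P0 + 1) (P0 + 1 + B) := by
    intro p hp
    obtain ⟨h1, h2, h3⟩ := mem_Pr.mp hp
    have := hM p h2 h3
    exact Finset.mem_Ico.mpr ⟨by omega, by omega⟩
  refine (Finset.sum_le_sum_of_subset_of_nonneg h1 (fun p _ _ => by positivity)).trans ?_
  have h2 : ∀ N : ℕ, ∑ p ∈ Finset.Ico (P0 + 1) (P0 + 1 + N), 1 / ((p : ℝ) * ((p - 1 : ℕ) : ℝ)) ≤
      1 / P0 - 1 / (P0 + N : ℝ) := by
    intro N
    induction N with
    | zero => simp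
    | succ N ih =>
      rw [← add_assoc, Finset.sum_Ico_succ_top (by omega)]
      have hP' : (0 : ℝ) < P0 := by exact_mod_cast hP
      have h3 : ((P0 + 1 + N - 1 : ℕ) : ℝ) = P0 + N := by
        rw [show P0 + 1 + N - 1 = P0 + N by omega]; push_cast; ring
      rw [h3]
      push_cast
      have h4 : 1 / (((P0 : ℝ) + 1 + N) * (P0 + N)) = 1 / (P0 + N : ℝ) - 1 / (P0 + (N + 1) : ℝ) := by
        have h5 : (P0 : ℝ) + N ≠ 0 := by positivity
        have h6 : (P0 : ℝ) + (N + 1) ≠ 0 := by positivity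
        have h7 : (P0 : ℝ) + 1 + N ≠ 0 := by positivity
        field_simp
        ring
      rw [h4]
      linarith
  refine (h2 B).trans ?_
  have : 0 ≤ 1 / (P0 + B : ℝ) := by positivity
  linarith

/-- the sum over the small sets -/
lemma small_sum (A : ℝ) (hA : 0 ≤ A) (M P0 B : ℕ) (hP : 1 ≤ P0) (hM : ∀ p : ℕ, p.Prime → ¬ p ∣ M → P0 < p) :
    ∑ t ∈ (Pr M B).powerset.erase ∅, g A t / (Nat.totient (∏ p ∈ t, p) : ℝ) ≤ Real.exp (A / P0) - 1 := by
  have h1 : ∀ t ∈ (Pr M B).powerset, g A t / (Nat.totient (∏ p ∈ t, p) : ℝ) =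
      ∏ p ∈ t, (A * (1 / ((p : ℝ) * ((p - 1 : ℕ) : ℝ)))) := by
    intro t ht
    rw [totient_prod t (fun p hp => (mem_Pr.mp (Finset.mem_powerset.mp ht hp)).2.1)]
    unfold g
    push_cast
    rw [← Finset.prod_div_distrib]
    refine Finset.prod_congr rfl fun p _ => ?_
    rw [div_div, mul_one_div]
  have h2 : ∑ t ∈ (Pr M B).powerset.erase ∅, g A t / (Nat.totient (∏ p ∈ t, p) : ℝ) =
      ∏ p ∈ Pr M B, (1 + A * (1 / ((p : ℝ) * ((p - 1 : ℕ) : ℝ)))) - 1 := by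
    rw [Finset.prod_one_add, ← Finset.add_sum_erase _ _ (Finset.empty_mem_powerset (Pr M B))]
    simp only [Finset.prod_empty, add_sub_cancel_left]
    exact Finset.sum_congr rfl fun t ht => h1 t (Finset.mem_of_mem_erase ht)
  rw [h2]
  have h3 : ∏ p ∈ Pr M B, (1 + A * (1 / ((p : ℝ) * ((p - 1 : ℕ) : ℝ)))) ≤
      ∏ p ∈ Pr M B, Real.exp (A * (1 / ((p : ℝ) * ((p - 1 : ℕ) : ℝ)))) := by
    refine Finset.prod_le_prod (fun p _ => by positivity) fun p _ => ?_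
    have := Real.add_one_le_exp (A * (1 / ((p : ℝ) * ((p - 1 : ℕ) : ℝ))))
    linarith
  rw [← Real.exp_sum, ← Finset.mul_sum] at h3
  have h4 : A * ∑ p ∈ Pr M B, 1 / ((p : ℝ) * ((p - 1 : ℕ) : ℝ)) ≤ A / P0 := by
    calc _ ≤ A * (1 / P0) := mul_le_mul_of_nonneg_left (sum_tail M P0 B hP hM) hA
      _ = A / P0 := by ring
  have h5 := Real.exp_le_exp.mpr h4
  linarith

/-- the number of `q'` with all primes of `t` dividing `s q' - s' q` -/
lemma count_le (Q : Finset ℕ) (s s' : ℤ) (q : ℕ) (t : Finset ℕ) (ht : ∀ p ∈ t, p.Prime) (hs : ∀ p ∈ t, ¬ (p : ℤ) ∣ s) :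
    ∃ c : ℕ, (Q.filter (fun q' : ℕ => ∀ p ∈ t, (p : ℤ) ∣ s * (q' : ℤ) - s' * (q : ℤ))).card ≤
      (Q.filter (fun q' => q' % (∏ p ∈ t, p) = c % (∏ p ∈ t, p))).card := by
  by_cases h : ∃ c ∈ Q, ∀ p ∈ t, (p : ℤ) ∣ s * (c : ℤ) - s' * (q : ℤ)
  · obtain ⟨c, hc, hcd⟩ := h
    refine ⟨c, Finset.card_le_card fun q' hq' => ?_⟩
    obtain ⟨h1, h2⟩ := Finset.mem_filter.mp hq'
    refine Finset.mem_filter.mpr ⟨h1, ?_⟩
    have h3 : ((∏ p ∈ t, p : ℕ) : ℤ) ∣ (q' : ℤ) - c := by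
      have h4 : ∀ p ∈ t, (p : ℤ) ∣ (q' : ℤ) - c := by
        intro p hp
        have h5 := dvd_sub (h2 p hp) (hcd p hp)
        have h6 : s * (q' : ℤ) - s' * (q : ℤ) - (s * (c : ℤ) - s' * (q : ℤ)) = s * ((q' : ℤ) - c) := by ring
        rw [h6] at h5
        rcases (Nat.prime_iff_prime_int.mp (ht p hp)).dvd_or_dvd h5 with h7 | h7
        · exact absurd h7 (hs p hp)
        · exact h7
      have h8 : (∏ p ∈ t, p) ∣ ((q' : ℤ) - c).natAbs := by
        refine Finset.prod_primes_dvd _ (fun p hp => (ht p hp).prime) fun p hp => ?_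
        exact Int.natCast_dvd.mp (h4 p hp)
      exact Int.natCast_dvd.mpr h8
    have h9 : (c : ℤ) ≡ (q' : ℤ) [ZMOD ((∏ p ∈ t, p : ℕ) : ℤ)] := (Int.modEq_iff_dvd).mpr h3
    exact ((Int.natCast_modEq_iff).mp h9).symm
  · refine ⟨0, ?_⟩
    push Not at h
    have h1 : Q.filter (fun q' : ℕ => ∀ p ∈ t, (p : ℤ) ∣ s * (q' : ℤ) - s' * (q : ℤ)) = ∅ := by
      refine Finset.filter_eq_empty_iff.mpr fun q' hq' hall => ?_
      obtain ⟨p, hp, hnd⟩ := h q' hq'
      exact hnd (hall p hp)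
    rw [h1]; simp

end AVG1M

open AVG1M in
/-- AVG1. -/
theorem specAVG1 (hBT : SpecBT) : SpecAVG1 := by
  intro A η s s' hA hη hs hs'
  obtain ⟨C, hC, hB⟩ := hBT
  -- the choice of P0
  obtain ⟨P1, hP1⟩ : ∃ P1 : ℕ, 1 ≤ P1 ∧ C * (Real.exp (A / P1) - 1) ≤ η / 2 := by
    have h1 : Filter.Tendsto (fun n : ℕ => C * (Real.exp (A / (n : ℝ)) - 1)) Filter.atTop (nhds (C * (Real.exp 0 - 1))) := by
      have h2 : Filter.Tendsto (fun n : ℕ => A / (n : ℝ)) Filter.atTop (nhds 0) :=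
        tendsto_const_div_atTop_nhds_zero_nat A
      exact ((Real.continuous_exp.tendsto 0).comp h2 |>.sub_const 1).const_mul C
    rw [Real.exp_zero, sub_self, mul_zero] at h1
    have h3 := (h1.eventually (gt_mem_nhds (show (0 : ℝ) < η / 2 by positivity))).and (Filter.eventually_ge_atTop 1)
    obtain ⟨n, hn⟩ := h3.exists
    exact ⟨n, hn.2, hn.1.le⟩
  obtain ⟨P2, hP2⟩ := exists_nat_ge ((1 + A) ^ 8)
  refine ⟨P1 + P2 + s.natAbs, fun M hM1 hM => ?_⟩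
  set P0 : ℕ := P1 + P2 + s.natAbs with hP0
  have hP01 : 1 ≤ P0 := by omega
  have hP08 : (1 + A) ^ 8 ≤ (P0 : ℝ) := hP2.trans (by exact_mod_cast (by omega : P2 ≤ P0))
  have hexp : C * (Real.exp (A / P0) - 1) ≤ η / 2 := by
    refine le_trans ?_ hP1.2
    have h1 : (P1 : ℝ) ≤ P0 := by exact_mod_cast (by omega : P1 ≤ P0)
    have h2 : (0 : ℝ) < P1 := by exact_mod_cast hP1.1
    have h3 : A / (P0 : ℝ) ≤ A / P1 := by gcongr
    have h4 := Real.exp_le_exp.mpr h3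
    exact mul_le_mul_of_nonneg_left (by linarith) hC.le
  obtain ⟨j1, hj1⟩ := hB M hM1
  -- j large
  set K : ℝ := (s.natAbs : ℝ) + s'.natAbs with hK
  have hK1 : 1 ≤ K := by
    have : (1 : ℝ) ≤ s.natAbs := by exact_mod_cast Int.natAbs_pos.mpr hs
    have h2 : (0 : ℝ) ≤ s'.natAbs := Nat.cast_nonneg _
    linarith
  obtain ⟨j2, hj2⟩ : ∃ j2 : ℕ, ∀ j : ℕ, j2 ≤ j → K * 2 ^ (j + 1) ≤ (η / 2) ^ 8 * (2 : ℝ) ^ (4 * j) := by
    obtain ⟨n, hn⟩ := pow_unbounded_of_one_lt (2 * K / (η / 2) ^ 8) (one_lt_two : (1 : ℝ) < 2)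
    refine ⟨n, fun j hj => ?_⟩
    have h1 : (2 : ℝ) ^ n ≤ 2 ^ (3 * j) := pow_le_pow_right₀ one_le_two (by omega)
    have h2 : 0 < (η / 2) ^ 8 := by positivity
    have h3 : 2 * K ≤ (η / 2) ^ 8 * 2 ^ (3 * j) := by
      have h4 := hn.le.trans h1
      rw [div_le_iff₀ h2] at h4
      linarith
    calc K * 2 ^ (j + 1) = 2 * K * 2 ^ j := by rw [pow_succ]; ring
      _ ≤ (η / 2) ^ 8 * 2 ^ (3 * j) * 2 ^ j := mul_le_mul_of_nonneg_right h3 (by positivity)
      _ = (η / 2) ^ 8 * (2 : ℝ) ^ (4 * j) := by rw [mul_assoc, ← pow_add]; congr 2; ring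
  refine ⟨j1 + j2, fun j hj q hq => ?_⟩
  set B : ℝ := Real.sqrt (2 ^ j) with hBdef
  have hB0 : 0 < B := Real.sqrt_pos.mpr (by positivity)
  have hB2 : B ^ 2 = 2 ^ j := Real.sq_sqrt (by positivity)
  have hB8 : B ^ 8 = (2 : ℝ) ^ (4 * j) := by
    calc B ^ 8 = (B ^ 2) ^ 4 := by ring
      _ = (2 : ℝ) ^ (4 * j) := by rw [hB2, ← pow_mul]; congr 1; ring
  set N : ℕ → ℤ := fun q' => s * (q' : ℤ) - s' * (q : ℤ) with hN
  -- the large sets
  have hlarge : ∀ q' ∈ blk M j, (1 + A) ^ (Pn M (N q')).card / B ≤ η / 2 := by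
    intro q' hq'
    rw [div_le_iff₀ hB0]
    refine le_of_pow_le_pow_left₀ (n := 8) (by norm_num) (by positivity) ?_
    rw [mul_pow, hB8]
    refine (pow_card_le A hA M P0 (N q') hP08 hM).trans (le_trans ?_ (hj2 j (by omega)))
    have hq1 : (q : ℝ) ≤ 2 ^ (j + 1) := by
      have := (Finset.mem_Ioc.mp (Finset.mem_filter.mp hq).1).2
      exact_mod_cast this
    have hq2 : (q' : ℝ) ≤ 2 ^ (j + 1) := by
      have := (Finset.mem_Ioc.mp (Finset.mem_filter.mp hq').1).2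
      exact_mod_cast this
    refine max_le ?_ ?_
    · have : (1 : ℝ) ≤ 2 ^ (j + 1) := one_le_pow₀ one_le_two
      nlinarith
    · have h1 : (N q').natAbs ≤ s.natAbs * q' + s'.natAbs * q := by
        calc (N q').natAbs ≤ (s * (q' : ℤ)).natAbs + (s' * (q : ℤ)).natAbs := Int.natAbs_sub_le _ _
          _ = _ := by rw [Int.natAbs_mul, Int.natAbs_mul, Int.natAbs_natCast, Int.natAbs_natCast]
      have h2 : ((N q').natAbs : ℝ) ≤ s.natAbs * q' + s'.natAbs * q := by exact_mod_cast h1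
      refine h2.trans ?_
      rw [hK, add_mul]
      gcongr
  -- each term
  set T : Finset (Finset ℕ) := ((Pr M (2 ^ j)).powerset.erase ∅).filter (fun t => (((∏ p ∈ t, p : ℕ) : ℝ) ≤ B)) with hT
  have hterm : ∀ q' ∈ blk M j, hh A M (N q') - 1 ≤
      ∑ t ∈ T, (if ∀ p ∈ t, (p : ℤ) ∣ N q' then g A t else 0) + η / 2 := by
    intro q' hq'
    rw [hh_sub_one, ← Finset.sum_filter_add_sum_filter_not _ (fun t : Finset ℕ => (((∏ p ∈ t, p : ℕ) : ℝ) ≤ B))]
    refine add_le_add ?_ ((large_part A B hA hB0 M (N q')).trans (hlarge q' hq'))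
    rw [← Finset.sum_filter]
    refine Finset.sum_le_sum_of_subset_of_nonneg ?_ (fun t _ _ => g_nonneg hA t)
    intro t ht
    obtain ⟨h1, h2⟩ := Finset.mem_filter.mp ht
    obtain ⟨h3, h4⟩ := Finset.mem_erase.mp h1
    have h5 := Finset.mem_powerset.mp h4
    refine Finset.mem_filter.mpr ⟨Finset.mem_filter.mpr ⟨Finset.mem_erase.mpr ⟨h3, ?_⟩, h2⟩, ?_⟩
    · refine Finset.mem_powerset.mpr fun p hp => mem_Pr.mpr ?_
      have h6 := mem_Pn (h5 hp)
      refine ⟨?_, h6.1, h6.2.2.1⟩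
      have h7 : p ≤ ∏ p ∈ t, p := Nat.le_of_dvd
        (Finset.prod_pos fun p hp => (mem_Pn (h5 hp)).1.pos) (Finset.dvd_prod_of_mem (fun p => p) hp)
      have h8 : (p : ℝ) ≤ B := le_trans (by exact_mod_cast h7) h2
      have h9 : B ≤ 2 ^ j := by
        have h10 : (1 : ℝ) ≤ B := by
          rw [hBdef]; exact Real.one_le_sqrt.mpr (one_le_pow₀ one_le_two)
        calc B ≤ B ^ 2 := by nlinarith
          _ = 2 ^ j := hB2
      exact_mod_cast h8.trans h9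
    · intro p hp
      exact (mem_Pn (h5 hp)).2.1
  -- the count for each small set
  have hcount : ∀ t ∈ T, ((((blk M j).filter (fun q' => ∀ p ∈ t, (p : ℤ) ∣ N q')).card : ℝ)) ≤
      C * (blk M j).card / (Nat.totient (∏ p ∈ t, p) : ℝ) := by
    intro t ht
    obtain ⟨h1, h2⟩ := Finset.mem_filter.mp ht
    obtain ⟨h3, h4⟩ := Finset.mem_erase.mp h1
    have h5 : ∀ p ∈ t, p ≤ 2 ^ j ∧ p.Prime ∧ ¬ p ∣ M := fun p hp => mem_Pr.mp (Finset.mem_powerset.mp h4 hp)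
    obtain ⟨c, hc⟩ := count_le (blk M j) s s' q t (fun p hp => (h5 p hp).2.1) (fun p hp hdv => by
      have h6 := hM p (h5 p hp).2.1 (h5 p hp).2.2
      have h7 := Nat.le_of_dvd (Int.natAbs_pos.mpr hs) (Int.natCast_dvd.mp hdv)
      omega)
    have h8 : 1 ≤ ∏ p ∈ t, p := Finset.prod_pos fun p hp => (h5 p hp).2.1.pos
    have h9 : (∏ p ∈ t, p) ^ 2 ≤ 2 ^ j := by
      have h10 : (((∏ p ∈ t, p : ℕ) : ℝ)) ^ 2 ≤ B ^ 2 := pow_le_pow_left₀ (by positivity) h2 2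
      rw [hB2] at h10
      exact_mod_cast h10
    have h11 : Nat.Coprime (∏ p ∈ t, p) M :=
      Nat.Coprime.prod_left fun p hp => ((h5 p hp).2.1.coprime_iff_not_dvd).mpr (h5 p hp).2.2
    have h12 := hj1 j (by omega) (∏ p ∈ t, p) c h8 h9 h11
    refine le_trans ?_ h12
    exact_mod_cast hc
  -- summation
  calc ∑ q' ∈ (blk M j).erase q, (hh A M (s * (q' : ℤ) - s' * (q : ℤ)) - 1)
      ≤ ∑ q' ∈ blk M j, (∑ t ∈ T, (if ∀ p ∈ t, (p : ℤ) ∣ N q' then g A t else 0) + η / 2) := by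
        refine (Finset.sum_le_sum fun q' hq' => hterm q' (Finset.mem_of_mem_erase hq')).trans ?_
        refine Finset.sum_le_sum_of_subset_of_nonneg (Finset.erase_subset _ _) fun q' _ _ => ?_
        refine add_nonneg (Finset.sum_nonneg fun t _ => ?_) (by positivity)
        split_ifs
        · exact g_nonneg hA t
        · exact le_rfl
    _ = ∑ t ∈ T, g A t * ((blk M j).filter (fun q' => ∀ p ∈ t, (p : ℤ) ∣ N q')).card + (blk M j).card * (η / 2) := by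
        rw [Finset.sum_add_distrib, Finset.sum_const, nsmul_eq_mul, Finset.sum_comm]
        congr 1
        refine Finset.sum_congr rfl fun t _ => ?_
        rw [← Finset.sum_filter, Finset.sum_const, nsmul_eq_mul, mul_comm]
    _ ≤ ∑ t ∈ T, g A t * (C * (blk M j).card / (Nat.totient (∏ p ∈ t, p) : ℝ)) + (blk M j).card * (η / 2) := by
        refine add_le_add (Finset.sum_le_sum fun t ht => ?_) le_rfl
        exact mul_le_mul_of_nonneg_left (hcount t ht) (g_nonneg hA t)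
    _ = C * (blk M j).card * ∑ t ∈ T, g A t / (Nat.totient (∏ p ∈ t, p) : ℝ) + (blk M j).card * (η / 2) := by
        rw [Finset.mul_sum]
        congr 1
        refine Finset.sum_congr rfl fun t _ => ?_
        ring
    _ ≤ C * (blk M j).card * (Real.exp (A / P0) - 1) + (blk M j).card * (η / 2) := by
        refine add_le_add (mul_le_mul_of_nonneg_left ?_ (by positivity)) le_rfl
        refine le_trans ?_ (small_sum A hA M P0 (2 ^ j) hP01 hM)
        refine Finset.sum_le_sum_of_subset_of_nonneg (Finset.filter_subset _ _) fun t _ _ => ?_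
        exact div_nonneg (g_nonneg hA t) (Nat.cast_nonneg _)
    _ = (C * (Real.exp (A / P0) - 1) + η / 2) * (blk M j).card := by ring
    _ ≤ η * (blk M j).card := by
        refine mul_le_mul_of_nonneg_right ?_ (Nat.cast_nonneg _)
        linarith

end Pool.Agent.Lib.MP_3efbeb_nt.DL
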