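import Pool.Agent.Lib.MP_3efbeb_nt.DL.BLK
import Pool.Agent.Lib.MP_391708_nt.QPA.Selb

/-!
# MP_3efbeb_nt, DL, module BT (helper15): Brun-Titchmarsh in a dyadic block of primes `q = 1 (mod M)`
-/

set_option autoImplicit false

namespace Pool.Agent.Lib.MP_3efbeb_nt.DL

open Finset Filter Topology
open scoped Classical

namespace BTM

/-- the class mod `M d` -/
lemma sub_block (M j d c : ℕ) (hM : 1 ≤ M) (hd : 1 ≤ d) (hc : Nat.Coprime d M) (hj : 1 ≤ j) :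
    ∃ c' : ℕ, (blk M j).filter (fun q => q % d = c % d) ⊆
      (Ioc (2 ^ j) (2 ^ j + 2 ^ j)).filter (fun u => u % (M * d) = c' ∧
        MP391708.QPA.Rough (((2 : ℝ) ^ (j / 8)) + 1) u) := by
  obtain ⟨v, hv1, hv2⟩ := Nat.chineseRemainder hc.symm 1 c
  refine ⟨v % (M * d), ?_⟩
  intro q hq
  unfold blk at hq
  simp only [mem_filter, mem_Ioc] at hq
  obtain ⟨⟨⟨h1, h2⟩, h3, h4⟩, h5⟩ := hq
  rw [mem_filter, mem_Ioc]
  refine ⟨⟨h1, by rw [pow_succ] at h2; omega⟩, ?_, ?_⟩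
  · have e1 : q ≡ v [MOD M] := Nat.ModEq.trans h4 hv1.symm
    have e2 : q ≡ v [MOD d] := Nat.ModEq.trans h5 hv2.symm
    exact (Nat.modEq_and_modEq_iff_modEq_mul hc.symm).1 ⟨e1, e2⟩
  · intro p hp hpq
    have hpe : p = q := (Nat.prime_dvd_prime_iff_eq hp h3).1 hpq
    subst hpe
    have h6 : 2 ^ (j / 8) < 2 ^ j := Nat.pow_lt_pow_right (by norm_num) (by omega)
    have h7 : 2 ^ (j / 8) + 1 ≤ p := by omega
    exact_mod_cast h7

lemma log_lower (j : ℕ) (hj : 8 ≤ j) : (j : ℝ) / 32 ≤ Real.log ((2 : ℝ) ^ (j / 8)) := by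
  rw [Real.log_pow]
  have h1 : (j : ℝ) ≤ 16 * ((j / 8 : ℕ) : ℝ) := by
    have : j ≤ 16 * (j / 8) := by omega
    exact_mod_cast this
  have h2 : (1 : ℝ) / 2 ≤ Real.log 2 := by
    have := Real.log_two_gt_d9
    linarith
  have h3 : (0 : ℝ) ≤ ((j / 8 : ℕ) : ℝ) := Nat.cast_nonneg _
  nlinarith

/-- `(2 K j)^4 ≤ 2^j` for large `j` -/
lemma pow_large (K : ℝ) (hK : 0 < K) : ∃ j0 : ℕ, ∀ j : ℕ, j0 ≤ j → (2 * K * j) ^ 4 ≤ (2 : ℝ) ^ j := by
  have h1 : Tendsto (fun j : ℕ => ((j : ℝ) ^ 4) / (2 : ℝ) ^ j) atTop (𝓝 0) := by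
    have := tendsto_pow_const_div_const_pow_of_one_lt 4 (show (1 : ℝ) < 2 by norm_num)
    exact this
  have h2 : (0 : ℝ) < 1 / (2 * K) ^ 4 := by positivity
  obtain ⟨j0, hj0⟩ := eventually_atTop.1 (h1.eventually_lt_const h2)
  refine ⟨j0, fun j hj => ?_⟩
  have h3 := hj0 j hj
  rw [div_lt_div_iff₀ (by positivity) (by positivity)] at h3
  rw [mul_pow]
  nlinarith

end BTM

open BTM in
/-- BT. -/
theorem specBT : SpecBT := by
  obtain ⟨C, hC, hB⟩ := MP391708.QPA.specBT MP391708.QPA.specSELB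
  refine ⟨65 * C, by positivity, fun M hM => ?_⟩
  have hφ := BLKM.tot_pos hM
  obtain ⟨j1, hj1⟩ := specBLK M hM
  obtain ⟨j2, hj2⟩ := pow_large (M.totient : ℝ) hφ
  refine ⟨max (max j1 j2) 8, fun j hj d c hd hdj hcop => ?_⟩
  have hja : j1 ≤ j := (le_max_left _ _).trans ((le_max_left _ _).trans hj)
  have hjb : j2 ≤ j := (le_max_right _ _).trans ((le_max_left _ _).trans hj)
  have hjc : 8 ≤ j := (le_max_right _ _).trans hj
  have hjR : (0 : ℝ) < j := by exact_mod_cast (by omega : 0 < j)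
  have hd0 : (0 : ℝ) < d := by exact_mod_cast hd
  have hφd : (0 : ℝ) < (d.totient : ℝ) := by exact_mod_cast Nat.totient_pos.2 (by omega)
  have hblk := hj1 j hja
  set N : ℝ := ((blk M j).card : ℝ) with hN
  have h2j : (0 : ℝ) < (2 : ℝ) ^ j := by positivity
  obtain ⟨c', hc'⟩ := sub_block M j d c hM hd hcop (by omega)
  have hcard := card_le_card hc'
  have hcardR : (((blk M j).filter (fun q => q % d = c % d)).card : ℝ) ≤
      (((Ioc (2 ^ j) (2 ^ j + 2 ^ j)).filter (fun u => u % (M * d) = c' ∧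
        MP391708.QPA.Rough (((2 : ℝ) ^ (j / 8)) + 1) u)).card : ℝ) := by exact_mod_cast hcard
  have hy2 : (2 : ℝ) ≤ (2 : ℝ) ^ (j / 8) := by
    calc (2 : ℝ) = 2 ^ 1 := by norm_num
      _ ≤ 2 ^ (j / 8) := pow_le_pow_right₀ (by norm_num) (by omega)
  have hmain := hB ((2 : ℝ) ^ (j / 8)) ((2 : ℝ) ^ (j / 8) + 1) (M * d) c' (2 ^ j) (2 ^ j) hy2
    (by linarith) (Nat.mul_pos hM hd)
  refine hcardR.trans (hmain.trans ?_)
  have hlog := log_lower j hjc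
  have hlog0 : 0 < Real.log ((2 : ℝ) ^ (j / 8)) := lt_of_lt_of_le (by positivity) hlog
  rw [Nat.totient_mul hcop.symm]
  push_cast
  -- first term
  have h1 : C * (2 : ℝ) ^ j / ((M.totient : ℝ) * (d.totient : ℝ) * Real.log ((2 : ℝ) ^ (j / 8))) ≤
      64 * C * N / (d.totient : ℝ) := by
    have h2 : (2 : ℝ) ^ j ≤ N * (2 * (M.totient : ℝ) * j) := by
      rwa [div_le_iff₀ (by positivity)] at hblk
    rw [div_le_div_iff₀ (by positivity) hφd]
    have hN0 : 0 ≤ N := Nat.cast_nonneg _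
    have h3 : (2 : ℝ) ^ j ≤ 64 * N * (M.totient : ℝ) * Real.log ((2 : ℝ) ^ (j / 8)) := by
      calc (2 : ℝ) ^ j ≤ N * (2 * (M.totient : ℝ) * j) := h2
        _ = 64 * N * (M.totient : ℝ) * ((j : ℝ) / 32) := by ring
        _ ≤ 64 * N * (M.totient : ℝ) * Real.log ((2 : ℝ) ^ (j / 8)) := by
          apply mul_le_mul_of_nonneg_left hlog (by positivity)
    calc C * (2 : ℝ) ^ j * (d.totient : ℝ) = (C * (d.totient : ℝ)) * (2 : ℝ) ^ j := by ring
      _ ≤ (C * (d.totient : ℝ)) * (64 * N * (M.totient : ℝ) * Real.log ((2 : ℝ) ^ (j / 8))) := by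
        apply mul_le_mul_of_nonneg_left h3 (by positivity)
      _ = 64 * C * N * ((M.totient : ℝ) * (d.totient : ℝ) * Real.log ((2 : ℝ) ^ (j / 8))) := by ring
  -- second term
  have h4 : C * ((2 : ℝ) ^ (j / 8)) ^ 2 ≤ C * N / (d.totient : ℝ) := by
    rw [le_div_iff₀ hφd]
    have h5 : ((2 : ℝ) ^ (j / 8)) ^ 2 * (d.totient : ℝ) ≤ N := by
      have h6 : ((2 : ℝ) ^ j / (2 * (M.totient : ℝ) * j)) ≤ N := hblk
      refine le_trans ?_ h6
      rw [le_div_iff₀ (by positivity)]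
      refine le_of_pow_le_pow_left₀ (n := 4) (by norm_num) (by positivity) ?_
      have h7 : (d.totient : ℝ) ≤ d := by exact_mod_cast Nat.totient_le d
      have h8 : ((d : ℝ)) ^ 2 ≤ (2 : ℝ) ^ j := by exact_mod_cast hdj
      have h9 : (((2 : ℝ) ^ (j / 8)) ^ 8) ≤ (2 : ℝ) ^ j := by
        rw [← pow_mul]
        exact pow_le_pow_right₀ (by norm_num) (by omega)
      have h10 := hj2 j hjb
      have h11 : (d.totient : ℝ) ^ 4 ≤ ((2 : ℝ) ^ j) ^ 2 := by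
        calc (d.totient : ℝ) ^ 4 ≤ (d : ℝ) ^ 4 := pow_le_pow_left₀ hφd.le h7 4
          _ = ((d : ℝ) ^ 2) ^ 2 := by ring
          _ ≤ ((2 : ℝ) ^ j) ^ 2 := pow_le_pow_left₀ (by positivity) h8 2
      calc (((2 : ℝ) ^ (j / 8)) ^ 2 * (d.totient : ℝ) * (2 * (M.totient : ℝ) * j)) ^ 4
          = (((2 : ℝ) ^ (j / 8)) ^ 8) * ((d.totient : ℝ) ^ 4) * (2 * (M.totient : ℝ) * j) ^ 4 := by ring
        _ ≤ ((2 : ℝ) ^ j) * (((2 : ℝ) ^ j) ^ 2) * ((2 : ℝ) ^ j) := by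
          apply mul_le_mul _ h10 (by positivity) (by positivity)
          exact mul_le_mul h9 h11 (by positivity) (by positivity)
        _ = ((2 : ℝ) ^ j) ^ 4 := by ring
    calc C * ((2 : ℝ) ^ (j / 8)) ^ 2 * (d.totient : ℝ) = C * (((2 : ℝ) ^ (j / 8)) ^ 2 * (d.totient : ℝ)) := by ring
      _ ≤ C * N := mul_le_mul_of_nonneg_left h5 hC.le
  have h12 : 64 * C * N / (d.totient : ℝ) + C * N / (d.totient : ℝ) = 65 * C * N / (d.totient : ℝ) := by
    field_simp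
    ring
  calc _ ≤ 64 * C * N / (d.totient : ℝ) + C * N / (d.totient : ℝ) := add_le_add h1 h4
    _ = 65 * C * N / (d.totient : ℝ) := h12

end Pool.Agent.Lib.MP_3efbeb_nt.DL
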