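import Pool.Agent.Lib.MP_3efbeb_nt.DL.Spec

/-!
# C1, C2: counts of rough tuples, from CNT
-/

set_option autoImplicit false

namespace Pool.Agent.Lib.MP_3efbeb_nt.DL

open Finset
open scoped Classical

namespace C12M

/-- the number of roots is the number of distinct `-c/a` -/
lemma nu_eq {k : ℕ} (a c : Fin k → ℤ) (p : ℕ) [Fact p.Prime] (ha : ∀ i, ¬ (p : ℤ) ∣ a i) :
    nu a c p = (univ.image (fun i => -(c i : ZMod p) / (a i : ZMod p))).card := by
  unfold nu
  have ha' : ∀ i, (a i : ZMod p) ≠ 0 := fun i h => ha i ((ZMod.intCast_zmod_eq_zero_iff_dvd _ _).mp h)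
  refine Finset.card_bij (fun (y : ℕ) _ => (y : ZMod p)) ?_ ?_ ?_
  · intro y hy
    obtain ⟨-, i, hi⟩ := Finset.mem_filter.mp hy
    refine Finset.mem_image.mpr ⟨i, Finset.mem_univ _, ?_⟩
    have h := (ZMod.intCast_zmod_eq_zero_iff_dvd _ _).mpr hi
    push_cast at h
    rw [div_eq_iff (ha' i)]
    linear_combination -h
  · intro y hy y' hy' h
    have h1 := Finset.mem_range.mp (Finset.mem_filter.mp hy).1
    have h2 := Finset.mem_range.mp (Finset.mem_filter.mp hy').1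
    have h3 := (ZMod.natCast_eq_natCast_iff' y y' p).mp h
    rwa [Nat.mod_eq_of_lt h1, Nat.mod_eq_of_lt h2] at h3
  · intro u hu
    obtain ⟨i, -, hi⟩ := Finset.mem_image.mp hu
    refine ⟨u.val, Finset.mem_filter.mpr ⟨Finset.mem_range.mpr (ZMod.val_lt u), i, ?_⟩, ZMod.natCast_zmod_val u⟩
    rw [← ZMod.intCast_zmod_eq_zero_iff_dvd]
    push_cast
    rw [ZMod.natCast_zmod_val u, ← hi]
    field_simp [ha' i]
    ring

/-- the coefficients of the forms `y`, `d y + s` -/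
noncomputable def a1 (S : Finset ℤ) (d : ℕ) : Fin (S.card + 1) → ℤ := Fin.cons 1 (fun _ => (d : ℤ))

/-- the constants of the forms `y`, `d y + s` -/
noncomputable def c1 (S : Finset ℤ) : Fin (S.card + 1) → ℤ := Fin.cons 0 (fun i => (S.equivFin.symm i : ℤ))

lemma forall_equivFin (S : Finset ℤ) (P : ℤ → Prop) : (∀ i, P (S.equivFin.symm i : ℤ)) ↔ ∀ s ∈ S, P s := by
  constructor
  · intro h s hs
    have := h (S.equivFin ⟨s, hs⟩)
    simpa using this
  · intro h i
    exact h _ (S.equivFin.symm i).2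

lemma forall_rgh1 (M z : ℕ) (S : Finset ℤ) (d y : ℕ) :
    (∀ i, Rgh M z (a1 S d i * (y : ℤ) + c1 S i)) ↔ (Rgh M z y ∧ cq M z S d y) := by
  rw [Fin.forall_fin_succ]
  simp only [a1, c1, Fin.cons_zero, Fin.cons_succ, one_mul, add_zero]
  exact and_congr_right fun _ => forall_equivFin S (fun s => Rgh M z ((d : ℤ) * y + s))

lemma W1_eq (M r z : ℕ) (S : Finset ℤ) (d Y : ℕ) :
    W1 M r z S d Y = (Icc 1 Y).filter (fun y : ℕ => y % M = r % M ∧ ∀ i, Rgh M z (a1 S d i * (y : ℤ) + c1 S i)) := by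
  unfold W1
  refine Finset.filter_congr fun y _ => ?_
  rw [forall_rgh1]

/-- all roots are different -/
lemma nu_C1 (S : Finset ℤ) (d p : ℕ) (hp : p.Prime) (hd : ¬ (p : ℤ) ∣ d) (h1 : ∀ s ∈ S, ¬ (p : ℤ) ∣ s)
    (h2 : ∀ s ∈ S, ∀ s' ∈ S, s ≠ s' → ¬ (p : ℤ) ∣ s - s') : nu (a1 S d) (c1 S) p = S.card + 1 := by
  have := Fact.mk hp
  have ha : ∀ i, ¬ (p : ℤ) ∣ a1 S d i := by
    rw [Fin.forall_fin_succ]
    refine ⟨?_, fun i => ?_⟩
    · simp only [a1, Fin.cons_zero]
      intro h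
      exact hp.one_lt.ne' (by exact_mod_cast Int.eq_one_of_dvd_one (by positivity) h)
    · simpa only [a1, Fin.cons_succ] using hd
  rw [nu_eq _ _ _ ha, Finset.card_image_of_injective, Finset.card_univ, Fintype.card_fin]
  have hd0 : ((d : ℤ) : ZMod p) ≠ 0 := fun h => hd ((ZMod.intCast_zmod_eq_zero_iff_dvd _ _).mp h)
  have hs0 : ∀ i : Fin S.card, ((S.equivFin.symm i : ℤ) : ZMod p) ≠ 0 := fun i h =>
    h1 _ (S.equivFin.symm i).2 ((ZMod.intCast_zmod_eq_zero_iff_dvd _ _).mp h)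
  intro i j
  refine Fin.cases ?_ (fun i => ?_) i <;> refine Fin.cases ?_ (fun j => ?_) j
  · intro _; rfl
  · intro h
    exfalso
    simp only [a1, c1, Fin.cons_zero, Fin.cons_succ] at h
    have h3 : -((S.equivFin.symm j : ℤ) : ZMod p) / ((d : ℤ) : ZMod p) = 0 := by
      rw [← h]; simp
    rcases div_eq_zero_iff.mp h3 with h4 | h4
    · exact hs0 j (neg_eq_zero.mp h4)
    · exact hd0 h4
  · intro h
    exfalso
    simp only [a1, c1, Fin.cons_zero, Fin.cons_succ] at h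
    have h3 : -((S.equivFin.symm i : ℤ) : ZMod p) / ((d : ℤ) : ZMod p) = 0 := by
      rw [h]; simp
    rcases div_eq_zero_iff.mp h3 with h4 | h4
    · exact hs0 i (neg_eq_zero.mp h4)
    · exact hd0 h4
  · intro h
    simp only [a1, c1, Fin.cons_succ] at h
    have h3 : ((S.equivFin.symm i : ℤ) : ZMod p) = ((S.equivFin.symm j : ℤ) : ZMod p) := by
      have := (div_left_inj' hd0).mp h
      exact neg_injective this
    have h4 : (S.equivFin.symm i : ℤ) = (S.equivFin.symm j : ℤ) := by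
      by_contra hne
      apply h2 _ (S.equivFin.symm i).2 _ (S.equivFin.symm j).2 hne
      rw [← ZMod.intCast_zmod_eq_zero_iff_dvd]
      push_cast
      rw [h3]; ring
    have h5 : i = j := S.equivFin.symm.injective (Subtype.ext h4)
    rw [h5]

/-! ### two multipliers -/

/-- the coefficients of the forms `y`, `d y + s`, `d' y + s` -/
noncomputable def a2 (S : Finset ℤ) (d d' : ℕ) : Fin (S.card + S.card + 1) → ℤ :=
  Fin.cons 1 (Fin.append (fun _ : Fin S.card => (d : ℤ)) (fun _ : Fin S.card => (d' : ℤ)))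

/-- the constants of the forms `y`, `d y + s`, `d' y + s` -/
noncomputable def c2 (S : Finset ℤ) : Fin (S.card + S.card + 1) → ℤ :=
  Fin.cons 0 (Fin.append (fun i : Fin S.card => (S.equivFin.symm i : ℤ)) (fun i : Fin S.card => (S.equivFin.symm i : ℤ)))

lemma forall_append {n m : ℕ} (P : Fin (n + m) → Prop) :
    (∀ i, P i) ↔ (∀ i : Fin n, P (Fin.castAdd m i)) ∧ ∀ i : Fin m, P (Fin.natAdd n i) := by
  constructor
  · intro h; exact ⟨fun i => h _, fun i => h _⟩
  · rintro ⟨h1, h2⟩ i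
    exact Fin.addCases h1 h2 i

lemma forall_rgh2 (M z : ℕ) (S : Finset ℤ) (d d' y : ℕ) :
    (∀ i, Rgh M z (a2 S d d' i * (y : ℤ) + c2 S i)) ↔ (Rgh M z y ∧ cq M z S d y ∧ cq M z S d' y) := by
  rw [Fin.forall_fin_succ, forall_append]
  simp only [a2, c2, Fin.cons_zero, Fin.cons_succ, one_mul, add_zero, Fin.append_left, Fin.append_right]
  exact and_congr_right fun _ => and_congr (forall_equivFin S (fun s => Rgh M z ((d : ℤ) * y + s)))
    (forall_equivFin S (fun s => Rgh M z ((d' : ℤ) * y + s)))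

lemma W2_eq (M r z : ℕ) (S : Finset ℤ) (d d' Y : ℕ) :
    W2 M r z S d d' Y =
      (Icc 1 Y).filter (fun y : ℕ => y % M = r % M ∧ ∀ i, Rgh M z (a2 S d d' i * (y : ℤ) + c2 S i)) := by
  unfold W2
  refine Finset.filter_congr fun y _ => ?_
  rw [forall_rgh2]

lemma a2_unit (S : Finset ℤ) (d d' p : ℕ) (hp : p.Prime) (hd : ¬ (p : ℤ) ∣ d) (hd' : ¬ (p : ℤ) ∣ d') :
    ∀ i, ¬ (p : ℤ) ∣ a2 S d d' i := by
  rw [Fin.forall_fin_succ, forall_append]
  simp only [a2, Fin.cons_zero, Fin.cons_succ, Fin.append_left, Fin.append_right]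
  refine ⟨?_, fun _ => hd, fun _ => hd'⟩
  intro h
  exact hp.one_lt.ne' (by exact_mod_cast Int.eq_one_of_dvd_one (by positivity) h)

lemma nu_C2_ge (S : Finset ℤ) (d d' p : ℕ) : nu (a1 S d) (c1 S) p ≤ nu (a2 S d d') (c2 S) p := by
  unfold nu
  refine Finset.card_le_card fun y hy => ?_
  obtain ⟨hy1, i, hi⟩ := Finset.mem_filter.mp hy
  refine Finset.mem_filter.mpr ⟨hy1, ?_⟩
  revert hi
  refine Fin.cases ?_ (fun i => ?_) i
  · intro h
    exact ⟨0, by simpa [a1, c1, a2, c2] using h⟩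
  · intro h
    exact ⟨Fin.succ (Fin.castAdd _ i), by simpa [a1, c1, a2, c2] using h⟩

lemma nu_C2_eq (S : Finset ℤ) (d d' p : ℕ) (hp : p.Prime) (hd : ¬ (p : ℤ) ∣ d) (hd' : ¬ (p : ℤ) ∣ d')
    (h1 : ∀ s ∈ S, ¬ (p : ℤ) ∣ s) (h2 : ∀ s ∈ S, ∀ s' ∈ S, s ≠ s' → ¬ (p : ℤ) ∣ s - s')
    (h3 : ¬ (p : ℤ) ∣ Del S d d') : nu (a2 S d d') (c2 S) p = S.card + S.card + 1 := by
  have := Fact.mk hp
  rw [nu_eq _ _ _ (a2_unit S d d' p hp hd hd'), Finset.card_image_of_injective, Finset.card_univ, Fintype.card_fin]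
  have hd0 : ((d : ℤ) : ZMod p) ≠ 0 := fun h => hd ((ZMod.intCast_zmod_eq_zero_iff_dvd _ _).mp h)
  have hd0' : ((d' : ℤ) : ZMod p) ≠ 0 := fun h => hd' ((ZMod.intCast_zmod_eq_zero_iff_dvd _ _).mp h)
  have hs0 : ∀ i : Fin S.card, ((S.equivFin.symm i : ℤ) : ZMod p) ≠ 0 := fun i h =>
    h1 _ (S.equivFin.symm i).2 ((ZMod.intCast_zmod_eq_zero_iff_dvd _ _).mp h)
  have hinj : ∀ i j : Fin S.card, ((S.equivFin.symm i : ℤ) : ZMod p) = ((S.equivFin.symm j : ℤ) : ZMod p) → i = j := by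
    intro i j h
    by_contra hne
    have hne' : (S.equivFin.symm i : ℤ) ≠ (S.equivFin.symm j : ℤ) := fun h4 =>
      hne (S.equivFin.symm.injective (Subtype.ext h4))
    apply h2 _ (S.equivFin.symm i).2 _ (S.equivFin.symm j).2 hne'
    rw [← ZMod.intCast_zmod_eq_zero_iff_dvd]
    push_cast
    rw [h]; ring
  have hcross : ∀ i j : Fin S.card,
      -((S.equivFin.symm i : ℤ) : ZMod p) / ((d : ℤ) : ZMod p) ≠ -((S.equivFin.symm j : ℤ) : ZMod p) / ((d' : ℤ) : ZMod p) := by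
    intro i j h
    rw [div_eq_div_iff hd0 hd0'] at h
    apply h3
    have h5 : ((S.equivFin.symm i : ℤ) * (d' : ℤ) - (S.equivFin.symm j : ℤ) * (d : ℤ)) ∣ Del S d d' := by
      unfold Del
      exact (Finset.dvd_prod_of_mem (fun s' : ℤ => (S.equivFin.symm i : ℤ) * (d' : ℤ) - s' * (d : ℤ)) (S.equivFin.symm j).2).trans
        (Finset.dvd_prod_of_mem (fun s : ℤ => ∏ s' ∈ S, (s * (d' : ℤ) - s' * (d : ℤ))) (S.equivFin.symm i).2)
    refine dvd_trans ?_ h5
    rw [← ZMod.intCast_zmod_eq_zero_iff_dvd]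
    push_cast at h ⊢
    linear_combination -h
  -- the root function
  have hr0 : ∀ j : Fin (S.card + S.card),
      -((Fin.append (fun i : Fin S.card => (S.equivFin.symm i : ℤ)) (fun i : Fin S.card => (S.equivFin.symm i : ℤ)) j : ℤ) : ZMod p) /
        ((Fin.append (fun _ : Fin S.card => (d : ℤ)) (fun _ : Fin S.card => (d' : ℤ)) j : ℤ) : ZMod p) ≠ 0 := by
    rw [forall_append]
    simp only [Fin.append_left, Fin.append_right]
    refine ⟨fun i h => ?_, fun i h => ?_⟩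
    · rcases div_eq_zero_iff.mp h with h4 | h4
      · exact hs0 i (neg_eq_zero.mp h4)
      · exact hd0 h4
    · rcases div_eq_zero_iff.mp h with h4 | h4
      · exact hs0 i (neg_eq_zero.mp h4)
      · exact hd0' h4
  intro i j
  refine Fin.cases ?_ (fun i => ?_) i <;> refine Fin.cases ?_ (fun j => ?_) j
  · intro _; rfl
  · intro h
    exfalso
    simp only [a2, c2, Fin.cons_zero, Fin.cons_succ] at h
    exact hr0 j (by rw [← h]; simp)
  · intro h
    exfalso
    simp only [a2, c2, Fin.cons_zero, Fin.cons_succ] at h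
    exact hr0 i (by rw [h]; simp)
  · simp only [a2, c2, Fin.cons_succ]
    refine Fin.addCases (fun i => ?_) (fun i => ?_) i <;> refine Fin.addCases (fun j => ?_) (fun j => ?_) j
    · simp only [Fin.append_left]
      intro h
      rw [hinj i j (neg_injective ((div_left_inj' hd0).mp h))]
    · simp only [Fin.append_left, Fin.append_right]
      intro h
      exact absurd h (hcross i j)
    · simp only [Fin.append_left, Fin.append_right]
      intro h
      exact absurd h.symm (hcross j i)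
    · simp only [Fin.append_right]
      intro h
      rw [hinj i j (neg_injective ((div_left_inj' hd0').mp h))]

lemma nu_le (k : ℕ) (a c : Fin k → ℤ) (p : ℕ) : nu a c p ≤ p := by
  unfold nu
  exact (Finset.card_filter_le _ _).trans (by simp)

/-- the local inequality, no coincidence -/
lemma local1 (k p : ℝ) (hk : 1 ≤ k) (hp : 2 * k ≤ p) :
    1 - (2 * k - 1) / p ≤ (1 - 1 / p) * ((1 - k / p) / (1 - 1 / p)) ^ 2 := by
  have hp0 : 0 < p := by linarith
  have hp1 : 1 < p := by linarith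
  have h1 : 0 < 1 - 1 / p := by
    rw [sub_pos, div_lt_one hp0]; exact hp1
  have h2 : (1 - 1 / p) * ((1 - k / p) / (1 - 1 / p)) ^ 2 = (1 - k / p) ^ 2 / (1 - 1 / p) := by
    field_simp
  rw [h2, le_div_iff₀ h1]
  have h3 : (1 - k / p) ^ 2 - (1 - (2 * k - 1) / p) * (1 - 1 / p) = (k - 1) ^ 2 / p ^ 2 := by
    field_simp; ring
  have h4 : 0 ≤ (k - 1) ^ 2 / p ^ 2 := by positivity
  linarith

/-- the local inequality in general -/
lemma local2 (k p : ℝ) (hk : 1 ≤ k) (hp : 2 * k ≤ p) :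
    1 - k / p ≤ (1 - 1 / p) * ((1 - k / p) / (1 - 1 / p)) ^ 2 * (1 + 2 * k / p) := by
  have hp0 : 0 < p := by linarith
  have hp1 : 1 < p := by linarith
  have h1 : 0 < 1 - 1 / p := by
    rw [sub_pos, div_lt_one hp0]; exact hp1
  have h2 : (1 - 1 / p) * ((1 - k / p) / (1 - 1 / p)) ^ 2 * (1 + 2 * k / p)
      = (1 - k / p) * ((1 - k / p) * (1 + 2 * k / p)) / (1 - 1 / p) := by
    field_simp
  have hk0 : 0 ≤ 1 - k / p := by
    rw [sub_nonneg, div_le_one hp0]; linarith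
  rw [h2, le_div_iff₀ h1]
  refine mul_le_mul_of_nonneg_left ?_ hk0
  have h3 : (1 - k / p) * (1 + 2 * k / p) - (1 - 1 / p) = ((k + 1) * p - 2 * k ^ 2) / p ^ 2 := by
    field_simp; ring
  have h4 : 0 ≤ ((k + 1) * p - 2 * k ^ 2) / p ^ 2 := by
    apply div_nonneg _ (by positivity)
    nlinarith
  linarith

lemma prod_le_of_subset (A B : Finset ℕ) (f : ℕ → ℝ) (hAB : A ⊆ B) (hf : ∀ p ∈ B, 1 ≤ f p) :
    ∏ p ∈ A, f p ≤ ∏ p ∈ B, f p := by
  rw [← Finset.prod_sdiff hAB]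
  have h1 : 1 ≤ ∏ p ∈ B \ A, f p := by
    have h := Finset.prod_le_prod (s := B \ A) (f := fun _ => (1 : ℝ)) (g := f) (fun _ _ => zero_le_one)
      (fun p hp => hf p (Finset.mem_sdiff.mp hp).1)
    simpa using h
  have h2 : 0 ≤ ∏ p ∈ A, f p := Finset.prod_nonneg fun p hp => zero_le_one.trans (hf p (hAB hp))
  exact le_mul_of_one_le_left h2 h1

end C12M

open C12M in
/-- C1. -/
theorem specC1 (hCNT : SpecCNT) : SpecC1 := by
  intro S
  obtain ⟨C, hC⟩ := hCNT (S.card + 1)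
  refine ⟨C, fun b M r z d Y hG hz hd => ?_⟩
  have h := hC b M r z Y (a1 S d) (c1 S) hG.1 hz (fun p hp hpM => (hG.2 p hp hpM).1.le) ?_
  · rw [← W1_eq] at h
    have h2 : ∏ p ∈ PR M z, (1 - (nu (a1 S d) (c1 S) p : ℝ) / p) = VV (S.card + 1) M z := by
      unfold VV
      refine Finset.prod_congr rfl fun p hp => ?_
      obtain ⟨hpz, hpp, hpM⟩ : p < z ∧ p.Prime ∧ ¬ p ∣ M := by
        simpa [PR] using hp
      rw [nu_C1 S d p hpp (hd p hpp hpz hpM) (hG.2 p hpp hpM).2.1 (hG.2 p hpp hpM).2.2]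
    rw [h2] at h
    exact h
  · intro p hp hpz hpM
    rw [Fin.forall_fin_succ]
    refine ⟨?_, fun i => ?_⟩
    · rintro ⟨h, -⟩
      simp only [a1, Fin.cons_zero] at h
      exact hp.one_lt.ne' (by exact_mod_cast Int.eq_one_of_dvd_one (by positivity) h)
    · rintro ⟨h, -⟩
      simp only [a1, Fin.cons_succ] at h
      exact hd p hp hpz hpM h

open C12M in
/-- C2. -/
theorem specC2 (hCNT : SpecCNT) : SpecC2 := by
  intro S
  obtain ⟨C, hC⟩ := hCNT (S.card + S.card + 1)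
  refine ⟨C, fun b M r z d d' Y hG hz hd hd' hDel => ?_⟩
  set k : ℝ := (S.card : ℝ) + 1 with hk
  have hk1 : 1 ≤ k := by rw [hk]; linarith [Nat.cast_nonneg (α := ℝ) S.card]
  have h := hC b M r z Y (a2 S d d') (c2 S) hG.1 hz
    (fun p hp hpM => by have := (hG.2 p hp hpM).1; omega) ?_
  · rw [← W2_eq] at h
    have hmem : ∀ p ∈ PR M z, p < z ∧ p.Prime ∧ ¬ p ∣ M := by
      intro p hp; simpa [PR] using hp
    have hp2k : ∀ p ∈ PR M z, 2 * k ≤ (p : ℝ) := by
      intro p hp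
      obtain ⟨_, hpp, hpM⟩ := hmem p hp
      have h1 : 2 * (S.card + 1) ≤ p := by have := (hG.2 p hpp hpM).1; omega
      have h2 : ((2 * (S.card + 1) : ℕ) : ℝ) ≤ (p : ℝ) := by exact_mod_cast h1
      push_cast at h2
      rw [hk]; exact h2
    -- the local bound
    have hloc : ∀ p ∈ PR M z, 1 - (nu (a2 S d d') (c2 S) p : ℝ) / p ≤
        (1 - 1 / (p : ℝ)) * ((1 - k / p) / (1 - 1 / (p : ℝ))) ^ 2 *
          (if (p : ℤ) ∣ Del S d d' then (1 + 2 * k / p) else 1) := by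
      intro p hp
      obtain ⟨hpz, hpp, hpM⟩ := hmem p hp
      have hpp0 : (0 : ℝ) < p := by exact_mod_cast hpp.pos
      have hnd : ¬ (p : ℤ) ∣ d := hd p hpp hpz hpM
      have hnd' : ¬ (p : ℤ) ∣ d' := hd' p hpp hpz hpM
      split_ifs with hdv
      · have h1 : S.card + 1 ≤ nu (a2 S d d') (c2 S) p := by
          rw [← nu_C1 S d p hpp hnd (hG.2 p hpp hpM).2.1 (hG.2 p hpp hpM).2.2]
          exact nu_C2_ge S d d' p
        have h2 : k ≤ (nu (a2 S d d') (c2 S) p : ℝ) := by rw [hk]; exact_mod_cast h1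
        have h3 : k / p ≤ (nu (a2 S d d') (c2 S) p : ℝ) / p := by gcongr
        linarith [local2 k p hk1 (hp2k p hp)]
      · rw [mul_one, nu_C2_eq S d d' p hpp hnd hnd' (hG.2 p hpp hpM).2.1 (hG.2 p hpp hpM).2.2 hdv]
        have h4 : ((S.card + S.card + 1 : ℕ) : ℝ) = 2 * k - 1 := by rw [hk]; push_cast; ring
        rw [h4]
        exact local1 k p hk1 (hp2k p hp)
    have hnn : ∀ p ∈ PR M z, 0 ≤ 1 - (nu (a2 S d d') (c2 S) p : ℝ) / p := by
      intro p hp
      obtain ⟨hpz, hpp, hpM⟩ := hmem p hp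
      have hpp0 : (0 : ℝ) < p := by exact_mod_cast hpp.pos
      rw [sub_nonneg, div_le_one hpp0]
      exact_mod_cast nu_le _ _ _ p
    have hprod : ∏ p ∈ PR M z, (1 - (nu (a2 S d d') (c2 S) p : ℝ) / p) ≤
        VV 1 M z * VQ S M z ^ 2 * hh (2 * (S.card + 1)) M (Del S d d') := by
      refine (Finset.prod_le_prod hnn hloc).trans ?_
      rw [Finset.prod_mul_distrib, Finset.prod_mul_distrib, Finset.prod_pow, Finset.prod_div_distrib]
      have hV1 : ∏ p ∈ PR M z, (1 - 1 / (p : ℝ)) = VV 1 M z := by unfold VV; simp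
      have hVk : ∏ p ∈ PR M z, (1 - k / (p : ℝ)) = VV (S.card + 1) M z := by
        unfold VV; rw [hk]; push_cast; rfl
      rw [hV1, hVk]
      have h0 : 0 ≤ VV 1 M z * VQ S M z ^ 2 := by
        refine mul_nonneg ?_ (sq_nonneg _)
        rw [← hV1]
        refine Finset.prod_nonneg fun p hp => ?_
        have := (hmem p hp).2.1.pos
        have h5 : (1 : ℝ) ≤ p := by exact_mod_cast this
        rw [sub_nonneg, div_le_one (by linarith)]; exact h5
      refine mul_le_mul_of_nonneg_left ?_ h0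
      rw [← Finset.prod_filter]
      unfold hh
      rw [hk]
      refine prod_le_of_subset _ _ (fun p : ℕ => 1 + 2 * ((S.card : ℝ) + 1) / (p : ℝ)) ?_ ?_
      · intro p hp
        obtain ⟨hp1, hp2⟩ := Finset.mem_filter.mp hp
        obtain ⟨hpz, hpp, hpM⟩ := hmem p hp1
        refine Finset.mem_filter.mpr ⟨Nat.mem_primeFactors.mpr ⟨hpp, ?_, ?_⟩, hpM⟩
        · exact Int.natCast_dvd.mp hp2
        · exact Int.natAbs_ne_zero.mpr hDel
      · intro p _
        have : 0 ≤ 2 * ((S.card : ℝ) + 1) / (p : ℝ) := by positivity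
        linarith
    have hexp : 0 ≤ (1 + (C : ℝ) * Real.exp (-(b : ℝ))) * ((Y : ℝ) / M) := by positivity
    have h7 := (abs_le.mp h).2
    have h8 := mul_le_mul_of_nonneg_left hprod hexp
    calc ((W2 M r z S d d' Y).card : ℝ)
        ≤ (1 + (C : ℝ) * Real.exp (-(b : ℝ))) * ((Y : ℝ) / M) *
            (∏ p ∈ PR M z, (1 - (nu (a2 S d d') (c2 S) p : ℝ) / p)) + C * (z : ℝ) ^ (C * (b + 1)) := by
          linarith
      _ ≤ _ := by linarith
  · intro p hp hpz hpM i h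
    exact a2_unit S d d' p hp (hd p hp hpz hpM) (hd' p hp hpz hpM) i h.1

end Pool.Agent.Lib.MP_3efbeb_nt.DL
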