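import Pool.Agent.Lib.MP_3efbeb_nt.DL.Spec
import Pool.Agent.Lib.MP_3efbeb_nt.DL.FLG

/-!
# MP_3efbeb_nt, DL, module CNT (helper15): the fundamental lemma for `k` linear forms in a residue class
-/

set_option autoImplicit false

namespace Pool.Agent.Lib.MP_3efbeb_nt.DL

open Finset
open scoped Classical
open Pool.Agent.Lib.MP391708.QPA (PB rInd)
open Pool.Agent.Lib.MP_3efbeb_nt.SV

namespace CNTM

variable {k : ℕ}

/-- the product of the values of the forms -/
noncomputable def Pf (a c : Fin k → ℤ) (y : ℕ) : ℤ := ∏ i, (a i * (y : ℤ) + c i)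

/-- the primes `< z`, `∤ M`, which divide a value -/
noncomputable def PD (a c : Fin k → ℤ) (M z y : ℕ) : Finset ℕ :=
  (PR M z).filter (fun p : ℕ => (p : ℤ) ∣ Pf a c y)

/-- their product -/
noncomputable def vv (a c : Fin k → ℤ) (M z y : ℕ) : ℕ := ∏ p ∈ PD a c M z y, p

lemma mem_PR {M z p : ℕ} : p ∈ PR M z ↔ p < z ∧ p.Prime ∧ ¬ p ∣ M := by
  unfold PR
  rw [mem_filter, mem_range]

lemma mem_PD {a c : Fin k → ℤ} {M z y p : ℕ} :
    p ∈ PD a c M z y ↔ (p < z ∧ p.Prime ∧ ¬ p ∣ M) ∧ (p : ℤ) ∣ Pf a c y := by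
  unfold PD
  rw [mem_filter, mem_PR]

lemma vv_ne (a c : Fin k → ℤ) (M z y : ℕ) : vv a c M z y ≠ 0 := by
  unfold vv
  rw [prod_ne_zero_iff]
  intro p hp
  exact (mem_PD.1 hp).1.2.1.ne_zero

lemma prime_dvd_vv {a c : Fin k → ℤ} {M z y p : ℕ} (hp : p.Prime) :
    p ∣ vv a c M z y ↔ p < z ∧ ¬ p ∣ M ∧ (p : ℤ) ∣ Pf a c y := by
  unfold vv
  rw [hp.prime.dvd_finsetProd_iff]
  constructor
  · rintro ⟨q, hq, hd⟩
    rw [mem_PD] at hq
    have : p = q := (Nat.prime_dvd_prime_iff_eq hp hq.1.2.1).1 hd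
    subst this
    exact ⟨hq.1.1, hq.1.2.2, hq.2⟩
  · rintro ⟨h1, h2, h3⟩
    exact ⟨p, mem_PD.2 ⟨⟨h1, hp, h2⟩, h3⟩, dvd_rfl⟩

lemma sq_dvd_nat {δ n : ℕ} (hδ : Squarefree δ) (h : ∀ p : ℕ, p.Prime → p ∣ δ → p ∣ n) :
    δ ∣ n := by
  have h1 : ∏ p ∈ δ.primeFactors, p ∣ n := by
    apply Finset.prod_primes_dvd
    · intro p hp
      exact (Nat.prime_of_mem_primeFactors hp).prime
    · intro p hp
      exact h p (Nat.prime_of_mem_primeFactors hp) (Nat.dvd_of_mem_primeFactors hp)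
  rwa [Nat.prod_primeFactors_of_squarefree hδ] at h1

lemma sq_dvd_int {δ : ℕ} {n : ℤ} (hδ : Squarefree δ)
    (h : ∀ p : ℕ, p.Prime → p ∣ δ → (p : ℤ) ∣ n) : (δ : ℤ) ∣ n := by
  rw [Int.natCast_dvd]
  exact sq_dvd_nat hδ (fun p hp hd => Int.natCast_dvd.1 (h p hp hd))

lemma dvd_vv {a c : Fin k → ℤ} {M z y δ : ℕ} (hδ : Squarefree δ)
    (hz : ∀ p : ℕ, p.Prime → p ∣ δ → p < z) :
    δ ∣ vv a c M z y ↔ Nat.Coprime M δ ∧ (δ : ℤ) ∣ Pf a c y := by
  constructor
  · intro h
    constructor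
    · apply Nat.Coprime.symm
      apply Nat.coprime_of_dvd
      intro p hp hpd hpM
      exact ((prime_dvd_vv hp).1 (hpd.trans h)).2.1 hpM
    · exact sq_dvd_int hδ (fun p hp hd => ((prime_dvd_vv hp).1 (hd.trans h)).2.2)
  · rintro ⟨h1, h2⟩
    apply sq_dvd_nat hδ
    intro p hp hd
    rw [prime_dvd_vv hp]
    refine ⟨hz p hp hd, ?_, ?_⟩
    · intro hpM
      exact hp.one_lt.ne' (Nat.dvd_one.1 (h1 ▸ Nat.dvd_gcd hpM hd))
    · exact (Int.natCast_dvd_natCast.2 hd).trans h2

lemma rInd_vv (a c : Fin k → ℤ) (M z y : ℕ) :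
    rInd (z : ℝ) (vv a c M z y) =
      if (∀ i, Rgh M z (a i * (y : ℤ) + c i)) then (1 : ℝ) else 0 := by
  have h : MP391708.QPA.Rough (z : ℝ) (vv a c M z y) ↔ ∀ i, Rgh M z (a i * (y : ℤ) + c i) := by
    constructor
    · intro h i p hp hpz hpM hd
      have h1 : p ∣ vv a c M z y := by
        rw [prime_dvd_vv hp]
        refine ⟨hpz, hpM, ?_⟩
        unfold Pf
        exact hd.trans (dvd_prod_of_mem _ (mem_univ i))
      have h2 := h p hp h1
      have h3 : z ≤ p := by exact_mod_cast h2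
      omega
    · intro h p hp hd
      exfalso
      rw [prime_dvd_vv hp] at hd
      obtain ⟨h1, h2, h3⟩ := hd
      unfold Pf at h3
      obtain ⟨i, -, hi⟩ := ((Nat.prime_iff_prime_int.1 hp).dvd_finsetProd_iff _).1 h3
      exact h i p hp h1 h2 hi
  unfold rInd
  by_cases h1 : MP391708.QPA.Rough (z : ℝ) (vv a c M z y)
  · rw [if_pos h1, if_pos (h.1 h1)]
  · rw [if_neg h1, if_neg (fun h2 => h1 (h.2 h2))]

lemma nu_prime_eq (a c : Fin k → ℤ) {p : ℕ} (hp : p.Prime) : SieveM.nu a c p = nu a c p := by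
  have : NeZero p := ⟨hp.ne_zero⟩
  rw [SieveM.nu_eq]
  unfold nu
  symm
  refine card_bij' (s := (range p).filter (fun y : ℕ => ∃ i, (p : ℤ) ∣ a i * (y : ℤ) + c i))
    (t := SieveM.rts a c p) (fun y _ => ((y : ℕ) : ZMod p)) (fun x _ => (x : ZMod p).val) ?_ ?_ ?_ ?_
  · intro y hy
    rw [mem_filter, mem_range] at hy
    obtain ⟨hy, i, hi⟩ := hy
    unfold SieveM.rts
    rw [mem_filter]
    refine ⟨mem_univ _, ?_⟩
    have h1 := (SieveM.val_zmod a c p (y : ℤ)).2 (hi.trans (dvd_prod_of_mem _ (mem_univ i)))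
    simpa using h1
  · intro x hx
    unfold SieveM.rts at hx
    rw [mem_filter] at hx
    rw [mem_filter, mem_range]
    refine ⟨ZMod.val_lt x, ?_⟩
    have h1 : SieveM.val a c (((x.val : ℕ) : ℤ) : ZMod p) = 0 := by
      simpa using hx.2
    have h2 := (SieveM.val_zmod a c p ((x.val : ℕ) : ℤ)).1 h1
    obtain ⟨i, -, hi⟩ := ((Nat.prime_iff_prime_int.1 hp).dvd_finsetProd_iff _).1 h2
    exact ⟨i, hi⟩
  · intro y hy
    rw [mem_filter, mem_range] at hy
    exact ZMod.val_cast_of_lt hy.1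
  · intro x _
    exact ZMod.natCast_zmod_val x

lemma nu_le_k (a c : Fin k → ℤ) {p : ℕ} (hp : p.Prime)
    (h : ∀ i, ¬ ((p : ℤ) ∣ a i ∧ (p : ℤ) ∣ c i)) : SieveM.nu a c p ≤ k := by
  have : Fact p.Prime := ⟨hp⟩
  have : NeZero p := ⟨hp.ne_zero⟩
  rw [SieveM.nu_eq]
  have hsub : SieveM.rts a c p ⊆
      Finset.univ.image (fun i : Fin k => -(c i : ZMod p) / (a i : ZMod p)) := by
    intro x hx
    unfold SieveM.rts at hx
    have hx' : SieveM.val a c x = 0 := (mem_filter.1 hx).2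
    unfold SieveM.val at hx'
    rw [prod_eq_zero_iff] at hx'
    obtain ⟨i, -, hi⟩ := hx'
    rw [mem_image]
    refine ⟨i, mem_univ i, ?_⟩
    have ha : (a i : ZMod p) ≠ 0 := by
      intro ha
      rw [ha, zero_mul, zero_add] at hi
      exact h i ⟨(ZMod.intCast_zmod_eq_zero_iff_dvd _ _).1 ha,
        (ZMod.intCast_zmod_eq_zero_iff_dvd _ _).1 hi⟩
    rw [div_eq_iff ha]
    linear_combination -hi
  refine (card_le_card hsub).trans (card_image_le.trans ?_)
  rw [card_univ, Fintype.card_fin]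

/-- the count of the roots in a residue class -/
lemma count (a c : Fin k → ℤ) (M r δ Y : ℕ) (hM : 1 ≤ M) (hδ : 0 < δ) (hco : Nat.Coprime M δ) :
    |((((Icc 1 Y).filter (fun y : ℕ => y % M = r % M)).filter
        (fun y : ℕ => (δ : ℤ) ∣ Pf a c y)).card : ℝ) -
      (Y : ℝ) / M * ((SieveM.nu a c δ : ℝ) / δ)| ≤ δ := by
  have : NeZero δ := ⟨hδ.ne'⟩
  have : NeZero M := ⟨by omega⟩
  have hMδ : 0 < M * δ := Nat.mul_pos hM hδ
  have : NeZero (M * δ) := ⟨hMδ.ne'⟩
  let e := ZMod.chineseRemainder hco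
  have h1 : ((Icc 1 Y).filter (fun y : ℕ => y % M = r % M)).filter
      (fun y : ℕ => (δ : ℤ) ∣ Pf a c y) =
      (SieveM.rts a c δ).biUnion (fun x => (Icc 1 Y).filter
        (fun y : ℕ => (y : ZMod (M * δ)) = e.symm ((r : ZMod M), x))) := by
    ext y
    simp only [mem_filter, mem_biUnion, SieveM.rts, mem_univ, true_and]
    have hy1 : ∀ x : ZMod δ, ((y : ZMod (M * δ)) = e.symm ((r : ZMod M), x)) ↔
        (y % M = r % M ∧ (y : ZMod δ) = x) := by
      intro x
      have h0 : ((y : ZMod (M * δ)) = e.symm ((r : ZMod M), x)) ↔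
          e (y : ZMod (M * δ)) = ((r : ZMod M), x) := by
        constructor
        · intro h; rw [h, e.apply_symm_apply]
        · intro h; rw [← h, e.symm_apply_apply]
      rw [h0, map_natCast, Prod.ext_iff]
      simp only [Prod.fst_natCast, Prod.snd_natCast]
      rw [ZMod.natCast_eq_natCast_iff]
      rfl
    constructor
    · rintro ⟨⟨hy, hr⟩, hd⟩
      refine ⟨(y : ZMod δ), ?_, hy, (hy1 _).2 ⟨hr, rfl⟩⟩
      have := (SieveM.val_zmod a c δ y).2 hd
      simpa using this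
    · rintro ⟨x, hx, hy, hyx⟩
      obtain ⟨hr, rfl⟩ := (hy1 _).1 hyx
      refine ⟨⟨hy, hr⟩, (SieveM.val_zmod a c δ y).1 ?_⟩
      simpa using hx
  rw [h1, card_biUnion]
  · rw [SieveM.nu_eq]
    push_cast
    have hMR : (M : ℝ) ≠ 0 := by exact_mod_cast (by omega : M ≠ 0)
    have hδR : (δ : ℝ) ≠ 0 := by exact_mod_cast hδ.ne'
    have h2 : (∑ x ∈ SieveM.rts a c δ, (((Icc 1 Y).filter
        (fun y : ℕ => (y : ZMod (M * δ)) = e.symm ((r : ZMod M), x))).card : ℝ)) -
        (Y : ℝ) / M * (((SieveM.rts a c δ).card : ℝ) / δ) =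
        ∑ x ∈ SieveM.rts a c δ, ((((Icc 1 Y).filter
          (fun y : ℕ => (y : ZMod (M * δ)) = e.symm ((r : ZMod M), x))).card : ℝ) -
          Y / ((M * δ : ℕ) : ℝ)) := by
      rw [sum_sub_distrib, sum_const, nsmul_eq_mul]
      push_cast
      field_simp
    rw [h2]
    refine (abs_sum_le_sum_abs _ _).trans ?_
    refine (sum_le_sum fun x _ => SieveM.card_class (M * δ) Y hMδ _).trans ?_
    rw [sum_const, nsmul_eq_mul, mul_one]
    have := (card_le_univ (SieveM.rts a c δ)).trans (ZMod.card δ).le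
    exact_mod_cast this
  · intro x _ x' _ hxx'
    rw [Function.onFun, disjoint_left]
    intro y hy hy'
    have h3 := (mem_filter.1 hy).2.symm.trans (mem_filter.1 hy').2
    have h4 := e.symm.injective h3
    exact hxx' (Prod.ext_iff.1 h4).2

end CNTM

open CNTM in
/-- CNT with `k < p` for the primes `p ∤ M`. -/
theorem cnt_gen (k : ℕ) : ∃ C : ℕ, ∀ (b M r z Y : ℕ) (a c : Fin k → ℤ), 1 ≤ M → 2 ≤ z →
  (∀ p : ℕ, p.Prime → ¬ p ∣ M → k < p) →
  (∀ p : ℕ, p.Prime → p < z → ¬ p ∣ M → ∀ i, ¬ ((p : ℤ) ∣ a i ∧ (p : ℤ) ∣ c i)) →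
  |(((Icc 1 Y).filter (fun y : ℕ => y % M = r % M ∧ ∀ i, Rgh M z (a i * (y : ℤ) + c i))).card : ℝ)
      - (Y : ℝ) / M * ∏ p ∈ PR M z, (1 - (nu a c p : ℝ) / p)|
    ≤ C * Real.exp (-(b : ℝ)) * ((Y : ℝ) / M) * (∏ p ∈ PR M z, (1 - (nu a c p : ℝ) / p))
      + C * (z : ℝ) ^ (C * (b + 1)) := by
  obtain ⟨C, hC, hF⟩ := flg k
  refine ⟨⌈C⌉₊ + 33, ?_⟩
  intro b M r z Y a c hM hz hkp hac
  set C' := ⌈C⌉₊ + 33 with hC'
  have hCC' : C ≤ (C' : ℝ) := by
    rw [hC']; push_cast
    have := Nat.le_ceil C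
    linarith
  have hMR : (0 : ℝ) < M := by exact_mod_cast hM
  have hzR : (2 : ℝ) ≤ z := by exact_mod_cast hz
  set g : ℕ → ℝ := fun p => if p < z ∧ ¬ p ∣ M then (nu a c p : ℝ) / p else 0 with hg
  have hnuk : ∀ p : ℕ, p.Prime → p < z → ¬ p ∣ M → nu a c p ≤ k := by
    intro p hp hpz hpM
    rw [← nu_prime_eq a c hp]
    exact nu_le_k a c hp (hac p hp hpz hpM)
  have hdens : SieveM.Dens k g := by
    intro p hp
    have hp0 : (0 : ℝ) < p := by exact_mod_cast hp.pos
    rw [hg]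
    simp only
    split_ifs with h
    · have h1 : (nu a c p : ℝ) ≤ k := by exact_mod_cast hnuk p hp h.1 h.2
      have h2 : (nu a c p : ℝ) / p ≤ k / p := div_le_div_of_nonneg_right h1 hp0.le
      refine ⟨by positivity, h2, h2.trans ?_⟩
      have h3 : ((k : ℝ) + 1) ≤ p := by exact_mod_cast hkp p hp h.2
      exact div_le_div_of_nonneg_left (by positivity) (by positivity) h3
    · exact ⟨le_rfl, by positivity, by positivity⟩
  have h1 := hF b z hzR ((Icc 1 Y).filter (fun y : ℕ => y % M = r % M)) (vv a c M z)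
    (fun _ => 1) ((Y : ℝ) / M) g (by positivity) (fun _ _ => zero_le_one) hdens
  have e1 : ∑ i ∈ (Icc 1 Y).filter (fun y : ℕ => y % M = r % M), (1 : ℝ) * rInd z (vv a c M z i) =
      (((Icc 1 Y).filter (fun y : ℕ => y % M = r % M ∧
        ∀ i, Rgh M z (a i * (y : ℤ) + c i))).card : ℝ) := by
    rw [← Finset.filter_filter, Finset.card_filter (fun y : ℕ => ∀ i, Rgh M z (a i * (y : ℤ) + c i))]
    push_cast
    refine sum_congr rfl fun y _ => ?_
    rw [one_mul, rInd_vv]
  have e2 : ∏ p ∈ PB (z : ℝ), (1 - g p) = ∏ p ∈ PR M z, (1 - (nu a c p : ℝ) / p) := by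
    have h2 : PB (z : ℝ) = (range z).filter Nat.Prime := by
      unfold PB
      rw [Nat.ceil_natCast]
    have h3 : PR M z = (PB (z : ℝ)).filter (fun p => p < z ∧ ¬ p ∣ M) := by
      ext p
      rw [mem_PR, h2, mem_filter, mem_filter, mem_range]
      tauto
    rw [h3, prod_filter]
    refine prod_congr rfl fun p _ => ?_
    rw [hg]
    simp only
    split_ifs <;> simp
  rw [e1, e2] at h1
  refine h1.trans ?_
  set V := ∏ p ∈ PR M z, (1 - (nu a c p : ℝ) / p) with hV
  have hV0 : 0 ≤ V := by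
    rw [hV]
    refine prod_nonneg fun p hp => ?_
    rw [mem_PR] at hp
    have hp0 : (0 : ℝ) < p := by exact_mod_cast hp.2.1.pos
    have h2 : (nu a c p : ℝ) ≤ p := by
      have h3 := hnuk p hp.2.1 hp.1 hp.2.2
      have h4 := hkp p hp.2.1 hp.2.2
      exact_mod_cast (by omega : nu a c p ≤ p)
    have h3 : (nu a c p : ℝ) / p ≤ 1 := (div_le_one hp0).2 h2
    linarith
  apply add_le_add
  · have h2 : 0 ≤ Real.exp (-(b : ℝ)) * ((Y : ℝ) / M) * V :=
      mul_nonneg (mul_nonneg (Real.exp_pos _).le (by positivity)) hV0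
    calc C * Real.exp (-(b : ℝ)) * ((Y : ℝ) / M) * V = C * (Real.exp (-(b : ℝ)) * ((Y : ℝ) / M) * V) := by
          ring
      _ ≤ C' * (Real.exp (-(b : ℝ)) * ((Y : ℝ) / M) * V) := mul_le_mul_of_nonneg_right hCC' h2
      _ = _ := by ring
  · set D := ⌊(z : ℝ) ^ (8 * b + 16)⌋₊ with hD
    have hz1 : (1 : ℝ) ≤ z := by linarith
    have hDz : (D : ℝ) ≤ (z : ℝ) ^ (8 * b + 16) := Nat.floor_le (by positivity)
    have hlog : 1 + Real.log z ≤ z := by
      have := Real.log_le_sub_one_of_pos (show (0 : ℝ) < z by linarith)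
      linarith
    have hlog0 : 0 ≤ 1 + Real.log z := by
      have := Real.log_nonneg hz1
      linarith
    have hrem : (∑ δ ∈ (Icc 1 D).filter
          (fun δ => Squarefree δ ∧ ∀ p : ℕ, p.Prime → p ∣ δ → (p : ℝ) < (z : ℝ)),
          |(∑ i ∈ ((Icc 1 Y).filter (fun y : ℕ => y % M = r % M)).filter
            (fun i => δ ∣ vv a c M z i), (1 : ℝ)) - (Y : ℝ) / M * ∏ p ∈ δ.primeFactors, g p|) ≤
        (z : ℝ) ^ (16 * b + 32) := by
      calc _ ≤ (∑ δ ∈ (Icc 1 D).filter
                (fun δ : ℕ => Squarefree δ ∧ ∀ p : ℕ, p.Prime → p ∣ δ → (p : ℝ) < (z : ℝ)), (δ : ℝ)) := by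
            refine sum_le_sum fun δ hδ => ?_
            rw [mem_filter, mem_Icc] at hδ
            obtain ⟨⟨hδ1, -⟩, hsq, hpz⟩ := hδ
            have hpz' : ∀ p : ℕ, p.Prime → p ∣ δ → p < z := fun p hp hd => by
              exact_mod_cast hpz p hp hd
            by_cases hco : Nat.Coprime M δ
            · have h2 := count a c M r δ Y hM (by omega) hco
              have e3 : (∑ i ∈ ((Icc 1 Y).filter (fun y : ℕ => y % M = r % M)).filter
                  (fun i => δ ∣ vv a c M z i), (1 : ℝ)) =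
                  ((((Icc 1 Y).filter (fun y : ℕ => y % M = r % M)).filter
                  (fun y : ℕ => (δ : ℤ) ∣ Pf a c y)).card : ℝ) := by
                rw [sum_const, nsmul_eq_mul, mul_one]
                congr 2
                refine filter_congr fun y _ => ?_
                rw [dvd_vv hsq hpz']
                exact ⟨fun h => h.2, fun h => ⟨hco, h⟩⟩
              have e4 : ∏ p ∈ δ.primeFactors, g p = (SieveM.nu a c δ : ℝ) / δ := by
                rw [SieveM.nu_squarefree a c hsq]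
                push_cast
                conv_rhs => rw [← Nat.prod_primeFactors_of_squarefree hsq]
                push_cast
                rw [Nat.prod_primeFactors_of_squarefree hsq, ← prod_div_distrib]
                refine prod_congr rfl fun p hp => ?_
                have hp1 := Nat.prime_of_mem_primeFactors hp
                have hp2 := Nat.dvd_of_mem_primeFactors hp
                rw [hg]
                simp only
                rw [if_pos, nu_prime_eq a c hp1]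
                refine ⟨hpz' p hp1 hp2, fun hpM => ?_⟩
                exact hp1.one_lt.ne' (Nat.dvd_one.1 (hco ▸ Nat.dvd_gcd hpM hp2))
              rw [e3, e4]
              exact h2
            · have e3 : ((Icc 1 Y).filter (fun y : ℕ => y % M = r % M)).filter
                  (fun i => δ ∣ vv a c M z i) = ∅ := by
                apply Finset.filter_eq_empty_iff.2
                intro y _ hd
                exact hco ((dvd_vv hsq hpz').1 hd).1
              have e4 : ∏ p ∈ δ.primeFactors, g p = 0 := by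
                obtain ⟨p, hp, hpM, hpδ⟩ := Nat.Prime.not_coprime_iff_dvd.1 hco
                refine prod_eq_zero (Nat.mem_primeFactors.2 ⟨hp, hpδ, by omega⟩) ?_
                rw [hg]
                simp only
                rw [if_neg]
                exact fun h => h.2 hpM
              rw [e3, e4]
              simp
        _ ≤ (∑ δ ∈ Icc 1 D, (δ : ℝ)) :=
            sum_le_sum_of_subset_of_nonneg (filter_subset _ _) fun _ _ _ => Nat.cast_nonneg _
        _ ≤ (∑ δ ∈ Icc 1 D, (D : ℝ)) := by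
            refine sum_le_sum fun δ hδ => ?_
            exact_mod_cast (mem_Icc.1 hδ).2
        _ = (D : ℝ) * D := by
            rw [sum_const, Nat.card_Icc, nsmul_eq_mul, Nat.add_sub_cancel]
        _ ≤ (z : ℝ) ^ (8 * b + 16) * (z : ℝ) ^ (8 * b + 16) :=
            mul_le_mul hDz hDz (by positivity) (by positivity)
        _ = (z : ℝ) ^ (16 * b + 32) := by
            rw [← pow_add]
            congr 1
            ring
    refine (mul_le_mul (mul_le_mul_of_nonneg_left hlog hC.le) hrem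
      (sum_nonneg fun _ _ => abs_nonneg _) (by positivity)).trans ?_
    calc C * z * (z : ℝ) ^ (16 * b + 32) = C * (z : ℝ) ^ (16 * b + 33) := by ring
      _ ≤ C' * (z : ℝ) ^ (C' * (b + 1)) := by
          apply mul_le_mul hCC' _ (by positivity) (by positivity)
          apply pow_le_pow_right₀ hz1
          have : 33 ≤ C' := by omega
          calc 16 * b + 33 ≤ 33 * (b + 1) := by omega
            _ ≤ C' * (b + 1) := Nat.mul_le_mul_right _ this

/-- CNT. -/
theorem specCNT : SpecCNT := by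
  intro k
  obtain ⟨C, h⟩ := cnt_gen k
  refine ⟨C, fun b M r z Y a c hM hz hk hac => h b M r z Y a c hM hz (fun p hp hpM => ?_) hac⟩
  have h1 := hk p hp hpM
  have h2 := hp.two_le
  omega

end Pool.Agent.Lib.MP_3efbeb_nt.DL
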