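import Pool.Agent.Lib.MP_3efbeb_nt.DL.Base

/-!
# CORE: sums of `g` over rough tuples and over rough numbers
-/

set_option autoImplicit false

namespace Pool.Agent.Lib.MP_3efbeb_nt.DL

open Finset
open scoped Classical

namespace COREM

/-- the primes in dyadic blocks -/
lemma QQ_eq {M J1 J2 : ℕ} : QQ M J1 J2 = (Ico J1 J2).biUnion (blk M) := by
  ext q
  rw [mem_biUnion]
  constructor
  · intro hq
    have h1 := Base.mem_QQ hq
    obtain ⟨j, hj1, hj2⟩ : ∃ j, 2 ^ j < q ∧ q ≤ 2 ^ (j + 1) := by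
      have hq0 : q - 1 ≠ 0 := by have := h1.1.two_le; omega
      refine ⟨Nat.log 2 (q - 1), ?_, ?_⟩
      · have := Nat.pow_log_le_self 2 hq0
        have := h1.1.two_le
        omega
      · have := Nat.lt_pow_succ_log_self (b := 2) (by norm_num) (q - 1)
        rw [Nat.succ_eq_add_one] at this
        omega
    refine ⟨j, ?_, ?_⟩
    · rw [mem_Ico]
      constructor
      · have : 2 ^ J1 < 2 ^ (j + 1) := lt_of_lt_of_le h1.2.2.1 hj2
        have := (Nat.pow_lt_pow_iff_right (by norm_num : 1 < 2)).1 this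
        omega
      · have : 2 ^ j < 2 ^ J2 := lt_of_lt_of_le hj1 h1.2.2.2
        exact (Nat.pow_lt_pow_iff_right (by norm_num : 1 < 2)).1 this
    · unfold blk
      rw [mem_filter, mem_Ioc]
      exact ⟨⟨hj1, hj2⟩, h1.1, h1.2.1⟩
  · rintro ⟨j, hj, hq⟩
    rw [mem_Ico] at hj
    have h1 := Base.mem_blk hq
    unfold QQ
    rw [mem_filter, mem_Ioc]
    refine ⟨⟨lt_of_le_of_lt (Nat.pow_le_pow_right (by norm_num) hj.1) h1.2.2.1,
      h1.2.2.2.trans (Nat.pow_le_pow_right (by norm_num) (by omega))⟩, h1.1, h1.2.1⟩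

lemma blk_disjoint {M i j : ℕ} (h : i ≠ j) : Disjoint (blk M i) (blk M j) := by
  rw [Finset.disjoint_left]
  intro q hi hj
  have h1 := Base.mem_blk hi
  have h2 := Base.mem_blk hj
  have e1 : i < j + 1 := (Nat.pow_lt_pow_iff_right (by norm_num : 1 < 2)).1 (lt_of_lt_of_le h1.2.2.1 h2.2.2.2)
  have e2 : j < i + 1 := (Nat.pow_lt_pow_iff_right (by norm_num : 1 < 2)).1 (lt_of_lt_of_le h2.2.2.1 h1.2.2.2)
  omega

lemma sum_QQ {M J1 J2 : ℕ} (f : ℕ → ℝ) :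
    ∑ q ∈ QQ M J1 J2, f q = ∑ j ∈ Ico J1 J2, ∑ q ∈ blk M j, f q := by
  rw [QQ_eq, sum_biUnion]
  intro i _ j _ hij
  exact blk_disjoint hij

/-- the part of the second moment -/
lemma block_sum (M r z : ℕ) (S : Finset ℤ) (X : ℕ) (B : Finset ℕ) (V' : ℝ) (g' : ℕ → ℝ) (hB : ∀ q ∈ B, 1 ≤ q) :
    ∑ q ∈ B, ∑ m ∈ W1 M r z ∅ 1 (X / q), g' m * ((if cq M z S q m then (1 : ℝ) else 0) - V') =
    ∑ m ∈ W1 M r z ∅ 1 X, g' m * ∑ q ∈ B.filter (fun q => q * m ≤ X), ((if cq M z S q m then (1 : ℝ) else 0) - V') := by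
  have h1 : ∀ q ∈ B, ∑ m ∈ W1 M r z ∅ 1 (X / q), g' m * ((if cq M z S q m then (1 : ℝ) else 0) - V') =
      ∑ m ∈ W1 M r z ∅ 1 X, if q * m ≤ X then g' m * ((if cq M z S q m then (1 : ℝ) else 0) - V') else 0 := by
    intro q hq
    rw [← sum_filter]
    refine sum_congr ?_ fun _ _ => rfl
    ext m
    unfold W1
    simp only [mem_filter, mem_Icc]
    rw [Nat.le_div_iff_mul_le (hB q hq), mul_comm m q]
    constructor
    · rintro ⟨⟨h1, h2⟩, h3⟩
      refine ⟨⟨⟨h1, ?_⟩, h3⟩, h2⟩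
      have := hB q hq
      nlinarith
    · rintro ⟨⟨⟨h1, h2⟩, h3⟩, h4⟩
      exact ⟨⟨h1, h4⟩, h3⟩
  rw [sum_congr rfl h1, sum_comm]
  refine sum_congr rfl fun m _ => ?_
  rw [← sum_filter, ← mul_sum]

end COREM

theorem specCORE (hC1 : SpecC1) (hVLP : SpecVLP) (hSM : SpecSM) (hTK : SpecTK) : SpecCORE := by
  intro S η hη hS
  obtain ⟨P1, hP1⟩ := hSM S (η / 2) (by linarith) hS
  obtain ⟨P2, hP2⟩ := hTK S (η ^ 2 / 16) (by positivity) hS
  obtain ⟨K3, z3, hz3, hc⟩ := Base.c1 hC1 S (1 / 2) (by norm_num)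
  refine ⟨max (max P1 P2) (2 * (S.card + 1)), max 1 (48 / η ^ 2), fun M hM => ?_⟩
  obtain ⟨K1, z1, h1⟩ := hP1 M (Base.Good.mono hM ((le_max_left _ _).trans (le_max_left _ _)))
  obtain ⟨K2, z2, h2⟩ := hP2 M (Base.Good.mono hM ((le_max_right _ _).trans (le_max_left _ _)))
  have hM' : Good S (2 * (S.card + 1)) M := Base.Good.mono hM (le_max_right _ _)
  have h2k := Base.Good.two_mul hM' le_rfl
  have hM1 : 1 ≤ M := hM.1
  obtain ⟨z4, hz4⟩ := hVLP (S.card + 1) M 1 hM1 h2k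
  refine ⟨K1 + K2 + K3 + 3, z1 + z2 + z3 + z4 + 2 * M + 2, fun z hz J1 J2 hJ hB X r hX g g' hg hg' hgg => ?_⟩
  have hz0 : (0 : ℝ) < z := by exact_mod_cast (by omega : 0 < z)
  have hz1' : (1 : ℝ) ≤ z := by exact_mod_cast (by omega : 1 ≤ z)
  have hz1n : 1 ≤ z := by omega
  have hV := Base.VV_pos (k := S.card + 1) (z := z) h2k
  set V := VV (S.card + 1) M z with hVdef
  have hM0 : (0 : ℝ) < M := by exact_mod_cast hM1
  set Q := QQ M J1 J2 with hQ
  set Λ := Lam Q with hΛ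
  have hΛ1 : 1 ≤ Λ := (le_max_left _ _).trans hB
  have hΛ48 : 48 / η ^ 2 ≤ Λ := (le_max_right _ _).trans hB
  have hΛ0 : 0 < Λ := by linarith
  set N : ℝ := (X : ℝ) / M * V with hN
  have hN0 : 0 ≤ N := by rw [hN]; positivity
  have hJ12 : J1 ≤ J2 := by
    by_contra hcon
    have : Q = ∅ := by
      rw [hQ, Finset.eq_empty_iff_forall_notMem]
      intro q hq
      have h := Base.mem_QQ hq
      have h3 : 2 ^ J1 < 2 ^ J2 := lt_of_lt_of_le h.2.2.1 h.2.2.2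
      have := (Nat.pow_lt_pow_iff_right (by norm_num : 1 < 2)).1 h3
      omega
    rw [hΛ, this] at hΛ1
    unfold Lam at hΛ1
    rw [sum_empty] at hΛ1
    linarith
  have hQm : ∀ q ∈ Q, q.Prime ∧ q % M = 1 % M ∧ z ≤ q := fun q hq => by
    have h := Base.mem_QQ hq
    exact ⟨h.1, h.2.1, by omega⟩
  have hQrgh : ∀ q ∈ Q, Rgh M z q := fun q hq => Base.rgh_prime (hQm q hq).1 (hQm q hq).2.2
  -- `|W| ≤ 2 N`
  have hzV : 1 ≤ (z : ℝ) * V := by
    have h1 := hz4 z (by omega)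
    rw [pow_one] at h1
    have h2 : (z : ℝ) ^ (-1 : ℝ) ≤ (z : ℝ) ^ (-(1 : ℝ) / 4) :=
      Real.rpow_le_rpow_of_exponent_le hz1' (by norm_num)
    rw [Real.rpow_neg_one] at h2
    have h3 : (z : ℝ)⁻¹ ≤ V := h2.trans h1
    calc (1 : ℝ) = z * (z : ℝ)⁻¹ := by field_simp
      _ ≤ z * V := mul_le_mul_of_nonneg_left h3 hz0.le
  have hpow2 : 1 ≤ 2 ^ (8 * J2) := Nat.one_le_two_pow
  have hNE : 2 * (z : ℝ) ^ K3 ≤ N := by
    have h1 : z ^ (K3 + 3) ≤ X := by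
      calc z ^ (K3 + 3) ≤ z ^ (K1 + K2 + K3 + 3) := Nat.pow_le_pow_right hz1n (by omega)
        _ ≤ 2 ^ (8 * J2) * z ^ (K1 + K2 + K3 + 3) := Nat.le_mul_of_pos_left _ (by omega)
        _ ≤ X := hX
    have h2 : (z : ℝ) ^ (K3 + 3) ≤ X := by exact_mod_cast h1
    have h3 : (2 : ℝ) * M ≤ z := by exact_mod_cast (by omega : 2 * M ≤ z)
    rw [hN, div_mul_eq_mul_div, le_div_iff₀ hM0]
    calc 2 * (z : ℝ) ^ K3 * M = z ^ K3 * (2 * M) := by ring
      _ ≤ z ^ K3 * z := by gcongr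
      _ = z ^ K3 * z * 1 := by ring
      _ ≤ z ^ K3 * z * (z * V) := by gcongr
      _ ≤ z ^ K3 * z * (z * V) * z := le_mul_of_one_le_right (by positivity) hz1'
      _ = (z : ℝ) ^ (K3 + 3) * V := by ring
      _ ≤ X * V := by gcongr
  have hW : ((W1 M r z S 1 X).card : ℝ) ≤ 2 * N := by
    have h1 := hc M r z 1 X hM' (by omega) (by exact_mod_cast Base.rgh_one M z)
    rw [abs_le] at h1
    have h3 := h1.2
    have : (X : ℝ) / M * VV (S.card + 1) M z = N := rfl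
    rw [this] at h3
    linarith
  -- the Turan-Kubilius part
  have hX2 : 2 ^ (8 * J2) * z ^ K2 ≤ X :=
    le_trans (Nat.mul_le_mul_left _ (Nat.pow_le_pow_right hz1n (by omega))) hX
  have hTK' := h2 z (by omega) J1 J2 hJ X r hX2 hΛ1
  rw [← hQ, ← hΛ] at hTK'
  set W := W1 M r z S 1 X with hWdef
  have hD2 : |∑ m ∈ W, g m * (Λ - ((Q.filter (fun q => q ∣ m)).card : ℝ))| ≤ η / 2 * Λ * N := by
    have e1 : |∑ m ∈ W, g m * (Λ - ((Q.filter (fun q => q ∣ m)).card : ℝ))| ≤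
        ∑ m ∈ W, |((Q.filter (fun q => q ∣ m)).card : ℝ) - Λ| := by
      refine (abs_sum_le_sum_abs _ _).trans (sum_le_sum fun m _ => ?_)
      rw [abs_mul, abs_sub_comm]
      exact mul_le_of_le_one_left (abs_nonneg _) (hg m)
    refine e1.trans ?_
    have e2 : (∑ m ∈ W, |((Q.filter (fun q => q ∣ m)).card : ℝ) - Λ|) ^ 2 ≤
        W.card * ∑ m ∈ W, (((Q.filter (fun q => q ∣ m)).card : ℝ) - Λ) ^ 2 := by
      have := sq_sum_le_card_mul_sum_sq (s := W) (f := fun m => |((Q.filter (fun q => q ∣ m)).card : ℝ) - Λ|)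
      simpa only [sq_abs] using this
    have e3 : (W.card : ℝ) * ∑ m ∈ W, (((Q.filter (fun q => q ∣ m)).card : ℝ) - Λ) ^ 2 ≤
        2 * N * ((η ^ 2 / 16 * Λ ^ 2 + 3 * Λ) * N) := by
      refine mul_le_mul hW (hTK'.trans (le_of_eq ?_)) (sum_nonneg fun _ _ => sq_nonneg _) (by positivity)
      rw [hN]; ring
    have e4 : 3 * Λ ≤ η ^ 2 / 16 * Λ ^ 2 := by
      rw [div_le_iff₀ (by positivity)] at hΛ48
      nlinarith
    have e5 : (∑ m ∈ W, |((Q.filter (fun q => q ∣ m)).card : ℝ) - Λ|) ^ 2 ≤ (η / 2 * Λ * N) ^ 2 := by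
      refine (e2.trans e3).trans ?_
      have : 2 * N * ((η ^ 2 / 16 * Λ ^ 2 + 3 * Λ) * N) ≤ 2 * N * ((η ^ 2 / 16 * Λ ^ 2 + η ^ 2 / 16 * Λ ^ 2) * N) := by
        gcongr
      refine this.trans (le_of_eq ?_)
      ring
    exact le_of_sq_le_sq e5 (by positivity)
  -- the second moment part
  have hgg' : ∑ m ∈ W, g m * ((Q.filter (fun q => q ∣ m)).card : ℝ) =
      ∑ q ∈ Q, ∑ m ∈ W1 M r z ∅ 1 (X / q), g' m * (if cq M z S q m then (1 : ℝ) else 0) := by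
    have e1 : ∀ m ∈ W, g m * ((Q.filter (fun q => q ∣ m)).card : ℝ) = ∑ q ∈ Q, if q ∣ m then g m else 0 := by
      intro m _
      rw [card_filter]
      push_cast
      rw [mul_sum]
      refine sum_congr rfl fun q _ => ?_
      split_ifs <;> simp
    rw [sum_congr rfl e1, sum_comm]
    refine sum_congr rfl fun q hq => ?_
    rw [← sum_filter, hWdef, Base.sum_mult (hQm q hq).1.one_le (hQm q hq).2.1 (hQrgh q hq)]
    have e2 : W1 M r z S q (X / q) = (W1 M r z ∅ 1 (X / q)).filter (fun m => cq M z S q m) := by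
      ext m
      rw [Base.mem_W1, mem_filter]
    rw [e2, sum_filter]
    refine sum_congr rfl fun m hm => ?_
    have hm1 : 1 ≤ m := by
      unfold W1 at hm
      exact (mem_Icc.1 (mem_filter.1 hm).1).1
    split_ifs
    · rw [hgg q hq m hm1, mul_one]
    · rw [mul_zero]
  have hD1 : |∑ q ∈ Q, ∑ m ∈ W1 M r z ∅ 1 (X / q), g' m * ((if cq M z S q m then (1 : ℝ) else 0) - VQ S M z)| ≤
      η / 2 * Λ * N := by
    rw [hQ, COREM.sum_QQ]
    have e1 : ∀ j ∈ Ico J1 J2, |∑ q ∈ blk M j, ∑ m ∈ W1 M r z ∅ 1 (X / q),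
        g' m * ((if cq M z S q m then (1 : ℝ) else 0) - VQ S M z)| ≤ η / 2 * Lam (blk M j) * N := by
      intro j hj
      rw [mem_Ico] at hj
      rw [COREM.block_sum _ _ _ _ _ _ _ _ fun q hq => (Base.mem_blk hq).1.one_le]
      have hXj : 2 ^ (4 * j) * z ^ K1 ≤ X := by
        refine le_trans (Nat.mul_le_mul (Nat.pow_le_pow_right (by norm_num) (by omega))
          (Nat.pow_le_pow_right hz1n (by omega))) hX
      have e2 := h1 z (by omega) j (hJ.trans (Nat.pow_le_pow_right (by norm_num) hj.1)) X r hXj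
      refine ((abs_sum_le_sum_abs _ _).trans (sum_le_sum fun m _ => ?_)).trans (e2.trans (le_of_eq ?_))
      · rw [abs_mul]
        exact mul_le_of_le_one_left (abs_nonneg _) (hg' m)
      · rw [hN]; ring
    refine (abs_sum_le_sum_abs _ _).trans ((sum_le_sum e1).trans (le_of_eq ?_))
    rw [← sum_mul, ← mul_sum]
    congr 2
    rw [hΛ, hQ]
    unfold Lam
    rw [COREM.sum_QQ]
  -- assembly
  have hfin : Λ * NN M r z S g X - VQ S M z * ∑ q ∈ Q, NN M r z ∅ g' (X / q) =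
      ∑ m ∈ W, g m * (Λ - ((Q.filter (fun q => q ∣ m)).card : ℝ)) +
      ∑ q ∈ Q, ∑ m ∈ W1 M r z ∅ 1 (X / q), g' m * ((if cq M z S q m then (1 : ℝ) else 0) - VQ S M z) := by
    have e1 : ∑ m ∈ W, g m * (Λ - ((Q.filter (fun q => q ∣ m)).card : ℝ)) =
        Λ * NN M r z S g X - ∑ m ∈ W, g m * ((Q.filter (fun q => q ∣ m)).card : ℝ) := by
      unfold NN
      rw [mul_sum, ← sum_sub_distrib]
      exact sum_congr rfl fun m _ => by ring
    have e2 : ∑ q ∈ Q, ∑ m ∈ W1 M r z ∅ 1 (X / q), g' m * ((if cq M z S q m then (1 : ℝ) else 0) - VQ S M z) =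
        ∑ q ∈ Q, ∑ m ∈ W1 M r z ∅ 1 (X / q), g' m * (if cq M z S q m then (1 : ℝ) else 0) -
        VQ S M z * ∑ q ∈ Q, NN M r z ∅ g' (X / q) := by
      unfold NN
      rw [mul_sum, ← sum_sub_distrib]
      refine sum_congr rfl fun q _ => ?_
      rw [mul_sum, ← sum_sub_distrib]
      exact sum_congr rfl fun m _ => by ring
    rw [e1, e2, hgg']
    ring
  rw [hfin]
  refine (abs_add_le _ _).trans ((add_le_add hD2 hD1).trans (le_of_eq ?_))
  rw [hN]
  ring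

end Pool.Agent.Lib.MP_3efbeb_nt.DL
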