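import Pool.Agent.Lib.MP_3efbeb_nt.DL.Base

/-!
# MP_3efbeb_nt, DL, module CLOSE (helper15): the class shift
-/

set_option autoImplicit false

namespace Pool.Agent.Lib.MP_3efbeb_nt.DL

open Finset
open scoped Classical

namespace CLO

lemma scale (A z : ℕ) (hz : 2 ≤ z) : z ≤ 2 ^ (Nat.clog 2 z) ∧ 2 ^ (A * Nat.clog 2 z) ≤ z ^ (2 * A) := by
  refine ⟨Nat.le_pow_clog (by norm_num) z, ?_⟩
  have h1 := Nat.pow_pred_clog_lt_self (b := 2) (by norm_num) (x := z) (by omega)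
  have h2 : 1 ≤ Nat.clog 2 z := Nat.clog_pos (by norm_num) hz
  have h3 : 2 ^ (Nat.clog 2 z) ≤ z ^ 2 := by
    have h4 : 2 ^ (Nat.clog 2 z) = 2 ^ ((Nat.clog 2 z).pred) * 2 := by
      rw [← pow_succ]
      congr 1
      have : (Nat.clog 2 z).pred = Nat.clog 2 z - 1 := rfl
      omega
    rw [h4, pow_two]
    exact Nat.mul_le_mul h1.le hz
  calc 2 ^ (A * Nat.clog 2 z) = (2 ^ (Nat.clog 2 z)) ^ A := by rw [← pow_mul, mul_comm]
    _ ≤ (z ^ 2) ^ A := Nat.pow_le_pow_left h3 A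
    _ = z ^ (2 * A) := by rw [← pow_mul]

lemma NN_nonneg {M r z : ℕ} {S : Finset ℤ} {g : ℕ → ℝ} {X : ℕ} (h : ∀ n, 0 ≤ g n) : 0 ≤ NN M r z S g X :=
  sum_nonneg fun n _ => h n

/-- `⌊x/q⌋` -/
lemma div_range {X X' W t q J : ℕ} (hW : W = 2 ^ (J + 1)) (hq0 : 1 ≤ q) (hq : q ≤ 2 ^ J) (hX' : q ≤ X')
    (h1 : X' ≤ X) (h2 : X ≤ X' * W ^ t) : X' / q ≤ X ∧ X ≤ (X' / q) * W ^ (t + 1) := by
  refine ⟨(Nat.div_le_self _ _).trans h1, h2.trans ?_⟩
  have h3 : 1 ≤ X' / q := by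
    rw [Nat.le_div_iff_mul_le (by omega)]
    omega
  have h4 : X' < (X' / q + 1) * q := by
    have e1 := Nat.div_add_mod X' q
    have e2 := Nat.mod_lt X' (show 0 < q by omega)
    have e3 : (X' / q + 1) * q = q * (X' / q) + q := by ring
    omega
  have h5 : X' ≤ (X' / q) * W := by
    calc X' ≤ (X' / q + 1) * q := h4.le
      _ ≤ (X' / q + X' / q) * 2 ^ J := Nat.mul_le_mul (by omega) hq
      _ = (X' / q) * W := by rw [hW, pow_succ]; ring
  calc X' * W ^ t ≤ ((X' / q) * W) * W ^ t := Nat.mul_le_mul_right _ h5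
    _ = (X' / q) * W ^ (t + 1) := by rw [pow_succ]; ring

/-- the counts in the families -/
noncomputable def GG {L : ℕ} (M z : ℕ) (r : Fin L → ℕ) (g : ℕ → ℕ → ℝ) (a X : ℕ) : ℝ :=
  ∑ i, NN M (r i) z ∅ (g a) X

/-- one step of the class shift -/
lemma step {L M z J1 J2 : ℕ} {r : Fin L → ℕ} {g : ℕ → ℕ → ℝ} {η₁ c : ℝ} {a X' : ℕ} (hc : 0 ≤ c) (hV : 0 < VV 1 M z)
    (hΛ : 0 < Lam (QQ M J1 J2))
    (hcore : ∀ i, |Lam (QQ M J1 J2) * NN M (r i) z ∅ (g (a + 1)) X' -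
      VQ ∅ M z * ∑ q ∈ QQ M J1 J2, NN M (r i) z ∅ (g a) (X' / q)| ≤ η₁ * Lam (QQ M J1 J2) * ((X' : ℝ) / M) * VV 1 M z)
    (hG : ∀ q ∈ QQ M J1 J2, GG M z r g a (X' / q) ≤ c * L * (((X' / q : ℕ) : ℝ) / M) * VV 1 M z) :
    GG M z r g (a + 1) X' ≤ (c + η₁) * L * ((X' : ℝ) / M) * VV 1 M z := by
  have hVQ : VQ ∅ M z = 1 := by
    unfold VQ
    rw [card_empty, zero_add, div_self hV.ne']
  have h1 : ∀ i, Lam (QQ M J1 J2) * NN M (r i) z ∅ (g (a + 1)) X' ≤
      ∑ q ∈ QQ M J1 J2, NN M (r i) z ∅ (g a) (X' / q) + η₁ * Lam (QQ M J1 J2) * ((X' : ℝ) / M) * VV 1 M z := by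
    intro i
    have := (abs_le.1 (hcore i)).2
    rw [hVQ, one_mul] at this
    linarith
  have h2 : Lam (QQ M J1 J2) * GG M z r g (a + 1) X' ≤
      ∑ q ∈ QQ M J1 J2, GG M z r g a (X' / q) + L * (η₁ * Lam (QQ M J1 J2) * ((X' : ℝ) / M) * VV 1 M z) := by
    unfold GG
    rw [mul_sum, sum_comm]
    calc ∑ i, Lam (QQ M J1 J2) * NN M (r i) z ∅ (g (a + 1)) X' ≤
        ∑ i : Fin L, (∑ q ∈ QQ M J1 J2, NN M (r i) z ∅ (g a) (X' / q) +
          η₁ * Lam (QQ M J1 J2) * ((X' : ℝ) / M) * VV 1 M z) := sum_le_sum fun i _ => h1 i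
      _ = _ := by
        rw [sum_add_distrib, sum_const, card_univ, Fintype.card_fin, nsmul_eq_mul]
  have h3 : ∑ q ∈ QQ M J1 J2, GG M z r g a (X' / q) ≤ Lam (QQ M J1 J2) * (c * L * ((X' : ℝ) / M) * VV 1 M z) := by
    unfold Lam
    rw [sum_mul]
    refine sum_le_sum fun q hq => (hG q hq).trans ?_
    have hq0 : (0 : ℝ) < q := by exact_mod_cast (Base.mem_QQ hq).1.pos
    have h4 : (((X' / q : ℕ) : ℝ)) ≤ (X' : ℝ) / q := Nat.cast_div_le
    have h5 : c * L * (((X' / q : ℕ) : ℝ) / M) * VV 1 M z ≤ c * L * (((X' : ℝ) / q) / M) * VV 1 M z := by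
      gcongr
    refine h5.trans (le_of_eq ?_)
    ring
  have h6 : Lam (QQ M J1 J2) * GG M z r g (a + 1) X' ≤
      Lam (QQ M J1 J2) * ((c + η₁) * L * ((X' : ℝ) / M) * VV 1 M z) := by
    refine h2.trans (le_trans (add_le_add h3 le_rfl) (le_of_eq ?_))
    ring
  exact le_of_mul_le_mul_left h6 hΛ

/-- transfer from the tuples to the rough numbers -/
lemma transfer {L M z J1 J2 k : ℕ} {r : Fin L → ℕ} {S : Fin L → Finset ℤ} {g : ℕ → ℕ → ℝ} {η₁ c : ℝ} {X' : ℕ}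
    (hV : 0 < VV 1 M z) (hVk : 0 < VV k M z) (hk : ∀ i, (S i).card + 1 = k)
    (hΛ : 0 < Lam (QQ M J1 J2))
    (hcore : ∀ i, |Lam (QQ M J1 J2) * NN M (r i) z ∅ (g 1) X' -
      VQ ∅ M z * ∑ q ∈ QQ M J1 J2, NN M (r i) z ∅ (g 0) (X' / q)| ≤ η₁ * Lam (QQ M J1 J2) * ((X' : ℝ) / M) * VV 1 M z)
    (hcoreS : ∀ i, |Lam (QQ M J1 J2) * NN M (r i) z (S i) (g 1) X' -
      VQ (S i) M z * ∑ q ∈ QQ M J1 J2, NN M (r i) z ∅ (g 0) (X' / q)| ≤
        η₁ * Lam (QQ M J1 J2) * ((X' : ℝ) / M) * VV k M z)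
    (hT : ∑ i, NN M (r i) z (S i) (g 1) X' ≤ c * L * ((X' : ℝ) / M) * VV k M z) :
    GG M z r g 1 X' ≤ (c + 2 * η₁) * L * ((X' : ℝ) / M) * VV 1 M z := by
  have hVQ : VQ ∅ M z = 1 := by
    unfold VQ
    rw [card_empty, zero_add, div_self hV.ne']
  have hVQS : ∀ i, VQ (S i) M z = VV k M z / VV 1 M z := by
    intro i
    unfold VQ
    rw [hk i]
  set V' : ℝ := VV k M z / VV 1 M z with hV'
  have hV'0 : 0 < V' := div_pos hVk hV
  have hVV : V' * VV 1 M z = VV k M z := div_mul_cancel₀ _ hV.ne'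
  have h1 : ∀ i, V' * (Lam (QQ M J1 J2) * NN M (r i) z ∅ (g 1) X') ≤
      Lam (QQ M J1 J2) * NN M (r i) z (S i) (g 1) X' +
        2 * (η₁ * Lam (QQ M J1 J2) * ((X' : ℝ) / M) * VV k M z) := by
    intro i
    have a1 := (abs_le.1 (hcore i)).2
    have a2 := (abs_le.1 (hcoreS i)).1
    rw [hVQ, one_mul] at a1
    rw [hVQS i] at a2
    have a3 : V' * (Lam (QQ M J1 J2) * NN M (r i) z ∅ (g 1) X') ≤
        V' * (∑ q ∈ QQ M J1 J2, NN M (r i) z ∅ (g 0) (X' / q) +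
          η₁ * Lam (QQ M J1 J2) * ((X' : ℝ) / M) * VV 1 M z) := by
      apply mul_le_mul_of_nonneg_left _ hV'0.le
      linarith
    have a4 : V' * (η₁ * Lam (QQ M J1 J2) * ((X' : ℝ) / M) * VV 1 M z) =
        η₁ * Lam (QQ M J1 J2) * ((X' : ℝ) / M) * VV k M z := by
      rw [← hVV]; ring
    rw [mul_add, a4] at a3
    linarith
  have h2 : V' * (Lam (QQ M J1 J2) * GG M z r g 1 X') ≤
      Lam (QQ M J1 J2) * ∑ i, NN M (r i) z (S i) (g 1) X' +
        L * (2 * (η₁ * Lam (QQ M J1 J2) * ((X' : ℝ) / M) * VV k M z)) := by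
    unfold GG
    rw [mul_sum, mul_sum, mul_sum]
    calc ∑ i, V' * (Lam (QQ M J1 J2) * NN M (r i) z ∅ (g 1) X') ≤
        ∑ i : Fin L, (Lam (QQ M J1 J2) * NN M (r i) z (S i) (g 1) X' +
          2 * (η₁ * Lam (QQ M J1 J2) * ((X' : ℝ) / M) * VV k M z)) := sum_le_sum fun i _ => h1 i
      _ = _ := by
        rw [sum_add_distrib, sum_const, card_univ, Fintype.card_fin, nsmul_eq_mul]
  have h3 : (V' * Lam (QQ M J1 J2)) * GG M z r g 1 X' ≤
      (V' * Lam (QQ M J1 J2)) * ((c + 2 * η₁) * L * ((X' : ℝ) / M) * VV 1 M z) := by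
    have h4 := mul_le_mul_of_nonneg_left hT hΛ.le
    have h5 : (V' * Lam (QQ M J1 J2)) * ((c + 2 * η₁) * L * ((X' : ℝ) / M) * VV 1 M z) =
        Lam (QQ M J1 J2) * (c * L * ((X' : ℝ) / M) * VV k M z) +
          L * (2 * (η₁ * Lam (QQ M J1 J2) * ((X' : ℝ) / M) * VV k M z)) := by
      rw [← hVV]; ring
    rw [h5]
    linarith
  exact le_of_mul_le_mul_left h3 (mul_pos hV'0 hΛ)

end CLO

open CLO in
/-- CLOSE. -/
theorem specCLOSE (hCORE : SpecCORE) (hLAM : SpecLAM) : SpecCLOSE := by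
  intro L m S k σ η hL hm hσ hη hk hS
  have hmR : (0 : ℝ) < m := by exact_mod_cast (by omega : 0 < m)
  set η₁ : ℝ := η / (8 * m) with hη₁
  have hη₁p : 0 < η₁ := by positivity
  choose P0 B hcore using fun i => hCORE (S i) η₁ hη₁p (hS i)
  obtain ⟨P0e, Be, hcoree⟩ := hCORE ∅ η₁ hη₁p (fun s hs => absurd hs (Finset.notMem_empty s))
  refine ⟨univ.sup P0 + P0e + 2 * k + 2, fun M hM => ?_⟩
  have i0 : Fin L := ⟨0, by omega⟩
  have hM1 : 1 ≤ M := (hM i0).1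
  have hMi : ∀ i, Good (S i) (P0 i) M := fun i =>
    Base.Good.mono (hM i) (by have := Finset.le_sup (f := P0) (mem_univ i); omega)
  have hMe : Good ∅ P0e M := Base.Good.mono (Base.Good.empty (hM i0)) (by omega)
  choose K z0 hcore2 using fun i => hcore i M (hMi i)
  obtain ⟨Ke, z0e, hcoree2⟩ := hcoree M hMe
  -- the constant of LAM
  set B' : ℝ := ∑ i, |B i| + |Be| + 1 with hB'
  have hBi : ∀ i, B i ≤ B' := by
    intro i
    have h1 : |B i| ≤ ∑ i, |B i| := Finset.single_le_sum (f := fun i => |B i|) (fun i _ => abs_nonneg _) (mem_univ i)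
    have h2 := le_abs_self (B i)
    have h3 := abs_nonneg Be
    rw [hB']
    linarith
  have hBe : Be ≤ B' := by
    have h1 : 0 ≤ ∑ i, |B i| := sum_nonneg fun i _ => abs_nonneg _
    have h2 := le_abs_self Be
    rw [hB']
    linarith
  have hB1 : 1 ≤ B' := by
    have h1 : 0 ≤ ∑ i, |B i| := sum_nonneg fun i _ => abs_nonneg _
    have h3 := abs_nonneg Be
    rw [hB']
    linarith
  obtain ⟨A0, J0, hA0⟩ := hLAM M B' hM1
  -- make `A ≥ 1`
  obtain ⟨A, hA1, hA⟩ : ∃ A : ℕ, 1 ≤ A ∧ ∀ J : ℕ, J0 ≤ J → B' ≤ Lam (QQ M J (A * J)) := by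
    refine ⟨A0 + 1, by omega, fun J hJ => (hA0 J hJ).trans ?_⟩
    unfold Lam
    apply sum_le_sum_of_subset_of_nonneg
    · intro q hq
      unfold QQ at hq ⊢
      rw [mem_filter, mem_Ioc] at hq ⊢
      refine ⟨⟨hq.1.1, hq.1.2.trans (Nat.pow_le_pow_right (by norm_num) (Nat.mul_le_mul_right _ (by omega)))⟩, hq.2⟩
    · intro i _ _
      positivity
  set K' : ℕ := univ.sup K + Ke with hK'
  set BB : ℕ := 16 * A + K' + 4 * A * m with hBB
  refine ⟨BB, univ.sup z0 + z0e + 2 ^ J0 + 2, fun z hz X r g hX hg01 hper hgq hdens => ?_⟩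
  have h2J0 : 0 < 2 ^ J0 := Nat.pow_pos (by norm_num)
  have hz2 : 2 ≤ z := by omega
  have hz0i : ∀ i, z0 i ≤ z := fun i => by have := Finset.le_sup (f := z0) (mem_univ i); omega
  obtain ⟨hs1, hs2⟩ := scale A z hz2
  set J1 := Nat.clog 2 z with hJ1
  set J2 := A * J1 with hJ2
  have hJ01 : J0 ≤ J1 := by
    have h1 : 2 ^ J0 ≤ 2 ^ J1 := by omega
    exact (Nat.pow_le_pow_iff_right (by norm_num)).1 h1
  have hJ11 : 1 ≤ J1 := Nat.clog_pos (by norm_num) hz2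
  have hJ21 : 1 ≤ J2 := Nat.mul_pos hA1 hJ11
  have hΛB : B' ≤ Lam (QQ M J1 J2) := hA J1 hJ01
  have hΛ : 0 < Lam (QQ M J1 J2) := by linarith
  have hV : 0 < VV 1 M z := Base.VV_pos fun p hp hpM => by
    have := (hM i0).2 p hp hpM
    omega
  have hVk : 0 < VV k M z := Base.VV_pos fun p hp hpM => by
    have := (hM i0).2 p hp hpM
    omega
  have hMR : (0 : ℝ) < M := by exact_mod_cast (by omega : 0 < M)
  have hLR : (0 : ℝ) < L := by exact_mod_cast (by omega : 0 < L)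
  set W : ℕ := 2 ^ (J2 + 1) with hW
  have hWz : W ≤ z ^ (4 * A) := by
    calc W ≤ 2 ^ (2 * J2) := Nat.pow_le_pow_right (by norm_num) (by omega)
      _ = (2 ^ J2) ^ 2 := by rw [mul_comm, pow_mul]
      _ ≤ (z ^ (2 * A)) ^ 2 := Nat.pow_le_pow_left hs2 2
      _ = z ^ (4 * A) := by rw [← pow_mul]; congr 1; ring
  have hWm : W ^ m ≤ z ^ (4 * A * m) := by
    calc W ^ m ≤ (z ^ (4 * A)) ^ m := Nat.pow_le_pow_left hWz m
      _ = z ^ (4 * A * m) := by rw [← pow_mul]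
  have hW1 : 1 ≤ W := Nat.one_le_two_pow
  have hWmpos : 0 < W ^ m := Nat.pow_pos (by omega)
  -- the scales
  have hscale : ∀ t X' : ℕ, t ≤ m → X ≤ X' * W ^ t → 2 ^ (8 * J2) * z ^ K' ≤ X' := by
    intro t X' ht hX'
    have h1 : X ≤ X' * W ^ m := hX'.trans (Nat.mul_le_mul_left _ (Nat.pow_le_pow_right hW1 ht))
    have h2 : (2 ^ (8 * J2) * z ^ K') * W ^ m ≤ X' * W ^ m := by
      calc (2 ^ (8 * J2) * z ^ K') * W ^ m ≤ (z ^ (16 * A) * z ^ K') * z ^ (4 * A * m) := by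
            apply Nat.mul_le_mul _ hWm
            apply Nat.mul_le_mul_right
            calc 2 ^ (8 * J2) = (2 ^ J2) ^ 8 := by rw [mul_comm, pow_mul]
              _ ≤ (z ^ (2 * A)) ^ 8 := Nat.pow_le_pow_left hs2 8
              _ = z ^ (16 * A) := by rw [← pow_mul]; congr 1; ring
        _ = z ^ BB := by rw [← pow_add, ← pow_add]
        _ ≤ X := hX
        _ ≤ X' * W ^ m := h1
    exact Nat.le_of_mul_le_mul_right h2 hWmpos
  have hz1 : 1 ≤ z := by omega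
  have hscale1 : ∀ t X' : ℕ, t ≤ m → X ≤ X' * W ^ t → 2 ^ J2 ≤ X' := by
    intro t X' ht hX'
    refine le_trans ?_ (hscale t X' ht hX')
    calc 2 ^ J2 ≤ 2 ^ (8 * J2) := Nat.pow_le_pow_right (by norm_num) (by omega)
      _ = 2 ^ (8 * J2) * 1 := (mul_one _).symm
      _ ≤ 2 ^ (8 * J2) * z ^ K' := Nat.mul_le_mul_left _ (Nat.one_le_pow _ _ hz1)
  -- CORE at the scales
  have habs : ∀ a n, |g a n| ≤ 1 := fun a n => by
    rw [abs_of_nonneg (hg01 a n).1]; exact (hg01 a n).2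
  have hshift : ∀ a, ∀ q ∈ QQ M J1 J2, ∀ n, 1 ≤ n → g (a + 1) (q * n) = g a n := by
    intro a q hq n hn
    obtain ⟨q1, q2, q3, q4⟩ := Base.mem_QQ hq
    refine hgq q q1 (lt_of_le_of_lt hs1 q3) (q4.trans (hs2.trans ?_)) a n hn
    exact Nat.pow_le_pow_right hz1 (by rw [hBB]; omega)
  have hCe : ∀ t X' a : ℕ, t ≤ m → X ≤ X' * W ^ t → ∀ i, |Lam (QQ M J1 J2) * NN M (r i) z ∅ (g (a + 1)) X' -
      VQ ∅ M z * ∑ q ∈ QQ M J1 J2, NN M (r i) z ∅ (g a) (X' / q)| ≤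
        η₁ * Lam (QQ M J1 J2) * ((X' : ℝ) / M) * VV 1 M z := by
    intro t X' a ht hX' i
    have h := hcoree2 z (by omega) J1 J2 hs1 (hBe.trans hΛB) X' (r i) ?_ (g (a + 1)) (g a) (habs _) (habs _)
      (hshift a)
    · rw [card_empty, zero_add] at h
      exact h
    · refine le_trans ?_ (hscale t X' ht hX')
      exact Nat.mul_le_mul_left _ (Nat.pow_le_pow_right hz1 (by omega))
  have hCS : ∀ t X' : ℕ, t ≤ m → X ≤ X' * W ^ t → ∀ i, |Lam (QQ M J1 J2) * NN M (r i) z (S i) (g 1) X' -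
      VQ (S i) M z * ∑ q ∈ QQ M J1 J2, NN M (r i) z ∅ (g 0) (X' / q)| ≤
        η₁ * Lam (QQ M J1 J2) * ((X' : ℝ) / M) * VV k M z := by
    intro t X' ht hX' i
    have h := hcore2 i z (hz0i i) J1 J2 hs1 ((hBi i).trans hΛB) X' (r i) ?_ (g 1) (g 0) (habs _) (habs _)
      (hshift 0)
    · rw [hk i] at h
      exact h
    · refine le_trans ?_ (hscale t X' ht hX')
      refine Nat.mul_le_mul_left _ (Nat.pow_le_pow_right hz1 ?_)
      have := Finset.le_sup (f := K) (mem_univ i)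
      omega
  -- the contradiction
  by_contra hcon
  push Not at hcon
  set c : ℝ := σ / m - η / 2 with hc
  have hη₁m : 2 * η₁ ≤ η / 2 := by
    rw [hη₁]
    have h1 : (1 : ℝ) ≤ m := by exact_mod_cast hm
    have h2 : η / (8 * m) ≤ η / 8 := by
      apply div_le_div_of_nonneg_left hη.le (by norm_num) (by linarith)
    linarith
  have hbase : ∀ X' : ℕ, X' ≤ X → X ≤ X' * W ^ m → GG M z r g 1 X' ≤ c * L * ((X' : ℝ) / M) * VV 1 M z := by
    intro X' h1 h2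
    have h3 := hcon X' h1 (h2.trans (Nat.mul_le_mul_left _ (hWm.trans (Nat.pow_le_pow_right hz1 (by rw [hBB]; omega)))))
    have h4 := transfer (η₁ := η₁) (c := σ / m - η) hV hVk hk hΛ (hCe m X' 0 le_rfl h2) (hCS m X' le_rfl h2) h3.le
    refine h4.trans ?_
    have h5 : 0 ≤ L * ((X' : ℝ) / M) * VV 1 M z := by positivity
    nlinarith
  have hX0 : 0 < X := by
    have : 0 < z ^ BB := Nat.pow_pos (by omega)
    omega
  have hXR : (0 : ℝ) < X := by exact_mod_cast hX0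
  have hGnn : ∀ a X', 0 ≤ GG M z r g a X' := fun a X' =>
    sum_nonneg fun i _ => NN_nonneg fun n => (hg01 a n).1
  have hXX : ∀ t, X ≤ X * W ^ t := fun t => Nat.le_mul_of_pos_right _ (Nat.pow_pos (by omega))
  have hc0 : 0 ≤ c := by
    have h1 := (hGnn 1 X).trans (hbase X le_rfl (hXX m))
    have h2 : 0 < L * ((X : ℝ) / M) * VV 1 M z := by positivity
    by_contra hneg
    push Not at hneg
    nlinarith
  -- the induction
  have hind : ∀ t : ℕ, t + 1 ≤ m → ∀ X' : ℕ, X' ≤ X → X ≤ X' * W ^ (m - (t + 1)) →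
      GG M z r g (t + 1) X' ≤ (c + t * η₁) * L * ((X' : ℝ) / M) * VV 1 M z := by
    intro t
    induction t with
    | zero =>
      intro _ X' h1 h2
      have h3 := hbase X' h1 (h2.trans (Nat.mul_le_mul_left _ (Nat.pow_le_pow_right hW1 (by omega))))
      simpa using h3
    | succ t ih =>
      intro ht X' h1 h2
      have h3 := step (a := t + 1) (c := c + t * η₁) (η₁ := η₁) (X' := X') (r := r) (g := g) (J1 := J1) (J2 := J2)
        (by positivity) hV hΛ (hCe _ X' (t + 1) (by omega) h2) (fun q hq => ?_)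
      · refine h3.trans (le_of_eq ?_)
        push_cast
        ring
      · obtain ⟨q1, q2, q3, q4⟩ := Base.mem_QQ hq
        have h4 := hscale1 _ X' (by omega) h2
        obtain ⟨h5, h6⟩ := div_range (X := X) (X' := X') (W := W) (t := m - (t + 1 + 1)) (q := q) (J := J2) hW
          q1.one_lt.le q4 (q4.trans h4) h1 h2
        refine ih (by omega) (X' / q) h5 ?_
        have h7 : m - (t + 1 + 1) + 1 = m - (t + 1) := by omega
        rwa [h7] at h6
  -- the sum over the classes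
  have hsum : ∑ a ∈ range m, GG M z r g a X = ∑ t ∈ range m, GG M z r g (t + 1) X := by
    have h1 := Finset.sum_range_succ (fun a => GG M z r g a X) m
    have h2 := Finset.sum_range_succ' (fun a => GG M z r g a X) m
    have h3 : GG M z r g m X = GG M z r g 0 X := by
      have h4 : g m = g 0 := by
        funext n
        have := hper 0 n
        rwa [zero_add] at this
      unfold GG
      rw [h4]
    rw [h1] at h2
    rw [h3] at h2
    linarith
  have hup : ∑ t ∈ range m, GG M z r g (t + 1) X ≤ m * ((c + m * η₁) * L * ((X : ℝ) / M) * VV 1 M z) := by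
    calc ∑ t ∈ range m, GG M z r g (t + 1) X ≤ ∑ _t ∈ range m, (c + m * η₁) * L * ((X : ℝ) / M) * VV 1 M z := by
          refine sum_le_sum fun t ht => ?_
          rw [mem_range] at ht
          refine (hind t (by omega) X le_rfl (hXX _)).trans ?_
          have h5 : 0 ≤ L * ((X : ℝ) / M) * VV 1 M z := by positivity
          have h6 : (t : ℝ) * η₁ ≤ m * η₁ := by
            apply mul_le_mul_of_nonneg_right _ hη₁p.le
            exact_mod_cast ht.le
          nlinarith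
      _ = _ := by rw [sum_const, card_range, nsmul_eq_mul]
  have hlow : L * (σ * ((X : ℝ) / M) * VV 1 M z) ≤ ∑ a ∈ range m, GG M z r g a X := by
    unfold GG
    rw [sum_comm]
    calc L * (σ * ((X : ℝ) / M) * VV 1 M z) = ∑ _i : Fin L, σ * ((X : ℝ) / M) * VV 1 M z := by
          rw [sum_const, card_univ, Fintype.card_fin, nsmul_eq_mul]
      _ ≤ _ := sum_le_sum fun i _ => hdens i X le_rfl (Nat.le_mul_of_pos_right _ (Nat.pow_pos (by omega)))
  rw [hsum] at hlow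
  have hfin := hlow.trans hup
  have hQ : 0 < L * ((X : ℝ) / M) * VV 1 M z := by positivity
  have h1 : σ * (L * ((X : ℝ) / M) * VV 1 M z) ≤ (m * (c + m * η₁)) * (L * ((X : ℝ) / M) * VV 1 M z) := by
    nlinarith
  have h2 : σ ≤ m * (c + m * η₁) := le_of_mul_le_mul_right h1 hQ
  have h3 : (m : ℝ) * (c + m * η₁) = σ - m * η / 2 + m * (m * η₁) := by
    rw [hc]
    field_simp
  have h4 : (m : ℝ) * η₁ = η / 8 := by
    rw [hη₁]
    field_simp
  rw [h3, h4] at h2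
  nlinarith [mul_pos hmR hη]

end Pool.Agent.Lib.MP_3efbeb_nt.DL
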