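import Pool.Agent.Lib.MP_3efbeb_nt.DL.GEA
import Pool.Agent.Lib.MP_3efbeb_nt.DL.CLOSE

/-!
# MP_3efbeb_nt, DL, module GE (helper15): the classes have the same density in the rough numbers, at every `X`
-/

set_option autoImplicit false

namespace Pool.Agent.Lib.MP_3efbeb_nt.DL

open Finset Filter Topology
open scoped Classical

namespace GEM

lemma NN_mono {M r z : ℕ} {g : ℕ → ℝ} (h0 : ∀ n, 0 ≤ g n) {X Y : ℕ} (h : X ≤ Y) :
    NN M r z ∅ g X ≤ NN M r z ∅ g Y := by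
  unfold NN
  apply sum_le_sum_of_subset_of_nonneg
  · intro n hn
    unfold W1 at hn ⊢
    rw [mem_filter, mem_Icc] at hn ⊢
    exact ⟨⟨hn.1.1, hn.1.2.trans h⟩, hn.2⟩
  · intro i _ _
    exact h0 i

lemma NN_le_card {M r z : ℕ} {g : ℕ → ℝ} (h1 : ∀ n, g n ≤ 1) (X : ℕ) :
    NN M r z ∅ g X ≤ ((W1 M r z ∅ 1 X).card : ℝ) := by
  unfold NN
  calc ∑ m ∈ W1 M r z ∅ 1 X, g m ≤ ∑ _m ∈ W1 M r z ∅ 1 X, (1 : ℝ) := sum_le_sum fun m _ => h1 m
    _ = _ := by rw [sum_const, nsmul_eq_mul, mul_one]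

/-- the combination of the four estimates -/
lemma combine {Λ1 Λ2 F2 F1 S1 S2 D1 η₁ δ' NX : ℝ} (h1 : 0 < Λ1) (h2 : 0 < Λ2)
    (i1 : |Λ2 * F2 - S1| ≤ η₁ * Λ2 * NX) (i2 : |Λ1 * S1 - D1| ≤ η₁ * Λ1 * Λ2 * NX)
    (i3 : |Λ2 * F1 - S2| ≤ η₁ * Λ2 * NX) (i4 : |D1 - Λ1 * S2| ≤ δ' * NX * Λ1 * Λ2) :
    |F2 - F1| ≤ (3 * η₁ + δ') * NX := by
  have j1 : |Λ1 * (Λ2 * F2 - S1)| ≤ Λ1 * (η₁ * Λ2 * NX) := by
    rw [abs_mul, abs_of_pos h1]
    exact mul_le_mul_of_nonneg_left i1 h1.le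
  have j3 : |Λ1 * (Λ2 * F1 - S2)| ≤ Λ1 * (η₁ * Λ2 * NX) := by
    rw [abs_mul, abs_of_pos h1]
    exact mul_le_mul_of_nonneg_left i3 h1.le
  have j5 : |Λ1 * Λ2 * (F2 - F1)| ≤ Λ1 * Λ2 * ((3 * η₁ + δ') * NX) := by
    have e : Λ1 * Λ2 * (F2 - F1) = Λ1 * (Λ2 * F2 - S1) + (Λ1 * S1 - D1) + (D1 - Λ1 * S2) -
        Λ1 * (Λ2 * F1 - S2) := by ring
    rw [e, abs_le]
    rw [abs_le] at j1 j3 i2 i4
    constructor <;> nlinarith [j1.1, j1.2, j3.1, j3.2, i2.1, i2.2, i4.1, i4.2]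
  rw [abs_mul, abs_of_pos (mul_pos h1 h2)] at j5
  exact le_of_mul_le_mul_left j5 (mul_pos h1 h2)

end GEM

open GEM in
/-- GE. -/
theorem specGE (hC1 : SpecC1) (hVLP : SpecVLP) (hCORE : SpecCORE) (hLAM : SpecLAM) : SpecGE := by
  intro m η hm hη
  have hmR : (0 : ℝ) < m := by exact_mod_cast (by omega : 0 < m)
  set η₁ : ℝ := η / (6 * m) with hη₁
  have hη₁p : 0 < η₁ := by positivity
  set δ : ℝ := min (1 / 4) (η / (36 * m)) with hδd
  have hδ : 0 < δ := lt_min (by norm_num) (by positivity)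
  have hδ1 : δ ≤ 1 / 4 := min_le_left _ _
  have hδ2 : δ ≤ η / (36 * m) := min_le_right _ _
  obtain ⟨P0, Bc, hcore⟩ := hCORE ∅ η₁ hη₁p (fun s hs => absurd hs (Finset.notMem_empty s))
  refine ⟨P0 + 2, fun M hM => ?_⟩
  have hM1 : 1 ≤ M := hM.1
  obtain ⟨K, z0, hcore2⟩ := hcore M (Base.Good.mono hM (by omega))
  obtain ⟨K1, z1, hz12, hc1⟩ := Base.c1 hC1 ∅ (1 / 2) (by norm_num)
  have hk2 : ∀ p : ℕ, p.Prime → ¬ p ∣ M → 2 * 1 ≤ p := fun p hp _ => by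
    have := hp.two_le
    omega
  obtain ⟨z2, hvlp⟩ := hVLP 1 M 1 hM1 hk2
  obtain ⟨U1, hshift⟩ := shift hM1 hδ hδ1
  obtain ⟨A0, J0, hA0⟩ := hLAM M (max Bc 1) hM1
  obtain ⟨A, hA1, hA⟩ : ∃ A : ℕ, 1 ≤ A ∧ ∀ J : ℕ, J0 ≤ J → max Bc 1 ≤ Lam (QQ M J (A * J)) := by
    refine ⟨A0 + 1, by omega, fun J hJ => (hA0 J hJ).trans ?_⟩
    unfold Lam
    apply sum_le_sum_of_subset_of_nonneg
    · intro q hq
      unfold QQ at hq ⊢
      rw [mem_filter, mem_Ioc] at hq ⊢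
      refine ⟨⟨hq.1.1, hq.1.2.trans (Nat.pow_le_pow_right (by norm_num) (Nat.mul_le_mul_right _ (by omega)))⟩, hq.2⟩
    · intro i _ _
      positivity
  set D : ℕ := ⌈54 / δ⌉₊ with hD
  have hDR : 54 / δ ≤ D := Nat.le_ceil _
  have hD1 : 1 ≤ D := by
    have : (0 : ℝ) < D := lt_of_lt_of_le (by positivity) hDR
    exact_mod_cast this
  set G : ℕ := A * (D * A) with hG
  have hG1 : A ≤ G := by
    rw [hG]
    exact Nat.le_mul_of_pos_right _ (Nat.mul_pos hD1 hA1)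
  set BB : ℕ := 20 * G + 20 * A + K + K1 + 4 with hBB
  refine ⟨BB, z0 + z1 + z2 + 2 * M + 2 ^ (J0 + U1) + 2, fun z hz X r g hX hg01 hper hgq => ?_⟩
  have h2J0 : 0 < 2 ^ (J0 + U1) := Nat.pow_pos (by norm_num)
  have hz2 : 2 ≤ z := by omega
  have hz1 : 1 ≤ z := by omega
  obtain ⟨hs1, hs2⟩ := CLO.scale A z hz2
  obtain ⟨_, hs3⟩ := CLO.scale G z hz2
  set J1 := Nat.clog 2 z with hJ1
  have hJ01 : J0 + U1 ≤ J1 := by
    have h1 : 2 ^ (J0 + U1) ≤ 2 ^ J1 := by omega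
    exact (Nat.pow_le_pow_iff_right (by norm_num)).1 h1
  have hJ11 : 1 ≤ J1 := Nat.clog_pos (by norm_num) hz2
  set J2 := A * J1 with hJ2
  have hJ12 : J1 ≤ J2 := Nat.le_mul_of_pos_left _ hA1
  set J3 := D * J2 with hJ3
  have hJ23 : J2 ≤ J3 := Nat.le_mul_of_pos_left _ hD1
  set J4 := A * J3 with hJ4
  have hJ4G : J4 = G * J1 := by rw [hJ4, hJ3, hJ2, hG]; ring
  rw [← hJ4G] at hs3
  have hΛ1 : max Bc 1 ≤ Lam (QQ M J1 J2) := hA J1 (by omega)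
  have hΛ2 : max Bc 1 ≤ Lam (QQ M J3 J4) := hA J3 (by omega)
  have hV : 0 < VV 1 M z := Base.VV_pos hk2
  have hMR : (0 : ℝ) < M := by exact_mod_cast (by omega : 0 < M)
  set Λ1 := Lam (QQ M J1 J2) with hΛ1d
  set Λ2 := Lam (QQ M J3 J4) with hΛ2d
  have hΛ1' : 1 ≤ Λ1 := (le_max_right _ _).trans hΛ1
  have hΛ2' : 1 ≤ Λ2 := (le_max_right _ _).trans hΛ2
  have hΛ1c : Bc ≤ Λ1 := (le_max_left _ _).trans hΛ1
  have hΛ2c : Bc ≤ Λ2 := (le_max_left _ _).trans hΛ2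
  set NX : ℝ := (X : ℝ) / M * VV 1 M z with hNX
  have hNX0 : 0 ≤ NX := by positivity
  -- CORE
  have hshiftg : ∀ a J J' : ℕ, z ≤ 2 ^ J → 2 ^ J' ≤ z ^ BB → ∀ q ∈ QQ M J J', ∀ n, 1 ≤ n →
      g (a + 1) (q * n) = g a n := by
    intro a J J' hJ hJ' q hq n hn
    obtain ⟨q1, q2, q3, q4⟩ := Base.mem_QQ hq
    exact hgq q q1 (lt_of_le_of_lt hJ q3) (q4.trans hJ') a n hn
  have habs : ∀ a n, |g a n| ≤ 1 := fun a n => by
    rw [abs_of_nonneg (hg01 a n).1]; exact (hg01 a n).2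
  have hVQ : VQ ∅ M z = 1 := by
    unfold VQ
    rw [card_empty, zero_add, div_self hV.ne']
  have hCe : ∀ (J J' a Y : ℕ), z ≤ 2 ^ J → 2 ^ J' ≤ z ^ BB → Bc ≤ Lam (QQ M J J') → 2 ^ (8 * J') * z ^ K ≤ Y →
      |Lam (QQ M J J') * NN M r z ∅ (g (a + 1)) Y - ∑ q ∈ QQ M J J', NN M r z ∅ (g a) (Y / q)| ≤
        η₁ * Lam (QQ M J J') * ((Y : ℝ) / M * VV 1 M z) := by
    intro J J' a Y hJ hJ' hB hY
    have h := hcore2 z (by omega) J J' hJ hB Y r hY (g (a + 1)) (g a) (habs _) (habs _) (hshiftg a J J' hJ hJ')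
    rw [hVQ, one_mul, card_empty, zero_add] at h
    refine h.trans (le_of_eq ?_)
    ring
  -- the scales
  have hs2' : 2 ^ J2 ≤ z ^ BB := hs2.trans (Nat.pow_le_pow_right hz1 (by omega))
  have hs3' : 2 ^ J4 ≤ z ^ BB := hs3.trans (Nat.pow_le_pow_right hz1 (by omega))
  have hzJ3 : z ≤ 2 ^ J3 := hs1.trans (Nat.pow_le_pow_right (by norm_num) (hJ12.trans hJ23))
  have hX4 : 2 ^ (8 * J4) * z ^ K ≤ X := by
    refine le_trans ?_ hX
    calc 2 ^ (8 * J4) * z ^ K = (2 ^ J4) ^ 8 * z ^ K := by rw [mul_comm 8 J4, pow_mul]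
      _ ≤ (z ^ (2 * G)) ^ 8 * z ^ K := Nat.mul_le_mul_right _ (Nat.pow_le_pow_left hs3 8)
      _ = z ^ (16 * G + K) := by rw [← pow_mul, ← pow_add]; congr 1; ring
      _ ≤ z ^ BB := Nat.pow_le_pow_right hz1 (by omega)
  have hX2 : ∀ q ∈ QQ M J3 J4, 2 ^ (8 * J2) * z ^ K ≤ X / q := by
    intro q hq
    obtain ⟨q1, q2, q3, q4⟩ := Base.mem_QQ hq
    rw [Nat.le_div_iff_mul_le q1.pos]
    calc 2 ^ (8 * J2) * z ^ K * q ≤ 2 ^ (8 * J2) * z ^ K * 2 ^ J4 := Nat.mul_le_mul_left _ q4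
      _ = (2 ^ J2) ^ 8 * z ^ K * 2 ^ J4 := by rw [mul_comm 8 J2, pow_mul]
      _ ≤ (z ^ (2 * A)) ^ 8 * z ^ K * z ^ (2 * G) :=
        Nat.mul_le_mul (Nat.mul_le_mul_right _ (Nat.pow_le_pow_left hs2 8)) hs3
      _ = z ^ (16 * A + K + 2 * G) := by rw [← pow_mul, ← pow_add, ← pow_add]; congr 2; ring
      _ ≤ z ^ BB := Nat.pow_le_pow_right hz1 (by omega)
      _ ≤ X := hX
  -- the bound for the counts
  have hbd : ∀ a : ℕ, ∀ v : ℝ, 1 ≤ v → v ≤ (2 : ℝ) ^ (J4 + 2 * J2) →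
      v * NN M r z ∅ (g a) ⌊(X : ℝ) / v⌋₊ ≤ 2 * NX := by
    intro a v hv hv2
    have hv0 : 0 < v := by linarith
    have h1 := NN_le_card (M := M) (r := r) (z := z) (fun n => (hg01 a n).2) ⌊(X : ℝ) / v⌋₊
    have h2 := (abs_le.1 (hc1 M r z 1 ⌊(X : ℝ) / v⌋₊ (Base.Good.mono hM (by rw [card_empty]; omega)) (by omega)
      (Base.rgh_one M z))).2
    rw [card_empty, zero_add] at h2
    have h3 : ((⌊(X : ℝ) / v⌋₊ : ℕ) : ℝ) ≤ (X : ℝ) / v := Nat.floor_le (by positivity)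
    have h4 : ((⌊(X : ℝ) / v⌋₊ : ℕ) : ℝ) / M * VV 1 M z ≤ NX / v := by
      rw [hNX]
      have : ((⌊(X : ℝ) / v⌋₊ : ℕ) : ℝ) / M * VV 1 M z ≤ ((X : ℝ) / v) / M * VV 1 M z := by gcongr
      refine this.trans (le_of_eq ?_)
      ring
    -- `z^K1 v ≤ NX / 2`
    have h5 : (z : ℝ) ^ K1 * v ≤ NX / 2 := by
      have hvz : v ≤ (z : ℝ) ^ (2 * G + 4 * A) := by
        refine hv2.trans ?_
        have h6 : 2 ^ (J4 + 2 * J2) ≤ z ^ (2 * G + 4 * A) := by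
          calc 2 ^ (J4 + 2 * J2) = 2 ^ J4 * (2 ^ J2) ^ 2 := by rw [pow_add, mul_comm 2 J2, pow_mul 2 J2 2]
            _ ≤ z ^ (2 * G) * (z ^ (2 * A)) ^ 2 := Nat.mul_le_mul hs3 (Nat.pow_le_pow_left hs2 2)
            _ = z ^ (2 * G + 4 * A) := by rw [← pow_mul, ← pow_add]; congr 1; ring
        exact_mod_cast h6
      have hzR : (0 : ℝ) < z := by exact_mod_cast (by omega : 0 < z)
      have hz1R : (1 : ℝ) ≤ z := by exact_mod_cast hz1
      have hVz : (z : ℝ)⁻¹ ≤ VV 1 M z := by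
        have h6 := hvlp z (by omega)
        rw [pow_one] at h6
        refine le_trans ?_ h6
        rw [← Real.rpow_neg_one]
        exact Real.rpow_le_rpow_of_exponent_le hz1R (by norm_num)
      have hXR : (z : ℝ) ^ BB ≤ X := by exact_mod_cast hX
      have h2M : (2 : ℝ) * M ≤ z := by exact_mod_cast (by omega : 2 * M ≤ z)
      rw [hNX, le_div_iff₀ (by norm_num : (0 : ℝ) < 2)]
      have h7 : (z : ℝ) ^ K1 * v * 2 * M ≤ (X : ℝ) * VV 1 M z := by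
        calc (z : ℝ) ^ K1 * v * 2 * M = (z : ℝ) ^ K1 * v * (2 * M) := by ring
          _ ≤ (z : ℝ) ^ K1 * (z : ℝ) ^ (2 * G + 4 * A) * z := by
            apply mul_le_mul _ h2M (by positivity) (by positivity)
            exact mul_le_mul_of_nonneg_left hvz (by positivity)
          _ = (z : ℝ) ^ (K1 + (2 * G + 4 * A) + 2) * (z : ℝ)⁻¹ := by
            have e : (z : ℝ) ^ (K1 + (2 * G + 4 * A) + 2) = (z : ℝ) ^ K1 * (z : ℝ) ^ (2 * G + 4 * A) * z * z := by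
              ring
            rw [e, mul_assoc _ (z : ℝ) (z : ℝ)⁻¹, mul_inv_cancel₀ hzR.ne', mul_one]
          _ ≤ (z : ℝ) ^ BB * (z : ℝ)⁻¹ := by
            apply mul_le_mul_of_nonneg_right _ (by positivity)
            exact pow_le_pow_right₀ hz1R (by omega)
          _ ≤ X * VV 1 M z := mul_le_mul hXR hVz (by positivity) (by positivity)
      calc (z : ℝ) ^ K1 * v * 2 = ((z : ℝ) ^ K1 * v * 2 * M) / M := by field_simp
        _ ≤ ((X : ℝ) * VV 1 M z) / M := div_le_div_of_nonneg_right h7 hMR.le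
        _ = (X : ℝ) / M * VV 1 M z := by ring
    have h8 : v * (((⌊(X : ℝ) / v⌋₊ : ℕ) : ℝ) / M * VV 1 M z) ≤ NX := by
      calc v * (((⌊(X : ℝ) / v⌋₊ : ℕ) : ℝ) / M * VV 1 M z) ≤ v * (NX / v) := mul_le_mul_of_nonneg_left h4 hv0.le
        _ = NX := mul_div_cancel₀ _ hv0.ne'
    have h9 : NN M r z ∅ (g a) ⌊(X : ℝ) / v⌋₊ ≤
        3 / 2 * (((⌊(X : ℝ) / v⌋₊ : ℕ) : ℝ) / M * VV 1 M z) + (z : ℝ) ^ K1 := by linarith
    calc v * NN M r z ∅ (g a) ⌊(X : ℝ) / v⌋₊ ≤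
        v * (3 / 2 * (((⌊(X : ℝ) / v⌋₊ : ℕ) : ℝ) / M * VV 1 M z) + (z : ℝ) ^ K1) :=
          mul_le_mul_of_nonneg_left h9 hv0.le
      _ = 3 / 2 * (v * (((⌊(X : ℝ) / v⌋₊ : ℕ) : ℝ) / M * VV 1 M z)) + (z : ℝ) ^ K1 * v := by ring
      _ ≤ 2 * NX := by linarith
  -- neighbours
  have hnb2 : ∀ a : ℕ, |NN M r z ∅ (g (a + 2)) X - NN M r z ∅ (g (a + 1)) X| ≤ (3 * η₁ + 18 * δ) * NX := by
    intro a
    have i1 := hCe J3 J4 (a + 1) X hzJ3 hs3' hΛ2c hX4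
    have i3 := hCe J3 J4 a X hzJ3 hs3' hΛ2c hX4
    have i2 : |Λ1 * (∑ q ∈ QQ M J3 J4, NN M r z ∅ (g (a + 1)) (X / q)) -
        ∑ q ∈ QQ M J3 J4, ∑ q' ∈ QQ M J1 J2, NN M r z ∅ (g a) (X / q / q')| ≤ η₁ * Λ1 * Λ2 * NX := by
      rw [mul_sum, ← sum_sub_distrib]
      refine (abs_sum_le_sum_abs _ _).trans ?_
      have e : η₁ * Λ1 * Λ2 * NX = ∑ q ∈ QQ M J3 J4, η₁ * Λ1 * NX * (1 / (q : ℝ)) := by
        rw [← mul_sum, hΛ2d]
        unfold Lam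
        ring
      rw [e]
      refine sum_le_sum fun q hq => ?_
      have h5 := hCe J1 J2 a (X / q) hs1 hs2' hΛ1c (hX2 q hq)
      refine h5.trans ?_
      have hq0 : (0 : ℝ) < q := by exact_mod_cast (Base.mem_QQ hq).1.pos
      have h6 : (((X / q : ℕ) : ℝ)) ≤ (X : ℝ) / q := Nat.cast_div_le
      have h7 : ((X / q : ℕ) : ℝ) / M * VV 1 M z ≤ NX * (1 / (q : ℝ)) := by
        rw [hNX]
        have : ((X / q : ℕ) : ℝ) / M * VV 1 M z ≤ ((X : ℝ) / q) / M * VV 1 M z := by gcongr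
        refine this.trans (le_of_eq ?_)
        ring
      calc η₁ * Lam (QQ M J1 J2) * (((X / q : ℕ) : ℝ) / M * VV 1 M z) ≤
          η₁ * Λ1 * (NX * (1 / (q : ℝ))) := mul_le_mul_of_nonneg_left h7 (by positivity)
        _ = η₁ * Λ1 * NX * (1 / (q : ℝ)) := by ring
    have i4 : |(∑ q ∈ QQ M J3 J4, ∑ q' ∈ QQ M J1 J2, NN M r z ∅ (g a) (X / q / q')) -
        Λ1 * ∑ q ∈ QQ M J3 J4, NN M r z ∅ (g a) (X / q)| ≤ (18 * δ) * NX * Λ1 * Λ2 := by
      rw [sum_comm]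
      have e1 : Λ1 * ∑ q ∈ QQ M J3 J4, NN M r z ∅ (g a) (X / q) =
          ∑ q' ∈ QQ M J1 J2, (1 / (q' : ℝ)) * ∑ q ∈ QQ M J3 J4, NN M r z ∅ (g a) (X / q) := by
        rw [← sum_mul, hΛ1d]
        unfold Lam
        rfl
      rw [e1, ← sum_sub_distrib]
      refine (abs_sum_le_sum_abs _ _).trans ?_
      have e2 : (18 * δ) * NX * Λ1 * Λ2 = ∑ q' ∈ QQ M J1 J2, (1 / (q' : ℝ)) * (9 * δ * (2 * NX) * Λ2) := by
        rw [← sum_mul, hΛ1d]
        unfold Lam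
        ring
      rw [e2]
      refine sum_le_sum fun q' hq' => ?_
      obtain ⟨q1, q2, q3, q4⟩ := Base.mem_QQ hq'
      have hq0 : (0 : ℝ) < q' := by exact_mod_cast q1.pos
      have h5 := hshift J2 J3 J4 q' (2 * NX) (fun v => NN M r z ∅ (g a) ⌊(X : ℝ) / v⌋₊) (by omega) (by omega) ?_
        hΛ2' q1.two_le q4 (by positivity) (fun v => CLO.NN_nonneg fun n => (hg01 a n).1) ?_ (hbd a)
      · have e3 : ∑ q ∈ QQ M J3 J4, NN M r z ∅ (g a) ⌊(X : ℝ) / (q : ℝ)⌋₊ =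
            ∑ q ∈ QQ M J3 J4, NN M r z ∅ (g a) (X / q) :=
          sum_congr rfl fun q _ => by rw [Nat.floor_div_eq_div]
        have e4 : ∑ q ∈ QQ M J3 J4, (q' : ℝ) * NN M r z ∅ (g a) ⌊(X : ℝ) / ((q' : ℝ) * q)⌋₊ =
            q' * ∑ q ∈ QQ M J3 J4, NN M r z ∅ (g a) (X / q / q') := by
          rw [mul_sum]
          refine sum_congr rfl fun q _ => ?_
          have e5 : (q' : ℝ) * q = ((q * q' : ℕ) : ℝ) := by push_cast; ring
          rw [e5, Nat.floor_div_eq_div, Nat.div_div_eq_div_mul]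
        rw [e3, e4, abs_sub_comm] at h5
        have e6 : ∑ q ∈ QQ M J3 J4, NN M r z ∅ (g a) (X / q / q') -
            (1 / (q' : ℝ)) * ∑ q ∈ QQ M J3 J4, NN M r z ∅ (g a) (X / q) =
            (1 / (q' : ℝ)) * (q' * ∑ q ∈ QQ M J3 J4, NN M r z ∅ (g a) (X / q / q') -
              ∑ q ∈ QQ M J3 J4, NN M r z ∅ (g a) (X / q)) := by
          field_simp
        rw [e6, abs_mul, abs_of_pos (by positivity : (0 : ℝ) < 1 / (q' : ℝ))]
        exact mul_le_mul_of_nonneg_left h5 (by positivity)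
      · have h6 : 54 ≤ δ * D := by
          rw [div_le_iff₀ hδ] at hDR
          linarith
        have h7 : (J3 : ℝ) = D * J2 := by rw [hJ3]; push_cast; ring
        rw [h7]
        have h8 : (0 : ℝ) ≤ J2 := Nat.cast_nonneg _
        nlinarith
      · intro v w hv hvw
        apply NN_mono fun n => (hg01 a n).1
        apply Nat.floor_le_floor
        exact div_le_div_of_nonneg_left (Nat.cast_nonneg _) hv hvw
    exact combine (by linarith) (by linarith) i1 i2 i3 i4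
  have hper' : ∀ a, g (a + m) = g a := fun a => funext fun n => hper a n
  have hnb : ∀ a : ℕ, |NN M r z ∅ (g (a + 1)) X - NN M r z ∅ (g a) X| ≤ (3 * η₁ + 18 * δ) * NX := by
    intro a
    have h1 := hnb2 (a + m - 1)
    have e1 : a + m - 1 + 2 = (a + 1) + m := by omega
    have e2 : a + m - 1 + 1 = a + m := by omega
    rw [e1, e2, hper', hper'] at h1
    exact h1
  have hθ0 : 0 ≤ (3 * η₁ + 18 * δ) * NX := by positivity
  have hdist : ∀ a k : ℕ, |NN M r z ∅ (g (a + k)) X - NN M r z ∅ (g a) X| ≤ k * ((3 * η₁ + 18 * δ) * NX) := by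
    intro a k
    induction k with
    | zero => simp
    | succ k ih =>
      have h1 := hnb (a + k)
      have e : NN M r z ∅ (g (a + (k + 1))) X - NN M r z ∅ (g a) X =
          (NN M r z ∅ (g (a + k + 1)) X - NN M r z ∅ (g (a + k)) X) +
          (NN M r z ∅ (g (a + k)) X - NN M r z ∅ (g a) X) := by
        rw [← add_assoc a k 1]
        ring
      rw [e]
      refine (abs_add_le _ _).trans ?_
      push_cast
      linarith
  have hmod : ∀ a, g a = g (a % m) := by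
    intro a
    have h1 : ∀ k b, g (b + m * k) = g b := by
      intro k
      induction k with
      | zero => intro b; simp
      | succ k ih =>
        intro b
        have e : b + m * (k + 1) = (b + m * k) + m := by ring
        rw [e, hper', ih]
    conv_lhs => rw [← Nat.mod_add_div a m]
    exact h1 _ _
  intro a b
  rw [hmod a, hmod b]
  have ha : a % m < m := Nat.mod_lt _ hm
  have hb : b % m < m := Nat.mod_lt _ hm
  have hfin : (m : ℝ) * ((3 * η₁ + 18 * δ) * NX) ≤ η * ((X : ℝ) / M) * VV 1 M z := by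
    have h1 : (m : ℝ) * (3 * η₁ + 18 * δ) ≤ η := by
      have h2 : (m : ℝ) * (3 * η₁) = η / 2 := by
        rw [hη₁]
        field_simp
        ring
      have h3 : (m : ℝ) * (18 * δ) ≤ η / 2 := by
        calc (m : ℝ) * (18 * δ) ≤ m * (18 * (η / (36 * m))) := by gcongr
          _ = η / 2 := by field_simp; ring
      linarith
    calc (m : ℝ) * ((3 * η₁ + 18 * δ) * NX) = (m * (3 * η₁ + 18 * δ)) * NX := by ring
      _ ≤ η * NX := mul_le_mul_of_nonneg_right h1 hNX0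
      _ = _ := by rw [hNX]; ring
  refine le_trans ?_ hfin
  rcases le_total (a % m) (b % m) with h | h
  · have h1 := hdist (a % m) (b % m - a % m)
    rw [Nat.add_sub_cancel' h] at h1
    rw [abs_sub_comm]
    refine h1.trans ?_
    apply mul_le_mul_of_nonneg_right _ hθ0
    exact_mod_cast (by omega : b % m - a % m ≤ m)
  · have h1 := hdist (b % m) (a % m - b % m)
    rw [Nat.add_sub_cancel' h] at h1
    refine h1.trans ?_
    apply mul_le_mul_of_nonneg_right _ hθ0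
    exact_mod_cast (by omega : a % m - b % m ≤ m)

end Pool.Agent.Lib.MP_3efbeb_nt.DL
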