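import Pool.Agent.Lib.MP_3efbeb_nt.DL.Base

/-!
# DL, module SM: second moment over `m`
-/

set_option autoImplicit false

namespace Pool.Agent.Lib.MP_3efbeb_nt.DL

open Finset Filter Topology
open scoped Classical

namespace SMM

open Base

/-- `1_q(m) - V'` -/
noncomputable def ff (M z : ℕ) (S : Finset ℤ) (q m : ℕ) : ℝ := (if cq M z S q m then (1 : ℝ) else 0) - VQ S M z

/-- C2 with a relative error and an absolute error `z ^ K` -/
lemma c2 (hC2 : SpecC2) (S : Finset ℤ) (η : ℝ) (hη : 0 < η) : ∃ K z0 : ℕ, 2 ≤ z0 ∧ ∀ M r z d d' Y : ℕ,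
    Good S (4 * (S.card + 1)) M → z0 ≤ z → Rgh M z d → Rgh M z d' → Del S d d' ≠ 0 →
    ((W2 M r z S d d' Y).card : ℝ) ≤ (1 + η) * ((Y : ℝ) / M) *
      (VV 1 M z * VQ S M z ^ 2 * hh (2 * (S.card + 1)) M (Del S d d')) + (z : ℝ) ^ K := by
  obtain ⟨C, hC⟩ := hC2 S
  obtain ⟨b, hb⟩ : ∃ b : ℕ, C * Real.exp (-(b : ℝ)) ≤ η := by
    have h1 : Filter.Tendsto (fun b : ℕ => C * Real.exp (-(b : ℝ))) Filter.atTop (nhds (C * 0)) :=
      (Real.tendsto_exp_neg_atTop_nhds_zero.comp tendsto_natCast_atTop_atTop).const_mul _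
    rw [mul_zero] at h1
    obtain ⟨b, hb⟩ := (h1.eventually (ge_mem_nhds hη)).exists
    exact ⟨b, hb⟩
  refine ⟨C * (b + 1) + 1, C + 2, by omega, fun M r z d d' Y hM hz hd hd' hD => ?_⟩
  have h := hC b M r z d d' Y hM (by omega) hd hd' hD
  have hV : 0 ≤ VV 1 M z := (VV_pos (Good.two_mul hM (by omega))).le
  have hH : 0 ≤ hh (2 * (S.card + 1)) M (Del S d d') := prod_nonneg fun p _ => by positivity
  have hY : 0 ≤ (Y : ℝ) / M := by positivity
  refine h.trans (add_le_add ?_ ?_)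
  · refine mul_le_mul_of_nonneg_right (mul_le_mul_of_nonneg_right (by linarith) hY) ?_
    exact mul_nonneg (mul_nonneg hV (sq_nonneg _)) hH
  · rw [pow_succ, mul_comm ((z : ℝ) ^ (C * (b + 1)))]
    refine mul_le_mul_of_nonneg_right ?_ (by positivity)
    exact_mod_cast (by omega : C ≤ z)

lemma hh_ge_one {A : ℝ} (hA : 0 ≤ A) (M : ℕ) (n : ℤ) : 1 ≤ hh A M n := by
  unfold hh
  have : ∀ p ∈ n.natAbs.primeFactors.filter (fun p => ¬ p ∣ M), (1 : ℝ) ≤ 1 + A / p := fun p _ => by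
    have : 0 ≤ A / (p : ℝ) := by positivity
    linarith
  calc (1 : ℝ) = ∏ _p ∈ n.natAbs.primeFactors.filter (fun p => ¬ p ∣ M), (1 : ℝ) := by simp
    _ ≤ _ := prod_le_prod (fun _ _ => zero_le_one) this

lemma VV_le {k M z : ℕ} (hk : 1 ≤ k) (h : ∀ p : ℕ, p.Prime → ¬ p ∣ M → 2 * k ≤ p) : VV k M z ≤ VV 1 M z := by
  unfold VV
  refine prod_le_prod (fun p hp => (fac_pos h hp).1.le) fun p hp => ?_
  have : (1 : ℝ) / p ≤ (k : ℝ) / p := div_le_div_of_nonneg_right (by exact_mod_cast hk) (by positivity)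
  push_cast
  linarith

/-- the pair sum -/
lemma pair_sum (M r z : ℕ) (S : Finset ℤ) (q q' Y : ℕ) :
    ∑ m ∈ W1 M r z ∅ 1 Y, ff M z S q m * ff M z S q' m = ((W2 M r z S q q' Y).card : ℝ)
      - VQ S M z * (((W1 M r z S q Y).card : ℝ) + ((W1 M r z S q' Y).card : ℝ))
      + VQ S M z ^ 2 * ((W1 M r z ∅ 1 Y).card : ℝ) := by
  have h1 : ∀ d, ((W1 M r z S d Y).card : ℝ) = ∑ m ∈ W1 M r z ∅ 1 Y, (if cq M z S d m then (1 : ℝ) else 0) := by
    intro d
    rw [← Finset.sum_filter, Finset.sum_const, nsmul_eq_mul, mul_one]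
    congr 2
    ext m
    rw [mem_W1, mem_filter]
  have h2 : ((W2 M r z S q q' Y).card : ℝ)
      = ∑ m ∈ W1 M r z ∅ 1 Y, (if cq M z S q m then (1 : ℝ) else 0) * (if cq M z S q' m then (1 : ℝ) else 0) := by
    have h3 : ∀ m, (if cq M z S q m then (1 : ℝ) else 0) * (if cq M z S q' m then (1 : ℝ) else 0)
        = if cq M z S q m ∧ cq M z S q' m then (1 : ℝ) else 0 := by
      intro m
      split_ifs <;> simp_all
    simp only [h3]
    rw [← Finset.sum_filter, Finset.sum_const, nsmul_eq_mul, mul_one]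
    congr 2
    ext m
    unfold W2 W1
    simp only [mem_filter]
    have e3 : cq M z ∅ 1 m := fun s hs => absurd hs (Finset.notMem_empty s)
    tauto
  rw [h2, h1 q, h1 q', mul_add, mul_sum, mul_sum]
  have h4 : VQ S M z ^ 2 * ((W1 M r z ∅ 1 Y).card : ℝ) = ∑ _m ∈ W1 M r z ∅ 1 Y, VQ S M z ^ 2 := by
    rw [Finset.sum_const, nsmul_eq_mul, mul_comm]
  rw [h4, ← sub_sub, ← Finset.sum_sub_distrib, ← Finset.sum_sub_distrib, ← Finset.sum_add_distrib]
  refine Finset.sum_congr rfl fun m _ => ?_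
  unfold ff
  ring

/-- the numbers `m` with `q m, q' m ≤ X` -/
lemma filter_eq {M r z X q q' : ℕ} (hq : 1 ≤ q) :
    (W1 M r z ∅ 1 X).filter (fun m => q * m ≤ X ∧ q' * m ≤ X) = W1 M r z ∅ 1 (X / max q q') := by
  have hmax : 1 ≤ max q q' := hq.trans (le_max_left _ _)
  ext m
  unfold W1
  simp only [mem_filter, mem_Icc]
  have h1 : q * m ≤ X ∧ q' * m ≤ X ↔ m ≤ X / max q q' := by
    rw [Nat.le_div_iff_mul_le (by omega), mul_comm m]
    constructor
    · rintro ⟨h1, h2⟩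
      rcases le_total q q' with h | h
      · rwa [max_eq_right h]
      · rwa [max_eq_left h]
    · intro h
      exact ⟨(Nat.mul_le_mul_right m (le_max_left q q')).trans h,
        (Nat.mul_le_mul_right m (le_max_right q q')).trans h⟩
  rw [h1]
  constructor
  · rintro ⟨⟨⟨h2, h3⟩, h4⟩, h5⟩
    exact ⟨⟨h2, h5⟩, h4⟩
  · rintro ⟨⟨h2, h5⟩, h4⟩
    exact ⟨⟨⟨h2, h5.trans (Nat.div_le_self _ _)⟩, h4⟩, h5⟩

/-- the second moment as a double sum -/
lemma expand (M r z : ℕ) (S : Finset ℤ) (B : Finset ℕ) (X : ℕ) (hB : ∀ q ∈ B, 1 ≤ q) :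
    ∑ m ∈ W1 M r z ∅ 1 X, (∑ q ∈ B.filter (fun q => q * m ≤ X), ff M z S q m) ^ 2
      = ∑ q ∈ B, ∑ q' ∈ B, ∑ m ∈ W1 M r z ∅ 1 (X / max q q'), ff M z S q m * ff M z S q' m := by
  have h1 : ∀ m, (∑ q ∈ B.filter (fun q => q * m ≤ X), ff M z S q m) ^ 2
      = ∑ q ∈ B, ∑ q' ∈ B, (if q * m ≤ X ∧ q' * m ≤ X then ff M z S q m * ff M z S q' m else 0) := by
    intro m
    rw [Finset.sum_filter, sq, Finset.sum_mul_sum]
    refine Finset.sum_congr rfl fun q _ => Finset.sum_congr rfl fun q' _ => ?_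
    split_ifs <;> simp_all
  simp only [h1]
  rw [Finset.sum_comm]
  refine Finset.sum_congr rfl fun q hq => ?_
  rw [Finset.sum_comm]
  refine Finset.sum_congr rfl fun q' _ => ?_
  rw [← Finset.sum_filter, filter_eq (hB q hq)]

/-- the bound for one pair -/
lemma pair_bound {w w1 w1' w2 V1 Vk V' h Y E η : ℝ} (hη : 0 ≤ η) (hV' : 0 ≤ V') (hV'1 : V' ≤ 1) (hk : V1 * V' = Vk)
    (hE : 0 ≤ E) (hw2 : w2 ≤ (1 + η) * Y * (V1 * V' ^ 2 * h) + E)
    (hw : |w - Y * V1| ≤ η * (Y * V1) + E) (hw1 : |w1 - Y * Vk| ≤ η * (Y * Vk) + E)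
    (hw1' : |w1' - Y * Vk| ≤ η * (Y * Vk) + E) :
    w2 - V' * (w1 + w1') + V' ^ 2 * w ≤ Y * (V1 * V' ^ 2) * ((1 + η) * (h - 1) + 4 * η) + 4 * E := by
  have h1 : w ≤ (1 + η) * (Y * V1) + E := by linarith [(abs_le.1 hw).2]
  have h2 : (1 - η) * (Y * Vk) - E ≤ w1 := by linarith [(abs_le.1 hw1).1]
  have h3 : (1 - η) * (Y * Vk) - E ≤ w1' := by linarith [(abs_le.1 hw1').1]
  have h4 : V' ^ 2 * w ≤ V' ^ 2 * ((1 + η) * (Y * V1) + E) := mul_le_mul_of_nonneg_left h1 (sq_nonneg _)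
  have h5 : V' * (2 * ((1 - η) * (Y * Vk) - E)) ≤ V' * (w1 + w1') := mul_le_mul_of_nonneg_left (by linarith) hV'
  have h6 : V' ^ 2 * E ≤ 1 * E := mul_le_mul_of_nonneg_right (pow_le_one₀ hV' hV'1) hE
  have h7 : V' * E ≤ 1 * E := mul_le_mul_of_nonneg_right hV'1 hE
  have h8 : V' * (2 * ((1 - η) * (Y * Vk) - E)) = 2 * (1 - η) * (Y * (V1 * V' ^ 2)) - 2 * (V' * E) := by
    rw [← hk]; ring
  rw [h8] at h5
  have h9 : V' ^ 2 * ((1 + η) * (Y * V1) + E) = (1 + η) * (Y * (V1 * V' ^ 2)) + V' ^ 2 * E := by ring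
  rw [h9] at h4
  have h10 : (1 + η) * Y * (V1 * V' ^ 2 * h) = (1 + η) * h * (Y * (V1 * V' ^ 2)) := by ring
  rw [h10] at hw2
  have h11 : Y * (V1 * V' ^ 2) * ((1 + η) * (h - 1) + 4 * η)
      = (1 + η) * h * (Y * (V1 * V' ^ 2)) - 2 * (1 - η) * (Y * (V1 * V' ^ 2)) + (1 + η) * (Y * (V1 * V' ^ 2)) := by ring
  rw [h11]
  linarith

/-- the estimate for fixed parameters -/
lemma fixed {S : Finset ℤ} {M r z j X : ℕ} {η₁ E : ℝ} (hM : 1 ≤ M) (hη0 : 0 < η₁) (hη1 : η₁ ≤ 1 / 2) (hE0 : 0 ≤ E)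
    (hV1 : 0 < VV 1 M z) (hVk : 0 < VV (S.card + 1) M z) (hVle : VV (S.card + 1) M z ≤ VV 1 M z)
    (hw : ∀ Y : ℕ, |((W1 M r z ∅ 1 Y).card : ℝ) - (Y : ℝ) / M * VV 1 M z| ≤ η₁ * ((Y : ℝ) / M * VV 1 M z) + E)
    (hw1 : ∀ q ∈ blk M j, ∀ Y : ℕ, |((W1 M r z S q Y).card : ℝ) - (Y : ℝ) / M * VV (S.card + 1) M z|
      ≤ η₁ * ((Y : ℝ) / M * VV (S.card + 1) M z) + E)
    (hw2 : ∀ q ∈ blk M j, ∀ q' ∈ blk M j, q ≠ q' → ∀ Y : ℕ, ((W2 M r z S q q' Y).card : ℝ)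
      ≤ (1 + η₁) * ((Y : ℝ) / M) * (VV 1 M z * VQ S M z ^ 2 * hh (2 * (S.card + 1)) M (Del S q q')) + E)
    (hAVG : ∀ q ∈ blk M j, ∑ q' ∈ (blk M j).erase q, (hh (2 * (S.card + 1)) M (Del S q q') - 1)
      ≤ η₁ * (blk M j).card)
    (hN : 2 ≤ η₁ * VQ S M z ^ 2 * (blk M j).card)
    (hE : 4 * E ≤ η₁ * ((X : ℝ) / 2 ^ j / M * (VV 1 M z * VQ S M z ^ 2))) :
    (∑ m ∈ W1 M r z ∅ 1 X, |∑ q ∈ (blk M j).filter (fun q => q * m ≤ X), ff M z S q m|) ^ 2
      ≤ 16 * η₁ * ((X : ℝ) / 2 ^ j / M * VV (S.card + 1) M z * (blk M j).card) ^ 2 := by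
  set V1 := VV 1 M z with hV1d
  set Vk := VV (S.card + 1) M z with hVkd
  set V' := VQ S M z with hV'd
  set B := blk M j with hB
  set N := (B.card : ℝ) with hNd
  set Yr := (X : ℝ) / 2 ^ j / M with hYr
  have hk : V1 * V' = Vk := by
    rw [hV'd]; unfold VQ; rw [← hVkd, ← hV1d]; field_simp
  have hV'0 : 0 < V' := by rw [hV'd]; unfold VQ; rw [← hVkd, ← hV1d]; positivity
  have hV'1 : V' ≤ 1 := by rw [hV'd]; unfold VQ; rw [← hVkd, ← hV1d]; exact (div_le_one hV1).2 hVle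
  have hM0 : (0 : ℝ) < M := by exact_mod_cast hM
  have h2j : (0 : ℝ) < 2 ^ j := by positivity
  have hYr0 : 0 ≤ Yr := by positivity
  have hN0 : 0 ≤ N := by positivity
  -- `Y' / M ≤ Yr`
  have hYle : ∀ q q' : ℕ, q ∈ B → (((X / max q q' : ℕ) : ℝ)) / M ≤ Yr := by
    intro q q' hq
    have h1 := (mem_blk hq).2.2.1
    rw [hYr]
    refine div_le_div_of_nonneg_right ?_ hM0.le
    refine Nat.cast_div_le.trans ?_
    refine div_le_div_of_nonneg_left (by positivity) h2j ?_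
    exact_mod_cast h1.le.trans (le_max_left _ _)
  have hff : ∀ q m, ff M z S q m ^ 2 ≤ 1 := by
    intro q m
    unfold ff
    rw [← hV'd]
    split_ifs
    · nlinarith
    · nlinarith
  -- the number of `m`
  have hWn : ((W1 M r z ∅ 1 (X / 2 ^ j)).card : ℝ) ≤ 2 * (Yr * V1) := by
    have h1 : (((X / 2 ^ j : ℕ) : ℝ)) / M ≤ Yr := by
      rw [hYr]
      refine div_le_div_of_nonneg_right ?_ hM0.le
      refine Nat.cast_div_le.trans (le_of_eq ?_)
      push_cast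
      rfl
    have h2 := (abs_le.1 (hw (X / 2 ^ j))).2
    have h3 : (((X / 2 ^ j : ℕ) : ℝ)) / M * V1 ≤ Yr * V1 := mul_le_mul_of_nonneg_right h1 hV1.le
    have h4 : η₁ * ((((X / 2 ^ j : ℕ) : ℝ)) / M * V1) ≤ 1 / 2 * (Yr * V1) :=
      mul_le_mul hη1 h3 (by positivity) (by norm_num)
    have h5 : 4 * E ≤ 1 / 2 * (Yr * V1) := by
      refine hE.trans (mul_le_mul hη1 ?_ (by positivity) (by norm_num))
      refine mul_le_mul_of_nonneg_left ?_ hYr0
      have : V' ^ 2 ≤ 1 := pow_le_one₀ hV'0.le hV'1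
      nlinarith
    linarith
  -- the second moment
  have hsec : ∑ m ∈ W1 M r z ∅ 1 X, (∑ q ∈ B.filter (fun q => q * m ≤ X), ff M z S q m) ^ 2
      ≤ 8 * η₁ * (Yr * (V1 * V' ^ 2)) * N ^ 2 := by
    rw [expand M r z S B X (fun q hq => by have := (mem_blk hq).1.one_lt; omega)]
    have hq1 : ∀ q ∈ B, ∑ q' ∈ B, ∑ m ∈ W1 M r z ∅ 1 (X / max q q'), ff M z S q m * ff M z S q' m
        ≤ 8 * η₁ * (Yr * (V1 * V' ^ 2)) * N := by
      intro q hq
      rw [← Finset.add_sum_erase B _ hq]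
      have hd : ∑ m ∈ W1 M r z ∅ 1 (X / max q q), ff M z S q m * ff M z S q m ≤ η₁ * (Yr * (V1 * V' ^ 2)) * N := by
        have h1 : ∑ m ∈ W1 M r z ∅ 1 (X / max q q), ff M z S q m * ff M z S q m
            ≤ ((W1 M r z ∅ 1 (X / 2 ^ j)).card : ℝ) := by
          have h2 : ∑ m ∈ W1 M r z ∅ 1 (X / max q q), ff M z S q m * ff M z S q m
              ≤ ∑ _m ∈ W1 M r z ∅ 1 (X / max q q), (1 : ℝ) := Finset.sum_le_sum fun m _ => by
            have := hff q m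
            rwa [sq] at this
          rw [Finset.sum_const, nsmul_eq_mul, mul_one] at h2
          refine h2.trans ?_
          have h3 : W1 M r z ∅ 1 (X / max q q) ⊆ W1 M r z ∅ 1 (X / 2 ^ j) := by
            intro m hm
            unfold W1 at hm ⊢
            rw [mem_filter, mem_Icc] at hm ⊢
            refine ⟨⟨hm.1.1, hm.1.2.trans (Nat.div_le_div_left ?_ (by positivity))⟩, hm.2⟩
            exact (mem_blk hq).2.2.1.le.trans (le_max_left _ _)
          exact_mod_cast Finset.card_le_card h3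
        refine h1.trans (hWn.trans ?_)
        have h4 : 2 * (Yr * V1) ≤ (η₁ * V' ^ 2 * N) * (Yr * V1) := mul_le_mul_of_nonneg_right hN (by positivity)
        refine h4.trans (le_of_eq (by ring))
      have ho : ∑ q' ∈ B.erase q, ∑ m ∈ W1 M r z ∅ 1 (X / max q q'), ff M z S q m * ff M z S q' m
          ≤ 7 * η₁ * (Yr * (V1 * V' ^ 2)) * N := by
        have h1 : ∀ q' ∈ B.erase q, ∑ m ∈ W1 M r z ∅ 1 (X / max q q'), ff M z S q m * ff M z S q' m
            ≤ Yr * (V1 * V' ^ 2) * ((1 + η₁) * (hh (2 * (S.card + 1)) M (Del S q q') - 1))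
              + (Yr * (V1 * V' ^ 2) * (4 * η₁) + 4 * E) := by
          intro q' hq'
          rw [Finset.mem_erase] at hq'
          rw [pair_sum, ← hV'd]
          have h2 := pair_bound hη0.le hV'0.le hV'1 hk hE0 (hw2 q hq q' hq'.2 (Ne.symm hq'.1) (X / max q q'))
            (hw (X / max q q')) (hw1 q hq (X / max q q')) (hw1 q' hq'.2 (X / max q q'))
          refine h2.trans ?_
          have h3 : 0 ≤ (1 + η₁) * (hh (2 * (S.card + 1)) M (Del S q q') - 1) + 4 * η₁ := by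
            have := hh_ge_one (A := 2 * ((S.card : ℝ) + 1)) (by positivity) M (Del S q q')
            have h4 : 0 ≤ (1 + η₁) * (hh (2 * (S.card + 1)) M (Del S q q') - 1) :=
              mul_nonneg (by linarith) (by linarith)
            linarith
          have h5 : (((X / max q q' : ℕ) : ℝ)) / M * (V1 * V' ^ 2) *
              ((1 + η₁) * (hh (2 * (S.card + 1)) M (Del S q q') - 1) + 4 * η₁)
              ≤ Yr * (V1 * V' ^ 2) * ((1 + η₁) * (hh (2 * (S.card + 1)) M (Del S q q') - 1) + 4 * η₁) :=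
            mul_le_mul_of_nonneg_right (mul_le_mul_of_nonneg_right (hYle q q' hq) (by positivity)) h3
          linarith
        refine (Finset.sum_le_sum h1).trans ?_
        rw [Finset.sum_add_distrib, ← Finset.mul_sum, ← Finset.mul_sum, Finset.sum_const, nsmul_eq_mul]
        have h6 := hAVG q hq
        have h7 : ((B.erase q).card : ℝ) ≤ N := by
          rw [hNd]
          exact_mod_cast Finset.card_erase_le
        have h8 : Yr * (V1 * V' ^ 2) * ((1 + η₁) * ∑ q' ∈ B.erase q, (hh (2 * (S.card + 1)) M (Del S q q') - 1))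
            ≤ Yr * (V1 * V' ^ 2) * (3 / 2 * (η₁ * N)) := by
          refine mul_le_mul_of_nonneg_left ?_ (by positivity)
          refine (mul_le_mul_of_nonneg_left h6 (by linarith)).trans ?_
          exact mul_le_mul_of_nonneg_right (by linarith) (by positivity)
        have h9 : ((B.erase q).card : ℝ) * (Yr * (V1 * V' ^ 2) * (4 * η₁) + 4 * E)
            ≤ N * (Yr * (V1 * V' ^ 2) * (4 * η₁) + η₁ * (Yr * (V1 * V' ^ 2))) := by
          refine mul_le_mul h7 (by linarith) (by positivity) hN0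
        have h10 : 0 ≤ η₁ * (Yr * (V1 * V' ^ 2)) * N := by positivity
        nlinarith
      calc _ ≤ η₁ * (Yr * (V1 * V' ^ 2)) * N + 7 * η₁ * (Yr * (V1 * V' ^ 2)) * N := add_le_add hd ho
        _ = _ := by ring
    refine (Finset.sum_le_sum hq1).trans (le_of_eq ?_)
    rw [Finset.sum_const, nsmul_eq_mul, ← hNd]
    ring
  -- Cauchy-Schwarz
  have hres : ∑ m ∈ W1 M r z ∅ 1 X, |∑ q ∈ B.filter (fun q => q * m ≤ X), ff M z S q m|
      = ∑ m ∈ W1 M r z ∅ 1 (X / 2 ^ j), |∑ q ∈ B.filter (fun q => q * m ≤ X), ff M z S q m| := by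
    symm
    refine Finset.sum_subset ?_ ?_
    · intro m hm
      unfold W1 at hm ⊢
      rw [mem_filter, mem_Icc] at hm ⊢
      exact ⟨⟨hm.1.1, hm.1.2.trans (Nat.div_le_self _ _)⟩, hm.2⟩
    · intro m hm hm'
      have he : B.filter (fun q => q * m ≤ X) = ∅ := by
        rw [Finset.filter_eq_empty_iff]
        intro q hq hqm
        apply hm'
        unfold W1 at hm ⊢
        rw [mem_filter, mem_Icc] at hm ⊢
        refine ⟨⟨hm.1.1, ?_⟩, hm.2⟩
        rw [Nat.le_div_iff_mul_le (by positivity), mul_comm]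
        exact (Nat.mul_le_mul_right m (mem_blk hq).2.2.1.le).trans hqm
      rw [he]
      simp
  rw [hres]
  have hcs := Finset.sum_mul_sq_le_sq_mul_sq (W1 M r z ∅ 1 (X / 2 ^ j))
    (fun m => |∑ q ∈ B.filter (fun q => q * m ≤ X), ff M z S q m|) (fun _ => (1 : ℝ))
  simp only [mul_one, sq_abs, one_pow, Finset.sum_const, nsmul_eq_mul] at hcs
  refine hcs.trans ?_
  have hle2 : ∑ m ∈ W1 M r z ∅ 1 (X / 2 ^ j), (∑ q ∈ B.filter (fun q => q * m ≤ X), ff M z S q m) ^ 2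
      ≤ ∑ m ∈ W1 M r z ∅ 1 X, (∑ q ∈ B.filter (fun q => q * m ≤ X), ff M z S q m) ^ 2 := by
    refine Finset.sum_le_sum_of_subset_of_nonneg ?_ fun _ _ _ => sq_nonneg _
    intro m hm
    unfold W1 at hm ⊢
    rw [mem_filter, mem_Icc] at hm ⊢
    exact ⟨⟨hm.1.1, hm.1.2.trans (Nat.div_le_self _ _)⟩, hm.2⟩
  calc _ ≤ (8 * η₁ * (Yr * (V1 * V' ^ 2)) * N ^ 2) * (2 * (Yr * V1)) :=
        mul_le_mul (hle2.trans hsec) hWn (by positivity) (by positivity)
    _ = 16 * η₁ * (Yr * (V1 * V') * N) ^ 2 := by ring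
    _ = _ := by rw [hk]

/-- `s q' ≠ s' q` -/
lemma Del_ne {S : Finset ℤ} (hS : ∀ s ∈ S, s ≠ 0) {q q' : ℕ} (hq : q.Prime) (hq' : q'.Prime) (hne : q ≠ q')
    (hb : ∀ s ∈ S, s.natAbs < q) : Del S q q' ≠ 0 := by
  unfold Del
  refine prod_ne_zero_iff.2 fun s hs => prod_ne_zero_iff.2 fun s' hs' => ?_
  intro h0
  have h1 : s * (q' : ℤ) = s' * (q : ℤ) := by linarith
  have h2 : (q : ℤ) ∣ s * (q' : ℤ) := h1 ▸ dvd_mul_left _ _
  rcases (Nat.prime_iff_prime_int.1 hq).dvd_or_dvd h2 with h3 | h3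
  · have h4 : q ∣ s.natAbs := Int.natCast_dvd.1 h3
    have h5 : 0 < s.natAbs := Int.natAbs_pos.2 (hS s hs)
    have h6 := Nat.le_of_dvd h5 h4
    have h7 := hb s hs
    omega
  · have h4 : q ∣ q' := by exact_mod_cast h3
    exact hne ((Nat.prime_dvd_prime_iff_eq hq hq').1 h4)

lemma exists_j2 (A : ℝ) : ∃ j2 : ℕ, ∀ j : ℕ, j2 ≤ j → A * j ≤ ((2 : ℝ) ^ (3 / 4 : ℝ)) ^ j := by
  have hr : (1 : ℝ) < (2 : ℝ) ^ (3 / 4 : ℝ) := Real.one_lt_rpow (by norm_num) (by norm_num)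
  have h := tendsto_pow_const_div_const_pow_of_one_lt 1 hr
  have h2 : Tendsto (fun n : ℕ => A * ((n : ℝ) ^ 1 / ((2 : ℝ) ^ (3 / 4 : ℝ)) ^ n)) atTop (𝓝 (A * 0)) := h.const_mul A
  rw [mul_zero] at h2
  obtain ⟨j2, hj2⟩ := eventually_atTop.1 (h2.eventually_le_const (by norm_num : (0 : ℝ) < 1))
  refine ⟨j2, fun j hj => ?_⟩
  have h3 := hj2 j hj
  have h4 : (0 : ℝ) < ((2 : ℝ) ^ (3 / 4 : ℝ)) ^ j := by positivity
  rw [pow_one, ← mul_div_assoc, div_le_one h4] at h3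
  exact h3

end SMM

open Base SMM in
theorem specSM (hC1 : SpecC1) (hC2 : SpecC2) (hAVG : SpecAVG) (hBLK : SpecBLK) (hVLP : SpecVLP) : SpecSM := by
  intro S η hη hS
  obtain ⟨η₁, hη₁⟩ : ∃ e : ℝ, e = min (1 / 2) (η ^ 2 / 64) := ⟨_, rfl⟩
  have hη0 : 0 < η₁ := by rw [hη₁]; positivity
  have hηh : η₁ ≤ 1 / 2 := by rw [hη₁]; exact min_le_left _ _
  have hη2 : 16 * η₁ ≤ (η / 2) ^ 2 := by
    have : η₁ ≤ η ^ 2 / 64 := by rw [hη₁]; exact min_le_right _ _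
    nlinarith
  obtain ⟨K1, z1, -, h1⟩ := c1 hC1 S η₁ hη0
  obtain ⟨K0, z0, -, h0⟩ := c1 hC1 ∅ η₁ hη0
  obtain ⟨K2, z2, -, h2⟩ := c2 hC2 S η₁ hη0
  obtain ⟨P0, hAVG⟩ := hAVG S η₁ hη0 hS
  refine ⟨P0 + 4 * (S.card + 1), fun M hM => ?_⟩
  have hM1 : 1 ≤ M := hM.1
  obtain ⟨j0, hj0⟩ := hAVG M hM1 (fun p hp hpM => by have := (hM.2 p hp hpM).1; omega)
  obtain ⟨j1, hj1⟩ := hBLK M hM1
  have htm : ∀ p : ℕ, p.Prime → ¬ p ∣ M → 2 * (S.card + 1) ≤ p := Good.two_mul hM (by omega)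
  have htm1 : ∀ p : ℕ, p.Prime → ¬ p ∣ M → 2 * 1 ≤ p := Good.two_mul hM (by omega)
  obtain ⟨zv, hzv⟩ := hVLP (S.card + 1) M 2 hM1 htm
  obtain ⟨j2, hj2⟩ := exists_j2 (4 * (M.totient : ℝ) / η₁)
  obtain ⟨K, hK⟩ : ∃ K : ℕ, K = K0 + K1 + K2 := ⟨_, rfl⟩
  obtain ⟨zc, hzc⟩ := exists_nat_ge (4 * (M : ℝ) / η₁)
  refine ⟨K + 2, z0 + z1 + z2 + zv + zc + 2 ^ j0 + 2 ^ j1 + 2 ^ j2 + (∑ s ∈ S, s.natAbs) + 2,
    fun z hz j hj X r hX => ?_⟩
  have hp0 : 0 < 2 ^ j0 := by positivity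
  have hp1 : 0 < 2 ^ j1 := by positivity
  have hp2 : 0 < 2 ^ j2 := by positivity
  have hz2 : 2 ≤ z := by omega
  have hjj : ∀ i, 2 ^ i ≤ z → i ≤ j := fun i hi => (Nat.pow_le_pow_iff_right (by norm_num)).1 (hi.trans hj)
  have hJ0 : j0 ≤ j := hjj j0 (by omega)
  have hJ1 : j1 ≤ j := hjj j1 (by omega)
  have hJ2 : j2 ≤ j := hjj j2 (by omega)
  have hj1' : 1 ≤ j := by
    by_contra hcon
    have : j = 0 := by omega
    rw [this] at hj
    omega
  have hzr : (2 : ℝ) ≤ z := by exact_mod_cast hz2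
  have hz0 : (0 : ℝ) < z := by linarith
  have hz1 : (1 : ℝ) ≤ z := by linarith
  have hM0 : (0 : ℝ) < M := by exact_mod_cast hM1
  -- the products
  have hV1 : 0 < VV 1 M z := VV_pos htm1
  have hV1' : VV 1 M z ≤ 1 := VV_le_one htm1
  have hVk : 0 < VV (S.card + 1) M z := VV_pos htm
  have hVle : VV (S.card + 1) M z ≤ VV 1 M z := VV_le (by omega) htm
  have hVQ : VV (S.card + 1) M z ≤ VQ S M z := by
    unfold VQ
    rw [le_div_iff₀ hV1]
    nlinarith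
  have hVQ2 : (z : ℝ) ^ (-(1 : ℝ) / 4) ≤ VQ S M z ^ 2 :=
    (hzv z (by omega)).trans (pow_le_pow_left₀ hVk.le hVQ 2)
  have hVQ3 : (z : ℝ) ^ (-(1 : ℝ) / 4) ≤ VV 1 M z * VQ S M z ^ 2 := by
    have h3 : VV 1 M z * VQ S M z ^ 2 = VV (S.card + 1) M z * VQ S M z := by
      unfold VQ
      field_simp
    rw [h3]
    refine (hzv z (by omega)).trans ?_
    rw [sq]
    exact mul_le_mul_of_nonneg_left hVQ hVk.le
  have hkey := fixed (S := S) (M := M) (r := r) (z := z) (j := j) (X := X) (η₁ := η₁) (E := (z : ℝ) ^ K) hM1 hη0 hηh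
    (by positivity) hV1 hVk hVle
    (by
      intro Y
      have hg : Good ∅ (2 * ((∅ : Finset ℤ).card + 1)) M := Good.mono (Good.empty hM) (by simp; omega)
      have h3 := h0 M r z 1 Y hg (by omega) (rgh_one M z)
      have h4 : (z : ℝ) ^ K0 ≤ (z : ℝ) ^ K := pow_le_pow_right₀ hz1 (by omega)
      simp only [Finset.card_empty, zero_add] at h3
      exact h3.trans (by linarith))
    (by
      intro q hq Y
      obtain ⟨hqp, _, hq1, _⟩ := mem_blk hq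
      have h3 := h1 M r z q Y (Good.mono hM (by omega)) (by omega) (rgh_prime hqp (by omega))
      have h4 : (z : ℝ) ^ K1 ≤ (z : ℝ) ^ K := pow_le_pow_right₀ hz1 (by omega)
      exact h3.trans (by linarith))
    (by
      intro q hq q' hq' hne Y
      obtain ⟨hqp, _, hq1, _⟩ := mem_blk hq
      obtain ⟨hqp', _, hq1', _⟩ := mem_blk hq'
      have hD : Del S q q' ≠ 0 := Del_ne hS hqp hqp' hne (fun s hs => by
        have : s.natAbs ≤ ∑ s ∈ S, s.natAbs := Finset.single_le_sum (f := fun s : ℤ => s.natAbs)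
          (fun _ _ => Nat.zero_le _) hs
        omega)
      have h3 := h2 M r z q q' Y (Good.mono hM (by omega)) (by omega) (rgh_prime hqp (by omega))
        (rgh_prime hqp' (by omega)) hD
      have h4 : (z : ℝ) ^ K2 ≤ (z : ℝ) ^ K := pow_le_pow_right₀ hz1 (by omega)
      exact h3.trans (by linarith))
    (fun q hq => hj0 j hJ0 q hq)
    (by
      have h3 := hj1 j hJ1
      have h4 := hj2 j hJ2
      have h5 : ((2 : ℝ) ^ j) ^ (-(1 : ℝ) / 4) ≤ VQ S M z ^ 2 := by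
        refine le_trans ?_ hVQ2
        exact Real.rpow_le_rpow_of_nonpos hz0 (by exact_mod_cast hj) (by norm_num)
      have h6 : ((2 : ℝ) ^ (3 / 4 : ℝ)) ^ j = ((2 : ℝ) ^ j) ^ (-(1 : ℝ) / 4) * (2 : ℝ) ^ j := by
        have e1 : ((2 : ℝ) ^ j) ^ (-(1 : ℝ) / 4) * (2 : ℝ) ^ j = ((2 : ℝ) ^ j) ^ ((3 : ℝ) / 4) := by
          rw [← Real.rpow_add_one (by positivity)]
          norm_num
        rw [e1, ← Real.rpow_natCast, ← Real.rpow_natCast, ← Real.rpow_mul (by norm_num), ← Real.rpow_mul (by norm_num)]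
        congr 1
        ring
      have ht : (0 : ℝ) < M.totient := by exact_mod_cast Nat.totient_pos.2 hM1
      have hjr : (0 : ℝ) < j := by exact_mod_cast hj1'
      have h7 : (2 : ℝ) ≤ η₁ * (((2 : ℝ) ^ j) ^ (-(1 : ℝ) / 4)) * ((2 : ℝ) ^ j / (2 * (M.totient : ℝ) * j)) := by
        rw [h6, div_mul_eq_mul_div, div_le_iff₀ hη0] at h4
        have h8 : η₁ * (((2 : ℝ) ^ j) ^ (-(1 : ℝ) / 4)) * ((2 : ℝ) ^ j / (2 * (M.totient : ℝ) * j))
            = (((2 : ℝ) ^ j) ^ (-(1 : ℝ) / 4) * (2 : ℝ) ^ j * η₁) / (2 * (M.totient : ℝ) * j) := by ring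
        rw [h8, le_div_iff₀ (by positivity)]
        linarith
      refine h7.trans ?_
      refine mul_le_mul (mul_le_mul_of_nonneg_left h5 hη0.le) h3 (by positivity) (by positivity))
    (by
      have h3 : (z : ℝ) ^ (K + 2) ≤ (X : ℝ) / 2 ^ j := by
        rw [le_div_iff₀ (by positivity)]
        have h4 : z ^ (K + 2) * 2 ^ j ≤ X := by
          refine le_trans ?_ hX
          rw [mul_comm]
          exact Nat.mul_le_mul_right _ (Nat.pow_le_pow_right (by norm_num) (by omega))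
        exact_mod_cast h4
      have h4 : (z : ℝ)⁻¹ ≤ VV 1 M z * VQ S M z ^ 2 := by
        refine le_trans ?_ hVQ3
        rw [← Real.rpow_neg_one]
        exact Real.rpow_le_rpow_of_exponent_le hz1 (by norm_num)
      have h5 : 4 * (M : ℝ) ≤ z * η₁ := by
        have h6 : 4 * (M : ℝ) / η₁ ≤ z := hzc.trans (by exact_mod_cast (by omega : zc ≤ z))
        rwa [div_le_iff₀ hη0] at h6
      calc 4 * (z : ℝ) ^ K = 4 * M * (z : ℝ) ^ K / M := by field_simp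
        _ ≤ z * η₁ * (z : ℝ) ^ K / M := by
            refine div_le_div_of_nonneg_right ?_ hM0.le
            exact mul_le_mul_of_nonneg_right h5 (by positivity)
        _ = η₁ * ((z : ℝ) ^ (K + 2) / M * (z : ℝ)⁻¹) := by
            rw [pow_add]
            field_simp
        _ ≤ η₁ * ((X : ℝ) / 2 ^ j / M * (VV 1 M z * VQ S M z ^ 2)) := by
            refine mul_le_mul_of_nonneg_left ?_ hη0.le
            exact mul_le_mul (div_le_div_of_nonneg_right h3 hM0.le) h4 (by positivity) (by positivity))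
  -- the conclusion
  have hT : ∑ m ∈ W1 M r z ∅ 1 X,
      |∑ q ∈ (blk M j).filter (fun q => q * m ≤ X), ((if cq M z S q m then (1 : ℝ) else 0) - VQ S M z)|
      = ∑ m ∈ W1 M r z ∅ 1 X, |∑ q ∈ (blk M j).filter (fun q => q * m ≤ X), ff M z S q m| := rfl
  rw [hT]
  obtain ⟨Z, hZ⟩ : ∃ Z : ℝ, Z = (X : ℝ) / 2 ^ j / M * VV (S.card + 1) M z * (blk M j).card := ⟨_, rfl⟩
  have hZ0 : 0 ≤ Z := by rw [hZ]; positivity
  rw [← hZ] at hkey
  have h3 : ∑ m ∈ W1 M r z ∅ 1 X, |∑ q ∈ (blk M j).filter (fun q => q * m ≤ X), ff M z S q m| ≤ η / 2 * Z := by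
    refine (pow_le_pow_iff_left₀ (Finset.sum_nonneg fun _ _ => abs_nonneg _) (by positivity) two_ne_zero).1 ?_
    refine hkey.trans ?_
    rw [mul_pow]
    exact mul_le_mul_of_nonneg_right hη2 (sq_nonneg _)
  refine h3.trans ?_
  have h4 : ((blk M j).card : ℝ) / 2 ^ j ≤ 2 * Lam (blk M j) := by
    unfold Lam
    rw [Finset.mul_sum, div_eq_mul_inv, ← nsmul_eq_mul, ← Finset.sum_const]
    refine Finset.sum_le_sum fun q hq => ?_
    obtain ⟨hqp, _, hq1, hq2⟩ := mem_blk hq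
    have hq0 : (0 : ℝ) < q := by exact_mod_cast hqp.pos
    have h5 : (q : ℝ) ≤ 2 * 2 ^ j := by
      have : (q : ℝ) ≤ 2 ^ (j + 1) := by exact_mod_cast hq2
      rwa [pow_succ, mul_comm] at this
    rw [mul_one_div, inv_eq_one_div, div_le_div_iff₀ (by positivity) hq0]
    linarith
  have h5 : Z = (X : ℝ) / M * VV (S.card + 1) M z * ((blk M j).card / 2 ^ j) := by
    rw [hZ]; ring
  rw [h5]
  have h6 : (X : ℝ) / M * VV (S.card + 1) M z * ((blk M j).card / 2 ^ j)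
      ≤ (X : ℝ) / M * VV (S.card + 1) M z * (2 * Lam (blk M j)) := mul_le_mul_of_nonneg_left h4 (by positivity)
  calc η / 2 * ((X : ℝ) / M * VV (S.card + 1) M z * ((blk M j).card / 2 ^ j))
      ≤ η / 2 * ((X : ℝ) / M * VV (S.card + 1) M z * (2 * Lam (blk M j))) := mul_le_mul_of_nonneg_left h6 (by positivity)
    _ = _ := by ring

end Pool.Agent.Lib.MP_3efbeb_nt.DL
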