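import Pool.Agent.Lib.MP_3efbeb_nt.DL.Base

/-!
# TK: Turan-Kubilius in the rough tuples
-/

set_option autoImplicit false

namespace Pool.Agent.Lib.MP_3efbeb_nt.DL

open Finset
open scoped Classical

namespace TKM

/-- the indicator of divisibility -/
noncomputable def ii (q m : ℕ) : ℝ := if q ∣ m then 1 else 0

lemma card_eq (Q : Finset ℕ) (m : ℕ) : ((Q.filter (fun q => q ∣ m)).card : ℝ) = ∑ q ∈ Q, ii q m := by
  unfold ii
  rw [card_filter]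
  push_cast
  rfl

lemma sum_ii (W : Finset ℕ) (q : ℕ) : ∑ m ∈ W, ii q m = ((W.filter (fun m => q ∣ m)).card : ℝ) := by
  unfold ii
  rw [card_filter]
  push_cast
  rfl

lemma sum_ii2 (W : Finset ℕ) {q q' : ℕ} (h : Nat.Coprime q q') :
    ∑ m ∈ W, ii q m * ii q' m = ((W.filter (fun m => q * q' ∣ m)).card : ℝ) := by
  rw [← sum_ii]
  refine sum_congr rfl fun m _ => ?_
  unfold ii
  by_cases h1 : q ∣ m <;> by_cases h2 : q' ∣ m
  · rw [if_pos h1, if_pos h2, if_pos (h.mul_dvd_of_dvd_of_dvd h1 h2), one_mul]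
  · rw [if_neg h2, if_neg (fun h3 => h2 ((dvd_mul_left _ _).trans h3)), mul_zero]
  · rw [if_neg h1, if_neg (fun h3 => h1 ((dvd_mul_right _ _).trans h3)), zero_mul]
  · rw [if_neg h1, if_neg (fun h3 => h1 ((dvd_mul_right _ _).trans h3)), zero_mul]

lemma ii_sq (q m : ℕ) : ii q m * ii q m = ii q m := by
  unfold ii
  split_ifs <;> norm_num

/-- the expansion of the square -/
lemma expand (W Q : Finset ℕ) (Λ : ℝ) (hQ : ∀ q ∈ Q, q.Prime) :
    ∑ m ∈ W, (((Q.filter (fun q => q ∣ m)).card : ℝ) - Λ) ^ 2 =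
      ∑ q ∈ Q, ((W.filter (fun m => q ∣ m)).card : ℝ) +
      ∑ q ∈ Q, ∑ q' ∈ Q.erase q, ((W.filter (fun m => q * q' ∣ m)).card : ℝ) -
      2 * Λ * ∑ q ∈ Q, ((W.filter (fun m => q ∣ m)).card : ℝ) + Λ ^ 2 * W.card := by
  have h1 : ∀ m ∈ W, (((Q.filter (fun q => q ∣ m)).card : ℝ) - Λ) ^ 2 =
      ∑ q ∈ Q, ∑ q' ∈ Q, ii q m * ii q' m - 2 * Λ * ∑ q ∈ Q, ii q m + Λ ^ 2 := by
    intro m _
    rw [card_eq, ← Finset.sum_mul_sum]
    ring
  rw [sum_congr rfl h1, sum_add_distrib, sum_sub_distrib, ← mul_sum, sum_const, nsmul_eq_mul, mul_comm (Λ ^ 2)]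
  have h2 : ∑ m ∈ W, ∑ q ∈ Q, ii q m = ∑ q ∈ Q, ((W.filter (fun m => q ∣ m)).card : ℝ) := by
    rw [sum_comm]
    exact sum_congr rfl fun q _ => sum_ii W q
  have h3 : ∑ m ∈ W, ∑ q ∈ Q, ∑ q' ∈ Q, ii q m * ii q' m =
      ∑ q ∈ Q, ((W.filter (fun m => q ∣ m)).card : ℝ) +
      ∑ q ∈ Q, ∑ q' ∈ Q.erase q, ((W.filter (fun m => q * q' ∣ m)).card : ℝ) := by
    rw [sum_comm, ← sum_add_distrib]
    refine sum_congr rfl fun q hq => ?_
    rw [sum_comm, ← Finset.add_sum_erase _ _ hq]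
    congr 1
    · rw [← sum_ii]
      exact sum_congr rfl fun m _ => ii_sq q m
    · refine sum_congr rfl fun q' hq' => ?_
      rw [mem_erase] at hq'
      exact sum_ii2 W ((Nat.coprime_primes (hQ q hq) (hQ q' hq'.2)).2 (Ne.symm hq'.1))
  rw [h2, h3]

/-- the numerical part -/
lemma numeric (Q : Finset ℕ) (Λ N E η1 T W0 : ℝ) (A1 : ℕ → ℝ) (A2 : ℕ → ℕ → ℝ) (hΛ : Λ = Lam Q)
    (hη0 : 0 ≤ η1) (hη1 : η1 ≤ 1) (hN : 0 ≤ N) (hE : 1 ≤ E) (hT : (Q.card : ℝ) ≤ T) (hT1 : 1 ≤ T) (hΛ1 : 1 ≤ Λ)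
    (hΛT : Λ ≤ T)
    (h1 : ∀ q ∈ Q, A1 q ≤ (1 + η1) * (N * (1 / q)) + E) (h1' : ∀ q ∈ Q, (1 - η1) * (N * (1 / q)) - 1 - E ≤ A1 q)
    (h2 : ∀ q ∈ Q, ∀ q' ∈ Q.erase q, A2 q q' ≤ (1 + η1) * (N * (1 / q * (1 / q'))) + E)
    (h0 : W0 ≤ (1 + η1) * N + E) (hbig : 7 * E * T ^ 2 ≤ N) :
    ∑ q ∈ Q, A1 q + ∑ q ∈ Q, ∑ q' ∈ Q.erase q, A2 q q' - 2 * Λ * ∑ q ∈ Q, A1 q + Λ ^ 2 * W0
      ≤ (4 * η1 * Λ ^ 2 + 3 * Λ) * N := by
  have hQ0 : (0 : ℝ) ≤ Q.card := Nat.cast_nonneg _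
  have s1 : ∑ q ∈ Q, A1 q ≤ (1 + η1) * (N * Λ) + Q.card * E := by
    refine (sum_le_sum h1).trans (le_of_eq ?_)
    rw [sum_add_distrib, ← mul_sum, ← mul_sum, sum_const, nsmul_eq_mul, hΛ]
    rfl
  have s1' : (1 - η1) * (N * Λ) - Q.card * (1 + E) ≤ ∑ q ∈ Q, A1 q := by
    refine le_trans (le_of_eq ?_) (sum_le_sum h1')
    rw [sum_sub_distrib, sum_sub_distrib, ← mul_sum, ← mul_sum, sum_const, sum_const, nsmul_eq_mul,
      nsmul_eq_mul, hΛ]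
    unfold Lam
    ring
  have s2 : ∑ q ∈ Q, ∑ q' ∈ Q.erase q, A2 q q' ≤ (1 + η1) * (N * Λ ^ 2) + (Q.card : ℝ) ^ 2 * E := by
    have e1 : ∀ q ∈ Q, ∑ q' ∈ Q.erase q, A2 q q' ≤ (1 + η1) * (N * (1 / q * Λ)) + Q.card * E := by
      intro q hq
      refine (sum_le_sum (h2 q hq)).trans ?_
      have e2 : ∑ q' ∈ Q.erase q, ((1 + η1) * (N * (1 / (q : ℝ) * (1 / q'))) + E) ≤
          ∑ q' ∈ Q, ((1 + η1) * (N * (1 / (q : ℝ) * (1 / q'))) + E) := by
        refine sum_le_sum_of_subset_of_nonneg (erase_subset _ _) fun i _ _ => ?_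
        positivity
      refine e2.trans (le_of_eq ?_)
      rw [sum_add_distrib, ← mul_sum, ← mul_sum, ← mul_sum, sum_const, nsmul_eq_mul, hΛ]
      rfl
    refine (sum_le_sum e1).trans (le_of_eq ?_)
    rw [sum_add_distrib, ← mul_sum, ← mul_sum, ← sum_mul, sum_const, nsmul_eq_mul]
    have : ∑ q ∈ Q, 1 / (q : ℝ) = Λ := hΛ.symm
    rw [this]
    ring
  have hΛ0 : 0 ≤ Λ := by linarith
  have hΛ2 : Λ ^ 2 * W0 ≤ Λ ^ 2 * ((1 + η1) * N + E) := mul_le_mul_of_nonneg_left h0 (by positivity)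
  have s3 : -(2 * Λ * ∑ q ∈ Q, A1 q) ≤ -(2 * Λ * ((1 - η1) * (N * Λ) - Q.card * (1 + E))) := by
    have := mul_le_mul_of_nonneg_left s1' (show (0 : ℝ) ≤ 2 * Λ by linarith)
    linarith
  -- error terms
  have t1 : (Q.card : ℝ) * E ≤ T * T * E := by
    have : (Q.card : ℝ) ≤ T * T := hT.trans (by nlinarith)
    exact mul_le_mul_of_nonneg_right this (by linarith)
  have t2 : (Q.card : ℝ) ^ 2 * E ≤ T ^ 2 * E :=
    mul_le_mul_of_nonneg_right (pow_le_pow_left₀ hQ0 hT 2) (by linarith)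
  have t3 : 2 * Λ * (Q.card * (1 + E)) ≤ 2 * T * (T * (1 + E)) := by
    have a1 : (Q.card : ℝ) * (1 + E) ≤ T * (1 + E) := mul_le_mul_of_nonneg_right hT (by linarith)
    exact mul_le_mul (by linarith) a1 (by positivity) (by linarith)
  have t4 : Λ ^ 2 * E ≤ T ^ 2 * E :=
    mul_le_mul_of_nonneg_right (pow_le_pow_left₀ hΛ0 hΛT 2) (by linarith)
  have t5 : T ^ 2 ≤ T ^ 2 * E := by nlinarith [sq_nonneg T]
  have hNΛ : N ≤ N * Λ := by nlinarith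
  have hη : η1 * (N * Λ) ≤ N * Λ := by nlinarith [mul_nonneg hN hΛ0]
  nlinarith

end TKM

theorem specTK (hC1 : SpecC1) (hVLP : SpecVLP) : SpecTK := by
  intro S η hη _
  set η1 : ℝ := min (η / 4) 1 with hη1
  have hη1pos : 0 < η1 := lt_min (by linarith) one_pos
  obtain ⟨K, z1, hz1, hc⟩ := Base.c1 hC1 S η1 hη1pos
  refine ⟨2 * (S.card + 1), fun M hM => ?_⟩
  have h2k := Base.Good.two_mul hM le_rfl
  have hM1 : 1 ≤ M := hM.1
  obtain ⟨z2, hz2⟩ := hVLP (S.card + 1) M 1 hM1 h2k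
  refine ⟨K + 3, max (max z1 z2) (7 * M), fun z hz J1 J2 hJ X r hX hΛ1 => ?_⟩
  have hzz1 : z1 ≤ z := le_trans ((le_max_left _ _).trans (le_max_left _ _)) hz
  have hzz2 : z2 ≤ z := le_trans ((le_max_right _ _).trans (le_max_left _ _)) hz
  have hzM : 7 * M ≤ z := le_trans (le_max_right _ _) hz
  have hz0 : (0 : ℝ) < z := by exact_mod_cast (by omega : 0 < z)
  have hz1' : (1 : ℝ) ≤ z := by exact_mod_cast (by omega : 1 ≤ z)
  have hV := Base.VV_pos (k := S.card + 1) (z := z) h2k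
  have hV1 := Base.VV_le_one (k := S.card + 1) (z := z) h2k
  set V := VV (S.card + 1) M z with hVdef
  have hM0 : (0 : ℝ) < M := by exact_mod_cast hM1
  have hMM : (1 : ℝ) ≤ M := by exact_mod_cast hM1
  set Q := QQ M J1 J2 with hQ
  set N : ℝ := (X : ℝ) / M * V with hN
  set T : ℝ := (2 : ℝ) ^ J2 with hT
  set E : ℝ := (z : ℝ) ^ K with hE
  have hQm : ∀ q ∈ Q, q.Prime ∧ q % M = 1 % M ∧ z ≤ q := fun q hq => by
    have h := Base.mem_QQ hq
    exact ⟨h.1, h.2.1, by omega⟩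
  have hQrgh : ∀ q ∈ Q, Rgh M z q := fun q hq => Base.rgh_prime (hQm q hq).1 (hQm q hq).2.2
  have hcardQ : (Q.card : ℝ) ≤ T := by
    have h1 : Q.card ≤ 2 ^ J2 := by
      refine (card_le_card (filter_subset _ _)).trans ?_
      rw [Nat.card_Ioc]
      exact Nat.sub_le _ _
    rw [hT]
    exact_mod_cast h1
  have hT1 : 1 ≤ T := one_le_pow₀ (by norm_num)
  have hΛT : Lam Q ≤ T := by
    refine le_trans ?_ hcardQ
    unfold Lam
    refine (sum_le_card_nsmul Q _ 1 fun q hq => ?_).trans (by rw [nsmul_eq_mul, mul_one])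
    have : (1 : ℝ) ≤ q := by exact_mod_cast (hQm q hq).1.one_le
    rw [div_le_one (by linarith)]
    exact this
  have hE1 : 1 ≤ E := one_le_pow₀ hz1'
  have hN0 : 0 ≤ N := by rw [hN]; positivity
  have hzV : 1 ≤ (z : ℝ) * V := by
    have h1 := hz2 z hzz2
    rw [pow_one] at h1
    have h2 : (z : ℝ) ^ (-1 : ℝ) ≤ (z : ℝ) ^ (-(1 : ℝ) / 4) :=
      Real.rpow_le_rpow_of_exponent_le hz1' (by norm_num)
    rw [Real.rpow_neg_one] at h2
    have h3 : (z : ℝ)⁻¹ ≤ V := h2.trans h1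
    calc (1 : ℝ) = z * (z : ℝ)⁻¹ := by field_simp
      _ ≤ z * V := mul_le_mul_of_nonneg_left h3 hz0.le
  have hbig : 7 * E * T ^ 2 ≤ N := by
    have h1 : (2 : ℝ) ^ (8 * J2) * (z : ℝ) ^ (K + 3) ≤ X := by exact_mod_cast hX
    have h2 : (2 : ℝ) ^ (8 * J2) = T ^ 8 := by rw [hT, ← pow_mul, mul_comm]
    rw [h2] at h1
    have h3 : T ^ 2 ≤ T ^ 8 := pow_le_pow_right₀ hT1 (by norm_num)
    have h4 : (7 : ℝ) * M ≤ z := by exact_mod_cast hzM
    rw [hN, div_mul_eq_mul_div, le_div_iff₀ hM0]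
    calc 7 * E * T ^ 2 * M = T ^ 2 * E * (7 * M) := by ring
      _ ≤ T ^ 8 * E * z := by gcongr
      _ = T ^ 8 * (E * z) * 1 := by ring
      _ ≤ T ^ 8 * (E * z) * (z * V) := by gcongr
      _ ≤ T ^ 8 * (E * z) * (z * V) * z := by
          refine le_mul_of_one_le_right (by positivity) hz1'
      _ = T ^ 8 * (z : ℝ) ^ (K + 3) * V := by rw [hE]; ring
      _ ≤ X * V := by gcongr
  -- counts
  have hfloor : ∀ d : ℕ, 1 ≤ d → ((X / d : ℕ) : ℝ) / M * V ≤ N * (1 / d) ∧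
      N * (1 / d) - 1 ≤ ((X / d : ℕ) : ℝ) / M * V := by
    intro d hd
    have hd0 : (0 : ℝ) < d := by exact_mod_cast hd
    have h1 : ((X / d : ℕ) : ℝ) ≤ X / d := Nat.cast_div_le
    have h2 : (X : ℝ) / d - 1 ≤ ((X / d : ℕ) : ℝ) := by
      have h3 : (X : ℝ) < ((X / d : ℕ) + 1 : ℝ) * d := by
        have h3' := Nat.lt_mul_div_succ X hd
        rw [mul_comm] at h3'
        exact_mod_cast h3'
      have h4 : (X : ℝ) / d < (X / d : ℕ) + 1 := by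
        rw [div_lt_iff₀ hd0]
        exact h3
      linarith
    have hMV : V / M ≤ 1 := by
      rw [div_le_one hM0]
      linarith
    constructor
    · calc ((X / d : ℕ) : ℝ) / M * V ≤ X / d / M * V := by gcongr
        _ = N * (1 / d) := by rw [hN]; ring
    · have h5 : ((X : ℝ) / d - 1) / M * V ≤ ((X / d : ℕ) : ℝ) / M * V := by gcongr
      have h6 : ((X : ℝ) / d - 1) / M * V = N * (1 / d) - V / M := by rw [hN]; ring
      linarith
  have hcnt : ∀ d : ℕ, 1 ≤ d → d % M = 1 % M → Rgh M z d →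
      (((W1 M r z S 1 X).filter (fun m => d ∣ m)).card : ℝ) ≤ (1 + η1) * (N * (1 / d)) + E ∧
      (1 - η1) * (N * (1 / d)) - 1 - E ≤ (((W1 M r z S 1 X).filter (fun m => d ∣ m)).card : ℝ) := by
    intro d hd hdM hdr
    rw [Base.card_mult hd hdM hdr]
    have h1 := hc M r z d (X / d) hM hzz1 hdr
    obtain ⟨f1, f2⟩ := hfloor d hd
    rw [abs_le] at h1
    have f0 : 0 ≤ ((X / d : ℕ) : ℝ) / M * V := by positivity
    have hη11 : η1 ≤ 1 := min_le_right _ _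
    constructor
    · have := mul_le_mul_of_nonneg_left f1 (show (0 : ℝ) ≤ 1 + η1 by linarith)
      linarith [h1.2]
    · have := mul_le_mul_of_nonneg_left f2 (show (0 : ℝ) ≤ 1 - η1 by linarith)
      nlinarith [h1.1]
  have h0 : ((W1 M r z S 1 X).card : ℝ) ≤ (1 + η1) * N + E := by
    have h1 := hc M r z 1 X hM hzz1 (by exact_mod_cast Base.rgh_one M z)
    rw [abs_le] at h1
    linarith [h1.2]
  rw [TKM.expand _ _ _ fun q hq => (hQm q hq).1]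
  have hfin := TKM.numeric Q (Lam Q) N E η1 T _ (fun q => (((W1 M r z S 1 X).filter (fun m => q ∣ m)).card : ℝ))
    (fun q q' => (((W1 M r z S 1 X).filter (fun m => q * q' ∣ m)).card : ℝ)) rfl hη1pos.le (min_le_right _ _) hN0
    hE1 hcardQ hT1 hΛ1 hΛT (fun q hq => (hcnt q (hQm q hq).1.one_le (hQm q hq).2.1 (hQrgh q hq)).1)
    (fun q hq => (hcnt q (hQm q hq).1.one_le (hQm q hq).2.1 (hQrgh q hq)).2)
    (fun q hq q' hq' => by
      have hq'' := (mem_erase.1 hq').2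
      have h1 := (hcnt (q * q') (Nat.mul_pos (hQm q hq).1.pos (hQm q' hq'').1.pos)
        (by rw [Nat.mul_mod, (hQm q hq).2.1, (hQm q' hq'').2.1, ← Nat.mul_mod, mul_one])
        (by push_cast; exact Base.rgh_mul (hQrgh q hq) (hQrgh q' hq''))).1
      push_cast at h1
      rw [one_div_mul_one_div]
      exact h1) h0 hbig
  refine hfin.trans ?_
  have h4η : 4 * η1 ≤ η := by
    have := min_le_left (η / 4) 1
    rw [← hη1] at this
    linarith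
  have h5 : (4 * η1 * Lam Q ^ 2 + 3 * Lam Q) * N ≤ (η * Lam Q ^ 2 + 3 * Lam Q) * N := by
    gcongr
  refine h5.trans (le_of_eq ?_)
  rw [hN]
  ring

end Pool.Agent.Lib.MP_3efbeb_nt.DL
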