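import Pool.Agent.Lib.MP_3efbeb_nt.DL.Base
import Pool.Agent.Lib.MP_391708_nt.QPA.H.MER

/-!
# DL: TYP (rough numbers with a large prime factor)
-/

set_option autoImplicit false

namespace Pool.Agent.Lib.MP_3efbeb_nt.DL

open Finset
open scoped Classical

namespace TYPM

open Base

/-- the sum of `1/P` over the primes of `(Z, Z^(1+θ)]` -/
theorem mert {θ : ℝ} (hθ : 0 < θ) : ∃ Z0 : ℕ, ∀ Z : ℕ, Z0 ≤ Z →
    θ / (2 * (1 + θ)) ≤ ∑ p ∈ (Ioc Z ⌊(Z : ℝ) ^ (1 + θ)⌋₊).filter Nat.Prime, 1 / (p : ℝ) := by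
  obtain ⟨C, hC0, hC⟩ := Pool.Agent.Lib.MP391708.QPA.H.MERM.mert_low
  have hev : ∀ᶠ y : ℕ in Filter.atTop, 2 * C / θ ≤ Real.log (y : ℝ) :=
    (Real.tendsto_log_atTop.comp tendsto_natCast_atTop_atTop).eventually_ge_atTop _
  rw [Filter.eventually_atTop] at hev
  obtain ⟨Z0, hZ0⟩ := hev
  refine ⟨max Z0 2, fun Z hZ => ?_⟩
  have hZ2 : (2 : ℝ) ≤ Z := by exact_mod_cast le_trans (le_max_right _ _) hZ
  have hZ1 : (1 : ℝ) ≤ Z := by linarith
  have hZp : (0 : ℝ) < Z := by linarith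
  have hl := hZ0 Z (le_trans (le_max_left _ _) hZ)
  have hlog : 0 < Real.log Z := Real.log_pos (by linarith)
  have h1 := hC Z ((Z : ℝ) ^ (1 + θ)) hZ1 (by
    calc (Z : ℝ) = (Z : ℝ) ^ (1 : ℝ) := (Real.rpow_one _).symm
      _ ≤ (Z : ℝ) ^ (1 + θ) := Real.rpow_le_rpow_of_exponent_le hZ1 (by linarith))
  rw [Nat.floor_natCast, Real.log_rpow hZp] at h1
  have h2 : ∑ p ∈ (Ioc Z ⌊(Z : ℝ) ^ (1 + θ)⌋₊).filter Nat.Prime, Real.log p / (p : ℝ)
      ≤ ((1 + θ) * Real.log Z) * ∑ p ∈ (Ioc Z ⌊(Z : ℝ) ^ (1 + θ)⌋₊).filter Nat.Prime, 1 / (p : ℝ) := by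
    rw [mul_sum]
    refine sum_le_sum fun p hp => ?_
    rw [mem_filter, mem_Ioc] at hp
    obtain ⟨⟨hp1, hp2⟩, hp3⟩ := hp
    have hp0 : (0 : ℝ) < p := by exact_mod_cast hp3.pos
    have hpu : (p : ℝ) ≤ (Z : ℝ) ^ (1 + θ) := (Nat.le_floor_iff (by positivity)).1 hp2
    have h3 : Real.log p ≤ (1 + θ) * Real.log Z := by
      rw [← Real.log_rpow hZp]
      exact Real.log_le_log hp0 hpu
    rw [div_eq_mul_one_div]
    exact mul_le_mul_of_nonneg_right h3 (by positivity)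
  have h4 : 2 * C ≤ θ * Real.log Z := by
    rw [div_le_iff₀ hθ] at hl
    linarith
  have h5 : θ / 2 * Real.log Z ≤ ((1 + θ) * Real.log Z) *
      ∑ p ∈ (Ioc Z ⌊(Z : ℝ) ^ (1 + θ)⌋₊).filter Nat.Prime, 1 / (p : ℝ) := by linarith
  rw [div_le_iff₀ (by positivity)]
  nlinarith

/-- the multiples of `P` -/
theorem mult_mem {M r r' z P X D : ℕ} (hP0 : 1 ≤ P) (hPr : P.Prime) (hzP : z ≤ P)
    (hr' : P * r' % M = r % M) (hD : D ∈ W1 M r' z ∅ 1 (X / P)) : P * D ∈ W1 M r z ∅ 1 X := by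
  unfold W1 at hD ⊢
  rw [mem_filter, mem_Icc] at hD ⊢
  obtain ⟨⟨h1, h2⟩, h3, h4, _⟩ := hD
  refine ⟨⟨Nat.mul_pos hP0 h1, ?_⟩, ?_, ?_, fun s hs => absurd hs (Finset.notMem_empty s)⟩
  · rw [Nat.le_div_iff_mul_le (by omega)] at h2
    rw [mul_comm]; exact h2
  · rw [← hr', Nat.mul_mod, h3, ← Nat.mul_mod]
  · push_cast
    exact rgh_mul (rgh_prime hPr hzP) h4

end TYPM

open TYPM Base in
theorem specTYP (hC1 : SpecC1) (hVLP : SpecVLP) : SpecTYP := by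
  intro θ hθ
  refine ⟨θ / (8 * (1 + θ)), by positivity, ?_⟩
  intro M hM
  have hM1 : 1 ≤ M := hM.1
  have hMr : (0 : ℝ) < M := by exact_mod_cast hM1
  obtain ⟨K, z1, hz1, hc⟩ := c1 hC1 ∅ (1 / 4) (by norm_num)
  obtain ⟨z2, hz2⟩ := hVLP 1 M 1 hM1 (fun p hp hpM => by have := (hM.2 p hp hpM).1; omega)
  obtain ⟨Z0, hZ0⟩ := mert hθ
  refine ⟨K + 2, max (max z1 z2) (max Z0 (4 * M + 4)), ?_⟩
  intro z hz Z X r hzZ hXZ hZX
  simp only [max_le_iff] at hz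
  obtain ⟨⟨hza, hzb⟩, hzc, hzd⟩ := hz
  have hz4 : (4 : ℝ) * M + 4 ≤ z := by exact_mod_cast hzd
  have hz0 : (0 : ℝ) < z := by linarith
  have hz1' : (1 : ℝ) ≤ z := by linarith
  have hZr : (z : ℝ) ≤ Z := by exact_mod_cast hzZ
  have hZ0' : (0 : ℝ) < Z := by linarith
  have hVpos : 0 < VV 1 M z := VV_pos (fun p hp hpM => by have := (hM.2 p hp hpM).1; omega)
  have hVl := hz2 z hzb
  rw [pow_one] at hVl
  set V := VV 1 M z with hV
  set PP := (Ioc Z ⌊(Z : ℝ) ^ (1 + θ)⌋₊).filter Nat.Prime with hPP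
  have hP : ∀ P ∈ PP, P.Prime ∧ Z < P ∧ (P : ℝ) ≤ (Z : ℝ) ^ (1 + θ) := by
    intro P hP
    rw [hPP, mem_filter, mem_Ioc] at hP
    exact ⟨hP.2, hP.1.1, (Nat.le_floor_iff (by positivity)).1 hP.1.2⟩
  have hcop : ∀ P ∈ PP, Nat.Coprime P M := by
    intro P hPm
    rw [Nat.Prime.coprime_iff_not_dvd (hP P hPm).1]
    intro hd
    have h1 := Nat.le_of_dvd hM1 hd
    have h2 := (hP P hPm).2.1
    omega
  have hex : ∀ P : ℕ, ∃ r' : ℕ, P ∈ PP → P * r' % M = r % M := by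
    intro P
    by_cases h : P ∈ PP
    · obtain ⟨m, _, hm⟩ := Nat.exists_mul_mod_eq_of_coprime r (hcop P h) (by omega)
      exact ⟨m, fun _ => hm⟩
    · exact ⟨0, fun h' => absurd h' h⟩
  choose rr hrr using hex
  -- the union
  have hsub : PP.biUnion (fun P => (W1 M (rr P) z ∅ 1 (X / P)).image (fun D => P * D))
      ⊆ (W1 M r z ∅ 1 X).filter (fun n => ∃ P : ℕ, P.Prime ∧ P ∣ n ∧ Z < P) := by
    intro n hn
    rw [mem_biUnion] at hn
    obtain ⟨P, hPm, hn⟩ := hn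
    rw [mem_image] at hn
    obtain ⟨D, hD, rfl⟩ := hn
    obtain ⟨hp, hZP, _⟩ := hP P hPm
    rw [mem_filter]
    exact ⟨mult_mem hp.one_lt.le hp (by omega) (hrr P hPm) hD, P, hp, dvd_mul_right _ _, hZP⟩
  have hdisj : ∀ P ∈ PP, ∀ P' ∈ PP, P ≠ P' →
      Disjoint ((W1 M (rr P) z ∅ 1 (X / P)).image (fun D => P * D))
        ((W1 M (rr P') z ∅ 1 (X / P')).image (fun D => P' * D)) := by
    intro P hPm P' hPm' hne
    rw [Finset.disjoint_left]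
    intro n hn hn'
    rw [mem_image] at hn hn'
    obtain ⟨D, hD, rfl⟩ := hn
    obtain ⟨D', hD', he⟩ := hn'
    obtain ⟨hp, hZP, _⟩ := hP P hPm
    obtain ⟨hp', hZP', _⟩ := hP P' hPm'
    have h1 := mult_mem (r := r) hp.one_lt.le hp (by omega) (hrr P hPm) hD
    unfold W1 at h1
    rw [mem_filter, mem_Icc] at h1
    have hc : Nat.Coprime P P' := (Nat.coprime_primes hp hp').2 hne
    have hd : P * P' ∣ P * D := hc.mul_dvd_of_dvd_of_dvd (dvd_mul_right _ _) (he ▸ dvd_mul_right _ _)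
    have h2 := Nat.le_of_dvd (by omega) hd
    have h3 : Z * Z ≤ P * P' := Nat.mul_le_mul hZP.le hZP'.le
    have h4 : X < Z * Z := by rw [← sq]; exact hXZ
    omega
  have hcard := card_le_card hsub
  rw [card_biUnion (fun P hPm P' hPm' hne => hdisj P hPm P' hPm' hne)] at hcard
  have hcard2 : ∑ P ∈ PP, ((W1 M (rr P) z ∅ 1 (X / P)).card : ℝ)
      ≤ (((W1 M r z ∅ 1 X).filter (fun n => ∃ P : ℕ, P.Prime ∧ P ∣ n ∧ Z < P)).card : ℝ) := by
    have h1 : ∑ P ∈ PP, ((W1 M (rr P) z ∅ 1 (X / P)).image (fun D => P * D)).card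
        = ∑ P ∈ PP, (W1 M (rr P) z ∅ 1 (X / P)).card := by
      refine sum_congr rfl fun P hPm => ?_
      rw [card_image_of_injective]
      intro D D' h
      exact Nat.eq_of_mul_eq_mul_left (hP P hPm).1.pos h
    rw [h1] at hcard
    exact_mod_cast hcard
  refine le_trans ?_ hcard2
  -- each term
  have hterm : ∀ P ∈ PP, 1 / 4 * ((X : ℝ) / M * V) * (1 / (P : ℝ)) ≤ ((W1 M (rr P) z ∅ 1 (X / P)).card : ℝ) := by
    intro P hPm
    obtain ⟨hp, hZP, hPu⟩ := hP P hPm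
    have hp0 : (0 : ℝ) < P := by exact_mod_cast hp.pos
    have h1 := hc M (rr P) z 1 (X / P) hM hza (by simpa using rgh_one M z)
    rw [card_empty, zero_add, ← hV] at h1
    have h2 := (abs_le.1 h1).1
    have hXP : (z : ℝ) ^ (K + 2) ≤ (X : ℝ) / P := by
      rw [le_div_iff₀ hp0]
      calc (z : ℝ) ^ (K + 2) * P ≤ (z : ℝ) ^ (K + 2) * (Z : ℝ) ^ (1 + θ) := by gcongr
        _ ≤ X := by rw [mul_comm]; exact hZX
    have hY : (X : ℝ) / P - 1 ≤ ((X / P : ℕ) : ℝ) := by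
      have := Nat.lt_floor_add_one ((X : ℝ) / P)
      rw [Nat.floor_div_natCast, Nat.floor_natCast] at this
      linarith
    have hzK : (1 : ℝ) ≤ (z : ℝ) ^ K := one_le_pow₀ hz1'
    have hz2' : (z : ℝ) * 4 ≤ (z : ℝ) ^ 2 := by nlinarith
    have hbig : 4 ≤ (X : ℝ) / P := by
      refine le_trans ?_ hXP
      rw [pow_add]
      nlinarith
    have hY2 : 3 / 4 * ((X : ℝ) / P) ≤ ((X / P : ℕ) : ℝ) := by linarith
    have hV1 : (z : ℝ) ^ (-(1 : ℝ) / 4) * (z : ℝ) ≥ 1 := by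
      nth_rewrite 2 [← Real.rpow_one (z : ℝ)]
      rw [← Real.rpow_add hz0]
      exact Real.one_le_rpow hz1' (by norm_num)
    have hVz : 1 ≤ V * z := by nlinarith
    have herr : (z : ℝ) ^ K ≤ 1 / 4 * ((X : ℝ) / P / M * V) := by
      have h3 : (z : ℝ) ^ K * (4 * M) ≤ (z : ℝ) ^ (K + 2) * V := by
        calc (z : ℝ) ^ K * (4 * M) ≤ (z : ℝ) ^ K * (z * (V * z)) := by
              apply mul_le_mul_of_nonneg_left _ (by positivity)
              nlinarith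
          _ = (z : ℝ) ^ (K + 2) * V := by ring
      have h4 : (z : ℝ) ^ K * (4 * M) ≤ (X : ℝ) / P * V :=
        h3.trans (mul_le_mul_of_nonneg_right hXP hVpos.le)
      have h5 : 1 / 4 * ((X : ℝ) / P / M * V) = ((X : ℝ) / P * V) / (4 * M) := by
        field_simp
      rw [h5, le_div_iff₀ (by positivity)]
      exact h4
    have hmain : 3 / 4 * ((X : ℝ) / P) / M * V ≤ ((X / P : ℕ) : ℝ) / M * V := by
      gcongr
    have e1 : 3 / 4 * ((X : ℝ) / P) / M * V = 3 / 4 * ((X : ℝ) / P / M * V) := by ring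
    have e2 : 1 / 4 * ((X : ℝ) / M * V) * (1 / (P : ℝ)) = 1 / 4 * ((X : ℝ) / P / M * V) := by
      ring
    have hpos : 0 ≤ (X : ℝ) / P / M * V := by positivity
    rw [e2]
    rw [e1] at hmain
    linarith
  refine le_trans ?_ (sum_le_sum hterm)
  rw [← mul_sum]
  have hm := hZ0 Z (by omega)
  have hpos : 0 ≤ 1 / 4 * ((X : ℝ) / M * V) := by positivity
  refine le_trans (le_of_eq ?_) (mul_le_mul_of_nonneg_left hm hpos)
  field_simp
  ring

end Pool.Agent.Lib.MP_3efbeb_nt.DL
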