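import Pool.Agent.Lib.MP_3efbeb_nt.DL.Spec
import Pool.Agent.Lib.MP_8cb858_nt.PU.WIN

/-!
# MP_3efbeb_nt, DL, modules VLB, VLP (helper15): lower bounds for the products
-/

set_option autoImplicit false

namespace Pool.Agent.Lib.MP_3efbeb_nt.DL

open Finset Filter Topology
open scoped Classical

namespace VLBM

open Pool.Agent.Lib.MP_8cb858_nt.PT.TDM (PS)

/-- `exp(-x-x²) ≤ 1 - x` for `0 ≤ x ≤ 1/2` (helper44) -/
theorem exp_le {x : ℝ} (h0 : 0 ≤ x) (h1 : x ≤ 1 / 2) : Real.exp (-(x + x ^ 2)) ≤ 1 - x := by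
  have h2 : 1 + (x + x ^ 2) + (x + x ^ 2) ^ 2 / 2 ≤ Real.exp (x + x ^ 2) :=
    Real.quadratic_le_exp_of_nonneg (by positivity)
  have h3 : 1 ≤ (1 - x) * Real.exp (x + x ^ 2) := by
    have h4 : 1 ≤ (1 - x) * (1 + (x + x ^ 2) + (x + x ^ 2) ^ 2 / 2) := by
      have h5 : (1 - x) * (1 + (x + x ^ 2) + (x + x ^ 2) ^ 2 / 2) =
          1 + x ^ 2 * ((1 - x) * (1 + x) ^ 2 / 2 - x) := by ring
      have h6 : 0 ≤ (1 - x) * (1 + x) ^ 2 / 2 - x := by
        nlinarith [mul_nonneg h0 (sub_nonneg.2 h1), mul_nonneg (mul_nonneg h0 h0) (sub_nonneg.2 h1)]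
      rw [h5]
      nlinarith [mul_nonneg (sq_nonneg x) h6]
    exact h4.trans (mul_le_mul_of_nonneg_left h2 (by linarith))
  rw [Real.exp_neg]
  rw [inv_le_iff_one_le_mul₀ (Real.exp_pos _)]
  exact h3

/-- the sum of `1/p²` -/
lemma sum_sq_le (M z : ℕ) : ∑ p ∈ PR M z, 1 / ((p : ℝ) ^ 2) ≤ 2 := by
  have h1 : ∑ p ∈ PR M z, 1 / ((p : ℝ) ^ 2) ≤ ∑ p ∈ Ioo 0 z, ((p : ℝ) ^ 2)⁻¹ := by
    simp only [one_div]
    apply sum_le_sum_of_subset_of_nonneg
    · intro p hp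
      unfold PR at hp
      rw [mem_filter, mem_range] at hp
      rw [mem_Ioo]
      exact ⟨hp.2.1.pos, hp.1⟩
    · intro i _ _
      positivity
  have h2 := sum_Ioo_inv_sq_le (α := ℝ) 0 z
  norm_num at h2
  linarith

/-- the sum of `1/p` -/
lemma sum_le_PS (M z : ℕ) : ∑ p ∈ PR M z, 1 / (p : ℝ) ≤ PS z := by
  unfold PS
  apply sum_le_sum_of_subset_of_nonneg
  · intro p hp
    unfold PR at hp
    rw [mem_filter, mem_range] at hp
    rw [mem_filter, mem_Icc]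
    exact ⟨⟨hp.2.1.pos, hp.1.le⟩, hp.2.1⟩
  · intro i _ _
    positivity

/-- the general lower bound -/
lemma lower (k M z : ℕ) (hk : ∀ p : ℕ, p.Prime → ¬ p ∣ M → 2 * k ≤ p) :
    Real.exp (-((k : ℝ) * PS z + 2 * (k : ℝ) ^ 2)) ≤ VV k M z := by
  have h1 : Real.exp (-((k : ℝ) * PS z + 2 * (k : ℝ) ^ 2)) ≤
      Real.exp (∑ p ∈ PR M z, -((k : ℝ) / p + ((k : ℝ) / p) ^ 2)) := by
    apply Real.exp_le_exp.2
    rw [sum_neg_distrib]
    apply neg_le_neg
    rw [sum_add_distrib]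
    have h2 : ∑ p ∈ PR M z, (k : ℝ) / p = k * ∑ p ∈ PR M z, 1 / (p : ℝ) := by
      rw [mul_sum]
      exact sum_congr rfl fun p _ => by ring
    have h3 : ∑ p ∈ PR M z, ((k : ℝ) / p) ^ 2 = (k : ℝ) ^ 2 * ∑ p ∈ PR M z, 1 / ((p : ℝ) ^ 2) := by
      rw [mul_sum]
      exact sum_congr rfl fun p _ => by ring
    rw [h2, h3]
    have h4 := sum_sq_le M z
    have h5 := sum_le_PS M z
    have hk0 : (0 : ℝ) ≤ k := Nat.cast_nonneg k
    nlinarith [mul_le_mul_of_nonneg_left h5 hk0, mul_le_mul_of_nonneg_left h4 (sq_nonneg (k : ℝ))]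
  refine h1.trans ?_
  rw [Real.exp_sum]
  unfold VV
  apply Finset.prod_le_prod
  · intro p _
    exact (Real.exp_pos _).le
  · intro p hp
    unfold PR at hp
    rw [mem_filter, mem_range] at hp
    have hp0 : (0 : ℝ) < p := by exact_mod_cast hp.2.1.pos
    apply exp_le (by positivity)
    rw [div_le_iff₀ hp0]
    have := hk p hp.2.1 hp.2.2
    have h6 : (2 : ℝ) * k ≤ p := by exact_mod_cast this
    linarith

end VLBM

open VLBM in
/-- VLB. -/
theorem specVLB : SpecVLB := by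
  intro k M _ hk
  obtain ⟨C, hC, hm⟩ := Pool.Agent.Lib.MP_8cb858_nt.PT.TDM.mertens
  set c1 : ℝ := Real.exp (-((k : ℝ) * C + 2 * (k : ℝ) ^ 2)) with hc1
  have hc1p : 0 < c1 := Real.exp_pos _
  have hl2 : 0 < Real.log 2 := Real.log_pos (by norm_num)
  refine ⟨min c1 (Real.log 2 ^ k), lt_min hc1p (by positivity), fun z hz => ?_⟩
  have hlz : 0 < Real.log z := Real.log_pos (by exact_mod_cast (by omega : 1 < z))
  by_cases h3 : 3 ≤ z
  · have h4 := (abs_le.1 (hm z h3)).2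
    have h5 := lower k M z hk
    refine le_trans ?_ h5
    have h6 : min c1 (Real.log 2 ^ k) / Real.log z ^ k ≤ c1 / Real.log z ^ k := by
      gcongr
      exact min_le_left _ _
    refine h6.trans ?_
    have h7 : c1 / Real.log z ^ k = Real.exp (-((k : ℝ) * (Real.log (Real.log z) + C) + 2 * (k : ℝ) ^ 2)) := by
      rw [hc1, div_eq_mul_inv]
      have h8 : (Real.log z ^ k)⁻¹ = Real.exp (-((k : ℝ) * Real.log (Real.log z))) := by
        rw [Real.exp_neg, mul_comm (k : ℝ), Real.exp_mul, Real.exp_log hlz, Real.rpow_natCast]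
      rw [h8, ← Real.exp_add]
      congr 1
      ring
    rw [h7]
    apply Real.exp_le_exp.2
    have hk0 : (0 : ℝ) ≤ k := Nat.cast_nonneg k
    nlinarith
  · have hz2 : z = 2 := by omega
    subst hz2
    have h9 : PR M 2 = ∅ := by
      unfold PR
      rw [filter_eq_empty_iff]
      intro p hp hp'
      rw [mem_range] at hp
      have := hp'.1.two_le
      omega
    unfold VV
    rw [h9, prod_empty]
    rw [div_le_one (by positivity)]
    exact min_le_right _ _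

/-- VLP. -/
theorem specVLP : SpecVLP := by
  intro k M A hM hk
  obtain ⟨c, hc, h⟩ := specVLB k M hM hk
  have h1 := isLittleO_log_rpow_rpow_atTop (((k * A : ℕ) : ℝ)) (show (0 : ℝ) < 1 / 4 by norm_num)
  have h2 := h1.def (show (0 : ℝ) < c ^ A by positivity)
  have h3 : ∀ᶠ z : ℕ in atTop, ‖Real.log (z : ℝ) ^ ((k * A : ℕ) : ℝ)‖ ≤ c ^ A * ‖(z : ℝ) ^ ((1 : ℝ) / 4)‖ :=
    tendsto_natCast_atTop_atTop.eventually h2
  obtain ⟨z0, hz0⟩ := eventually_atTop.1 h3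
  refine ⟨max z0 2, fun z hz => ?_⟩
  have hz1 : z0 ≤ z := (le_max_left _ _).trans hz
  have hz2 : 2 ≤ z := (le_max_right _ _).trans hz
  have h4 := hz0 z hz1
  have hzR : (0 : ℝ) < z := by exact_mod_cast (by omega : 0 < z)
  have hlz : 0 < Real.log z := Real.log_pos (by exact_mod_cast (by omega : 1 < z))
  rw [Real.rpow_natCast, Real.norm_of_nonneg (by positivity), Real.norm_of_nonneg (by positivity)] at h4
  have h5 := h z hz2
  have h6 : (c / Real.log z ^ k) ^ A ≤ VV k M z ^ A := pow_le_pow_left₀ (by positivity) h5 A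
  refine le_trans ?_ h6
  rw [div_pow, ← pow_mul, le_div_iff₀ (by positivity)]
  have h7 : (z : ℝ) ^ (-(1 : ℝ) / 4) = ((z : ℝ) ^ ((1 : ℝ) / 4))⁻¹ := by
    rw [← Real.rpow_neg hzR.le]
    norm_num
  rw [h7, inv_mul_le_iff₀ (by positivity)]
  linarith

end Pool.Agent.Lib.MP_3efbeb_nt.DL
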