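import Pool.Agent.Lib.MP_3efbeb_nt.DL.MAIN3
import Pool.Agent.Lib.MP_3efbeb_nt.DL.AVG
import Pool.Agent.Lib.MP_3efbeb_nt.DL.AVG1
import Pool.Agent.Lib.MP_3efbeb_nt.DL.C12
import Pool.Agent.Lib.MP_3efbeb_nt.DL.CNT
import Pool.Agent.Lib.MP_3efbeb_nt.DL.CORE
import Pool.Agent.Lib.MP_3efbeb_nt.DL.SM
import Pool.Agent.Lib.MP_3efbeb_nt.DL.TK
import Pool.Agent.Lib.MP_3efbeb_nt.DL.TYP
import Pool.Agent.Lib.MP_3efbeb_nt.DL.VLB
import Pool.Agent.Lib.MP_3efbeb_nt.DL.BLK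
import Pool.Agent.Lib.MP_3efbeb_nt.DL.BT
import Pool.Agent.Lib.MP_3efbeb_nt.DL.GE

/-!
# Assembly: everything but Szemeredi's theorem
-/

set_option autoImplicit false

namespace Pool.Agent.Lib.MP_3efbeb_nt.DL

theorem all_c1 : SpecC1 := specC1 specCNT

theorem all_sm : SpecSM := specSM all_c1 (specC2 specCNT) (specAVG (specAVG1 specBT)) specBLK specVLP

theorem all_core : SpecCORE := specCORE all_c1 specVLP all_sm (specTK all_c1 specVLP)

theorem all_eq : SpecEQ := specEQ all_core specLAM (specGE all_c1 specVLP all_core specLAM)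

theorem all_win : SpecWIN2 := specWIN2 all_c1 specVLP (specCLOSE2 all_eq)

theorem all_main (hSZ : SpecSZ) : SpecMAIN3 := specMAIN3 all_win (specTYP all_c1 specVLP) specVLB hSZ

end Pool.Agent.Lib.MP_3efbeb_nt.DL
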