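import Pool.Agent.Lib.MP_3efbeb_nt.DL.Spec
import Pool.Agent.Lib.MP_391708_nt.QPA.Bt
import Pool.Agent.Lib.PntAP.Main

/-!
# MP_3efbeb_nt, DL, modules BLK, LAM, BT (helper15): primes `q = 1 (mod M)` in dyadic blocks
-/

set_option autoImplicit false

namespace Pool.Agent.Lib.MP_3efbeb_nt.DL

open Finset
open scoped Classical

namespace BLKM

open Filter Topology

lemma tot_pos {M : ℕ} (hM : 1 ≤ M) : (0 : ℝ) < (M.totient : ℝ) := by
  exact_mod_cast Nat.totient_pos.2 (by omega)

/-- the block as a difference of counting functions -/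
lemma blk_eq (M j : ℕ) [NeZero M] :
    ((blk M j).card : ℝ) = PntAP.piAP (1 : ZMod M) ((1 + 1) * ((2 : ℝ) ^ j)) -
      PntAP.piAP (1 : ZMod M) ((2 : ℝ) ^ j) := by
  have h1 : (1 + 1) * ((2 : ℝ) ^ j) = ((2 ^ (j + 1) : ℕ) : ℝ) := by
    push_cast
    ring
  have h2 : (2 : ℝ) ^ j = ((2 ^ j : ℕ) : ℝ) := by push_cast; rfl
  rw [h1, h2]
  unfold PntAP.piAP
  rw [Nat.floor_natCast, Nat.floor_natCast]
  have hc : ∀ p : ℕ, ((p : ZMod M) = 1) ↔ (p % M = 1 % M) := by
    intro p
    have := ZMod.natCast_eq_natCast_iff' p 1 M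
    rw [Nat.cast_one] at this
    exact this
  have hU : (Icc 1 (2 ^ (j + 1))).filter (fun p : ℕ => p.Prime ∧ (p : ZMod M) = 1) =
      (Icc 1 (2 ^ j)).filter (fun p : ℕ => p.Prime ∧ (p : ZMod M) = 1) ∪ blk M j := by
    ext p
    unfold blk
    rw [mem_union, mem_filter, mem_filter, mem_filter, mem_Icc, mem_Icc, mem_Ioc, hc]
    have h3 : 2 ^ j ≤ 2 ^ (j + 1) := Nat.pow_le_pow_right (by norm_num) (by omega)
    constructor
    · rintro ⟨⟨a, b⟩, c, d⟩
      by_cases h : p ≤ 2 ^ j
      · exact Or.inl ⟨⟨a, h⟩, c, d⟩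
      · exact Or.inr ⟨⟨by omega, b⟩, c, d⟩
    · rintro (⟨⟨a, b⟩, c, d⟩ | ⟨⟨a, b⟩, c, d⟩)
      · exact ⟨⟨a, by omega⟩, c, d⟩
      · exact ⟨⟨by omega, b⟩, c, d⟩
  rw [hU, card_union_of_disjoint]
  · push_cast; ring
  · rw [Finset.disjoint_left]
    intro p hp hp'
    unfold blk at hp'
    rw [mem_filter, mem_Icc] at hp
    rw [mem_filter, mem_Ioc] at hp'
    omega

end BLKM

open BLKM Filter Topology in
/-- BLK. -/
theorem specBLK : SpecBLK := by
  intro M hM
  have : NeZero M := ⟨by omega⟩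
  have hφ := tot_pos hM
  have h1 := PntAP.pi_ap_interval (q := M) (a := 1) isUnit_one (δ := 1) one_pos
  have h2 : Real.log 2 / (2 * (M.totient : ℝ)) < 1 / (M.totient : ℝ) := by
    have := Real.log_two_lt_d9
    rw [div_lt_div_iff₀ (by positivity) hφ]
    nlinarith
  have h3 : Tendsto (fun j : ℕ => (2 : ℝ) ^ j) atTop atTop :=
    tendsto_pow_atTop_atTop_of_one_lt (by norm_num)
  have h4 := (h1.comp h3).eventually_const_lt h2
  obtain ⟨j0, hj0⟩ := eventually_atTop.1 h4
  refine ⟨max j0 1, fun j hj => ?_⟩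
  have h5 := hj0 j ((le_max_left _ _).trans hj)
  have hj1 : 1 ≤ j := (le_max_right _ _).trans hj
  have hjR : (0 : ℝ) < j := by exact_mod_cast hj1
  simp only [Function.comp_apply] at h5
  rw [← blk_eq, Real.log_pow] at h5
  have hl : 0 < Real.log 2 := Real.log_pos (by norm_num)
  have h2j : (0 : ℝ) < 2 ^ j := by positivity
  rw [div_le_iff₀ (by positivity)]
  rw [div_lt_div_iff₀ (by positivity) h2j] at h5
  have h6 : Real.log 2 * (2 : ℝ) ^ j ≤ Real.log 2 * ((blk M j).card * (2 * (M.totient : ℝ) * j)) := by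
    nlinarith
  exact le_of_mul_le_mul_left h6 hl

/-- LAM. -/
theorem specLAM : SpecLAM := by
  intro M B hM
  obtain ⟨j0, hj0⟩ := specBLK M hM
  have hφ := BLKM.tot_pos hM
  set A : ℕ := ⌈Real.exp (4 * (M.totient : ℝ) * B)⌉₊ + 1 with hA
  refine ⟨A, max j0 1, fun J hJ => ?_⟩
  have hJ0 : j0 ≤ J := (le_max_left _ _).trans hJ
  have hJ1 : 1 ≤ J := (le_max_right _ _).trans hJ
  have hJR : (0 : ℝ) < J := by exact_mod_cast hJ1
  -- the sum over the blocks
  have key : ∀ n : ℕ, J ≤ n → (Real.log n - Real.log J) / (4 * (M.totient : ℝ)) ≤ Lam (QQ M J n) := by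
    intro n hn
    induction n, hn using Nat.le_induction with
    | base =>
      rw [sub_self, zero_div]
      unfold Lam
      exact sum_nonneg fun _ _ => by positivity
    | succ n hn ih =>
      have hn1 : 1 ≤ n := hJ1.trans hn
      have hnR : (0 : ℝ) < n := by exact_mod_cast hn1
      have e1 : QQ M J (n + 1) = QQ M J n ∪ blk M n := by
        ext p
        unfold QQ blk
        rw [mem_union, mem_filter, mem_filter, mem_filter, mem_Ioc, mem_Ioc, mem_Ioc]
        have h3 : 2 ^ n ≤ 2 ^ (n + 1) := Nat.pow_le_pow_right (by norm_num) (by omega)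
        have h4 : 2 ^ J ≤ 2 ^ n := Nat.pow_le_pow_right (by norm_num) hn
        constructor
        · rintro ⟨⟨a, b⟩, c⟩
          by_cases h : p ≤ 2 ^ n
          · exact Or.inl ⟨⟨a, h⟩, c⟩
          · exact Or.inr ⟨⟨by omega, b⟩, c⟩
        · rintro (⟨⟨a, b⟩, c⟩ | ⟨⟨a, b⟩, c⟩)
          · exact ⟨⟨a, by omega⟩, c⟩
          · exact ⟨⟨by omega, b⟩, c⟩
      have hdisj : Disjoint (QQ M J n) (blk M n) := by
        rw [Finset.disjoint_left]
        intro p hp hp'
        unfold QQ at hp
        unfold blk at hp'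
        rw [mem_filter, mem_Ioc] at hp hp'
        omega
      have h5 : (1 : ℝ) / (4 * (M.totient : ℝ) * n) ≤ Lam (blk M n) := by
        have h6 := hj0 n (hJ0.trans hn)
        have h7 : ((blk M n).card : ℝ) / 2 ^ (n + 1) ≤ Lam (blk M n) := by
          unfold Lam
          rw [div_eq_mul_one_div, ← nsmul_eq_mul, ← sum_const]
          refine sum_le_sum fun p hp => ?_
          unfold blk at hp
          rw [mem_filter, mem_Ioc] at hp
          have hp0 : (0 : ℝ) < p := by exact_mod_cast hp.2.1.pos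
          apply one_div_le_one_div_of_le hp0
          exact_mod_cast hp.1.2
        refine le_trans ?_ h7
        rw [div_le_div_iff₀ (by positivity) (by positivity)]
        rw [div_le_iff₀ (by positivity)] at h6
        rw [pow_succ]
        nlinarith
      have h8 : Real.log ((n + 1 : ℕ) : ℝ) - Real.log n ≤ 1 / n := by
        rw [← Real.log_div (by positivity) hnR.ne']
        have h9 : (((n + 1 : ℕ) : ℝ) / n) = 1 + 1 / n := by
          push_cast
          field_simp
        rw [h9]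
        have := Real.log_le_sub_one_of_pos (show (0 : ℝ) < 1 + 1 / n by positivity)
        linarith
      have h10 : Lam (QQ M J (n + 1)) = Lam (QQ M J n) + Lam (blk M n) := by
        rw [e1]
        unfold Lam
        rw [sum_union hdisj]
      rw [h10]
      have h11 : (Real.log ((n + 1 : ℕ) : ℝ) - Real.log J) / (4 * (M.totient : ℝ)) =
          (Real.log n - Real.log J) / (4 * (M.totient : ℝ)) +
          (Real.log ((n + 1 : ℕ) : ℝ) - Real.log n) / (4 * (M.totient : ℝ)) := by ring
      rw [h11]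
      apply add_le_add ih
      refine le_trans ?_ h5
      rw [div_le_div_iff₀ (by positivity) (by positivity)]
      have : (Real.log ((n + 1 : ℕ) : ℝ) - Real.log n) * n ≤ 1 := by
        rw [← le_div_iff₀ hnR]; exact h8
      nlinarith
  have h12 := key (A * J) (Nat.le_mul_of_pos_left _ (by omega))
  refine le_trans ?_ h12
  rw [le_div_iff₀ (by positivity)]
  have hA0 : (0 : ℝ) < A := by exact_mod_cast (by omega : 0 < A)
  have h13 : Real.log ((A * J : ℕ) : ℝ) = Real.log A + Real.log J := by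
    push_cast
    rw [Real.log_mul hA0.ne' hJR.ne']
  rw [h13]
  have h14 : 4 * (M.totient : ℝ) * B ≤ Real.log A := by
    rw [Real.le_log_iff_exp_le hA0]
    have h15 := Nat.le_ceil (Real.exp (4 * (M.totient : ℝ) * B))
    have h16 : (⌈Real.exp (4 * (M.totient : ℝ) * B)⌉₊ : ℝ) ≤ A := by
      rw [hA]; push_cast; linarith
    linarith
  linarith

end Pool.Agent.Lib.MP_3efbeb_nt.DL
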