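import Pool.Agent.Lib.MP_3efbeb_nt.DL.Spec

/-!
# DL: basic lemmas (rough numbers, multiples of `d = 1 (mod M)`, the counts in the form `± η + z^K`)
-/

set_option autoImplicit false

namespace Pool.Agent.Lib.MP_3efbeb_nt.DL

open Finset
open scoped Classical

namespace Base

lemma rgh_one (M z : ℕ) : Rgh M z 1 := by
  intro p hp _ _ h
  have h1 : (p : ℤ) ≤ 1 := Int.le_of_dvd one_pos h
  have := hp.two_le
  omega

/-- a prime `≥ z` is rough -/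
lemma rgh_prime {M z q : ℕ} (hq : q.Prime) (hz : z ≤ q) : Rgh M z q := by
  intro p hp hpz _ h
  have h1 : p ∣ q := by exact_mod_cast h
  have := (Nat.prime_dvd_prime_iff_eq hp hq).1 h1
  omega

lemma rgh_mul {M z : ℕ} {a b : ℤ} (ha : Rgh M z a) (hb : Rgh M z b) : Rgh M z (a * b) := by
  intro p hp hpz hpM h
  rcases (Nat.prime_iff_prime_int.1 hp).dvd_or_dvd h with h | h
  · exact ha p hp hpz hpM h
  · exact hb p hp hpz hpM h

lemma rgh_mul_right {M z : ℕ} {a b : ℤ} (h : Rgh M z (a * b)) : Rgh M z b :=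
  fun p hp hpz hpM hd => h p hp hpz hpM (hd.mul_left a)

lemma rgh_mul_iff {M z : ℕ} {a b : ℤ} (ha : Rgh M z a) : Rgh M z (a * b) ↔ Rgh M z b :=
  ⟨rgh_mul_right, rgh_mul ha⟩

lemma mod_mul_eq {M d m r : ℕ} (hd : d % M = 1 % M) : (d * m) % M = r % M ↔ m % M = r % M := by
  have h : (d * m) % M = m % M := by
    rw [Nat.mul_mod, hd, ← Nat.mul_mod, one_mul]
  rw [h]

/-- the multiples of `d` in `W1 S 1 X` -/
lemma mult_iff {M r z : ℕ} {S : Finset ℤ} {d X : ℕ} (hd0 : 1 ≤ d) (hd : d % M = 1 % M) (hr : Rgh M z d) (m : ℕ) :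
    d * m ∈ W1 M r z S 1 X ↔ m ∈ W1 M r z ∅ 1 (X / d) ∧ cq M z S d m := by
  unfold W1
  simp only [mem_filter, mem_Icc]
  rw [mod_mul_eq hd]
  have e1 : Rgh M z ((d * m : ℕ) : ℤ) ↔ Rgh M z m := by
    push_cast
    exact rgh_mul_iff hr
  have e2 : cq M z S 1 (d * m) ↔ cq M z S d m := by
    unfold cq
    push_cast
    simp only [one_mul]
  have e3 : cq M z ∅ 1 m := fun s hs => absurd hs (Finset.notMem_empty s)
  rw [e1, e2]
  have e4 : 1 ≤ d * m ∧ d * m ≤ X ↔ 1 ≤ m ∧ m ≤ X / d := by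
    rw [Nat.le_div_iff_mul_le (by omega), mul_comm d m]
    constructor
    · rintro ⟨h1, h2⟩
      exact ⟨Nat.pos_of_mul_pos_right h1, h2⟩
    · rintro ⟨h1, h2⟩
      exact ⟨Nat.mul_pos h1 hd0, h2⟩
  rw [e4]
  tauto

/-- `W1 S d Y` in terms of `W1 ∅` -/
lemma mem_W1 {M r z : ℕ} {S : Finset ℤ} {d Y m : ℕ} :
    m ∈ W1 M r z S d Y ↔ m ∈ W1 M r z ∅ 1 Y ∧ cq M z S d m := by
  unfold W1
  simp only [mem_filter]
  have e3 : cq M z ∅ 1 m := fun s hs => absurd hs (Finset.notMem_empty s)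
  tauto

/-- the sum over the multiples of `d` -/
lemma sum_mult {M r z : ℕ} {S : Finset ℤ} {d X : ℕ} (hd0 : 1 ≤ d) (hd : d % M = 1 % M) (hr : Rgh M z d) (g : ℕ → ℝ) :
    ∑ m ∈ (W1 M r z S 1 X).filter (fun m => d ∣ m), g m = ∑ m ∈ W1 M r z S d (X / d), g (d * m) := by
  symm
  refine sum_bij (fun m _ => d * m) ?_ ?_ ?_ ?_
  · intro m hm
    rw [mem_W1] at hm
    rw [mem_filter, mult_iff hd0 hd hr]
    exact ⟨hm, dvd_mul_right _ _⟩
  · intro a _ b _ h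
    exact Nat.eq_of_mul_eq_mul_left hd0 h
  · intro n hn
    rw [mem_filter] at hn
    obtain ⟨m, rfl⟩ := hn.2
    exact ⟨m, mem_W1.2 ((mult_iff hd0 hd hr m).1 hn.1), rfl⟩
  · intro m _
    rfl

lemma card_mult {M r z : ℕ} {S : Finset ℤ} {d X : ℕ} (hd0 : 1 ≤ d) (hd : d % M = 1 % M) (hr : Rgh M z d) :
    ((W1 M r z S 1 X).filter (fun m => d ∣ m)).card = (W1 M r z S d (X / d)).card := by
  have h := sum_mult (S := S) (r := r) (X := X) hd0 hd hr (fun _ => (1 : ℝ))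
  simp only [sum_const, nsmul_eq_mul, mul_one] at h
  exact_mod_cast h

/-- the factors of `VV` -/
lemma fac_pos {k M z p : ℕ} (h : ∀ p : ℕ, p.Prime → ¬ p ∣ M → 2 * k ≤ p) (hp : p ∈ PR M z) :
    0 < 1 - (k : ℝ) / p ∧ 1 - (k : ℝ) / p ≤ 1 := by
  unfold PR at hp
  rw [mem_filter] at hp
  have h1 := h p hp.2.1 hp.2.2
  have hp0 : (0 : ℝ) < p := by exact_mod_cast hp.2.1.pos
  have h2 : (2 * k : ℝ) ≤ p := by exact_mod_cast h1
  have h3 : (k : ℝ) / p ≤ 1 / 2 := by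
    rw [div_le_div_iff₀ hp0 (by norm_num)]
    linarith
  have h4 : (0 : ℝ) ≤ (k : ℝ) / p := by positivity
  constructor <;> linarith

lemma VV_pos {k M z : ℕ} (h : ∀ p : ℕ, p.Prime → ¬ p ∣ M → 2 * k ≤ p) : 0 < VV k M z := by
  unfold VV
  exact prod_pos fun p hp => (fac_pos h hp).1

lemma VV_le_one {k M z : ℕ} (h : ∀ p : ℕ, p.Prime → ¬ p ∣ M → 2 * k ≤ p) : VV k M z ≤ 1 := by
  unfold VV
  exact prod_le_one (fun p hp => (fac_pos h hp).1.le) (fun p hp => (fac_pos h hp).2)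

lemma Good.two_mul {S : Finset ℤ} {P0 M k : ℕ} (h : Good S P0 M) (hk : 2 * k ≤ P0) :
    ∀ p : ℕ, p.Prime → ¬ p ∣ M → 2 * k ≤ p := fun p hp hpM => by
  have := (h.2 p hp hpM).1
  omega

lemma Good.mono {S : Finset ℤ} {P0 P1 M : ℕ} (h : Good S P0 M) (hk : P1 ≤ P0) : Good S P1 M :=
  ⟨h.1, fun p hp hpM => ⟨lt_of_le_of_lt hk (h.2 p hp hpM).1, (h.2 p hp hpM).2⟩⟩

lemma Good.empty {S : Finset ℤ} {P0 M : ℕ} (h : Good S P0 M) : Good ∅ P0 M :=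
  ⟨h.1, fun p hp hpM => ⟨(h.2 p hp hpM).1, fun s hs => absurd hs (Finset.notMem_empty s),
    fun s hs => absurd hs (Finset.notMem_empty s)⟩⟩

/-- C1 with a relative error `η` and an absolute error `z ^ K` -/
lemma c1 (hC1 : SpecC1) (S : Finset ℤ) (η : ℝ) (hη : 0 < η) : ∃ K z0 : ℕ, 2 ≤ z0 ∧ ∀ M r z d Y : ℕ,
    Good S (2 * (S.card + 1)) M → z0 ≤ z → Rgh M z d →
    |((W1 M r z S d Y).card : ℝ) - (Y : ℝ) / M * VV (S.card + 1) M z|
      ≤ η * ((Y : ℝ) / M * VV (S.card + 1) M z) + (z : ℝ) ^ K := by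
  obtain ⟨C, hC⟩ := hC1 S
  obtain ⟨b, hb⟩ : ∃ b : ℕ, C * Real.exp (-(b : ℝ)) ≤ η := by
    have h1 : Filter.Tendsto (fun b : ℕ => C * Real.exp (-(b : ℝ))) Filter.atTop (nhds (C * 0)) :=
      (Real.tendsto_exp_neg_atTop_nhds_zero.comp tendsto_natCast_atTop_atTop).const_mul _
    rw [mul_zero] at h1
    obtain ⟨b, hb⟩ := (h1.eventually (ge_mem_nhds hη)).exists
    exact ⟨b, hb⟩
  refine ⟨C * (b + 1) + 1, C + 2, by omega, fun M r z d Y hM hz hd => ?_⟩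
  have h := hC b M r z d Y hM (by omega) hd
  have hV : 0 ≤ VV (S.card + 1) M z := (VV_pos (Good.two_mul hM le_rfl)).le
  have hY : 0 ≤ (Y : ℝ) / M := by positivity
  refine h.trans (add_le_add ?_ ?_)
  · rw [mul_assoc]
    exact mul_le_mul_of_nonneg_right hb (mul_nonneg hY hV)
  · rw [pow_succ, mul_comm ((z : ℝ) ^ (C * (b + 1)))]
    refine mul_le_mul_of_nonneg_right ?_ (by positivity)
    exact_mod_cast (by omega : C ≤ z)

lemma mem_QQ {M J1 J2 q : ℕ} (hq : q ∈ QQ M J1 J2) : q.Prime ∧ q % M = 1 % M ∧ 2 ^ J1 < q ∧ q ≤ 2 ^ J2 := by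
  unfold QQ at hq
  rw [mem_filter, mem_Ioc] at hq
  exact ⟨hq.2.1, hq.2.2, hq.1.1, hq.1.2⟩

lemma mem_blk {M j q : ℕ} (hq : q ∈ blk M j) : q.Prime ∧ q % M = 1 % M ∧ 2 ^ j < q ∧ q ≤ 2 ^ (j + 1) := by
  unfold blk at hq
  rw [mem_filter, mem_Ioc] at hq
  exact ⟨hq.2.1, hq.2.2, hq.1.1, hq.1.2⟩

lemma Lam_nonneg (Q : Finset ℕ) : 0 ≤ Lam Q := sum_nonneg fun q _ => by positivity

end Base

end Pool.Agent.Lib.MP_3efbeb_nt.DL
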