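import Pool.Agent.Lib.MP_3efbeb_nt.DL.GE

/-!
# MP_3efbeb_nt, DL, modules EQ, CLOSE2 (helper15): equidistribution of the classes in the rough tuples, at every `X`
-/

set_option autoImplicit false

namespace Pool.Agent.Lib.MP_3efbeb_nt.DL

open Finset Filter Topology
open scoped Classical

noncomputable section

/-- EQ (from GE, CORE, LAM): at every `X` the classes of one element of the rough tuples have the same density, and this
density is the one in the rough numbers (times `VQ`). -/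
def SpecEQ : Prop := ∀ (S : Finset ℤ) (m : ℕ) (η : ℝ), 1 ≤ m → 0 < η → (∀ s ∈ S, s ≠ 0) → ∃ P0 : ℕ, ∀ M : ℕ,
  Good S P0 M → ∃ B z0 : ℕ, ∀ z : ℕ, z0 ≤ z → ∀ (X r : ℕ) (g : ℕ → ℕ → ℝ), z ^ B ≤ X →
  (∀ a n, 0 ≤ g a n ∧ g a n ≤ 1) → (∀ a n, g (a + m) n = g a n) →
  (∀ q : ℕ, q.Prime → z < q → q ≤ z ^ B → ∀ a n, 1 ≤ n → g (a + 1) (q * n) = g a n) →
  (∀ a : ℕ, |NN M r z S (g a) X - VQ S M z * NN M r z ∅ (g a) X| ≤ η * ((X : ℝ) / M) * VV (S.card + 1) M z) ∧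
  (∀ a b : ℕ, |NN M r z S (g a) X - NN M r z S (g b) X| ≤ η * ((X : ℝ) / M) * VV (S.card + 1) M z) ∧
  (∀ a b : ℕ, |NN M r z ∅ (g a) X - NN M r z ∅ (g b) X| ≤ η * ((X : ℝ) / M) * VV 1 M z)

/-- CLOSE2 (from EQ): CLOSE with `X' = X`. -/
def SpecCLOSE2 : Prop := ∀ (L m : ℕ) (S : Fin L → Finset ℤ) (k : ℕ) (σ η : ℝ), 1 ≤ L → 1 ≤ m → 0 < σ → 0 < η →
  (∀ i, (S i).card + 1 = k) → (∀ i, ∀ s ∈ S i, s ≠ 0) → ∃ P0 : ℕ, ∀ M : ℕ, (∀ i, Good (S i) P0 M) →
  ∃ B z0 : ℕ, ∀ z : ℕ, z0 ≤ z → ∀ (X : ℕ) (r : Fin L → ℕ) (g : ℕ → ℕ → ℝ), z ^ B ≤ X →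
  (∀ a n, 0 ≤ g a n ∧ g a n ≤ 1) → (∀ a n, g (a + m) n = g a n) →
  (∀ q : ℕ, q.Prime → z < q → q ≤ z ^ B → ∀ a n, 1 ≤ n → g (a + 1) (q * n) = g a n) →
  (∀ i, σ * ((X : ℝ) / M) * VV 1 M z ≤ ∑ a ∈ range m, NN M (r i) z ∅ (g a) X) →
    (σ / m - η) * L * ((X : ℝ) / M) * VV k M z ≤ ∑ i, NN M (r i) z (S i) (g 1) X

open GEM in
/-- EQ. -/
theorem specEQ (hCORE : SpecCORE) (hLAM : SpecLAM) (hGE : SpecGE) : SpecEQ := by
  intro S m η hm hη hS
  set η₁ : ℝ := η / 5 with hη₁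
  have hη₁p : 0 < η₁ := by positivity
  obtain ⟨P0, Bc, hcore⟩ := hCORE S η₁ hη₁p hS
  obtain ⟨P0e, Bce, hcoree⟩ := hCORE ∅ η₁ hη₁p (fun s hs => absurd hs (Finset.notMem_empty s))
  obtain ⟨P0g, hge⟩ := hGE m η₁ hm hη₁p
  refine ⟨P0 + P0e + P0g + 2 * (S.card + 1), fun M hM => ?_⟩
  have hM1 : 1 ≤ M := hM.1
  obtain ⟨K, z0, hcore2⟩ := hcore M (Base.Good.mono hM (by omega))
  obtain ⟨Ke, z0e, hcoree2⟩ := hcoree M (Base.Good.mono (Base.Good.empty hM) (by omega))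
  obtain ⟨Bg, zg, hge2⟩ := hge M (Base.Good.mono (Base.Good.empty hM) (by omega))
  obtain ⟨A, J0, hA⟩ := hLAM M (max (max Bc Bce) 1) hM1
  set BB : ℕ := 16 * A + K + Ke + Bg + 2 * A with hBB
  refine ⟨BB, z0 + z0e + zg + 2 ^ J0 + 2, fun z hz X r g hX hg01 hper hgq => ?_⟩
  have h2J0 : 0 < 2 ^ J0 := Nat.pow_pos (by norm_num)
  have hz2 : 2 ≤ z := by omega
  have hz1 : 1 ≤ z := by omega
  obtain ⟨hs1, hs2⟩ := CLO.scale A z hz2
  set J1 := Nat.clog 2 z with hJ1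
  set J2 := A * J1 with hJ2
  have hJ01 : J0 ≤ J1 := by
    have h1 : 2 ^ J0 ≤ 2 ^ J1 := by omega
    exact (Nat.pow_le_pow_iff_right (by norm_num)).1 h1
  have hΛB : max (max Bc Bce) 1 ≤ Lam (QQ M J1 J2) := hA J1 hJ01
  set Λ := Lam (QQ M J1 J2) with hΛd
  have hΛ1 : 1 ≤ Λ := (le_max_right _ _).trans hΛB
  have hΛ : 0 < Λ := by linarith
  have hΛc : Bc ≤ Λ := ((le_max_left _ _).trans (le_max_left _ _)).trans hΛB
  have hΛe : Bce ≤ Λ := ((le_max_right _ _).trans (le_max_left _ _)).trans hΛB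
  have hV : 0 < VV 1 M z := Base.VV_pos fun p hp hpM => by
    have := hM.2 p hp hpM
    omega
  have hVk : 0 < VV (S.card + 1) M z := Base.VV_pos fun p hp hpM => by
    have := hM.2 p hp hpM
    omega
  have hMR : (0 : ℝ) < M := by exact_mod_cast (by omega : 0 < M)
  have hVQ : VQ ∅ M z = 1 := by
    unfold VQ
    rw [card_empty, zero_add, div_self hV.ne']
  have hVQ0 : 0 < VQ S M z := div_pos hVk hV
  have hVV : VQ S M z * VV 1 M z = VV (S.card + 1) M z := div_mul_cancel₀ _ hV.ne'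
  have habs : ∀ a n, |g a n| ≤ 1 := fun a n => by
    rw [abs_of_nonneg (hg01 a n).1]; exact (hg01 a n).2
  have hshift : ∀ a, ∀ q ∈ QQ M J1 J2, ∀ n, 1 ≤ n → g (a + 1) (q * n) = g a n := by
    intro a q hq n hn
    obtain ⟨q1, q2, q3, q4⟩ := Base.mem_QQ hq
    refine hgq q q1 (lt_of_le_of_lt hs1 q3) (q4.trans (hs2.trans ?_)) a n hn
    exact Nat.pow_le_pow_right hz1 (by omega)
  have hsc : ∀ K' : ℕ, K' ≤ K + Ke → 2 ^ (8 * J2) * z ^ K' ≤ X := by
    intro K' hK'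
    refine le_trans ?_ hX
    calc 2 ^ (8 * J2) * z ^ K' = (2 ^ J2) ^ 8 * z ^ K' := by rw [mul_comm 8 J2, pow_mul]
      _ ≤ (z ^ (2 * A)) ^ 8 * z ^ K' := Nat.mul_le_mul_right _ (Nat.pow_le_pow_left hs2 8)
      _ = z ^ (16 * A + K') := by rw [← pow_mul, ← pow_add]; congr 1; ring
      _ ≤ z ^ BB := Nat.pow_le_pow_right hz1 (by omega)
  have hper' : ∀ a, g (a + m) = g a := fun a => funext fun n => hper a n
  have hgX : z ^ Bg ≤ X := (Nat.pow_le_pow_right hz1 (by omega)).trans hX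
  have hG := hge2 z (by omega) X r g hgX hg01 hper
    (fun q hq h1 h2 => hgq q hq h1 (h2.trans (Nat.pow_le_pow_right hz1 (by omega))))
  -- the transfer for the classes `a + 1`
  have htr1 : ∀ a : ℕ, |NN M r z S (g (a + 1)) X - VQ S M z * NN M r z ∅ (g (a + 1)) X| ≤
      2 * η₁ * ((X : ℝ) / M) * VV (S.card + 1) M z := by
    intro a
    have a1 := hcore2 z (by omega) J1 J2 hs1 hΛc X r (hsc K (by omega)) (g (a + 1)) (g a) (habs _) (habs _) (hshift a)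
    have a2 := hcoree2 z (by omega) J1 J2 hs1 hΛe X r (hsc Ke (by omega)) (g (a + 1)) (g a) (habs _) (habs _)
      (hshift a)
    rw [hVQ, one_mul, card_empty, zero_add] at a2
    have a3 : |VQ S M z * (Λ * NN M r z ∅ (g (a + 1)) X - ∑ q ∈ QQ M J1 J2, NN M r z ∅ (g a) (X / q))| ≤
        η₁ * Λ * ((X : ℝ) / M) * VV (S.card + 1) M z := by
      rw [abs_mul, abs_of_pos hVQ0, ← hVV]
      calc VQ S M z * |Λ * NN M r z ∅ (g (a + 1)) X - ∑ q ∈ QQ M J1 J2, NN M r z ∅ (g a) (X / q)| ≤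
          VQ S M z * (η₁ * Λ * ((X : ℝ) / M) * VV 1 M z) := mul_le_mul_of_nonneg_left a2 hVQ0.le
        _ = _ := by ring
    have a4 : |Λ * (NN M r z S (g (a + 1)) X - VQ S M z * NN M r z ∅ (g (a + 1)) X)| ≤
        Λ * (2 * η₁ * ((X : ℝ) / M) * VV (S.card + 1) M z) := by
      have e : Λ * (NN M r z S (g (a + 1)) X - VQ S M z * NN M r z ∅ (g (a + 1)) X) =
          (Λ * NN M r z S (g (a + 1)) X - VQ S M z * ∑ q ∈ QQ M J1 J2, NN M r z ∅ (g a) (X / q)) -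
          VQ S M z * (Λ * NN M r z ∅ (g (a + 1)) X - ∑ q ∈ QQ M J1 J2, NN M r z ∅ (g a) (X / q)) := by ring
      rw [e]
      refine (abs_sub _ _).trans ((add_le_add a1 a3).trans (le_of_eq ?_))
      ring
    rw [abs_mul, abs_of_pos hΛ] at a4
    exact le_of_mul_le_mul_left a4 hΛ
  have htr : ∀ a : ℕ, |NN M r z S (g a) X - VQ S M z * NN M r z ∅ (g a) X| ≤
      2 * η₁ * ((X : ℝ) / M) * VV (S.card + 1) M z := by
    intro a
    have h1 := htr1 (a + m - 1)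
    have e1 : a + m - 1 + 1 = a + m := by omega
    rw [e1, hper'] at h1
    exact h1
  have hQ : 0 ≤ ((X : ℝ) / M) * VV (S.card + 1) M z := by positivity
  have hQ1 : 0 ≤ ((X : ℝ) / M) * VV 1 M z := by positivity
  have e5 : η = 5 * η₁ := by rw [hη₁]; ring
  refine ⟨fun a => (htr a).trans ?_, fun a b => ?_, fun a b => (hG a b).trans ?_⟩
  · rw [e5]; nlinarith
  · have a1 := htr a
    have a2 := htr b
    have a3 : |VQ S M z * (NN M r z ∅ (g a) X - NN M r z ∅ (g b) X)| ≤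
        η₁ * ((X : ℝ) / M) * VV (S.card + 1) M z := by
      rw [abs_mul, abs_of_pos hVQ0, ← hVV]
      calc VQ S M z * |NN M r z ∅ (g a) X - NN M r z ∅ (g b) X| ≤
          VQ S M z * (η₁ * ((X : ℝ) / M) * VV 1 M z) := mul_le_mul_of_nonneg_left (hG a b) hVQ0.le
        _ = _ := by ring
    rw [abs_le] at a1 a2 a3 ⊢
    rw [e5]
    constructor <;> nlinarith [a1.1, a1.2, a2.1, a2.2, a3.1, a3.2]
  · rw [e5]; nlinarith

/-- CLOSE2. -/
theorem specCLOSE2 (hEQ : SpecEQ) : SpecCLOSE2 := by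
  intro L m S k σ η hL hm hσ hη hk hS
  have hmR : (0 : ℝ) < m := by exact_mod_cast (by omega : 0 < m)
  set η₁ : ℝ := η / 2 with hη₁
  have hη₁p : 0 < η₁ := by positivity
  choose P0 hP0 using fun i => hEQ (S i) m η₁ hm hη₁p (hS i)
  refine ⟨univ.sup P0 + 2 * k + 2, fun M hM => ?_⟩
  have i0 : Fin L := ⟨0, by omega⟩
  choose B z0 hB using fun i => hP0 i M
    (Base.Good.mono (hM i) (by have := Finset.le_sup (f := P0) (mem_univ i); omega))
  refine ⟨univ.sup B, univ.sup z0 + 2, fun z hz X r g hX hg01 hper hgq hden => ?_⟩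
  have hz1 : 1 ≤ z := by omega
  have hV : 0 < VV 1 M z := Base.VV_pos fun p hp hpM => by
    have := (hM i0).2 p hp hpM
    omega
  have hVk : 0 < VV k M z := Base.VV_pos fun p hp hpM => by
    have := (hM i0).2 p hp hpM
    omega
  have hM1 : 1 ≤ M := (hM i0).1
  have hMR : (0 : ℝ) < M := by exact_mod_cast (by omega : 0 < M)
  have key : ∀ i, (σ / m - η) * ((X : ℝ) / M) * VV k M z ≤ NN M (r i) z (S i) (g 1) X := by
    intro i
    have hBi := Finset.le_sup (f := B) (mem_univ i)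
    have hzi := Finset.le_sup (f := z0) (mem_univ i)
    obtain ⟨e1, _, e3⟩ := hB i z (by omega) X (r i) g ((Nat.pow_le_pow_right hz1 hBi).trans hX) hg01 hper
      (fun q hq h1 h2 => hgq q hq h1 (h2.trans (Nat.pow_le_pow_right hz1 hBi)))
    have h1 := (abs_le.1 (e1 1)).1
    have h2 : ∑ a ∈ range m, NN M (r i) z ∅ (g a) X ≤
        m * (NN M (r i) z ∅ (g 1) X + η₁ * ((X : ℝ) / M) * VV 1 M z) := by
      calc ∑ a ∈ range m, NN M (r i) z ∅ (g a) X ≤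
          ∑ _a ∈ range m, (NN M (r i) z ∅ (g 1) X + η₁ * ((X : ℝ) / M) * VV 1 M z) :=
            sum_le_sum fun a _ => by
              have := (abs_le.1 (e3 a 1)).2
              linarith
        _ = _ := by rw [sum_const, card_range, nsmul_eq_mul]
    have h3 := (hden i).trans h2
    have h4 : (σ / m - η₁) * ((X : ℝ) / M) * VV 1 M z ≤ NN M (r i) z ∅ (g 1) X := by
      have h5 : m * ((σ / m - η₁) * ((X : ℝ) / M) * VV 1 M z) ≤ m * NN M (r i) z ∅ (g 1) X := by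
        have e : m * ((σ / m - η₁) * ((X : ℝ) / M) * VV 1 M z) =
            σ * ((X : ℝ) / M) * VV 1 M z - m * (η₁ * ((X : ℝ) / M) * VV 1 M z) := by
          field_simp
        rw [e]
        linarith
      exact le_of_mul_le_mul_left h5 hmR
    have hVQS : VQ (S i) M z = VV k M z / VV 1 M z := by
      unfold VQ
      rw [hk i]
    have h6 : (σ / m - η₁) * ((X : ℝ) / M) * VV k M z ≤ VQ (S i) M z * NN M (r i) z ∅ (g 1) X := by
      have h7 : VQ (S i) M z * ((σ / m - η₁) * ((X : ℝ) / M) * VV 1 M z) =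
          (σ / m - η₁) * ((X : ℝ) / M) * VV k M z := by
        rw [hVQS]
        field_simp
      rw [← h7]
      apply mul_le_mul_of_nonneg_left h4
      rw [hVQS]
      positivity
    rw [hk i] at h1
    have e8 : (σ / m - η) * ((X : ℝ) / M) * VV k M z =
        (σ / m - η₁) * ((X : ℝ) / M) * VV k M z - η₁ * ((X : ℝ) / M) * VV k M z := by
      rw [hη₁]; ring
    rw [e8]
    linarith
  calc (σ / m - η) * L * ((X : ℝ) / M) * VV k M z = ∑ _i : Fin L, (σ / m - η) * ((X : ℝ) / M) * VV k M z := by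
        rw [sum_const, card_univ, Fintype.card_fin, nsmul_eq_mul]
        ring
    _ ≤ _ := sum_le_sum fun i _ => key i

end

end Pool.Agent.Lib.MP_3efbeb_nt.DL
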