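import Pool.Agent.Lib.MP_3efbeb_nt.DL.BLK
import Pool.Agent.Lib.MP_3efbeb_nt.DL.Base

/-!
# MP_3efbeb_nt, DL, module GE, part 1 (helper15): sums over primes of antitone functions, and the shift by a prime
-/

set_option autoImplicit false

namespace Pool.Agent.Lib.MP_3efbeb_nt.DL

open Finset Filter Topology
open scoped Classical

namespace GEM

/-- the primes `q = 1 (mod M)` in `(u, w]` -/
noncomputable def QR (M : ℕ) (u w : ℝ) : Finset ℕ :=
  (Icc 1 ⌊w⌋₊).filter (fun q => q.Prime ∧ q % M = 1 % M ∧ u < q)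

lemma mem_QR {M : ℕ} {u w : ℝ} (hw : 0 ≤ w) {q : ℕ} :
    q ∈ QR M u w ↔ q.Prime ∧ q % M = 1 % M ∧ u < q ∧ (q : ℝ) ≤ w := by
  unfold QR
  rw [mem_filter, mem_Icc, Nat.le_floor_iff hw]
  constructor
  · rintro ⟨⟨_, h2⟩, h3, h4, h5⟩
    exact ⟨h3, h4, h5, h2⟩
  · rintro ⟨h3, h4, h5, h2⟩
    exact ⟨⟨h3.one_lt.le, h2⟩, h3, h4, h5⟩

lemma QQ_eq (M J1 J2 : ℕ) : QQ M J1 J2 = QR M ((2 : ℝ) ^ J1) ((2 : ℝ) ^ J2) := by
  ext q
  rw [mem_QR (by positivity)]
  unfold QQ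
  rw [mem_filter, mem_Ioc]
  constructor
  · rintro ⟨⟨h1, h2⟩, h3, h4⟩
    exact ⟨h3, h4, by exact_mod_cast h1, by exact_mod_cast h2⟩
  · rintro ⟨h3, h4, h1, h2⟩
    exact ⟨⟨by exact_mod_cast h1, by exact_mod_cast h2⟩, h3, h4⟩

/-- prime number theorem in a short interval -/
lemma cell {M : ℕ} (hM : 1 ≤ M) {δ : ℝ} (hδ : 0 < δ) : ∃ U0 : ℝ, 2 ≤ U0 ∧ ∀ u : ℝ, U0 ≤ u →
    (δ - δ ^ 2) / (M.totient : ℝ) * (u / Real.log u) ≤ ((QR M u ((1 + δ) * u)).card : ℝ) ∧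
    ((QR M u ((1 + δ) * u)).card : ℝ) ≤ (δ + δ ^ 2) / (M.totient : ℝ) * (u / Real.log u) := by
  have : NeZero M := ⟨by omega⟩
  have hφ := BLKM.tot_pos hM
  have h1 := PntAP.pi_ap_interval (q := M) (a := 1) isUnit_one (δ := δ) hδ
  have h2 : (0 : ℝ) < δ ^ 2 / (M.totient : ℝ) := by positivity
  have h3 := Metric.tendsto_nhds.1 h1 _ h2
  obtain ⟨U0, hU0⟩ := eventually_atTop.1 h3
  refine ⟨max U0 2, le_max_right _ _, fun u hu => ?_⟩
  have hu0 : U0 ≤ u := (le_max_left _ _).trans hu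
  have hu2 : 2 ≤ u := (le_max_right _ _).trans hu
  have h4 := hU0 u hu0
  rw [Real.dist_eq] at h4
  have hlog : 0 < Real.log u := Real.log_pos (by linarith)
  have hc : ((QR M u ((1 + δ) * u)).card : ℝ) = PntAP.piAP (1 : ZMod M) ((1 + δ) * u) -
      PntAP.piAP (1 : ZMod M) u := by
    unfold PntAP.piAP
    have hc : ∀ p : ℕ, ((p : ZMod M) = 1) ↔ (p % M = 1 % M) := by
      intro p
      have := ZMod.natCast_eq_natCast_iff' p 1 M
      rw [Nat.cast_one] at this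
      exact this
    have hw : u ≤ (1 + δ) * u := by nlinarith
    have hU : (Icc 1 ⌊(1 + δ) * u⌋₊).filter (fun p : ℕ => p.Prime ∧ (p : ZMod M) = 1) =
        (Icc 1 ⌊u⌋₊).filter (fun p : ℕ => p.Prime ∧ (p : ZMod M) = 1) ∪ QR M u ((1 + δ) * u) := by
      ext p
      rw [mem_union, mem_QR (by positivity), mem_filter, mem_filter, mem_Icc, mem_Icc, hc,
        Nat.le_floor_iff (by positivity), Nat.le_floor_iff (by positivity)]
      constructor
      · rintro ⟨⟨a, b⟩, c, d⟩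
        by_cases h : (p : ℝ) ≤ u
        · exact Or.inl ⟨⟨a, h⟩, c, d⟩
        · exact Or.inr ⟨c, d, not_le.1 h, b⟩
      · rintro (⟨⟨a, b⟩, c, d⟩ | ⟨c, d, a, b⟩)
        · exact ⟨⟨a, b.trans hw⟩, c, d⟩
        · exact ⟨⟨c.one_lt.le, b⟩, c, d⟩
    rw [hU, card_union_of_disjoint]
    · push_cast; ring
    · rw [Finset.disjoint_left]
      intro p hp hp'
      rw [mem_QR (by positivity)] at hp'
      rw [mem_filter, mem_Icc, Nat.le_floor_iff (by positivity)] at hp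
      linarith [hp.1.2, hp'.2.2.1]
  rw [← hc] at h4
  have h5 := (abs_lt.1 h4)
  have hu' : 0 < u := by linarith
  constructor
  · have h6 : (δ - δ ^ 2) / (M.totient : ℝ) ≤ ((QR M u ((1 + δ) * u)).card : ℝ) * Real.log u / u := by
      rw [sub_div]
      linarith [h5.1]
    calc (δ - δ ^ 2) / (M.totient : ℝ) * (u / Real.log u) ≤
        (((QR M u ((1 + δ) * u)).card : ℝ) * Real.log u / u) * (u / Real.log u) :=
          mul_le_mul_of_nonneg_right h6 (by positivity)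
      _ = ((QR M u ((1 + δ) * u)).card : ℝ) := by field_simp
  · have h6 : ((QR M u ((1 + δ) * u)).card : ℝ) * Real.log u / u ≤ (δ + δ ^ 2) / (M.totient : ℝ) := by
      rw [add_div]
      linarith [h5.2]
    calc ((QR M u ((1 + δ) * u)).card : ℝ) =
        (((QR M u ((1 + δ) * u)).card : ℝ) * Real.log u / u) * (u / Real.log u) := by field_simp
      _ ≤ _ := mul_le_mul_of_nonneg_right h6 (by positivity)

/-- splitting the range -/
lemma QR_split {M : ℕ} {u v w : ℝ} (hu : 0 ≤ u) (huv : u ≤ v) (hvw : v ≤ w) (h : ℕ → ℝ) :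
    ∑ q ∈ QR M u w, h q = ∑ q ∈ QR M u v, h q + ∑ q ∈ QR M v w, h q := by
  have hv : 0 ≤ v := hu.trans huv
  have hw : 0 ≤ w := hv.trans hvw
  have e : QR M u w = QR M u v ∪ QR M v w := by
    ext q
    rw [mem_union, mem_QR hw, mem_QR hv, mem_QR hw]
    constructor
    · rintro ⟨a, b, c, d⟩
      by_cases h : (q : ℝ) ≤ v
      · exact Or.inl ⟨a, b, c, h⟩
      · exact Or.inr ⟨a, b, not_le.1 h, d⟩
    · rintro (⟨a, b, c, d⟩ | ⟨a, b, c, d⟩)
      · exact ⟨a, b, c, d.trans hvw⟩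
      · exact ⟨a, b, lt_of_le_of_lt huv c, d⟩
  rw [e, sum_union]
  rw [Finset.disjoint_left]
  intro q hq hq'
  rw [mem_QR hv] at hq
  rw [mem_QR hw] at hq'
  linarith [hq.2.2.2, hq'.2.2.1]

lemma QR_mono {M : ℕ} {u u' w w' : ℝ} (hw : 0 ≤ w) (hu : u' ≤ u) (hww : w ≤ w') {h : ℕ → ℝ} (h0 : ∀ n, 0 ≤ h n) :
    ∑ q ∈ QR M u w, h q ≤ ∑ q ∈ QR M u' w', h q := by
  apply sum_le_sum_of_subset_of_nonneg
  · intro q hq
    rw [mem_QR hw] at hq
    rw [mem_QR (hw.trans hww)]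
    exact ⟨hq.1, hq.2.1, lt_of_le_of_lt hu hq.2.2.1, hq.2.2.2.trans hww⟩
  · intro i _ _
    exact h0 i

/-- the geometric points -/
noncomputable def ww (U δ : ℝ) (i : ℕ) : ℝ := U * (1 + δ) ^ i

lemma ww_succ (U δ : ℝ) (i : ℕ) : ww U δ (i + 1) = (1 + δ) * ww U δ i := by
  unfold ww
  rw [pow_succ]; ring

lemma ww_zero (U δ : ℝ) : ww U δ 0 = U := by
  unfold ww
  simp

lemma ww_mono {U δ : ℝ} (hU : 0 ≤ U) (hδ : 0 ≤ δ) {i j : ℕ} (h : i ≤ j) : ww U δ i ≤ ww U δ j := by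
  unfold ww
  exact mul_le_mul_of_nonneg_left (pow_le_pow_right₀ (by linarith) h) hU

lemma le_ww {U δ : ℝ} (hU : 0 ≤ U) (hδ : 0 ≤ δ) (i : ℕ) : U ≤ ww U δ i := by
  have := ww_mono hU hδ (Nat.zero_le i)
  rwa [ww_zero] at this

/-- the upper bound -/
lemma up {M : ℕ} {δ U0 : ℝ} (hδ : 0 < δ) (hU2 : 2 ≤ U0)
    (hcell : ∀ u : ℝ, U0 ≤ u → ((QR M u ((1 + δ) * u)).card : ℝ) ≤ (δ + δ ^ 2) / (M.totient : ℝ) * (u / Real.log u))
    {U : ℝ} (hU : U0 ≤ U) {h : ℝ → ℝ} (h0 : ∀ v, 0 ≤ h v) (hmono : ∀ v w, 0 < v → v ≤ w → h w ≤ h v) (n : ℕ) :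
    ∑ q ∈ QR M U (ww U δ n), h q ≤ (δ + δ ^ 2) / (M.totient : ℝ) *
      ∑ i ∈ range n, ww U δ i * h (ww U δ i) / Real.log (ww U δ i) := by
  have hU0 : 0 < U := by linarith
  induction n with
  | zero =>
    rw [ww_zero]
    have : QR M U U = ∅ := by
      rw [eq_empty_iff_forall_notMem]
      intro q hq
      rw [mem_QR hU0.le] at hq
      linarith [hq.2.2.1, hq.2.2.2]
    rw [this]
    simp
  | succ n ih =>
    rw [QR_split hU0.le (le_ww hU0.le hδ.le n) (ww_mono hU0.le hδ.le (Nat.le_succ n)) (fun q => h q),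
      sum_range_succ, mul_add]
    apply add_le_add ih
    have hw : U0 ≤ ww U δ n := hU.trans (le_ww hU0.le hδ.le n)
    have hw0 : 0 < ww U δ n := by linarith
    have h1 : ∑ q ∈ QR M (ww U δ n) (ww U δ (n + 1)), h q ≤
        ((QR M (ww U δ n) ((1 + δ) * ww U δ n)).card : ℝ) * h (ww U δ n) := by
      rw [ww_succ, ← nsmul_eq_mul, ← sum_const]
      refine sum_le_sum fun q hq => ?_
      rw [mem_QR (by positivity)] at hq
      exact hmono _ _ hw0 hq.2.2.1.le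
    refine h1.trans ?_
    calc ((QR M (ww U δ n) ((1 + δ) * ww U δ n)).card : ℝ) * h (ww U δ n) ≤
        ((δ + δ ^ 2) / (M.totient : ℝ) * (ww U δ n / Real.log (ww U δ n))) * h (ww U δ n) :=
          mul_le_mul_of_nonneg_right (hcell _ hw) (h0 _)
      _ = _ := by ring

/-- the lower bound -/
lemma lo {M : ℕ} {δ U0 : ℝ} (hδ : 0 < δ) (hδ1 : δ ≤ 1) (hU2 : 2 ≤ U0)
    (hcell : ∀ u : ℝ, U0 ≤ u → (δ - δ ^ 2) / (M.totient : ℝ) * (u / Real.log u) ≤ ((QR M u ((1 + δ) * u)).card : ℝ))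
    {U : ℝ} (hU : U0 ≤ U) {h : ℝ → ℝ} (h0 : ∀ v, 0 ≤ h v) (hmono : ∀ v w, 0 < v → v ≤ w → h w ≤ h v) (a n : ℕ)
    (han : a ≤ n) :
    (δ - δ ^ 2) / (M.totient : ℝ) / (1 + δ) * ∑ i ∈ Ioc a n, ww U δ i * h (ww U δ i) / Real.log (ww U δ i) ≤
      ∑ q ∈ QR M (ww U δ a) (ww U δ n), h q := by
  have hU0 : 0 < U := by linarith
  induction n, han using Nat.le_induction with
  | base =>
    rw [Ioc_self, sum_empty, mul_zero]
    exact sum_nonneg fun q _ => h0 _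
  | succ n han ih =>
    have hwa : 0 < ww U δ a := lt_of_lt_of_le hU0 (le_ww hU0.le hδ.le a)
    rw [QR_split hwa.le (ww_mono hU0.le hδ.le han) (ww_mono hU0.le hδ.le (Nat.le_succ n)) (fun q => h q)]
    have e : Ioc a (n + 1) = insert (n + 1) (Ioc a n) := by
      ext x
      rw [mem_insert, mem_Ioc, mem_Ioc]
      omega
    rw [e, sum_insert (by rw [mem_Ioc]; omega), mul_add, add_comm]
    apply add_le_add ih
    have hw : U0 ≤ ww U δ n := hU.trans (le_ww hU0.le hδ.le n)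
    have hw0 : 0 < ww U δ n := by linarith
    have h1 : ((QR M (ww U δ n) ((1 + δ) * ww U δ n)).card : ℝ) * h (ww U δ (n + 1)) ≤
        ∑ q ∈ QR M (ww U δ n) (ww U δ (n + 1)), h q := by
      rw [ww_succ, ← nsmul_eq_mul, ← sum_const]
      refine sum_le_sum fun q hq => ?_
      rw [mem_QR (by positivity)] at hq
      exact hmono _ _ (lt_trans hw0 hq.2.2.1) hq.2.2.2
    refine le_trans ?_ h1
    have hlog0 : 0 < Real.log (ww U δ n) := Real.log_pos (by linarith)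
    have hlog1 : Real.log (ww U δ n) ≤ Real.log (ww U δ (n + 1)) :=
      Real.log_le_log hw0 (ww_mono hU0.le hδ.le (Nat.le_succ n))
    have h2 : (δ - δ ^ 2) / (M.totient : ℝ) / (1 + δ) * (ww U δ (n + 1) * h (ww U δ (n + 1)) /
        Real.log (ww U δ (n + 1))) ≤ ((δ - δ ^ 2) / (M.totient : ℝ) * (ww U δ n / Real.log (ww U δ n))) *
          h (ww U δ (n + 1)) := by
      have e1 : (δ - δ ^ 2) / (M.totient : ℝ) / (1 + δ) * (ww U δ (n + 1) * h (ww U δ (n + 1)) /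
        Real.log (ww U δ (n + 1))) = ((δ - δ ^ 2) / (M.totient : ℝ) * (ww U δ n / Real.log (ww U δ (n + 1)))) *
          h (ww U δ (n + 1)) := by
        rw [ww_succ]
        have : (1 + δ) ≠ 0 := by positivity
        field_simp
      rw [e1]
      apply mul_le_mul_of_nonneg_right _ (h0 _)
      apply mul_le_mul_of_nonneg_left
      · exact div_le_div_of_nonneg_left hw0.le hlog0 hlog1
      · apply div_nonneg _ (Nat.cast_nonneg _)
        nlinarith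
    exact h2.trans (mul_le_mul_of_nonneg_right (hcell _ hw) (h0 _))

lemma exists_i1 {δ : ℝ} (hδ : 0 < δ) (hδ1 : δ ≤ 1) : ∃ i1 : ℕ, 1 ≤ i1 ∧ 2 ≤ (1 + δ) ^ i1 ∧ (1 + δ) ^ i1 ≤ 4 ∧
    δ * i1 ≤ 2 := by
  have hex : ∃ i : ℕ, (2 : ℝ) ≤ (1 + δ) ^ i := by
    obtain ⟨n, hn⟩ := pow_unbounded_of_one_lt (2 : ℝ) (show (1 : ℝ) < 1 + δ by linarith)
    exact ⟨n, hn.le⟩
  refine ⟨Nat.find hex, ?_, Nat.find_spec hex, ?_, ?_⟩
  · by_contra h
    have h0 : Nat.find hex = 0 := by omega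
    have := Nat.find_spec hex
    rw [h0] at this
    norm_num at this
  all_goals
    have h1 : Nat.find hex ≠ 0 := by
      intro h0
      have := Nat.find_spec hex
      rw [h0] at this
      norm_num at this
    obtain ⟨n, hn⟩ := Nat.exists_eq_succ_of_ne_zero h1
    have h2 : (1 + δ) ^ n < 2 := by
      have := Nat.find_min hex (m := n) (by omega)
      exact not_le.1 this
    rw [hn]
  · rw [Nat.succ_eq_add_one, pow_succ]
    nlinarith
  · have h3 := one_add_mul_le_pow (a := δ) (by linarith) n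
    push_cast
    nlinarith

lemma ww_div (U δ q : ℝ) (i : ℕ) : ww (U / q) δ i = ww U δ i / q := by
  unfold ww
  ring

/-- the final algebra -/
lemma algebra {A B α β a δ N Λ E SI Sm Sn SJ κ : ℝ} (hδ : 0 < δ) (hδ1 : δ ≤ 1 / 4) (hκ : 0 < κ) (hκ1 : κ ≤ 1)
    (hα : α = (δ + δ ^ 2) * κ) (hβ : β = (δ - δ ^ 2) * κ / (1 + δ)) (ha : a = α * (1 + δ))
    (h1 : A ≤ α * SI) (h2 : β * Sm ≤ B) (h3 : β * Sn ≤ A) (h4 : B ≤ a * SJ)
    (e1 : SI ≤ Sm + E) (e2 : SJ ≤ Sn + E) (e3 : Sm ≤ SJ) (e3' : Sn ≤ SJ) (hSm : 0 ≤ Sm) (hE : 0 ≤ E)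
    (e4 : β * SJ ≤ N * Λ + β * E) (hN : 0 ≤ N) (hΛ : 1 ≤ Λ) (hE2 : 4 * δ * E ≤ δ * N) : |A - B| ≤ 9 * δ * N * Λ := by
  have hα0 : 0 < α := by rw [hα]; positivity
  have hδδ : δ ^ 2 ≤ δ / 4 := by nlinarith
  have hβ0 : 0 < β := by
    rw [hβ]
    have : 0 < δ - δ ^ 2 := by linarith
    positivity
  have hαa : α ≤ a := by
    rw [ha]
    nlinarith
  have haβ : a - β ≤ 8 * δ * β := by
    have h5 : a * (1 + δ) ≤ (1 + 8 * δ) * β * (1 + δ) := by
      have h6 : (1 + 8 * δ) * β * (1 + δ) = (1 + 8 * δ) * ((δ - δ ^ 2) * κ) := by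
        rw [hβ]
        field_simp
      rw [h6, ha, hα]
      have h7 : (δ + δ ^ 2) * (1 + δ) * (1 + δ) ≤ (1 + 8 * δ) * (δ - δ ^ 2) := by
        have h8 : (1 + 8 * δ) * (δ - δ ^ 2) - (δ + δ ^ 2) * (1 + δ) * (1 + δ) =
            δ * (δ * (4 - 11 * δ - δ ^ 2)) := by ring
        have h9 : 0 ≤ 4 - 11 * δ - δ ^ 2 := by nlinarith
        have h10 : 0 ≤ δ * (δ * (4 - 11 * δ - δ ^ 2)) := by positivity
        linarith
      calc (δ + δ ^ 2) * κ * (1 + δ) * (1 + δ) = κ * ((δ + δ ^ 2) * (1 + δ) * (1 + δ)) := by ring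
        _ ≤ κ * ((1 + 8 * δ) * (δ - δ ^ 2)) := mul_le_mul_of_nonneg_left h7 hκ.le
        _ = (1 + 8 * δ) * ((δ - δ ^ 2) * κ) := by ring
    have h6 : a ≤ (1 + 8 * δ) * β := le_of_mul_le_mul_right h5 (by linarith)
    linarith
  have ha2 : a ≤ 2 * δ := by
    rw [ha, hα]
    have h5 : (δ + δ ^ 2) * κ * (1 + δ) = κ * (δ * ((1 + δ) * (1 + δ))) := by ring
    rw [h5]
    have h6 : (1 + δ) * (1 + δ) ≤ 2 := by nlinarith
    calc κ * (δ * ((1 + δ) * (1 + δ))) ≤ 1 * (δ * 2) := by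
          apply mul_le_mul hκ1 (mul_le_mul_of_nonneg_left h6 hδ.le) (by positivity) (by norm_num)
      _ = 2 * δ := by ring
  have hβδ : β ≤ δ := by
    rw [hβ, div_le_iff₀ (by linarith)]
    have : (δ - δ ^ 2) * κ ≤ δ * 1 := by
      apply mul_le_mul (by nlinarith [sq_nonneg δ]) hκ1 hκ.le hδ.le
    nlinarith
  have hSJ : 0 ≤ SJ := hSm.trans e3
  have m1 : (a - β) * SJ ≤ 8 * δ * (N * Λ) + 2 * δ * E := by
    calc (a - β) * SJ ≤ (8 * δ * β) * SJ := mul_le_mul_of_nonneg_right haβ hSJ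
      _ = 8 * δ * (β * SJ) := by ring
      _ ≤ 8 * δ * (N * Λ + β * E) := mul_le_mul_of_nonneg_left e4 (by linarith)
      _ = 8 * δ * (N * Λ) + 8 * δ * β * E := by ring
      _ ≤ 8 * δ * (N * Λ) + 2 * δ * E := by
        have : 8 * δ * β * E ≤ 2 * δ * E := by
          apply mul_le_mul_of_nonneg_right _ hE
          nlinarith
        linarith
  have hfin : (a - β) * SJ + a * E ≤ 9 * δ * N * Λ := by
    have h5 : a * E ≤ 2 * δ * E := mul_le_mul_of_nonneg_right ha2 hE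
    have h6 : δ * N ≤ δ * N * Λ := le_mul_of_one_le_right (by positivity) hΛ
    nlinarith
  have haβ0 : 0 ≤ a - β := by
    have : β ≤ α := by
      rw [hβ, hα, div_le_iff₀ (by linarith)]
      nlinarith [mul_nonneg (mul_nonneg hδ.le hδ.le) hκ.le, mul_nonneg hδ.le hκ.le,
        mul_nonneg (mul_nonneg (mul_nonneg hδ.le hδ.le) hδ.le) hκ.le]
    linarith
  rw [abs_le]
  constructor
  · -- `B - A`
    have h5 : a * SJ ≤ a * (Sn + E) := mul_le_mul_of_nonneg_left e2 (hα0.le.trans hαa)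
    have h6 : (a - β) * Sn ≤ (a - β) * SJ := mul_le_mul_of_nonneg_left e3' haβ0
    nlinarith
  · have h5 : α * SI ≤ α * (Sm + E) := mul_le_mul_of_nonneg_left e1 hα0.le
    have h6 : (α - β) * Sm ≤ (a - β) * Sm := mul_le_mul_of_nonneg_right (by linarith) hSm
    have h7 : (a - β) * Sm ≤ (a - β) * SJ := mul_le_mul_of_nonneg_left e3 haβ0
    have h8 : α * E ≤ a * E := mul_le_mul_of_nonneg_right hαa hE
    nlinarith

/-- SHIFT: the averages over `q` and `q₁ q` agree when `log q₁` is small with respect to `log q`. -/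
lemma shift {M : ℕ} (hM : 1 ≤ M) {δ : ℝ} (hδ : 0 < δ) (hδ1 : δ ≤ 1 / 4) : ∃ U1 : ℕ, ∀ (J2 J3 J4 q1 : ℕ) (N : ℝ)
    (h : ℝ → ℝ), U1 ≤ J2 → 1 ≤ J2 → 54 * (J2 : ℝ) ≤ δ * J3 → 1 ≤ Lam (QQ M J3 J4) → 2 ≤ q1 → q1 ≤ 2 ^ J2 → 0 ≤ N →
    (∀ v, 0 ≤ h v) → (∀ v w, 0 < v → v ≤ w → h w ≤ h v) → (∀ v, 1 ≤ v → v ≤ (2 : ℝ) ^ (J4 + 2 * J2) → v * h v ≤ N) →
    |∑ q ∈ QQ M J3 J4, h q - ∑ q ∈ QQ M J3 J4, q1 * h (q1 * q)| ≤ 9 * δ * N * Lam (QQ M J3 J4) := by
  obtain ⟨U0, hU02, hcell⟩ := cell hM hδ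
  obtain ⟨i1, hi1, hi1a, hi1b, hi1c⟩ := exists_i1 hδ (by linarith)
  refine ⟨⌈U0⌉₊, fun J2 J3 J4 q1 N h hJ2 hJ21 hJ23 hΛ hq1 hq1' hN h0 hmono hbd => ?_⟩
  have hφ := BLKM.tot_pos hM
  have hφ1 : (1 : ℝ) ≤ (M.totient : ℝ) := by exact_mod_cast Nat.totient_pos.2 (by omega)
  have hcu := fun u hu => (hcell u hu).2
  have hcl := fun u hu => (hcell u hu).1
  have hJ2R : (1 : ℝ) ≤ J2 := by exact_mod_cast hJ21
  have hJ3R : (216 : ℝ) * J2 ≤ J3 := by nlinarith [(Nat.cast_nonneg J3 : (0 : ℝ) ≤ (J3 : ℝ))]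
  have hJ3N : 216 * J2 ≤ J3 := by exact_mod_cast hJ3R
  set U : ℝ := (2 : ℝ) ^ J3 with hU
  have hUpos : 0 < U := by positivity
  have hq1R : (2 : ℝ) ≤ q1 := by exact_mod_cast hq1
  have hq1R' : (q1 : ℝ) ≤ (2 : ℝ) ^ J2 := by exact_mod_cast hq1'
  have hq0 : (0 : ℝ) < q1 := by linarith
  -- `U / q1 ≥ U0`
  have hUq : U0 ≤ U / q1 := by
    have h1 : U0 ≤ (J2 : ℝ) := (Nat.le_ceil U0).trans (by exact_mod_cast hJ2)
    have h2 : (J2 : ℝ) ≤ (2 : ℝ) ^ J2 := by exact_mod_cast Nat.lt_two_pow_self.le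
    rw [le_div_iff₀ hq0]
    calc U0 * q1 ≤ (2 : ℝ) ^ J2 * (2 : ℝ) ^ J2 := mul_le_mul (h1.trans h2) hq1R' hq0.le (by positivity)
      _ = (2 : ℝ) ^ (J2 + J2) := by rw [pow_add]
      _ ≤ U := pow_le_pow_right₀ (by norm_num) (by omega)
  have hUq' : U / q1 ≤ U := div_le_self hUpos.le (by linarith)
  have hUU0 : U0 ≤ U := hUq.trans hUq'
  have hJ34 : J3 < J4 := by
    by_contra hcon
    have : QQ M J3 J4 = ∅ := by
      rw [eq_empty_iff_forall_notMem]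
      intro q hq
      obtain ⟨_, _, h3, h4⟩ := Base.mem_QQ hq
      have h5 : 2 ^ J4 ≤ 2 ^ J3 := Nat.pow_le_pow_right (by norm_num) (by omega)
      omega
    rw [this] at hΛ
    unfold Lam at hΛ
    rw [sum_empty] at hΛ
    linarith
  -- `I`
  have hexI : ∃ I : ℕ, (2 : ℝ) ^ J4 ≤ ww U δ I := by
    obtain ⟨n, hn⟩ := pow_unbounded_of_one_lt ((2 : ℝ) ^ J4) (show (1 : ℝ) < 1 + δ by linarith)
    refine ⟨n, hn.le.trans ?_⟩
    unfold ww
    have : (1 : ℝ) ≤ U := one_le_pow₀ (by norm_num)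
    nlinarith [pow_pos (show (0 : ℝ) < 1 + δ by linarith) n]
  set I := Nat.find hexI with hI
  have hI1 : (2 : ℝ) ^ J4 ≤ ww U δ I := Nat.find_spec hexI
  have hI0 : 1 ≤ I := by
    by_contra hcon
    have h00 : I = 0 := by omega
    rw [h00, ww_zero, hU] at hI1
    have := (pow_le_pow_iff_right₀ (show (1 : ℝ) < 2 by norm_num)).1 hI1
    omega
  have hI2 : ww U δ (I - 1) < (2 : ℝ) ^ J4 := not_le.1 (Nat.find_min hexI (m := I - 1) (by omega))
  -- `i0`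
  set i0 := J2 * i1 with hi0
  have hi0a : (2 : ℝ) ^ J2 ≤ (1 + δ) ^ i0 := by
    rw [hi0, mul_comm, pow_mul]
    exact pow_le_pow_left₀ (by norm_num) hi1a J2
  have hi0b : (1 + δ) ^ i0 ≤ (2 : ℝ) ^ (2 * J2) := by
    rw [hi0, mul_comm, pow_mul, pow_mul]
    apply pow_le_pow_left₀ (by positivity)
    norm_num
    exact hi1b
  have hi01 : 1 ≤ i0 := Nat.mul_pos hJ21 hi1
  have hwpos : ∀ i, 0 < ww U δ i := fun i => lt_of_lt_of_le hUpos (le_ww hUpos.le hδ.le i)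
  have hwadd : ∀ i j, ww U δ (i + j) = ww U δ i * (1 + δ) ^ j := fun i j => by
    unfold ww
    rw [pow_add]; ring
  have hlogU : 0 < Real.log U := Real.log_pos (by linarith)
  have hlogw : ∀ i, Real.log U ≤ Real.log (ww U δ i) := fun i => Real.log_le_log hUpos (le_ww hUpos.le hδ.le i)
  have hlogU2 : (J3 : ℝ) / 2 ≤ Real.log U := by
    rw [hU, Real.log_pow]
    have := Real.log_two_gt_d9
    nlinarith [(Nat.cast_nonneg J3 : (0 : ℝ) ≤ (J3 : ℝ))]
  set T : ℕ → ℝ := fun i => ww U δ i * h (ww U δ i) / Real.log (ww U δ i) with hT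
  have hT0 : ∀ i, 0 ≤ T i := fun i =>
    div_nonneg (mul_nonneg (hwpos i).le (h0 _)) (hlogU.le.trans (hlogw i))
  -- bound of `T i`
  have hwbd : ∀ i, i < I + i0 → ww U δ i ≤ (2 : ℝ) ^ (J4 + 2 * J2) := by
    intro i hi
    calc ww U δ i ≤ ww U δ ((I - 1) + i0) := ww_mono hUpos.le hδ.le (by omega)
      _ = ww U δ (I - 1) * (1 + δ) ^ i0 := hwadd _ _
      _ ≤ (2 : ℝ) ^ J4 * (2 : ℝ) ^ (2 * J2) := mul_le_mul hI2.le hi0b (by positivity) (by positivity)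
      _ = _ := by rw [pow_add]
  have hU1 : (1 : ℝ) ≤ U := one_le_pow₀ (by norm_num)
  have hTN : ∀ i, i < I + i0 → T i ≤ N * (1 / Real.log (ww U δ i)) := by
    intro i hi
    rw [hT]
    simp only
    rw [mul_one_div]
    apply div_le_div_of_nonneg_right _ (hlogU.le.trans (hlogw i))
    exact hbd _ (hU1.trans (le_ww hUpos.le hδ.le i)) (hwbd i hi)
  have hLU : ∀ i, 1 / Real.log (ww U δ i) ≤ 1 / Real.log U := fun i =>
    one_div_le_one_div_of_le hlogU (hlogw i)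
  have hTU : ∀ i, i < I + i0 → T i ≤ N * (1 / Real.log U) := fun i hi =>
    (hTN i hi).trans (mul_le_mul_of_nonneg_left (hLU i) hN)
  set E : ℝ := (i0 + 1) * (N * (1 / Real.log U)) with hE
  set κ : ℝ := 1 / (M.totient : ℝ) with hκ
  set Λ := Lam (QQ M J3 J4) with hΛd
  -- the four inequalities
  have k1 : ∑ q ∈ QQ M J3 J4, h q ≤ ((δ + δ ^ 2) * κ) * ∑ i ∈ range I, T i := by
    rw [QQ_eq]
    have h5 := up hδ hU02 hcu hUU0 h0 hmono I
    have h6 : ∑ q ∈ QR M U ((2 : ℝ) ^ J4), h q ≤ ∑ q ∈ QR M U (ww U δ I), h q :=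
      QR_mono (by positivity) le_rfl hI1 (fun n => h0 _)
    refine h6.trans (h5.trans (le_of_eq ?_))
    rw [hκ, mul_one_div]
  have k3 : ((δ - δ ^ 2) * κ / (1 + δ)) * ∑ i ∈ Ioc 0 (I - 1), T i ≤ ∑ q ∈ QQ M J3 J4, h q := by
    rw [QQ_eq]
    have h5 := lo hδ (by linarith) hU02 hcl hUU0 h0 hmono 0 (I - 1) (by omega)
    rw [ww_zero] at h5
    have h6 : ∑ q ∈ QR M U (ww U δ (I - 1)), h q ≤ ∑ q ∈ QR M U ((2 : ℝ) ^ J4), h q :=
      QR_mono (hwpos _).le le_rfl hI2.le (fun n => h0 _)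
    refine le_trans (le_of_eq ?_) (h5.trans h6)
    rw [hκ, mul_one_div]
  -- the shifted function
  have h10 : ∀ v, 0 ≤ (q1 : ℝ) * h (q1 * v) := fun v => mul_nonneg hq0.le (h0 _)
  have h1mono : ∀ v w, 0 < v → v ≤ w → (q1 : ℝ) * h (q1 * w) ≤ q1 * h (q1 * v) := fun v w hv hvw =>
    mul_le_mul_of_nonneg_left (hmono _ _ (by positivity) (mul_le_mul_of_nonneg_left hvw hq0.le)) hq0.le
  have hlogq : ∀ i, Real.log (ww U δ i) ≤ (1 + δ) * Real.log (ww U δ i / q1) ∧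
      Real.log (ww U δ i / q1) ≤ Real.log (ww U δ i) ∧ 0 < Real.log (ww U δ i / q1) := by
    intro i
    have h5 : Real.log (ww U δ i / q1) = Real.log (ww U δ i) - Real.log q1 :=
      Real.log_div (hwpos i).ne' hq0.ne'
    have h6 : Real.log q1 ≤ J2 * Real.log 2 := by
      have := Real.log_le_log hq0 hq1R'
      rwa [Real.log_pow] at this
    have h7 : J3 * Real.log 2 ≤ Real.log (ww U δ i) := by
      have := hlogw i
      rwa [hU, Real.log_pow] at this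
    have hl2 : 0 < Real.log 2 := Real.log_pos (by norm_num)
    have h8 : 0 ≤ Real.log q1 := Real.log_nonneg (by linarith)
    have h9 : 54 * (J2 * Real.log 2) ≤ δ * (J3 * Real.log 2) := by nlinarith
    have h11 : 54 * Real.log q1 ≤ δ * Real.log (ww U δ i) := by
      calc 54 * Real.log q1 ≤ 54 * (J2 * Real.log 2) := by linarith
        _ ≤ δ * (J3 * Real.log 2) := h9
        _ ≤ δ * Real.log (ww U δ i) := mul_le_mul_of_nonneg_left h7 hδ.le
    have h12 : 0 < Real.log (ww U δ i) := lt_of_lt_of_le hlogU (hlogw i)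
    rw [h5]
    refine ⟨?_, by linarith, ?_⟩
    · nlinarith
    · nlinarith
  have hT1 : ∀ i, ww (U / q1) δ i * (q1 * h (q1 * ww (U / q1) δ i)) / Real.log (ww (U / q1) δ i) =
      ww U δ i * h (ww U δ i) / Real.log (ww U δ i / q1) := by
    intro i
    rw [ww_div]
    have h5 : (q1 : ℝ) * (ww U δ i / q1) = ww U δ i := mul_div_cancel₀ _ hq0.ne'
    rw [h5]
    congr 1
    rw [← mul_assoc, div_mul_cancel₀ _ hq0.ne']
  have k4 : ∑ q ∈ QQ M J3 J4, (q1 : ℝ) * h (q1 * q) ≤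
      (((δ + δ ^ 2) * κ) * (1 + δ)) * ∑ i ∈ range (I + i0), T i := by
    rw [QQ_eq]
    have h5 := up hδ hU02 hcu hUq h10 h1mono (I + i0)
    have h6 : ∑ q ∈ QR M U ((2 : ℝ) ^ J4), (q1 : ℝ) * h (q1 * q) ≤
        ∑ q ∈ QR M (U / q1) (ww (U / q1) δ (I + i0)), (q1 : ℝ) * h (q1 * q) := by
      refine QR_mono (by positivity) hUq' ?_ (fun n => h10 _)
      rw [ww_div, le_div_iff₀ hq0, hwadd]
      exact mul_le_mul hI1 (hq1R'.trans hi0a) hq0.le (hwpos _).le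
    refine h6.trans (h5.trans ?_)
    rw [hκ, mul_one_div, mul_assoc]
    apply mul_le_mul_of_nonneg_left _ (by positivity)
    rw [mul_sum]
    refine sum_le_sum fun i _ => ?_
    rw [hT1 i, hT]
    simp only
    obtain ⟨g1, g2, g3⟩ := hlogq i
    have g4 : 0 < Real.log (ww U δ i) := lt_of_lt_of_le g3 g2
    rw [← mul_div_assoc, div_le_div_iff₀ g3 g4]
    have g5 : 0 ≤ ww U δ i * h (ww U δ i) := mul_nonneg (hwpos i).le (h0 _)
    calc ww U δ i * h (ww U δ i) * Real.log (ww U δ i) ≤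
        ww U δ i * h (ww U δ i) * ((1 + δ) * Real.log (ww U δ i / q1)) := mul_le_mul_of_nonneg_left g1 g5
      _ = _ := by ring
  have k2 : ((δ - δ ^ 2) * κ / (1 + δ)) * ∑ i ∈ Ioc i0 I, T i ≤
      ∑ q ∈ QQ M J3 J4, (q1 : ℝ) * h (q1 * q) := by
    by_cases hi : i0 ≤ I
    · rw [QQ_eq]
      have h5 := lo hδ (by linarith) hU02 hcl hUq h10 h1mono i0 I hi
      have h6 : ∑ q ∈ QR M (ww (U / q1) δ i0) (ww (U / q1) δ I), (q1 : ℝ) * h (q1 * q) ≤
          ∑ q ∈ QR M U ((2 : ℝ) ^ J4), (q1 : ℝ) * h (q1 * q) := by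
        refine QR_mono ?_ ?_ ?_ (fun n => h10 _)
        · rw [ww_div]; exact div_nonneg (hwpos _).le hq0.le
        · rw [ww_div, le_div_iff₀ hq0]
          unfold ww
          exact mul_le_mul_of_nonneg_left (hq1R'.trans hi0a) hUpos.le
        · rw [ww_div, div_le_iff₀ hq0]
          have e : ww U δ I = (1 + δ) * ww U δ (I - 1) := by
            rw [← ww_succ]
            congr 1
            omega
          rw [e]
          have := hwpos (I - 1)
          nlinarith [pow_pos (show (0 : ℝ) < 2 by norm_num) J4]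
      refine le_trans ?_ (h5.trans h6)
      rw [hκ, mul_one_div]
      apply mul_le_mul_of_nonneg_left
      · refine sum_le_sum fun i _ => ?_
        rw [hT1 i, hT]
        simp only
        obtain ⟨g1, g2, g3⟩ := hlogq i
        exact div_le_div_of_nonneg_left (mul_nonneg (hwpos i).le (h0 _)) g3 g2
      · have : 0 ≤ δ - δ ^ 2 := by nlinarith
        positivity
    · rw [Ioc_eq_empty (by omega), sum_empty, mul_zero]
      exact sum_nonneg fun q _ => h10 _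
  -- the comparison of the sums
  have hsplit : ∀ f : ℕ → ℝ, ∑ i ∈ range (I + i0), f i =
      f 0 + ∑ i ∈ Ioc 0 (I - 1), f i + ∑ i ∈ Ico I (I + i0), f i := by
    intro f
    have e1 : range (I + i0) = insert 0 (Ioc 0 (I - 1)) ∪ Ico I (I + i0) := by
      ext x
      rw [mem_union, mem_insert, mem_range, mem_Ioc, mem_Ico]
      omega
    rw [e1, sum_union, sum_insert]
    · rw [mem_Ioc]; omega
    · rw [Finset.disjoint_left]
      intro x hx hx'
      rw [mem_insert, mem_Ioc] at hx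
      rw [mem_Ico] at hx'
      omega
  have hEdge : ∀ f : ℕ → ℝ, ∀ K : ℝ, (∀ i, i < I + i0 → f i ≤ K) →
      f 0 + ∑ i ∈ Ico I (I + i0), f i ≤ (i0 + 1) * K := by
    intro f K hf
    have h5 : ∑ i ∈ Ico I (I + i0), f i ≤ i0 * K := by
      calc ∑ i ∈ Ico I (I + i0), f i ≤ ∑ _i ∈ Ico I (I + i0), K :=
            sum_le_sum fun i hi => hf i (mem_Ico.1 hi).2
        _ = i0 * K := by
          rw [sum_const, Nat.card_Ico, nsmul_eq_mul]
          congr 2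
          omega
    have h6 := hf 0 (by omega)
    linarith
  have c2 : ∑ i ∈ range (I + i0), T i ≤ ∑ i ∈ Ioc 0 (I - 1), T i + E := by
    rw [hsplit T]
    have := hEdge T _ hTU
    rw [hE]
    linarith
  have c1 : ∑ i ∈ range I, T i ≤ ∑ i ∈ Ioc i0 I, T i + E := by
    have h5 : ∑ i ∈ range I, T i ≤ ∑ i ∈ Ioc i0 I ∪ range (min (i0 + 1) I), T i := by
      apply sum_le_sum_of_subset_of_nonneg
      · intro i hi
        rw [mem_range] at hi
        rw [mem_union, mem_Ioc, mem_range]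
        omega
      · intro i _ _
        exact hT0 i
    have h6 : ∑ i ∈ Ioc i0 I ∪ range (min (i0 + 1) I), T i ≤
        ∑ i ∈ Ioc i0 I, T i + ∑ i ∈ range (min (i0 + 1) I), T i := by
      rw [← sum_union_inter]
      have : 0 ≤ ∑ i ∈ Ioc i0 I ∩ range (min (i0 + 1) I), T i := sum_nonneg fun i _ => hT0 i
      linarith
    have h7 : ∑ i ∈ range (min (i0 + 1) I), T i ≤ E := by
      calc ∑ i ∈ range (min (i0 + 1) I), T i ≤ ∑ _i ∈ range (min (i0 + 1) I), N * (1 / Real.log U) := by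
            refine sum_le_sum fun i hi => hTU i ?_
            rw [mem_range] at hi
            omega
        _ = ((min (i0 + 1) I : ℕ) : ℝ) * (N * (1 / Real.log U)) := by
          rw [sum_const, card_range, nsmul_eq_mul]
        _ ≤ E := by
          rw [hE]
          apply mul_le_mul_of_nonneg_right _ (by positivity)
          exact_mod_cast Nat.min_le_left _ _
    linarith
  have c3 : ∑ i ∈ Ioc i0 I, T i ≤ ∑ i ∈ range (I + i0), T i := by
    apply sum_le_sum_of_subset_of_nonneg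
    · intro i hi
      rw [mem_Ioc] at hi
      rw [mem_range]
      omega
    · intro i _ _
      exact hT0 i
  have c3' : ∑ i ∈ Ioc 0 (I - 1), T i ≤ ∑ i ∈ range (I + i0), T i := by
    apply sum_le_sum_of_subset_of_nonneg
    · intro i hi
      rw [mem_Ioc] at hi
      rw [mem_range]
      omega
    · intro i _ _
      exact hT0 i
  -- the lower bound for `Λ`
  have hβ0 : 0 ≤ (δ - δ ^ 2) * κ / (1 + δ) := by
    have : 0 ≤ δ - δ ^ 2 := by nlinarith
    have : 0 ≤ κ := by positivity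
    positivity
  have k5 : ((δ - δ ^ 2) * κ / (1 + δ)) * ∑ i ∈ Ioc 0 (I - 1), 1 / Real.log (ww U δ i) ≤ Λ := by
    have h5 := lo (h := fun v => 1 / v ⊔ 0) hδ (by linarith) hU02 hcl hUU0 (fun v => le_sup_right) ?_ 0 (I - 1)
      (by omega)
    · rw [ww_zero] at h5
      have h6 : ∑ q ∈ QR M U (ww U δ (I - 1)), (1 / (q : ℝ)) ⊔ 0 ≤ ∑ q ∈ QR M U ((2 : ℝ) ^ J4), (1 / (q : ℝ)) ⊔ 0 :=
        QR_mono (h := fun q : ℕ => (1 / (q : ℝ)) ⊔ 0) (hwpos _).le le_rfl hI2.le (fun n => le_sup_right)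
      have h7 : ∑ q ∈ QR M U ((2 : ℝ) ^ J4), (1 / (q : ℝ)) ⊔ 0 = Λ := by
        rw [hΛd, QQ_eq]
        unfold Lam
        refine sum_congr rfl fun q _ => ?_
        exact sup_eq_left.2 (by positivity)
      rw [← h7]
      refine le_trans (le_of_eq ?_) (h5.trans h6)
      rw [hκ, mul_one_div]
      congr 1
      refine sum_congr rfl fun i _ => ?_
      rw [sup_eq_left.2 (by have := hwpos i; positivity), mul_one_div, div_self (hwpos i).ne']
    · intro v w hv hvw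
      apply sup_le_sup_right
      exact one_div_le_one_div_of_le hv hvw
  have c4 : ((δ - δ ^ 2) * κ / (1 + δ)) * ∑ i ∈ range (I + i0), T i ≤
      N * Λ + ((δ - δ ^ 2) * κ / (1 + δ)) * E := by
    have h5 : ∑ i ∈ range (I + i0), T i ≤ N * ∑ i ∈ Ioc 0 (I - 1), 1 / Real.log (ww U δ i) + E := by
      refine c2.trans ?_
      apply add_le_add _ le_rfl
      rw [mul_sum]
      refine sum_le_sum fun i hi => hTN i ?_
      rw [mem_Ioc] at hi
      omega
    calc ((δ - δ ^ 2) * κ / (1 + δ)) * ∑ i ∈ range (I + i0), T i ≤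
        ((δ - δ ^ 2) * κ / (1 + δ)) * (N * ∑ i ∈ Ioc 0 (I - 1), 1 / Real.log (ww U δ i) + E) :=
          mul_le_mul_of_nonneg_left h5 hβ0
      _ = N * (((δ - δ ^ 2) * κ / (1 + δ)) * ∑ i ∈ Ioc 0 (I - 1), 1 / Real.log (ww U δ i)) +
          ((δ - δ ^ 2) * κ / (1 + δ)) * E := by ring
      _ ≤ N * Λ + ((δ - δ ^ 2) * κ / (1 + δ)) * E := by
        have := mul_le_mul_of_nonneg_left k5 hN
        linarith
  have hE2 : 4 * δ * E ≤ δ * N := by
    rw [hE]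
    have h5 : δ * ((i0 : ℝ) + 1) ≤ 3 * J2 := by
      have h6 : (i0 : ℝ) = J2 * i1 := by rw [hi0]; push_cast; ring
      rw [h6]
      have h7 : δ * (J2 * i1) ≤ 2 * J2 := by
        calc δ * (J2 * i1) = (δ * i1) * J2 := by ring
          _ ≤ 2 * J2 := mul_le_mul_of_nonneg_right hi1c (by linarith)
      nlinarith
    have h8 : 12 * (J2 : ℝ) ≤ δ * Real.log U := by
      have : δ * (J3 / 2) ≤ δ * Real.log U := mul_le_mul_of_nonneg_left hlogU2 hδ.le
      nlinarith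
    have h9 : 4 * (3 * (J2 : ℝ)) * (1 / Real.log U) ≤ δ := by
      rw [mul_one_div, div_le_iff₀ hlogU]
      linarith
    calc 4 * δ * (((i0 : ℝ) + 1) * (N * (1 / Real.log U))) = (4 * (δ * ((i0 : ℝ) + 1)) * (1 / Real.log U)) * N := by
          ring
      _ ≤ (4 * (3 * (J2 : ℝ)) * (1 / Real.log U)) * N := by
        apply mul_le_mul_of_nonneg_right _ hN
        apply mul_le_mul_of_nonneg_right _ (by positivity)
        linarith
      _ ≤ δ * N := mul_le_mul_of_nonneg_right h9 hN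
  exact algebra hδ hδ1 (by positivity) (by rw [hκ]; exact (div_le_one hφ).2 hφ1) rfl rfl rfl k1 k2 k3 k4 c1 c2 c3 c3'
    (sum_nonneg fun i _ => hT0 i) (by positivity) c4 hN hΛ hE2

end GEM

end Pool.Agent.Lib.MP_3efbeb_nt.DL
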