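import Pool.Agent.Lib.MP_3efbeb_nt.DL.WIN
import Pool.Agent.Lib.MP_3efbeb_nt.AP.BAS

/-!
# MAIN: bounded dilates, rough, `Omega = 1 (mod m)`, with a large prime factor
-/

set_option autoImplicit false

namespace Pool.Agent.Lib.MP_3efbeb_nt.DL

open Finset
open scoped Classical

noncomputable section

namespace MAINM

lemma len_mul {q n : ℕ} (hq : q.Prime) (hn : 1 ≤ n) :
    (q * n).primeFactorsList.length = n.primeFactorsList.length + 1 := by
  have h1 : (q * n).primeFactorsList.Perm (q.primeFactorsList ++ n.primeFactorsList) :=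
    Nat.perm_primeFactorsList_mul hq.ne_zero (by omega)
  rw [h1.length_eq, List.length_append, Nat.primeFactorsList_prime hq]
  simp only [List.length_singleton]
  ring

lemma mod_succ_iff {m a b : ℕ} : (b + 1) % m = (a + 1) % m ↔ b % m = a % m := by
  constructor
  · intro h
    exact Nat.ModEq.add_right_cancel' 1 h
  · intro h
    exact Nat.ModEq.add_right 1 h

lemma gt_mul {m Z a n q : ℕ} (hq : q.Prime) (hqZ : q ≤ Z) (hn : 1 ≤ n) : gt m Z (a + 1) (q * n) = gt m Z a n := by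
  unfold gt
  have e1 : (q * n).primeFactorsList.length % m = (a + 1) % m ↔ n.primeFactorsList.length % m = a % m := by
    rw [len_mul hq hn, mod_succ_iff]
  have e2 : (∃ P : ℕ, P.Prime ∧ P ∣ q * n ∧ Z < P) ↔ ∃ P : ℕ, P.Prime ∧ P ∣ n ∧ Z < P := by
    constructor
    · rintro ⟨P, hP, hd, hZ⟩
      refine ⟨P, hP, ?_, hZ⟩
      rcases (Nat.Prime.dvd_mul hP).1 hd with h | h
      · have := (Nat.prime_dvd_prime_iff_eq hP hq).1 h
        omega
      · exact h
    · rintro ⟨P, hP, hd, hZ⟩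
      exact ⟨P, hP, hd.mul_left q, hZ⟩
  exact if_congr (and_congr e1 e2) rfl rfl

lemma gt_period (m Z a n : ℕ) : gt m Z (a + m) n = gt m Z a n := by
  unfold gt
  rw [Nat.add_mod_right]

lemma gt_bounds (m Z a n : ℕ) : 0 ≤ gt m Z a n ∧ gt m Z a n ≤ 1 := by
  unfold gt
  split_ifs <;> norm_num

/-- the classes together -/
lemma sum_gt {m Z : ℕ} (hm : 1 ≤ m) (n : ℕ) :
    ∑ a ∈ range m, gt m Z a n = if ∃ P : ℕ, P.Prime ∧ P ∣ n ∧ Z < P then (1 : ℝ) else 0 := by
  unfold gt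
  by_cases h : ∃ P : ℕ, P.Prime ∧ P ∣ n ∧ Z < P
  · rw [if_pos h]
    simp only [h, and_true]
    rw [Finset.sum_eq_single_of_mem (n.primeFactorsList.length % m) (mem_range.2 (Nat.mod_lt _ (by omega)))]
    · rw [if_pos (Nat.mod_mod _ _).symm]
    · intro b hb hne
      rw [if_neg]
      intro h1
      rw [mem_range] at hb
      rw [Nat.mod_eq_of_lt hb] at h1
      exact hne h1.symm
  · rw [if_neg h]
    simp only [h, and_false, if_false, sum_const_zero]

lemma sum_NN_gt {M r z m Z X : ℕ} (hm : 1 ≤ m) :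
    ∑ a ∈ range m, NN M r z ∅ (gt m Z a) X =
      (((W1 M r z ∅ 1 X).filter (fun n => ∃ P : ℕ, P.Prime ∧ P ∣ n ∧ Z < P)).card : ℝ) := by
  unfold NN
  rw [sum_comm, sum_congr rfl (fun n _ => sum_gt hm n), card_filter]
  push_cast
  rfl

/-- the Chinese remainder theorem for the starting class -/
lemma exists_n0 {ι : Type} (h : ι → ℕ) (Q : ℕ) (hadm : ∀ p : ℕ, p.Prime → ∃ r : ℕ, ∀ i, ¬ p ∣ r + h i) :
    ∃ n0 : ℕ, ∀ p : ℕ, p.Prime → p ≤ Q → ∀ i, ¬ p ∣ n0 + h i := by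
  choose! r hr using hadm
  set P : Finset ℕ := (range (Q + 1)).filter Nat.Prime with hP
  have hPp : ∀ p ∈ P, p.Prime := fun p hp => (mem_filter.1 hp).2
  have hcop : Set.Pairwise (P : Set ℕ) (Function.onFun Nat.Coprime id) := by
    intro p hp q hq hpq
    exact (Nat.coprime_primes (hPp p hp) (hPp q hq)).2 hpq
  obtain ⟨n0, hn0⟩ := Nat.chineseRemainderOfFinset r id P (fun p hp => (hPp p hp).ne_zero) hcop
  refine ⟨n0, fun p hp hpQ i hd => ?_⟩
  have h1 : n0 ≡ r p [MOD p] := hn0 p (by rw [hP, mem_filter, mem_range]; exact ⟨by omega, hp⟩)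
  have h2 : n0 + h i ≡ r p + h i [MOD p] := h1.add_right _
  exact hr p hp i ((h2.dvd_iff (dvd_refl p)).1 hd)

/-- a window of class `n0` has no small prime factors at all -/
lemma no_small {M n0 z n j Q : ℕ} (hM : ∀ p : ℕ, p.Prime → p ∣ M → p ≤ Q) (hn0 : ∀ p : ℕ, p.Prime → p ≤ Q → ¬ p ∣ n0 + j)
    (hn : n % M = n0 % M) (hr : Rgh M z ((n : ℤ) + j)) : ∀ p : ℕ, p.Prime → p ∣ n + j → z ≤ p := by
  intro p hp hd
  by_contra hlt
  push Not at hlt
  by_cases hpM : p ∣ M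
  · have h1 : n ≡ n0 [MOD p] := Nat.ModEq.of_dvd hpM hn
    have h2 : n + j ≡ n0 + j [MOD p] := h1.add_right _
    exact hn0 p hp (hM p hp hpM) ((h2.dvd_iff (dvd_refl p)).1 hd)
  · exact hr p hp hlt hpM (by exact_mod_cast hd)

/-- the dilation step: from many good windows to many good starting points -/
lemma dilate {L ω : ℕ} (G F : Finset ℕ) (hGF : ∀ n ∈ G, ∃ t < L, n + ω * t ∈ F) : G.card ≤ L * F.card := by
  have h1 : G ⊆ (range L).biUnion (fun t => G.filter (fun n => n + ω * t ∈ F)) := by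
    intro n hn
    obtain ⟨t, ht, htF⟩ := hGF n hn
    rw [mem_biUnion]
    exact ⟨t, mem_range.2 ht, mem_filter.2 ⟨hn, htF⟩⟩
  refine (card_le_card h1).trans (card_biUnion_le.trans ?_)
  have h2 : ∀ t ∈ range L, (G.filter (fun n => n + ω * t ∈ F)).card ≤ F.card := by
    intro t _
    refine card_le_card_of_injOn (fun n => n + ω * t) ?_ (fun a _ b _ hab => Nat.add_right_cancel hab)
    intro n hn
    exact (mem_filter.1 hn).2
  refine (sum_le_sum h2).trans ?_
  rw [sum_const, card_range, smul_eq_mul]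

/-- the choice of `z` : all that is needed of `β`, `x` -/
lemma eventually_params (β θ ε : ℝ) (hβ : 0 < β) (hθ : 0 < θ) (hε : 0 < ε) (A C : ℝ) (N0 : ℕ) :
    ∃ x0 : ℕ, ∀ x : ℕ, x0 ≤ x → (N0 : ℝ) + 1 ≤ (x : ℝ) ^ β ∧ 2 ≤ (x : ℝ) ^ (β / 2) ∧ A ≤ (x : ℝ) ^ (θ / 4) ∧
      C ≤ (x : ℝ) ^ (ε / 2) ∧ N0 ≤ x := by
  have h : ∀ (e : ℝ), 0 < e → Filter.Tendsto (fun x : ℕ => (x : ℝ) ^ e) Filter.atTop Filter.atTop := fun e he =>
    (tendsto_rpow_atTop he).comp tendsto_natCast_atTop_atTop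
  have h1 := (h β hβ).eventually_ge_atTop ((N0 : ℝ) + 1)
  have h2 := (h (β / 2) (by linarith)).eventually_ge_atTop 2
  have h3 := (h (θ / 4) (by linarith)).eventually_ge_atTop A
  have h4 := (h (ε / 2) (by linarith)).eventually_ge_atTop C
  have h5 := Filter.eventually_ge_atTop N0
  obtain ⟨x0, hx0⟩ := Filter.eventually_atTop.1 (h1.and (h2.and (h3.and (h4.and h5))))
  exact ⟨x0, fun x hx => hx0 x hx⟩

end MAINM

open MAINM in
theorem specMAIN (hWIN : SpecWIN) (hTYP : SpecTYP) (hVLP : SpecVLP) (hCOMB : SpecCOMB) : SpecMAIN := by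
  intro m H T θ hm hTH hT3 hθ
  set θ' : ℝ := min θ (1 / 4) with hθ'
  have hθ'0 : 0 < θ' := lt_min hθ (by norm_num)
  have hθ'4 : θ' ≤ 1 / 4 := min_le_right _ _
  obtain ⟨σ0, hσ0, hty⟩ := hTYP (θ' / 2) (by linarith)
  set σ : ℝ := min σ0 1 with hσ
  have hσpos : 0 < σ := lt_min hσ0 one_pos
  have hm0 : (0 : ℝ) < m := by exact_mod_cast hm
  have hm1 : (1 : ℝ) ≤ m := by exact_mod_cast hm
  set τ : ℝ := σ / (2 * m) with hτ
  have hτpos : 0 < τ := by rw [hτ]; positivity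
  have hτσ : τ < σ / m := by
    rw [hτ, div_lt_div_iff₀ (by positivity) hm0]
    nlinarith
  have hτ1 : τ ≤ 1 := by
    rw [hτ, div_le_one (by positivity)]
    have : σ ≤ 1 := min_le_right _ _
    linarith
  set H' : Finset ℕ := insert 0 (insert 1 H) with hH'
  obtain ⟨L0, hL0⟩ := hCOMB τ H' T hτpos (hTH.trans (by
    rw [hH']
    exact (subset_insert _ _).trans (subset_insert _ _))) hT3
  set L : ℕ := L0 + 1 with hL
  have hL1 : 1 ≤ L := by omega
  set ω : ℕ := L.factorial with hω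
  have hω1 : 1 ≤ ω := Nat.succ_le_of_lt (Nat.factorial_pos L)
  set h : Fin L → ℕ := fun i => ω * i with hh
  have hinj : Function.Injective h := by
    intro i j hij
    have : (i : ℕ) = j := Nat.eq_of_mul_eq_mul_left hω1 hij
    exact Fin.ext this
  obtain ⟨P0, κ, hκ, hW⟩ := hWIN L m h σ τ hL1 hm hinj hτpos.le hτ1 hτσ
  set Q : ℕ := P0 + 2 + 2 * L with hQ
  set M : ℕ := Q.factorial with hM
  have hM1 : 1 ≤ M := Nat.succ_le_of_lt (Nat.factorial_pos Q)
  have hMp : ∀ p : ℕ, p.Prime → ¬ p ∣ M → Q < p := by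
    intro p hp hpM
    by_contra hle
    push Not at hle
    exact hpM ((Nat.Prime.dvd_factorial hp).2 hle)
  have hMp' : ∀ p : ℕ, p.Prime → p ∣ M → p ≤ Q := fun p hp hpM => (Nat.Prime.dvd_factorial hp).1 hpM
  have hM0 : (0 : ℝ) < M := by exact_mod_cast hM1
  -- the starting class
  obtain ⟨n0, hn0⟩ := exists_n0 h Q (by
    intro p hp
    rcases Nat.lt_or_ge L p with hlt | hge
    · obtain ⟨a, ha⟩ := Pool.Agent.Lib.MP3efbeb.AP.BASM.avoid p (range L) (by rwa [card_range]) (fun i => ω * i)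
      exact ⟨a, fun i => ha i (mem_range.2 i.2)⟩
    · refine ⟨1, fun i hd => ?_⟩
      have h1 : p ∣ ω * i := ((Nat.Prime.dvd_factorial hp).2 hge).mul_right _
      have h2 : p ∣ 1 := (Nat.dvd_add_left h1).1 hd
      exact hp.one_lt.ne' (Nat.dvd_one.1 h2))
  obtain ⟨B, z1, hWz⟩ := hW M hM1 (fun p hp hpM => by have := hMp p hp hpM; omega)
  obtain ⟨K, z2, hTz⟩ := hty M ⟨hM1, fun p hp hpM => ⟨by have := hMp p hp hpM; omega,
    fun s hs => absurd hs (notMem_empty s), fun s hs => absurd hs (notMem_empty s)⟩⟩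
  obtain ⟨z3, hVz⟩ := hVLP L M 1 hM1 (fun p hp hpM => by have := hMp p hp hpM; omega)
  refine ⟨ω * L, fun ε hε => ?_⟩
  set β : ℝ := min ε θ' / (16 * (B + K + 1)) with hβ
  have hmin0 : 0 < min ε θ' := lt_min hε hθ'0
  have hBK : (0 : ℝ) < 16 * (B + K + 1) := by positivity
  have hβ0 : 0 < β := div_pos hmin0 hBK
  have hβB : β * (B + K + 1) ≤ min ε θ' / 16 := by
    rw [hβ]
    exact le_of_eq (by field_simp)
  obtain ⟨x0, hx0⟩ := eventually_params β θ' ε hβ0 hθ'0 hε 16 (4 * M * L / κ) (z1 + z2 + z3 + 2 * (ω * L) + 8)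
  refine ⟨β / 2, by linarith, x0 + 1, fun x hx => ?_⟩
  obtain ⟨hp1, hp2, hp3, hp4, hp5⟩ := hx0 x (by omega)
  have hx8 : 8 ≤ x := by omega
  set y : ℝ := (x : ℝ) with hy
  have hy8 : (8 : ℝ) ≤ y := by rw [hy]; exact_mod_cast hx8
  have hy0 : 0 < y := by linarith
  have hy1 : 1 ≤ y := by linarith
  -- `z`
  set z : ℕ := ⌊y ^ β⌋₊ with hz
  have hzle : (z : ℝ) ≤ y ^ β := Nat.floor_le (by positivity)
  have hzge : y ^ β - 1 < z := by
    have := Nat.lt_floor_add_one (y ^ β)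
    linarith
  have hzN : z1 + z2 + z3 + 2 * (ω * L) + 8 ≤ z := by
    refine Nat.le_floor ?_
    push_cast at hp1 ⊢
    linarith
  have hz1n : 1 ≤ z := by omega
  have hz1r : (1 : ℝ) ≤ z := by exact_mod_cast hz1n
  have hzβ2 : y ^ (β / 2) < z := by
    have h1 : y ^ β = y ^ (β / 2) * y ^ (β / 2) := by
      rw [← Real.rpow_add hy0]; congr 1; ring
    have h2 : 2 * y ^ (β / 2) ≤ y ^ (β / 2) * y ^ (β / 2) := mul_le_mul_of_nonneg_right hp2 (by positivity)
    linarith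
  -- powers of `z`
  have hzpow : ∀ j : ℕ, (j : ℝ) ≤ B + K + 1 → (z : ℝ) ^ j ≤ y ^ (min ε θ' / 16) := by
    intro j hj
    calc (z : ℝ) ^ j ≤ (y ^ β) ^ j := pow_le_pow_left₀ (by positivity) hzle j
      _ = y ^ (β * j) := by rw [← Real.rpow_natCast, ← Real.rpow_mul hy0.le]
      _ ≤ y ^ (min ε θ' / 16) := Real.rpow_le_rpow_of_exponent_le hy1
          ((mul_le_mul_of_nonneg_left hj hβ0.le).trans hβB)
  have hminθ : min ε θ' ≤ θ' := min_le_right _ _
  have hminε : min ε θ' ≤ ε := min_le_left _ _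
  have hzBy : (z : ℝ) ^ B ≤ y ^ (θ' / 16) :=
    (hzpow B (by have : (0 : ℝ) ≤ K := Nat.cast_nonneg _; linarith)).trans
      (Real.rpow_le_rpow_of_exponent_le hy1 (by linarith))
  have hzKy : (z : ℝ) ^ K ≤ y ^ (θ' / 16) :=
    (hzpow K (by have : (0 : ℝ) ≤ B := Nat.cast_nonneg _; linarith)).trans
      (Real.rpow_le_rpow_of_exponent_le hy1 (by linarith))
  have hzBε : (z : ℝ) ^ B ≤ y ^ (ε / 16) :=
    (hzpow B (by have : (0 : ℝ) ≤ K := Nat.cast_nonneg _; linarith)).trans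
      (Real.rpow_le_rpow_of_exponent_le hy1 (by linarith))
  have hz1ε : (z : ℝ) ≤ y ^ (ε / 16) := by
    have h1 := (hzpow 1 (by
      have h1 : (0 : ℝ) ≤ B := Nat.cast_nonneg _
      have h2 : (0 : ℝ) ≤ K := Nat.cast_nonneg _
      push_cast
      linarith)).trans
      (Real.rpow_le_rpow_of_exponent_le hy1 (show min ε θ' / 16 ≤ ε / 16 by linarith))
    rwa [pow_one] at h1
  -- `X`
  set X : ℕ := x / 2 with hX
  have hXy : y / 4 ≤ X := by
    have h1 : x ≤ 4 * (x / 2) := by omega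
    have h2 : (x : ℝ) ≤ 4 * (X : ℝ) := by exact_mod_cast h1
    rw [hy]
    linarith
  have hXx : X ≤ x := Nat.div_le_self _ _
  have h16 : (16 : ℝ) ≤ y ^ (1 / 4 : ℝ) := hp3.trans (Real.rpow_le_rpow_of_exponent_le hy1 (by linarith))
  have hzBX : z ^ B ≤ X := by
    have h1 : (z : ℝ) ^ B ≤ X := by
      refine hzBy.trans (le_trans ?_ hXy)
      have h2 : y ^ (θ' / 16) ≤ y ^ (3 / 4 : ℝ) := Real.rpow_le_rpow_of_exponent_le hy1 (by linarith)
      have h3 : y ^ (3 / 4 : ℝ) * y ^ (1 / 4 : ℝ) = y := by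
        rw [← Real.rpow_add hy0]; norm_num
      have h4 : y ^ (3 / 4 : ℝ) * 16 ≤ y ^ (3 / 4 : ℝ) * y ^ (1 / 4 : ℝ) := mul_le_mul_of_nonneg_left h16 (by positivity)
      linarith
    exact_mod_cast h1
  -- `Z`
  set Z : ℕ := ⌈y ^ (1 - θ')⌉₊ with hZ
  have hZge : y ^ (1 - θ') ≤ Z := Nat.le_ceil _
  have hy34 : y ^ (3 / 4 : ℝ) ≤ y ^ (1 - θ') := Real.rpow_le_rpow_of_exponent_le hy1 (by linarith)
  have hzBZ : z ^ B ≤ Z := by
    have h1 : (z : ℝ) ^ B ≤ Z := hzBy.trans ((Real.rpow_le_rpow_of_exponent_le hy1 (by linarith)).trans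
      (hy34.trans hZge))
    exact_mod_cast h1
  have hzZ : z ≤ Z := by
    have h1 : (z : ℝ) ≤ Z := by
      refine hzle.trans ((Real.rpow_le_rpow_of_exponent_le hy1 ?_).trans (hy34.trans hZge))
      have h2 : β ≤ β * (B + K + 1) := by
        have h3 : (0 : ℝ) ≤ B := Nat.cast_nonneg _
        have h4 : (0 : ℝ) ≤ K := Nat.cast_nonneg _
        exact le_mul_of_one_le_right hβ0.le (by linarith)
      linarith
    exact_mod_cast h1
  have hZle : (Z : ℝ) ≤ 2 * y ^ (1 - θ') := by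
    have h1 : (Z : ℝ) < y ^ (1 - θ') + 1 := Nat.ceil_lt_add_one (by positivity)
    have h2 : 1 ≤ y ^ (1 - θ') := Real.one_le_rpow hy1 (by linarith)
    linarith
  -- WIN
  obtain ⟨X', hX'X, hXX', hcount⟩ := hWz z (by omega) X n0 (gt m Z) hzBX (gt_bounds m Z) (gt_period m Z)
    (fun q hq _ hqB a n hn => gt_mul hq (hqB.trans hzBZ) hn) (by
      intro i X' hX'X hXX'
      rw [sum_NN_gt hm]
      have hX'y : y / 4 ≤ X' * y ^ (θ' / 16) := by
        have h1 : (X : ℝ) ≤ X' * (z : ℝ) ^ B := by exact_mod_cast hXX'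
        calc y / 4 ≤ X := hXy
          _ ≤ X' * (z : ℝ) ^ B := h1
          _ ≤ X' * y ^ (θ' / 16) := by gcongr
      have hlt : X' < Z ^ 2 := by
        have h1 : (X' : ℝ) < (Z : ℝ) ^ 2 := by
          have h2 : (X' : ℝ) ≤ y := by
            rw [hy]
            exact_mod_cast hX'X.trans hXx
          have h3 : y < (y ^ (3 / 4 : ℝ)) ^ 2 := by
            rw [← Real.rpow_natCast, ← Real.rpow_mul hy0.le]
            nth_rewrite 1 [← Real.rpow_one y]
            exact Real.rpow_lt_rpow_of_exponent_lt (by linarith) (by norm_num)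
          have h4 : (y ^ (3 / 4 : ℝ)) ^ 2 ≤ (Z : ℝ) ^ 2 := pow_le_pow_left₀ (by positivity) (hy34.trans hZge) 2
          linarith
        exact_mod_cast h1
      have hexp : (1 - θ') * (1 + θ' / 2) ≤ 1 - θ' / 2 := by
        have h1 : (1 - θ') * (1 + θ' / 2) = 1 - θ' / 2 - θ' * θ' / 2 := by ring
        have h2 : 0 ≤ θ' * θ' := mul_self_nonneg _
        rw [h1]
        linarith
      have hbig : (Z : ℝ) ^ (1 + θ' / 2) * (z : ℝ) ^ K ≤ X' := by
        have h1 : (Z : ℝ) ^ (1 + θ' / 2) ≤ 4 * y ^ (1 - θ' / 2) := by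
          calc (Z : ℝ) ^ (1 + θ' / 2) ≤ (2 * y ^ (1 - θ')) ^ (1 + θ' / 2) :=
                Real.rpow_le_rpow (Nat.cast_nonneg _) hZle (by linarith)
            _ = 2 ^ (1 + θ' / 2) * y ^ ((1 - θ') * (1 + θ' / 2)) := by
                rw [Real.mul_rpow (by norm_num) (by positivity), ← Real.rpow_mul hy0.le]
            _ ≤ 2 ^ (2 : ℝ) * y ^ (1 - θ' / 2) := by
                refine mul_le_mul (Real.rpow_le_rpow_of_exponent_le (by norm_num) (by linarith))
                  (Real.rpow_le_rpow_of_exponent_le hy1 hexp) (by positivity) (by positivity)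
            _ = 4 * y ^ (1 - θ' / 2) := by norm_num
        have h2 : (Z : ℝ) ^ (1 + θ' / 2) * (z : ℝ) ^ K ≤ 4 * y ^ (1 - θ' / 2) * y ^ (θ' / 16) :=
          mul_le_mul h1 hzKy (by positivity) (by positivity)
        refine h2.trans ?_
        have h3 : 4 * y ^ (1 - θ' / 2) * y ^ (θ' / 16) * y ^ (θ' / 16) ≤ X' * y ^ (θ' / 16) := by
          refine le_trans ?_ hX'y
          have h4 : y ^ (1 - θ' / 2) * y ^ (θ' / 16) * y ^ (θ' / 16) * y ^ (θ' / 4) ≤ y := by
            rw [← Real.rpow_add hy0, ← Real.rpow_add hy0, ← Real.rpow_add hy0]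
            calc y ^ (1 - θ' / 2 + θ' / 16 + θ' / 16 + θ' / 4) ≤ y ^ (1 : ℝ) :=
                  Real.rpow_le_rpow_of_exponent_le hy1 (by linarith)
              _ = y := Real.rpow_one y
          have h5 : y ^ (1 - θ' / 2) * y ^ (θ' / 16) * y ^ (θ' / 16) * 16 ≤
              y ^ (1 - θ' / 2) * y ^ (θ' / 16) * y ^ (θ' / 16) * y ^ (θ' / 4) :=
            mul_le_mul_of_nonneg_left hp3 (by positivity)
          have h6 : 4 * y ^ (1 - θ' / 2) * y ^ (θ' / 16) * y ^ (θ' / 16) =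
              4 * (y ^ (1 - θ' / 2) * y ^ (θ' / 16) * y ^ (θ' / 16)) := by ring
          rw [h6]
          linarith
        exact le_of_mul_le_mul_right h3 (by positivity)
      have h6 := hTz z (by omega) Z X' (n0 + h i) hzZ hlt hbig
      refine le_trans ?_ h6
      have h7 : 0 ≤ VV 1 M z := (Base.VV_pos (fun p hp _ => by have := hp.two_le; omega)).le
      have h8 : σ ≤ σ0 := min_le_left _ _
      gcongr)
  set G := (Icc 1 X').filter (fun n => n % M = n0 % M ∧ (∀ j, Rgh M z ((n : ℤ) + h j)) ∧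
      τ * L ≤ ∑ i, gt m Z 1 (n + h i)) with hG
  set F := (Icc 1 x).filter (fun n => ∃ e ∈ Icc 1 (ω * L),
      (∀ h ∈ H, ∀ p : ℕ, p.Prime → p ∣ n + e * h → y ^ (β / 2) < p) ∧
      (∀ h ∈ T, (n + e * h).primeFactorsList.length % m = 1 % m ∧
        ∃ P : ℕ, P.Prime ∧ P ∣ n + e * h ∧ y ^ (1 - θ) < P)) with hF
  have hωLx : ω * L ≤ x / 2 := by omega
  have hGF : G.card ≤ L * F.card := by
    refine dilate (ω := ω) G F fun n hn => ?_
    rw [hG, mem_filter, mem_Icc] at hn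
    obtain ⟨⟨hn1, hn2⟩, hnM, hnr, hns⟩ := hn
    set A : Finset ℕ := (range L).filter (fun i => gt m Z 1 (n + ω * i) = 1) with hA
    have hAcard : τ * L ≤ (A.card : ℝ) := by
      refine hns.trans (le_of_eq ?_)
      rw [hA, card_filter, ← Fin.sum_univ_eq_sum_range]
      push_cast
      refine sum_congr rfl fun i _ => ?_
      rw [hh]
      simp only
      split_ifs with h1
      · exact h1
      · unfold gt at h1 ⊢
        split_ifs at h1 ⊢ with h2
        · exact absurd rfl h1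
        · rfl
    obtain ⟨t, e, he, htH, htT⟩ := hL0 L (by omega) A (filter_subset _ _) hAcard
    have ht : t < L := by
      have := htH 0 (by rw [hH']; exact mem_insert_self _ _)
      omega
    have heL : e < L := by
      have := htH 1 (by rw [hH']; exact mem_insert_of_mem (mem_insert_self _ _))
      omega
    refine ⟨t, ht, ?_⟩
    have hωt : ω * t ≤ ω * L := Nat.mul_le_mul_left _ ht.le
    rw [hF, mem_filter, mem_Icc]
    refine ⟨⟨by omega, by omega⟩, ω * e, ?_, ?_, ?_⟩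
    · rw [mem_Icc]
      exact ⟨Nat.mul_pos hω1 he, Nat.mul_le_mul_left _ heL.le⟩
    · intro a ha p hp hd
      have h1 : t + e * a < L := htH a (by rw [hH']; exact mem_insert_of_mem (mem_insert_of_mem ha))
      have h2 : n + ω * t + ω * e * a = n + h ⟨t + e * a, h1⟩ := by
        rw [hh]
        simp only
        ring
      rw [h2] at hd
      have h3 := no_small hMp' (fun p hp hpQ => hn0 p hp hpQ ⟨t + e * a, h1⟩) hnM (hnr _) p hp hd
      have h4 : (z : ℝ) ≤ p := by exact_mod_cast h3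
      linarith
    · intro a ha
      have h1 := htT a ha
      rw [hA, mem_filter] at h1
      have h2 : n + ω * t + ω * e * a = n + ω * (t + e * a) := by ring
      rw [h2]
      have h3 := h1.2
      unfold gt at h3
      split_ifs at h3 with h4
      · obtain ⟨h5, P, hP, hPd, hPZ⟩ := h4
        refine ⟨h5, P, hP, hPd, ?_⟩
        have h6 : (Z : ℝ) < P := by exact_mod_cast hPZ
        have h7 : y ^ (1 - θ) ≤ y ^ (1 - θ') := Real.rpow_le_rpow_of_exponent_le hy1 (by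
          have : θ' ≤ θ := min_le_left _ _
          linarith)
        linarith
      · norm_num at h3
  -- the count
  have hVz' := hVz z (by omega)
  rw [pow_one] at hVz'
  have hL0' : (0 : ℝ) < L := by exact_mod_cast hL1
  have hGF' : (G.card : ℝ) ≤ L * F.card := by exact_mod_cast hGF
  have hX'low : y / 4 ≤ X' * y ^ (ε / 16) := by
    have h1 : (X : ℝ) ≤ X' * (z : ℝ) ^ B := by exact_mod_cast hXX'
    calc y / 4 ≤ X := hXy
      _ ≤ X' * (z : ℝ) ^ B := h1
      _ ≤ X' * y ^ (ε / 16) := by gcongr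
  have hzV : 1 ≤ (z : ℝ) * VV L M z := by
    have h2 : (z : ℝ) ^ (-1 : ℝ) ≤ (z : ℝ) ^ (-(1 : ℝ) / 4) :=
      Real.rpow_le_rpow_of_exponent_le hz1r (by norm_num)
    rw [Real.rpow_neg_one] at h2
    have hz0 : (0 : ℝ) < z := by linarith
    calc (1 : ℝ) = z * (z : ℝ)⁻¹ := by field_simp
      _ ≤ z * VV L M z := mul_le_mul_of_nonneg_left (h2.trans hVz') hz0.le
  have hVpos : 0 < VV L M z := Base.VV_pos (fun p hp hpM => by have := hMp p hp hpM; omega)
  have h1 : κ * ((X' : ℝ) / M) * VV L M z ≤ L * F.card := hcount.trans hGF'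
  -- multiply by `z`
  have h2 : κ * ((X' : ℝ) / M) ≤ L * F.card * y ^ (ε / 16) := by
    calc κ * ((X' : ℝ) / M) = κ * ((X' : ℝ) / M) * 1 := by ring
      _ ≤ κ * ((X' : ℝ) / M) * (z * VV L M z) := by gcongr
      _ = κ * ((X' : ℝ) / M) * VV L M z * z := by ring
      _ ≤ L * F.card * z := by gcongr
      _ ≤ L * F.card * y ^ (ε / 16) := by gcongr
  have h3 : κ * (y / 4 / M) ≤ L * F.card * y ^ (ε / 16) * y ^ (ε / 16) := by
    calc κ * (y / 4 / M) ≤ κ * (X' * y ^ (ε / 16) / M) := by gcongr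
      _ = κ * ((X' : ℝ) / M) * y ^ (ε / 16) := by ring
      _ ≤ L * F.card * y ^ (ε / 16) * y ^ (ε / 16) := by gcongr
  have h4 : y ^ (1 - ε) * y ^ (ε / 2) * (y ^ (ε / 16) * y ^ (ε / 16)) ≤ y := by
    rw [← Real.rpow_add hy0, ← Real.rpow_add hy0, ← Real.rpow_add hy0]
    calc y ^ (1 - ε + ε / 2 + (ε / 16 + ε / 16)) ≤ y ^ (1 : ℝ) :=
          Real.rpow_le_rpow_of_exponent_le hy1 (by linarith)
      _ = y := Real.rpow_one y
  have h5 : 4 * M * L ≤ κ * y ^ (ε / 2) := by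
    rw [div_le_iff₀ hκ] at hp4
    linarith
  set u : ℝ := y ^ (ε / 16) * y ^ (ε / 16) with hu
  have hu0 : 0 < u := by rw [hu]; positivity
  have h6 : κ * y ≤ 4 * M * L * F.card * u := by
    have h7 : κ * (y / 4 / M) = κ * y / (4 * M) := by field_simp
    rw [h7, div_le_iff₀ (by positivity)] at h3
    calc κ * y ≤ L * F.card * y ^ (ε / 16) * y ^ (ε / 16) * (4 * M) := h3
      _ = 4 * M * L * F.card * u := by rw [hu]; ring
  have h8 : 4 * M * L * y ^ (1 - ε) * u ≤ 4 * M * L * F.card * u := by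
    calc 4 * M * L * y ^ (1 - ε) * u ≤ κ * y ^ (ε / 2) * y ^ (1 - ε) * u := by gcongr
      _ = κ * (y ^ (1 - ε) * y ^ (ε / 2) * u) := by ring
      _ ≤ κ * y := by gcongr
      _ ≤ 4 * M * L * F.card * u := h6
  have h9 : 4 * M * L * y ^ (1 - ε) ≤ 4 * M * L * F.card := le_of_mul_le_mul_right h8 hu0
  exact le_of_mul_le_mul_left h9 (by positivity)

end

end Pool.Agent.Lib.MP_3efbeb_nt.DL
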