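import Pool.Agent.Lib.MP_3efbeb_nt.DL.WIN
import Pool.Agent.Lib.MP_3efbeb_nt.DL.EQ

/-!
# WIN2: WIN at every `X` (from CLOSE2; the proof is the one of helper43's WIN)
-/

set_option autoImplicit false

namespace Pool.Agent.Lib.MP_3efbeb_nt.DL

open Finset
open scoped Classical

noncomputable section

/-- WIN2 (from CLOSE2, C1, VLP): WIN with `X' = X`. -/
def SpecWIN2 : Prop := ∀ (L m : ℕ) (h : Fin L → ℕ) (σ τ : ℝ), 1 ≤ L → 1 ≤ m → Function.Injective h → 0 ≤ τ → τ ≤ 1 →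
  τ < σ / m → ∃ (P0 : ℕ) (κ : ℝ), 0 < κ ∧ ∀ M : ℕ, 1 ≤ M → (∀ p : ℕ, p.Prime → ¬ p ∣ M → P0 < p) →
  ∃ B z0 : ℕ, ∀ z : ℕ, z0 ≤ z → ∀ (X n0 : ℕ) (g : ℕ → ℕ → ℝ), z ^ B ≤ X →
  (∀ a n, 0 ≤ g a n ∧ g a n ≤ 1) → (∀ a n, g (a + m) n = g a n) →
  (∀ q : ℕ, q.Prime → z < q → q ≤ z ^ B → ∀ a n, 1 ≤ n → g (a + 1) (q * n) = g a n) →
  (∀ i, σ * ((X : ℝ) / M) * VV 1 M z ≤ ∑ a ∈ range m, NN M (n0 + h i) z ∅ (g a) X) →
  κ * ((X : ℝ) / M) * VV L M z ≤
    (((Icc 1 X).filter (fun n => n % M = n0 % M ∧ (∀ j, Rgh M z ((n : ℤ) + h j)) ∧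
      τ * L ≤ ∑ i, g 1 (n + h i))).card : ℝ)

open WINM in
/-- WIN2. -/
theorem specWIN2 (hC1 : SpecC1) (hVLP : SpecVLP) (hCL : SpecCLOSE2) : SpecWIN2 := by
  intro L m h σ τ hL hm hh hτ0 hτ1 hτ
  set η : ℝ := (σ / m - τ) / 8 with hη
  have hηpos : 0 < η := by rw [hη]; linarith
  have hm0 : (0 : ℝ) < m := by exact_mod_cast hm
  have hσ : 0 < σ := by
    have : 0 < σ / m := by linarith
    exact (div_pos_iff_of_pos_right hm0).1 this
  obtain ⟨P1, hP1⟩ := hCL L m (SS h) L σ η hL hm hσ hηpos (card_SS h hh) (SS_ne h hh)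
  set i0 : Fin L := ⟨0, hL⟩ with hi0
  set η1 : ℝ := min η 1 with hη1
  have hη1pos : 0 < η1 := lt_min hηpos one_pos
  obtain ⟨K, z1, hz1, hc⟩ := Base.c1 hC1 (SS h i0) η1 hη1pos
  set Hs : ℕ := ∑ i, h i with hHs
  have hle : ∀ j, h j ≤ Hs := fun j => single_le_sum (f := h) (fun i _ => Nat.zero_le _) (mem_univ j)
  refine ⟨P1 + Hs + 2 * L, η, hηpos, fun M hM hP => ?_⟩
  have hgood : ∀ i, Good (SS h i) P1 M := fun i =>
    good h hh i hM hP (by omega) (fun j => by have := hle j; omega)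
  have hgood0 : Good (SS h i0) (2 * ((SS h i0).card + 1)) M := by
    rw [card_SS h hh i0]
    exact good h hh i0 hM hP (by omega) (fun j => by have := hle j; omega)
  have h2k : ∀ p : ℕ, p.Prime → ¬ p ∣ M → 2 * L ≤ p := fun p hp hpM => by
    have := hP p hp hpM
    omega
  obtain ⟨B1, z2, hB⟩ := hP1 M hgood
  obtain ⟨z3, hz3⟩ := hVLP L M 1 hM h2k
  obtain ⟨z4, hz4⟩ := exists_nat_ge ((3 * Hs + 1) / (5 * η))
  refine ⟨B1 + K + 3, z1 + z2 + z3 + z4 + M + 2, fun z hz X n0 g hX hg hgm hgq hden => ?_⟩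
  have hz1n : 1 ≤ z := by omega
  have hz0 : (0 : ℝ) < z := by exact_mod_cast (by omega : 0 < z)
  have hz1' : (1 : ℝ) ≤ z := by exact_mod_cast hz1n
  have hpow : z ^ B1 ≤ z ^ (B1 + K + 3) := Nat.pow_le_pow_right hz1n (by omega)
  have hsum := hB z (by omega) X (fun i => n0 + h i) g (hpow.trans hX) hg hgm
    (fun q hq h1 h2 => hgq q hq h1 (h2.trans hpow)) hden
  set V := VV L M z with hVdef
  have hV : 0 < V := Base.VV_pos h2k
  have hV1 : V ≤ 1 := Base.VV_le_one h2k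
  have hM0 : (0 : ℝ) < M := by exact_mod_cast hM
  set N : ℝ := (X : ℝ) / M * V with hN
  have hN0 : 0 ≤ N := by rw [hN]; positivity
  -- size of `N`
  have hzV : 1 ≤ (z : ℝ) * V := by
    have h1 := hz3 z (by omega)
    rw [pow_one] at h1
    have h2 : (z : ℝ) ^ (-1 : ℝ) ≤ (z : ℝ) ^ (-(1 : ℝ) / 4) :=
      Real.rpow_le_rpow_of_exponent_le hz1' (by norm_num)
    rw [Real.rpow_neg_one] at h2
    have h3 : (z : ℝ)⁻¹ ≤ V := h2.trans h1
    calc (1 : ℝ) = z * (z : ℝ)⁻¹ := by field_simp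
      _ ≤ z * V := mul_le_mul_of_nonneg_left h3 hz0.le
  have hXbig : z ^ (K + 3) ≤ X := (Nat.pow_le_pow_right hz1n (by omega)).trans hX
  have hNbig : (z : ℝ) ^ (K + 1) ≤ N := by
    have h2 : (z : ℝ) ^ (K + 3) ≤ X := by exact_mod_cast hXbig
    have h3 : (M : ℝ) ≤ z := by exact_mod_cast (by omega : M ≤ z)
    rw [hN, div_mul_eq_mul_div, le_div_iff₀ hM0]
    calc (z : ℝ) ^ (K + 1) * M ≤ z ^ (K + 1) * z := by gcongr
      _ = z ^ (K + 1) * z * 1 := by ring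
      _ ≤ z ^ (K + 1) * z * (z * V) := by gcongr
      _ = (z : ℝ) ^ (K + 3) * V := by ring
      _ ≤ X * V := by gcongr
  have herr : 3 * (Hs : ℝ) + (z : ℝ) ^ K ≤ 5 * η * N := by
    have h1 : (3 * (Hs : ℝ) + 1) / (5 * η) ≤ z := hz4.trans (by exact_mod_cast (by omega : z4 ≤ z))
    rw [div_le_iff₀ (by positivity)] at h1
    have h2 : (1 : ℝ) ≤ (z : ℝ) ^ K := one_le_pow₀ hz1'
    calc 3 * (Hs : ℝ) + (z : ℝ) ^ K ≤ 3 * (Hs : ℝ) * (z : ℝ) ^ K + (z : ℝ) ^ K := by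
          have : 3 * (Hs : ℝ) * 1 ≤ 3 * (Hs : ℝ) * (z : ℝ) ^ K := by gcongr
          linarith
      _ = (3 * (Hs : ℝ) + 1) * (z : ℝ) ^ K := by ring
      _ ≤ z * (5 * η) * (z : ℝ) ^ K := by gcongr
      _ = 5 * η * (z : ℝ) ^ (K + 1) := by ring
      _ ≤ 5 * η * N := by gcongr
  -- the number of windows
  set W := Win M n0 z h X with hW
  have hWcard : (W.card : ℝ) ≤ (1 + η1) * N + 2 * Hs + (z : ℝ) ^ K := by
    have h1 : (W.card : ℝ) ≤ ((W1 M (n0 + h i0) z (SS h i0) 1 (X + h i0)).card : ℝ) := by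
      exact_mod_cast card_Win_le M n0 z h X i0
    have h2 := hc M (n0 + h i0) z 1 (X + h i0) hgood0 (by omega) (by exact_mod_cast Base.rgh_one M z)
    rw [card_SS h hh i0, abs_le] at h2
    have h3 := h2.2
    have hη11 : η1 ≤ 1 := min_le_right _ _
    have h4 : ((X + h i0 : ℕ) : ℝ) / M * VV L M z ≤ N + Hs := by
      push_cast
      rw [add_div, add_mul]
      refine add_le_add (le_of_eq rfl) ?_
      have h5 : (h i0 : ℝ) ≤ Hs := by exact_mod_cast hle i0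
      have hMM : (1 : ℝ) ≤ M := by exact_mod_cast hM
      calc (h i0 : ℝ) / M * V ≤ (h i0 : ℝ) / 1 * 1 := by gcongr
        _ ≤ Hs := by rw [div_one, mul_one]; exact h5
    have h6 : (1 + η1) * (((X + h i0 : ℕ) : ℝ) / M * VV L M z) ≤ (1 + η1) * (N + Hs) := by gcongr
    have hHs0 : (0 : ℝ) ≤ Hs := Nat.cast_nonneg _
    nlinarith
  -- the total
  have htot : ∑ i, NN M (n0 + h i) z (SS h i) (g 1) X ≤ ∑ n ∈ W, ∑ i, g 1 (n + h i) + Hs := by
    calc ∑ i, NN M (n0 + h i) z (SS h i) (g 1) X ≤ ∑ i, (∑ n ∈ W, g 1 (n + h i) + (h i : ℝ)) :=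
          sum_le_sum fun i _ => NN_le M n0 z h X i (g 1) (hg 1)
      _ = ∑ n ∈ W, ∑ i, g 1 (n + h i) + Hs := by
          rw [sum_add_distrib, sum_comm, hHs]
          push_cast
          rfl
  set G := (Icc 1 X).filter (fun n => n % M = n0 % M ∧ (∀ j, Rgh M z ((n : ℤ) + h j)) ∧
      τ * L ≤ ∑ i, g 1 (n + h i)) with hG
  have hGW : G = W.filter (fun n => τ * L ≤ ∑ i, g 1 (n + h i)) := by
    rw [hG, hW]
    unfold Win
    rw [filter_filter]
    refine filter_congr fun n _ => ?_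
    tauto
  have hL0 : (0 : ℝ) < L := by exact_mod_cast hL
  have hsplit : ∑ n ∈ W, ∑ i, g 1 (n + h i) ≤ L * G.card + τ * L * W.card := by
    have h1 : ∀ n ∈ W, ∑ i, g 1 (n + h i) ≤ (if τ * L ≤ ∑ i, g 1 (n + h i) then (L : ℝ) else 0) + τ * L := by
      intro n _
      split_ifs with hc1
      · have : ∑ i, g 1 (n + h i) ≤ L := by
          refine (sum_le_card_nsmul _ _ 1 fun i _ => (hg 1 _).2).trans ?_
          rw [card_univ, Fintype.card_fin, nsmul_eq_mul, mul_one]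
        have h0 : 0 ≤ τ * L := by positivity
        linarith
      · push Not at hc1
        linarith
    refine (sum_le_sum h1).trans (le_of_eq ?_)
    rw [sum_add_distrib, ← sum_filter, ← hGW, sum_const, sum_const, nsmul_eq_mul, nsmul_eq_mul]
    ring
  have hmain : (σ / m - η) * L * N ≤ L * G.card + τ * L * ((1 + η1) * N + 2 * Hs + (z : ℝ) ^ K) + Hs := by
    have h1 : (σ / m - η) * L * ((X : ℝ) / M) * V = (σ / m - η) * L * N := by rw [hN]; ring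
    have h2 := hsum
    rw [h1] at h2
    have h3 : τ * L * (W.card : ℝ) ≤ τ * L * ((1 + η1) * N + 2 * Hs + (z : ℝ) ^ K) := by gcongr
    linarith
  have hHsL : (Hs : ℝ) ≤ L * Hs := by
    have hL1 : (1 : ℝ) ≤ L := by exact_mod_cast hL
    have hHs0 : (0 : ℝ) ≤ Hs := Nat.cast_nonneg _
    nlinarith
  have hdiv : (σ / m - η) * N ≤ G.card + τ * ((1 + η1) * N + 2 * Hs + (z : ℝ) ^ K) + Hs := by
    have h1 : L * ((σ / m - η) * N) ≤ L * (G.card + τ * ((1 + η1) * N + 2 * Hs + (z : ℝ) ^ K) + Hs) := by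
      nlinarith
    exact le_of_mul_le_mul_left h1 hL0
  have hη1η : η1 ≤ η := min_le_left _ _
  have hσm : σ / m = 8 * η + τ := by rw [hη]; ring
  have hE0 : (0 : ℝ) ≤ (z : ℝ) ^ K := by positivity
  have hHs0 : (0 : ℝ) ≤ Hs := Nat.cast_nonneg _
  have h7 : τ * (η1 * N) ≤ η * N := by
    calc τ * (η1 * N) ≤ 1 * (η1 * N) := by gcongr
      _ ≤ η * N := by rw [one_mul]; gcongr
  have h8 : τ * (2 * Hs + (z : ℝ) ^ K) ≤ 2 * Hs + (z : ℝ) ^ K := mul_le_of_le_one_left (by positivity) hτ1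
  have h9 : η * ((X : ℝ) / M) * V = η * N := by rw [hN]; ring
  rw [h9]
  rw [hσm] at hdiv
  nlinarith

end

end Pool.Agent.Lib.MP_3efbeb_nt.DL
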