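import Pool.Agent.Lib.MP_3efbeb_nt.DL.MAIN
import Pool.Agent.Lib.MP_3efbeb_nt.DL.WIN2

/-!
# MAIN3: near-prime dilates of every finite pattern, every class `a` mod `m`, all large `x`
-/

set_option autoImplicit false

namespace Pool.Agent.Lib.MP_3efbeb_nt.DL

open Finset
open scoped Classical

noncomputable section

/-- SZ: Szemeredi's theorem for the finite pattern `H`. -/
def SpecSZ : Prop := ∀ (δ : ℝ) (H : Finset ℕ), 0 < δ → ∃ L0 : ℕ, ∀ L : ℕ, L0 ≤ L →
  ∀ A : Finset ℕ, A ⊆ range L → δ * L ≤ A.card → ∃ t e : ℕ, 1 ≤ e ∧ ∀ h ∈ H, t + e * h ∈ A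

/-- MAIN3 (from WIN2, TYP, SZ, VLB). -/
def SpecMAIN3 : Prop := ∀ (m a : ℕ) (H : Finset ℕ) (θ : ℝ), 1 ≤ m → 0 < θ →
  ∃ D C : ℕ, ∃ c : ℝ, 0 < c ∧ ∃ x₀ : ℕ, ∀ x : ℕ, x₀ ≤ x →
    (x : ℝ) / Real.log x ^ C ≤ (((Icc 1 x).filter (fun n => ∃ e ∈ Icc 1 D, ∀ h ∈ H,
      (∀ p : ℕ, p.Prime → p ∣ n + e * h → (x : ℝ) ^ c < p) ∧
      (n + e * h).primeFactorsList.length % m = a % m ∧
      ∃ P : ℕ, P.Prime ∧ P ∣ n + e * h ∧ (x : ℝ) ^ (1 - θ) < P)).card : ℝ)

namespace MAINM3

lemma sum_shift {m : ℕ} (f : ℕ → ℝ) (hf : ∀ b, f (b + m) = f b) (s : ℕ) :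
    ∑ b ∈ range m, f (b + s) = ∑ b ∈ range m, f b := by
  induction s with
  | zero => rfl
  | succ s ih =>
    rw [← ih]
    have h1 : ∑ b ∈ range (m + 1), f (b + s) = ∑ b ∈ range m, f (b + 1 + s) + f (0 + s) := sum_range_succ' _ _
    have h2 : ∑ b ∈ range (m + 1), f (b + s) = ∑ b ∈ range m, f (b + s) + f (m + s) := sum_range_succ _ _
    have h3 : f (m + s) = f (0 + s) := by rw [add_comm m s, hf, zero_add]
    have h4 : ∑ b ∈ range m, f (b + (s + 1)) = ∑ b ∈ range m, f (b + 1 + s) :=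
      sum_congr rfl fun b _ => by rw [show b + (s + 1) = b + 1 + s by ring]
    linarith

/-- the choice of `x` : all that is needed -/
lemma eventually_params2 (β θ : ℝ) (hβ : 0 < β) (hθ : 0 < θ) (A C : ℝ) (N0 : ℕ) :
    ∃ x0 : ℕ, ∀ x : ℕ, x0 ≤ x → (N0 : ℝ) + 1 ≤ (x : ℝ) ^ β ∧ 2 ≤ (x : ℝ) ^ (β / 2) ∧ A ≤ (x : ℝ) ^ (θ / 4) ∧
      C ≤ Real.log x ∧ N0 ≤ x := by
  have h : ∀ (e : ℝ), 0 < e → Filter.Tendsto (fun x : ℕ => (x : ℝ) ^ e) Filter.atTop Filter.atTop := fun e he =>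
    (tendsto_rpow_atTop he).comp tendsto_natCast_atTop_atTop
  have h1 := (h β hβ).eventually_ge_atTop ((N0 : ℝ) + 1)
  have h2 := (h (β / 2) (by linarith)).eventually_ge_atTop 2
  have h3 := (h (θ / 4) (by linarith)).eventually_ge_atTop A
  have h4 := (Real.tendsto_log_atTop.comp (tendsto_natCast_atTop_atTop (R := ℝ))).eventually_ge_atTop C
  have h5 := Filter.eventually_ge_atTop N0
  obtain ⟨x0, hx0⟩ := Filter.eventually_atTop.1 (h1.and (h2.and (h3.and (h4.and h5))))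
  exact ⟨x0, fun x hx => hx0 x hx⟩

end MAINM3

open MAINM MAINM3 in
theorem specMAIN3 (hWIN : SpecWIN2) (hTYP : SpecTYP) (hVLB : SpecVLB) (hSZ : SpecSZ) : SpecMAIN3 := by
  intro m a₀ H θ hm hθ
  set θ' : ℝ := min θ (1 / 4) with hθ'
  have hθ'0 : 0 < θ' := lt_min hθ (by norm_num)
  have hθ'4 : θ' ≤ 1 / 4 := min_le_right _ _
  obtain ⟨σ0, hσ0, hty⟩ := hTYP (θ' / 2) (by linarith)
  set σ : ℝ := min σ0 1 with hσ
  have hσpos : 0 < σ := lt_min hσ0 one_pos
  have hm0 : (0 : ℝ) < m := by exact_mod_cast hm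
  have hm1 : (1 : ℝ) ≤ m := by exact_mod_cast hm
  set τ : ℝ := σ / (2 * m) with hτ
  have hτpos : 0 < τ := by rw [hτ]; positivity
  have hτσ : τ < σ / m := by
    rw [hτ, div_lt_div_iff₀ (by positivity) hm0]
    nlinarith
  have hτ1 : τ ≤ 1 := by
    rw [hτ, div_le_one (by positivity)]
    have : σ ≤ 1 := min_le_right _ _
    linarith
  set H' : Finset ℕ := insert 0 (insert 1 H) with hH'
  obtain ⟨L0, hL0⟩ := hSZ τ H' hτpos
  set L : ℕ := L0 + 1 with hL
  have hL1 : 1 ≤ L := by omega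
  set ω : ℕ := L.factorial with hω
  have hω1 : 1 ≤ ω := Nat.succ_le_of_lt (Nat.factorial_pos L)
  set h : Fin L → ℕ := fun i => ω * i with hh
  have hinj : Function.Injective h := by
    intro i j hij
    have : (i : ℕ) = j := Nat.eq_of_mul_eq_mul_left hω1 hij
    exact Fin.ext this
  obtain ⟨P0, κ, hκ, hW⟩ := hWIN L m h σ τ hL1 hm hinj hτpos.le hτ1 hτσ
  set Q : ℕ := P0 + 2 + 2 * L with hQ
  set M : ℕ := Q.factorial with hM
  have hM1 : 1 ≤ M := Nat.succ_le_of_lt (Nat.factorial_pos Q)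
  have hMp : ∀ p : ℕ, p.Prime → ¬ p ∣ M → Q < p := by
    intro p hp hpM
    by_contra hle
    push Not at hle
    exact hpM ((Nat.Prime.dvd_factorial hp).2 hle)
  have hMp' : ∀ p : ℕ, p.Prime → p ∣ M → p ≤ Q := fun p hp hpM => (Nat.Prime.dvd_factorial hp).1 hpM
  have hM0 : (0 : ℝ) < M := by exact_mod_cast hM1
  -- the starting class
  obtain ⟨n0, hn0⟩ := exists_n0 h Q (by
    intro p hp
    rcases Nat.lt_or_ge L p with hlt | hge
    · obtain ⟨a, ha⟩ := Pool.Agent.Lib.MP3efbeb.AP.BASM.avoid p (range L) (by rwa [card_range]) (fun i => ω * i)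
      exact ⟨a, fun i => ha i (mem_range.2 i.2)⟩
    · refine ⟨1, fun i hd => ?_⟩
      have h1 : p ∣ ω * i := ((Nat.Prime.dvd_factorial hp).2 hge).mul_right _
      have h2 : p ∣ 1 := (Nat.dvd_add_left h1).1 hd
      exact hp.one_lt.ne' (Nat.dvd_one.1 h2))
  have h2L : ∀ p : ℕ, p.Prime → ¬ p ∣ M → 2 * L ≤ p := fun p hp hpM => by have := hMp p hp hpM; omega
  obtain ⟨B, z1, hWz⟩ := hW M hM1 (fun p hp hpM => by have := hMp p hp hpM; omega)
  obtain ⟨K, z2, hTz⟩ := hty M ⟨hM1, fun p hp hpM => ⟨by have := hMp p hp hpM; omega,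
    fun s hs => absurd hs (notMem_empty s), fun s hs => absurd hs (notMem_empty s)⟩⟩
  obtain ⟨c₁, hc₁, hVz⟩ := hVLB L M hM1 h2L
  set β : ℝ := θ' / (16 * (B + K + 1)) with hβ
  have hBK : (0 : ℝ) < 16 * (B + K + 1) := by positivity
  have hβ0 : 0 < β := div_pos hθ'0 hBK
  have hβB : β * (B + K + 1) ≤ θ' / 16 := by
    rw [hβ]
    exact le_of_eq (by field_simp)
  have hβ1 : β ≤ 1 := by
    rw [hβ, div_le_one hBK]
    have h1 : (0 : ℝ) ≤ B := Nat.cast_nonneg _
    have h2 : (0 : ℝ) ≤ K := Nat.cast_nonneg _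
    linarith
  obtain ⟨x0, hx0⟩ := eventually_params2 β θ' hβ0 hθ'0 16 (4 * M * L / (κ * c₁)) (z1 + z2 + 2 * (ω * L) + 8)
  refine ⟨ω * L, L + 1, β / 2, by linarith, x0 + 1, fun x hx => ?_⟩
  obtain ⟨hp1, hp2, hp3, hp4, hp5⟩ := hx0 x (by omega)
  have hx8 : 8 ≤ x := by omega
  set y : ℝ := (x : ℝ) with hy
  have hy8 : (8 : ℝ) ≤ y := by rw [hy]; exact_mod_cast hx8
  have hy0 : 0 < y := by linarith
  have hy1 : 1 ≤ y := by linarith
  -- `z`
  set z : ℕ := ⌊y ^ β⌋₊ with hz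
  have hzle : (z : ℝ) ≤ y ^ β := Nat.floor_le (by positivity)
  have hzge : y ^ β - 1 < z := by
    have := Nat.lt_floor_add_one (y ^ β)
    linarith
  have hzN : z1 + z2 + 2 * (ω * L) + 8 ≤ z := by
    refine Nat.le_floor ?_
    push_cast at hp1 ⊢
    linarith
  have hz1n : 1 ≤ z := by omega
  have hz1r : (1 : ℝ) ≤ z := by exact_mod_cast hz1n
  have hzβ2 : y ^ (β / 2) < z := by
    have h1 : y ^ β = y ^ (β / 2) * y ^ (β / 2) := by
      rw [← Real.rpow_add hy0]; congr 1; ring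
    have h2 : 2 * y ^ (β / 2) ≤ y ^ (β / 2) * y ^ (β / 2) := mul_le_mul_of_nonneg_right hp2 (by positivity)
    linarith
  -- powers of `z`
  have hzpow : ∀ j : ℕ, (j : ℝ) ≤ B + K + 1 → (z : ℝ) ^ j ≤ y ^ (θ' / 16) := by
    intro j hj
    calc (z : ℝ) ^ j ≤ (y ^ β) ^ j := pow_le_pow_left₀ (by positivity) hzle j
      _ = y ^ (β * j) := by rw [← Real.rpow_natCast, ← Real.rpow_mul hy0.le]
      _ ≤ y ^ (θ' / 16) := Real.rpow_le_rpow_of_exponent_le hy1
          ((mul_le_mul_of_nonneg_left hj hβ0.le).trans hβB)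
  have hzBy : (z : ℝ) ^ B ≤ y ^ (θ' / 16) := hzpow B (by have : (0 : ℝ) ≤ K := Nat.cast_nonneg _; linarith)
  have hzKy : (z : ℝ) ^ K ≤ y ^ (θ' / 16) := hzpow K (by have : (0 : ℝ) ≤ B := Nat.cast_nonneg _; linarith)
  -- `X`
  set X : ℕ := x / 2 with hX
  have hXy : y / 4 ≤ X := by
    have h1 : x ≤ 4 * (x / 2) := by omega
    have h2 : (x : ℝ) ≤ 4 * (X : ℝ) := by exact_mod_cast h1
    rw [hy]
    linarith
  have hXx : X ≤ x := Nat.div_le_self _ _
  have h16 : (16 : ℝ) ≤ y ^ (1 / 4 : ℝ) := hp3.trans (Real.rpow_le_rpow_of_exponent_le hy1 (by linarith))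
  have hzBX : z ^ B ≤ X := by
    have h1 : (z : ℝ) ^ B ≤ X := by
      refine hzBy.trans (le_trans ?_ hXy)
      have h2 : y ^ (θ' / 16) ≤ y ^ (3 / 4 : ℝ) := Real.rpow_le_rpow_of_exponent_le hy1 (by linarith)
      have h3 : y ^ (3 / 4 : ℝ) * y ^ (1 / 4 : ℝ) = y := by
        rw [← Real.rpow_add hy0]; norm_num
      have h4 : y ^ (3 / 4 : ℝ) * 16 ≤ y ^ (3 / 4 : ℝ) * y ^ (1 / 4 : ℝ) := mul_le_mul_of_nonneg_left h16 (by positivity)
      linarith
    exact_mod_cast h1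
  -- `Z`
  set Z : ℕ := ⌈y ^ (1 - θ')⌉₊ with hZ
  have hZge : y ^ (1 - θ') ≤ Z := Nat.le_ceil _
  have hy34 : y ^ (3 / 4 : ℝ) ≤ y ^ (1 - θ') := Real.rpow_le_rpow_of_exponent_le hy1 (by linarith)
  have hzBZ : z ^ B ≤ Z := by
    have h1 : (z : ℝ) ^ B ≤ Z := hzBy.trans ((Real.rpow_le_rpow_of_exponent_le hy1 (by linarith)).trans
      (hy34.trans hZge))
    exact_mod_cast h1
  have hzZ : z ≤ Z := by
    have h1 : (z : ℝ) ≤ Z := by
      refine hzle.trans ((Real.rpow_le_rpow_of_exponent_le hy1 ?_).trans (hy34.trans hZge))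
      have h2 : β ≤ β * (B + K + 1) := by
        have h3 : (0 : ℝ) ≤ B := Nat.cast_nonneg _
        have h4 : (0 : ℝ) ≤ K := Nat.cast_nonneg _
        exact le_mul_of_one_le_right hβ0.le (by linarith)
      linarith
    exact_mod_cast h1
  have hZle : (Z : ℝ) ≤ 2 * y ^ (1 - θ') := by
    have h1 : (Z : ℝ) < y ^ (1 - θ') + 1 := Nat.ceil_lt_add_one (by positivity)
    have h2 : 1 ≤ y ^ (1 - θ') := Real.one_le_rpow hy1 (by linarith)
    linarith
  -- the classes, shifted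
  set s : ℕ := a₀ + (m - 1) with hs
  have hg1 : ∀ n, gt m Z (1 + s) n = gt m Z a₀ n := by
    intro n
    rw [show 1 + s = a₀ + m by omega]
    exact gt_period m Z a₀ n
  -- WIN
  have hcount := hWz z (by omega) X n0 (fun b => gt m Z (b + s)) hzBX (fun b n => gt_bounds m Z (b + s) n)
    (fun b n => by
      show gt m Z (b + m + s) n = gt m Z (b + s) n
      rw [show b + m + s = b + s + m by ring]
      exact gt_period m Z (b + s) n)
    (fun q hq _ hqB b n hn => by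
      show gt m Z (b + 1 + s) (q * n) = gt m Z (b + s) n
      rw [show b + 1 + s = b + s + 1 by ring]
      exact gt_mul hq (hqB.trans hzBZ) hn) (by
      intro i
      have hsum : ∑ b ∈ range m, NN M (n0 + h i) z ∅ (gt m Z (b + s)) X =
          ∑ b ∈ range m, NN M (n0 + h i) z ∅ (gt m Z b) X :=
        sum_shift (fun b => NN M (n0 + h i) z ∅ (gt m Z b) X) (fun b => by
          show NN M (n0 + h i) z ∅ (gt m Z (b + m)) X = NN M (n0 + h i) z ∅ (gt m Z b) X
          unfold NN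
          exact sum_congr rfl fun n _ => gt_period m Z b n) s
      rw [hsum, sum_NN_gt hm]
      have hlt : X < Z ^ 2 := by
        have h1 : (X : ℝ) < (Z : ℝ) ^ 2 := by
          have h2 : (X : ℝ) ≤ y := by
            rw [hy]
            exact_mod_cast hXx
          have h3 : y < (y ^ (3 / 4 : ℝ)) ^ 2 := by
            rw [← Real.rpow_natCast, ← Real.rpow_mul hy0.le]
            nth_rewrite 1 [← Real.rpow_one y]
            exact Real.rpow_lt_rpow_of_exponent_lt (by linarith) (by norm_num)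
          have h4 : (y ^ (3 / 4 : ℝ)) ^ 2 ≤ (Z : ℝ) ^ 2 := pow_le_pow_left₀ (by positivity) (hy34.trans hZge) 2
          linarith
        exact_mod_cast h1
      have hexp : (1 - θ') * (1 + θ' / 2) ≤ 1 - θ' / 2 := by
        have h1 : (1 - θ') * (1 + θ' / 2) = 1 - θ' / 2 - θ' * θ' / 2 := by ring
        have h2 : 0 ≤ θ' * θ' := mul_self_nonneg _
        rw [h1]
        linarith
      have hbig : (Z : ℝ) ^ (1 + θ' / 2) * (z : ℝ) ^ K ≤ X := by
        have h1 : (Z : ℝ) ^ (1 + θ' / 2) ≤ 4 * y ^ (1 - θ' / 2) := by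
          calc (Z : ℝ) ^ (1 + θ' / 2) ≤ (2 * y ^ (1 - θ')) ^ (1 + θ' / 2) :=
                Real.rpow_le_rpow (Nat.cast_nonneg _) hZle (by linarith)
            _ = 2 ^ (1 + θ' / 2) * y ^ ((1 - θ') * (1 + θ' / 2)) := by
                rw [Real.mul_rpow (by norm_num) (by positivity), ← Real.rpow_mul hy0.le]
            _ ≤ 2 ^ (2 : ℝ) * y ^ (1 - θ' / 2) := by
                refine mul_le_mul (Real.rpow_le_rpow_of_exponent_le (by norm_num) (by linarith))
                  (Real.rpow_le_rpow_of_exponent_le hy1 hexp) (by positivity) (by positivity)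
            _ = 4 * y ^ (1 - θ' / 2) := by norm_num
        have h2 : (Z : ℝ) ^ (1 + θ' / 2) * (z : ℝ) ^ K ≤ 4 * y ^ (1 - θ' / 2) * y ^ (θ' / 16) :=
          mul_le_mul h1 hzKy (by positivity) (by positivity)
        refine h2.trans (le_trans ?_ hXy)
        have h4 : y ^ (1 - θ' / 2) * y ^ (θ' / 16) * y ^ (θ' / 4) ≤ y := by
          rw [← Real.rpow_add hy0, ← Real.rpow_add hy0]
          calc y ^ (1 - θ' / 2 + θ' / 16 + θ' / 4) ≤ y ^ (1 : ℝ) :=
                Real.rpow_le_rpow_of_exponent_le hy1 (by linarith)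
            _ = y := Real.rpow_one y
        have h5 : y ^ (1 - θ' / 2) * y ^ (θ' / 16) * 16 ≤ y ^ (1 - θ' / 2) * y ^ (θ' / 16) * y ^ (θ' / 4) :=
          mul_le_mul_of_nonneg_left hp3 (by positivity)
        have h6 : 4 * y ^ (1 - θ' / 2) * y ^ (θ' / 16) = 4 * (y ^ (1 - θ' / 2) * y ^ (θ' / 16)) := by ring
        rw [h6]
        linarith
      have h6 := hTz z (by omega) Z X (n0 + h i) hzZ hlt hbig
      refine le_trans ?_ h6
      have h7 : 0 ≤ VV 1 M z := (Base.VV_pos (fun p hp _ => by have := hp.two_le; omega)).le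
      have h8 : σ ≤ σ0 := min_le_left _ _
      gcongr)
  set G := (Icc 1 X).filter (fun n => n % M = n0 % M ∧ (∀ j, Rgh M z ((n : ℤ) + h j)) ∧
      τ * L ≤ ∑ i, gt m Z (1 + s) (n + h i)) with hG
  have hcount' : κ * ((X : ℝ) / M) * VV L M z ≤ (G.card : ℝ) := hcount
  set F := (Icc 1 x).filter (fun n => ∃ e ∈ Icc 1 (ω * L), ∀ h ∈ H,
      (∀ p : ℕ, p.Prime → p ∣ n + e * h → y ^ (β / 2) < p) ∧
      (n + e * h).primeFactorsList.length % m = a₀ % m ∧
      ∃ P : ℕ, P.Prime ∧ P ∣ n + e * h ∧ y ^ (1 - θ) < P) with hF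
  have hωLx : ω * L ≤ x / 2 := by omega
  have hGF : G.card ≤ L * F.card := by
    refine dilate (ω := ω) G F fun n hn => ?_
    rw [hG, mem_filter, mem_Icc] at hn
    obtain ⟨⟨hn1, hn2⟩, hnM, hnr, hns⟩ := hn
    set A : Finset ℕ := (range L).filter (fun i => gt m Z a₀ (n + ω * i) = 1) with hA
    have hAcard : τ * L ≤ (A.card : ℝ) := by
      refine hns.trans (le_of_eq ?_)
      rw [hA, card_filter, ← Fin.sum_univ_eq_sum_range]
      push_cast
      refine sum_congr rfl fun i _ => ?_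
      rw [hg1, hh]
      simp only
      split_ifs with h1
      · exact h1
      · unfold gt at h1 ⊢
        split_ifs at h1 ⊢ with h2
        · exact absurd rfl h1
        · rfl
    obtain ⟨t, e, he, htT⟩ := hL0 L (by omega) A (filter_subset _ _) hAcard
    have htH : ∀ h ∈ H', t + e * h < L := fun h hh => mem_range.1 (filter_subset _ _ (htT h hh))
    have ht : t < L := by
      have := htH 0 (by rw [hH']; exact mem_insert_self _ _)
      omega
    have heL : e < L := by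
      have := htH 1 (by rw [hH']; exact mem_insert_of_mem (mem_insert_self _ _))
      omega
    refine ⟨t, ht, ?_⟩
    have hωt : ω * t ≤ ω * L := Nat.mul_le_mul_left _ ht.le
    rw [hF, mem_filter, mem_Icc]
    refine ⟨⟨by omega, by omega⟩, ω * e, ?_, fun a ha => ⟨?_, ?_⟩⟩
    · rw [mem_Icc]
      exact ⟨Nat.mul_pos hω1 he, Nat.mul_le_mul_left _ heL.le⟩
    · intro p hp hd
      have h1 : t + e * a < L := htH a (by rw [hH']; exact mem_insert_of_mem (mem_insert_of_mem ha))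
      have h2 : n + ω * t + ω * e * a = n + h ⟨t + e * a, h1⟩ := by
        rw [hh]
        simp only
        ring
      rw [h2] at hd
      have h3 := no_small hMp' (fun p hp hpQ => hn0 p hp hpQ ⟨t + e * a, h1⟩) hnM (hnr _) p hp hd
      have h4 : (z : ℝ) ≤ p := by exact_mod_cast h3
      linarith
    · have h1 := htT a (by rw [hH']; exact mem_insert_of_mem (mem_insert_of_mem ha))
      rw [hA, mem_filter] at h1
      have h2 : n + ω * t + ω * e * a = n + ω * (t + e * a) := by ring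
      rw [h2]
      have h3 := h1.2
      unfold gt at h3
      split_ifs at h3 with h4
      · obtain ⟨h5, P, hP, hPd, hPZ⟩ := h4
        refine ⟨h5, P, hP, hPd, ?_⟩
        have h6 : (Z : ℝ) < P := by exact_mod_cast hPZ
        have h7 : y ^ (1 - θ) ≤ y ^ (1 - θ') := Real.rpow_le_rpow_of_exponent_le hy1 (by
          have : θ' ≤ θ := min_le_left _ _
          linarith)
        linarith
      · norm_num at h3
  -- the count
  have hlogz : Real.log z ≤ Real.log y := by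
    refine Real.log_le_log (by linarith) (hzle.trans ?_)
    calc y ^ β ≤ y ^ (1 : ℝ) := Real.rpow_le_rpow_of_exponent_le hy1 hβ1
      _ = y := Real.rpow_one y
  have hlogz0 : 0 < Real.log z := Real.log_pos (by exact_mod_cast (by omega : 1 < z))
  have hlogy : 0 < Real.log y := lt_of_lt_of_le hlogz0 hlogz
  have hV1 : c₁ / Real.log y ^ L ≤ VV L M z := by
    refine le_trans ?_ (hVz z (by omega))
    gcongr
  have hL0' : (0 : ℝ) < L := by exact_mod_cast hL1
  have hGF' : (G.card : ℝ) ≤ L * F.card := by exact_mod_cast hGF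
  have h1 : κ * (y / 4 / M) * (c₁ / Real.log y ^ L) ≤ L * F.card := by
    refine le_trans ?_ (hcount'.trans hGF')
    gcongr
  have h2 : 4 * M * L ≤ κ * c₁ * Real.log y := by
    rw [div_le_iff₀ (by positivity)] at hp4
    linarith
  have h3 : L * (y / Real.log y ^ (L + 1)) ≤ κ * (y / 4 / M) * (c₁ / Real.log y ^ L) := by
    have e1 : κ * (y / 4 / M) * (c₁ / Real.log y ^ L) = (κ * c₁ * Real.log y) * y / (4 * M * Real.log y ^ (L + 1)) := by
      rw [pow_succ (Real.log y) L]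
      field_simp
    have e2 : L * (y / Real.log y ^ (L + 1)) = (4 * M * L) * y / (4 * M * Real.log y ^ (L + 1)) := by
      field_simp
    rw [e1, e2]
    gcongr
  exact le_of_mul_le_mul_left (h3.trans h1) hL0'

end

end Pool.Agent.Lib.MP_3efbeb_nt.DL
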