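import Pool.Agent.Lib.MP_3efbeb_nt.DL.Base

/-!
# WIN: many rough windows with many elements of class 1
-/

set_option autoImplicit false

namespace Pool.Agent.Lib.MP_3efbeb_nt.DL

open Finset
open scoped Classical

noncomputable section

/-- WIN (from CLOSE, C1, VLP): windows `n + h i`, `i < L`, all rough, with `∑ g 1 (n + h i) ≥ τ L`. -/
def SpecWIN : Prop := ∀ (L m : ℕ) (h : Fin L → ℕ) (σ τ : ℝ), 1 ≤ L → 1 ≤ m → Function.Injective h → 0 ≤ τ → τ ≤ 1 →
  τ < σ / m → ∃ (P0 : ℕ) (κ : ℝ), 0 < κ ∧ ∀ M : ℕ, 1 ≤ M → (∀ p : ℕ, p.Prime → ¬ p ∣ M → P0 < p) →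
  ∃ B z0 : ℕ, ∀ z : ℕ, z0 ≤ z → ∀ (X n0 : ℕ) (g : ℕ → ℕ → ℝ), z ^ B ≤ X →
  (∀ a n, 0 ≤ g a n ∧ g a n ≤ 1) → (∀ a n, g (a + m) n = g a n) →
  (∀ q : ℕ, q.Prime → z < q → q ≤ z ^ B → ∀ a n, 1 ≤ n → g (a + 1) (q * n) = g a n) →
  (∀ i, ∀ X' ≤ X, X ≤ X' * z ^ B → σ * ((X' : ℝ) / M) * VV 1 M z ≤
    ∑ a ∈ range m, NN M (n0 + h i) z ∅ (g a) X') →
  ∃ X' ≤ X, X ≤ X' * z ^ B ∧ κ * ((X' : ℝ) / M) * VV L M z ≤
    (((Icc 1 X').filter (fun n => n % M = n0 % M ∧ (∀ j, Rgh M z ((n : ℤ) + h j)) ∧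
      τ * L ≤ ∑ i, g 1 (n + h i))).card : ℝ)

namespace WINM

/-- the differences from the `i`-th position -/
def SS {L : ℕ} (h : Fin L → ℕ) (i : Fin L) : Finset ℤ := (univ.erase i).image (fun j => (h j : ℤ) - h i)

lemma card_SS {L : ℕ} (h : Fin L → ℕ) (hh : Function.Injective h) (i : Fin L) : (SS h i).card + 1 = L := by
  unfold SS
  rw [card_image_of_injective, card_erase_of_mem (mem_univ _), card_univ, Fintype.card_fin]
  · have := i.2
    omega
  · intro a b hab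
    have : (h a : ℤ) = h b := by simp only at hab; linarith
    exact hh (by exact_mod_cast this)

lemma SS_ne {L : ℕ} (h : Fin L → ℕ) (hh : Function.Injective h) (i : Fin L) : ∀ s ∈ SS h i, s ≠ 0 := by
  intro s hs
  unfold SS at hs
  rw [mem_image] at hs
  obtain ⟨j, hj, rfl⟩ := hs
  intro h0
  have : (h j : ℤ) = h i := by linarith
  exact (ne_of_mem_erase hj) (hh (by exact_mod_cast this))

lemma not_dvd {p a b : ℕ} (ha : a < p) (hb : b < p) (hne : a ≠ b) : ¬ (p : ℤ) ∣ (a : ℤ) - b := by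
  intro hd
  have h0 : (a : ℤ) - b ≠ 0 := by
    intro h
    exact hne (by exact_mod_cast (by linarith : (a : ℤ) = b))
  have h1 := Int.natAbs_dvd_natAbs.2 hd
  rw [Int.natAbs_natCast] at h1
  have h2 := Nat.le_of_dvd (Int.natAbs_pos.2 h0) h1
  omega

lemma good {L : ℕ} (h : Fin L → ℕ) (hh : Function.Injective h) (i : Fin L) {P0 P1 M : ℕ} (hM : 1 ≤ M)
    (hP : ∀ p : ℕ, p.Prime → ¬ p ∣ M → P0 < p) (h1 : P1 ≤ P0) (h2 : ∀ j, h j ≤ P0) : Good (SS h i) P1 M := by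
  refine ⟨hM, fun p hp hpM => ⟨lt_of_le_of_lt h1 (hP p hp hpM), ?_, ?_⟩⟩
  · intro s hs
    unfold SS at hs
    rw [mem_image] at hs
    obtain ⟨j, hj, rfl⟩ := hs
    exact not_dvd (lt_of_le_of_lt (h2 j) (hP p hp hpM)) (lt_of_le_of_lt (h2 i) (hP p hp hpM))
      (fun h => ne_of_mem_erase hj (hh h))
  · intro s hs s' hs' hne
    unfold SS at hs hs'
    rw [mem_image] at hs hs'
    obtain ⟨j, hj, rfl⟩ := hs
    obtain ⟨j', hj', rfl⟩ := hs'
    have e : (h j : ℤ) - h i - ((h j' : ℤ) - h i) = (h j : ℤ) - h j' := by ring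
    rw [e]
    refine not_dvd (lt_of_le_of_lt (h2 j) (hP p hp hpM)) (lt_of_le_of_lt (h2 j') (hP p hp hpM)) (fun h => hne ?_)
    rw [hh h]

/-- the windows -/
def Win (M n0 z : ℕ) {L : ℕ} (h : Fin L → ℕ) (X : ℕ) : Finset ℕ :=
  (Icc 1 X).filter (fun n => n % M = n0 % M ∧ ∀ j, Rgh M z ((n : ℤ) + h j))

/-- one position: the sum over `W1` is at most the sum over the windows, up to `h i` -/
lemma NN_le (M n0 z : ℕ) {L : ℕ} (h : Fin L → ℕ) (X : ℕ) (i : Fin L) (g : ℕ → ℝ) (hg : ∀ n, 0 ≤ g n ∧ g n ≤ 1) :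
    NN M (n0 + h i) z (SS h i) g X ≤ ∑ n ∈ Win M n0 z h X, g (n + h i) + h i := by
  unfold NN
  set W := W1 M (n0 + h i) z (SS h i) 1 X with hW
  rw [← Finset.sum_filter_add_sum_filter_not W (fun m => h i < m)]
  refine add_le_add ?_ ?_
  · have hinj : Set.InjOn (fun n => n + h i) (Win M n0 z h X : Set ℕ) := by
      intro a _ b _ hab
      exact Nat.add_right_cancel hab
    rw [← sum_image (f := fun m => g m) (g := fun n => n + h i) (fun a ha b hb hab => hinj ha hb hab)]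
    refine sum_le_sum_of_subset_of_nonneg ?_ (fun m _ _ => (hg m).1)
    intro m hm
    rw [mem_filter, hW] at hm
    unfold W1 at hm
    simp only [mem_filter, mem_Icc] at hm
    obtain ⟨⟨⟨hm1, hm2⟩, hm3, hm4, hm5⟩, hm6⟩ := hm
    rw [mem_image]
    refine ⟨m - h i, ?_, Nat.sub_add_cancel hm6.le⟩
    unfold Win
    rw [mem_filter, mem_Icc]
    refine ⟨⟨by omega, by omega⟩, ?_, ?_⟩
    · have e1 : (m - h i) + h i ≡ n0 + h i [MOD M] := by
        rw [Nat.sub_add_cancel hm6.le]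
        exact hm3
      exact Nat.ModEq.add_right_cancel' _ e1
    · intro j
      by_cases hj : j = i
      · rw [hj]
        have e1 : (((m - h i : ℕ) : ℤ) + h i) = m := by
          push_cast [hm6.le]
          ring
        rw [e1]
        exact hm4
      · have e1 := hm5 ((h j : ℤ) - h i) (by
          unfold SS
          exact mem_image.2 ⟨j, mem_erase.2 ⟨hj, mem_univ _⟩, rfl⟩)
        have e2 : (((m - h i : ℕ) : ℤ) + h j) = ((1 : ℕ) : ℤ) * m + ((h j : ℤ) - h i) := by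
          push_cast [hm6.le]
          ring
        rw [e2]
        exact e1
  · refine (sum_le_card_nsmul _ _ 1 fun m _ => (hg m).2).trans ?_
    rw [nsmul_eq_mul, mul_one]
    have h1 : (W.filter (fun m => ¬ h i < m)).card ≤ (Icc 1 (h i)).card := by
      refine card_le_card fun m hm => ?_
      rw [mem_filter, hW] at hm
      unfold W1 at hm
      simp only [mem_filter, mem_Icc] at hm
      rw [mem_Icc]
      exact ⟨hm.1.1.1, by omega⟩
    rw [Nat.card_Icc] at h1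
    exact_mod_cast (by omega : (W.filter (fun m => ¬ h i < m)).card ≤ h i)

/-- the number of windows -/
lemma card_Win_le (M n0 z : ℕ) {L : ℕ} (h : Fin L → ℕ) (X : ℕ) (i : Fin L) :
    (Win M n0 z h X).card ≤ (W1 M (n0 + h i) z (SS h i) 1 (X + h i)).card := by
  refine card_le_card_of_injOn (fun n => n + h i) ?_ (fun a _ b _ hab => Nat.add_right_cancel hab)
  intro n hn
  rw [mem_coe] at hn
  unfold Win at hn
  rw [mem_filter, mem_Icc] at hn
  rw [mem_coe]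
  unfold W1
  simp only [mem_filter, mem_Icc]
  refine ⟨⟨by omega, by omega⟩, Nat.ModEq.add_right _ hn.2.1, ?_, ?_⟩
  · have := hn.2.2 i
    push_cast
    exact this
  · intro s hs
    unfold SS at hs
    rw [mem_image] at hs
    obtain ⟨j, hj, rfl⟩ := hs
    have e : ((1 : ℕ) : ℤ) * ((n + h i : ℕ) : ℤ) + ((h j : ℤ) - h i) = (n : ℤ) + h j := by
      push_cast
      ring
    rw [e]
    exact hn.2.2 j

end WINM

open WINM in
theorem specWIN (hC1 : SpecC1) (hVLP : SpecVLP) (hCL : SpecCLOSE) : SpecWIN := by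
  intro L m h σ τ hL hm hh hτ0 hτ1 hτ
  set η : ℝ := (σ / m - τ) / 8 with hη
  have hηpos : 0 < η := by rw [hη]; linarith
  have hm0 : (0 : ℝ) < m := by exact_mod_cast hm
  have hσ : 0 < σ := by
    have : 0 < σ / m := by linarith
    exact (div_pos_iff_of_pos_right hm0).1 this
  obtain ⟨P1, hP1⟩ := hCL L m (SS h) L σ η hL hm hσ hηpos (card_SS h hh) (SS_ne h hh)
  set i0 : Fin L := ⟨0, hL⟩ with hi0
  set η1 : ℝ := min η 1 with hη1
  have hη1pos : 0 < η1 := lt_min hηpos one_pos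
  obtain ⟨K, z1, hz1, hc⟩ := Base.c1 hC1 (SS h i0) η1 hη1pos
  set Hs : ℕ := ∑ i, h i with hHs
  have hle : ∀ j, h j ≤ Hs := fun j => single_le_sum (f := h) (fun i _ => Nat.zero_le _) (mem_univ j)
  refine ⟨P1 + Hs + 2 * L, η, hηpos, fun M hM hP => ?_⟩
  have hgood : ∀ i, Good (SS h i) P1 M := fun i =>
    good h hh i hM hP (by omega) (fun j => by have := hle j; omega)
  have hgood0 : Good (SS h i0) (2 * ((SS h i0).card + 1)) M := by
    rw [card_SS h hh i0]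
    exact good h hh i0 hM hP (by omega) (fun j => by have := hle j; omega)
  have h2k : ∀ p : ℕ, p.Prime → ¬ p ∣ M → 2 * L ≤ p := fun p hp hpM => by
    have := hP p hp hpM
    omega
  obtain ⟨B1, z2, hB⟩ := hP1 M hgood
  obtain ⟨z3, hz3⟩ := hVLP L M 1 hM h2k
  obtain ⟨z4, hz4⟩ := exists_nat_ge ((3 * Hs + 1) / (5 * η))
  refine ⟨B1 + K + 3, z1 + z2 + z3 + z4 + M + 2, fun z hz X n0 g hX hg hgm hgq hden => ?_⟩
  have hz1n : 1 ≤ z := by omega
  have hz0 : (0 : ℝ) < z := by exact_mod_cast (by omega : 0 < z)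
  have hz1' : (1 : ℝ) ≤ z := by exact_mod_cast hz1n
  have hpow : z ^ B1 ≤ z ^ (B1 + K + 3) := Nat.pow_le_pow_right hz1n (by omega)
  obtain ⟨X', hX'X, hXX', hsum⟩ := hB z (by omega) X (fun i => n0 + h i) g (hpow.trans hX) hg hgm
    (fun q hq h1 h2 => hgq q hq h1 (h2.trans hpow))
    (fun i X' h1 h2 => hden i X' h1 (h2.trans (Nat.mul_le_mul_left _ hpow)))
  refine ⟨X', hX'X, hXX'.trans (Nat.mul_le_mul_left _ hpow), ?_⟩
  set V := VV L M z with hVdef
  have hV : 0 < V := Base.VV_pos h2k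
  have hV1 : V ≤ 1 := Base.VV_le_one h2k
  have hM0 : (0 : ℝ) < M := by exact_mod_cast hM
  set N : ℝ := (X' : ℝ) / M * V with hN
  have hN0 : 0 ≤ N := by rw [hN]; positivity
  -- size of `N`
  have hzV : 1 ≤ (z : ℝ) * V := by
    have h1 := hz3 z (by omega)
    rw [pow_one] at h1
    have h2 : (z : ℝ) ^ (-1 : ℝ) ≤ (z : ℝ) ^ (-(1 : ℝ) / 4) :=
      Real.rpow_le_rpow_of_exponent_le hz1' (by norm_num)
    rw [Real.rpow_neg_one] at h2
    have h3 : (z : ℝ)⁻¹ ≤ V := h2.trans h1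
    calc (1 : ℝ) = z * (z : ℝ)⁻¹ := by field_simp
      _ ≤ z * V := mul_le_mul_of_nonneg_left h3 hz0.le
  have hX'big : z ^ (K + 3) ≤ X' := by
    have h1 : z ^ (B1 + K + 3) ≤ X' * z ^ B1 := hX.trans hXX'
    have h2 : z ^ (B1 + K + 3) = z ^ (K + 3) * z ^ B1 := by rw [← pow_add]; congr 1; ring
    rw [h2] at h1
    exact Nat.le_of_mul_le_mul_right h1 (by positivity)
  have hNbig : (z : ℝ) ^ (K + 1) ≤ N := by
    have h2 : (z : ℝ) ^ (K + 3) ≤ X' := by exact_mod_cast hX'big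
    have h3 : (M : ℝ) ≤ z := by exact_mod_cast (by omega : M ≤ z)
    rw [hN, div_mul_eq_mul_div, le_div_iff₀ hM0]
    calc (z : ℝ) ^ (K + 1) * M ≤ z ^ (K + 1) * z := by gcongr
      _ = z ^ (K + 1) * z * 1 := by ring
      _ ≤ z ^ (K + 1) * z * (z * V) := by gcongr
      _ = (z : ℝ) ^ (K + 3) * V := by ring
      _ ≤ X' * V := by gcongr
  have herr : 3 * (Hs : ℝ) + (z : ℝ) ^ K ≤ 5 * η * N := by
    have h1 : (3 * (Hs : ℝ) + 1) / (5 * η) ≤ z := hz4.trans (by exact_mod_cast (by omega : z4 ≤ z))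
    rw [div_le_iff₀ (by positivity)] at h1
    have h2 : (1 : ℝ) ≤ (z : ℝ) ^ K := one_le_pow₀ hz1'
    calc 3 * (Hs : ℝ) + (z : ℝ) ^ K ≤ 3 * (Hs : ℝ) * (z : ℝ) ^ K + (z : ℝ) ^ K := by
          have : 3 * (Hs : ℝ) * 1 ≤ 3 * (Hs : ℝ) * (z : ℝ) ^ K := by gcongr
          linarith
      _ = (3 * (Hs : ℝ) + 1) * (z : ℝ) ^ K := by ring
      _ ≤ z * (5 * η) * (z : ℝ) ^ K := by gcongr
      _ = 5 * η * (z : ℝ) ^ (K + 1) := by ring
      _ ≤ 5 * η * N := by gcongr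
  -- the number of windows
  set W := Win M n0 z h X' with hW
  have hWcard : (W.card : ℝ) ≤ (1 + η1) * N + 2 * Hs + (z : ℝ) ^ K := by
    have h1 : (W.card : ℝ) ≤ ((W1 M (n0 + h i0) z (SS h i0) 1 (X' + h i0)).card : ℝ) := by
      exact_mod_cast card_Win_le M n0 z h X' i0
    have h2 := hc M (n0 + h i0) z 1 (X' + h i0) hgood0 (by omega) (by exact_mod_cast Base.rgh_one M z)
    rw [card_SS h hh i0, abs_le] at h2
    have h3 := h2.2
    have hη11 : η1 ≤ 1 := min_le_right _ _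
    have h4 : ((X' + h i0 : ℕ) : ℝ) / M * VV L M z ≤ N + Hs := by
      push_cast
      rw [add_div, add_mul]
      refine add_le_add (le_of_eq rfl) ?_
      have h5 : (h i0 : ℝ) ≤ Hs := by exact_mod_cast hle i0
      have hMM : (1 : ℝ) ≤ M := by exact_mod_cast hM
      calc (h i0 : ℝ) / M * V ≤ (h i0 : ℝ) / 1 * 1 := by gcongr
        _ ≤ Hs := by rw [div_one, mul_one]; exact h5
    have h6 : (1 + η1) * (((X' + h i0 : ℕ) : ℝ) / M * VV L M z) ≤ (1 + η1) * (N + Hs) := by gcongr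
    have hHs0 : (0 : ℝ) ≤ Hs := Nat.cast_nonneg _
    nlinarith
  -- the total
  have htot : ∑ i, NN M (n0 + h i) z (SS h i) (g 1) X' ≤ ∑ n ∈ W, ∑ i, g 1 (n + h i) + Hs := by
    calc ∑ i, NN M (n0 + h i) z (SS h i) (g 1) X' ≤ ∑ i, (∑ n ∈ W, g 1 (n + h i) + (h i : ℝ)) :=
          sum_le_sum fun i _ => NN_le M n0 z h X' i (g 1) (hg 1)
      _ = ∑ n ∈ W, ∑ i, g 1 (n + h i) + Hs := by
          rw [sum_add_distrib, sum_comm, hHs]
          push_cast
          rfl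
  set G := (Icc 1 X').filter (fun n => n % M = n0 % M ∧ (∀ j, Rgh M z ((n : ℤ) + h j)) ∧
      τ * L ≤ ∑ i, g 1 (n + h i)) with hG
  have hGW : G = W.filter (fun n => τ * L ≤ ∑ i, g 1 (n + h i)) := by
    rw [hG, hW]
    unfold Win
    rw [filter_filter]
    refine filter_congr fun n _ => ?_
    tauto
  have hL0 : (0 : ℝ) < L := by exact_mod_cast hL
  have hsplit : ∑ n ∈ W, ∑ i, g 1 (n + h i) ≤ L * G.card + τ * L * W.card := by
    have h1 : ∀ n ∈ W, ∑ i, g 1 (n + h i) ≤ (if τ * L ≤ ∑ i, g 1 (n + h i) then (L : ℝ) else 0) + τ * L := by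
      intro n _
      split_ifs with hc1
      · have : ∑ i, g 1 (n + h i) ≤ L := by
          refine (sum_le_card_nsmul _ _ 1 fun i _ => (hg 1 _).2).trans ?_
          rw [card_univ, Fintype.card_fin, nsmul_eq_mul, mul_one]
        have h0 : 0 ≤ τ * L := by positivity
        linarith
      · push Not at hc1
        linarith
    refine (sum_le_sum h1).trans (le_of_eq ?_)
    rw [sum_add_distrib, ← sum_filter, ← hGW, sum_const, sum_const, nsmul_eq_mul, nsmul_eq_mul]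
    ring
  have hmain : (σ / m - η) * L * N ≤ L * G.card + τ * L * ((1 + η1) * N + 2 * Hs + (z : ℝ) ^ K) + Hs := by
    have h1 : (σ / m - η) * L * ((X' : ℝ) / M) * V = (σ / m - η) * L * N := by rw [hN]; ring
    have h2 := hsum
    rw [h1] at h2
    have h3 : τ * L * (W.card : ℝ) ≤ τ * L * ((1 + η1) * N + 2 * Hs + (z : ℝ) ^ K) := by gcongr
    linarith
  have hHsL : (Hs : ℝ) ≤ L * Hs := by
    have hL1 : (1 : ℝ) ≤ L := by exact_mod_cast hL
    have hHs0 : (0 : ℝ) ≤ Hs := Nat.cast_nonneg _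
    nlinarith
  have hdiv : (σ / m - η) * N ≤ G.card + τ * ((1 + η1) * N + 2 * Hs + (z : ℝ) ^ K) + Hs := by
    have h1 : L * ((σ / m - η) * N) ≤ L * (G.card + τ * ((1 + η1) * N + 2 * Hs + (z : ℝ) ^ K) + Hs) := by
      nlinarith
    exact le_of_mul_le_mul_left h1 hL0
  have hη1η : η1 ≤ η := min_le_left _ _
  have hσm : σ / m = 8 * η + τ := by rw [hη]; ring
  have hE0 : (0 : ℝ) ≤ (z : ℝ) ^ K := by positivity
  have hHs0 : (0 : ℝ) ≤ Hs := Nat.cast_nonneg _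
  have h7 : τ * (η1 * N) ≤ η * N := by
    calc τ * (η1 * N) ≤ 1 * (η1 * N) := by gcongr
      _ ≤ η * N := by rw [one_mul]; gcongr
  have h8 : τ * (2 * Hs + (z : ℝ) ^ K) ≤ 2 * Hs + (z : ℝ) ^ K := mul_le_of_le_one_left (by positivity) hτ1
  have h9 : η * ((X' : ℝ) / M) * V = η * N := by rw [hN]; ring
  rw [h9]
  rw [hσm] at hdiv
  nlinarith

end

end Pool.Agent.Lib.MP_3efbeb_nt.DL
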