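import Pool.Agent.Lib.MP_3efbeb_nt.DL.EQ
import Pool.Agent.Lib.MP_3efbeb_nt.DL.WIN

/-!
# ONE (helper15): Omega mod m of one element of the rough tuples is equidistributed
-/

set_option autoImplicit false

namespace Pool.Agent.Lib.MP_3efbeb_nt.DL

open Finset
open scoped Classical

noncomputable section

/-- the `n ≤ x` for which all prime factors of all `n + h`, `h ∈ H`, are `≥ z` -/
def RT (H : Finset ℕ) (z x : ℕ) : Finset ℕ :=
  (Icc 1 x).filter (fun n => ∀ h ∈ H, ∀ p : ℕ, p.Prime → p ∣ n + h → z ≤ p)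

/-- ONE: for admissible `H`, `h₀ ∈ H`: `Ω(n + h₀)` is equidistributed mod `m` on the `z`-rough tuples, `x ≥ z^B`. -/
def SpecONE : Prop := ∀ (H : Finset ℕ) (h₀ m : ℕ) (ε : ℝ), h₀ ∈ H → 1 ≤ m → 0 < ε →
  (∀ p : ℕ, p.Prime → ∃ r : ℕ, ∀ h ∈ H, ¬ p ∣ r + h) →
  ∃ B z0 : ℕ, ∀ z : ℕ, z0 ≤ z → ∀ x : ℕ, z ^ B ≤ x → ∀ a : ℕ,
    |(m : ℝ) * (((RT H z x).filter (fun n => (n + h₀).primeFactorsList.length % m = a % m)).card : ℝ) -
      ((RT H z x).card : ℝ)| ≤ ε * ((RT H z x).card : ℝ)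

namespace ONEM

open WINM

/-- the differences -/
def DD (H : Finset ℕ) (h₀ : ℕ) : Finset ℤ := (H.erase h₀).image (fun h : ℕ => (h : ℤ) - h₀)

lemma card_DD (H : Finset ℕ) (h₀ : ℕ) (h : h₀ ∈ H) : (DD H h₀).card + 1 = H.card := by
  unfold DD
  rw [card_image_of_injective, card_erase_of_mem h]
  · have : 0 < H.card := card_pos.2 ⟨h₀, h⟩
    omega
  · intro a b hab
    have : (a : ℤ) = b := by simp only at hab; linarith
    exact_mod_cast this

lemma DD_ne (H : Finset ℕ) (h₀ : ℕ) : ∀ s ∈ DD H h₀, s ≠ 0 := by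
  intro s hs
  unfold DD at hs
  rw [mem_image] at hs
  obtain ⟨j, hj, rfl⟩ := hs
  rw [mem_erase] at hj
  intro h0
  have : (j : ℤ) = h₀ := by linarith
  exact hj.1 (by exact_mod_cast this)

lemma goodDD (H : Finset ℕ) (h₀ : ℕ) {P0 P1 M : ℕ} (hM : 1 ≤ M) (h0 : h₀ ∈ H)
    (hP : ∀ p : ℕ, p.Prime → ¬ p ∣ M → P0 < p) (h1 : P1 ≤ P0) (h2 : ∀ j ∈ H, j ≤ P0) : Good (DD H h₀) P1 M := by
  refine ⟨hM, fun p hp hpM => ⟨lt_of_le_of_lt h1 (hP p hp hpM), ?_, ?_⟩⟩
  · intro s hs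
    unfold DD at hs
    rw [mem_image] at hs
    obtain ⟨j, hj, rfl⟩ := hs
    rw [mem_erase] at hj
    exact not_dvd (lt_of_le_of_lt (h2 j hj.2) (hP p hp hpM)) (lt_of_le_of_lt (h2 h₀ h0) (hP p hp hpM)) hj.1
  · intro s hs s' hs' hne
    unfold DD at hs hs'
    rw [mem_image] at hs hs'
    obtain ⟨j, hj, rfl⟩ := hs
    obtain ⟨j', hj', rfl⟩ := hs'
    rw [mem_erase] at hj hj'
    have e : (j : ℤ) - h₀ - ((j' : ℤ) - h₀) = (j : ℤ) - j' := by ring
    rw [e]
    refine not_dvd (lt_of_le_of_lt (h2 j hj.2) (hP p hp hpM)) (lt_of_le_of_lt (h2 j' hj'.2) (hP p hp hpM))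
      (fun h => hne ?_)
    rw [h]

/-- the classes mod `M` of `n + h₀` allowed by the primes of `M` -/
def CL (H : Finset ℕ) (h₀ M : ℕ) : Finset ℕ :=
  (range M).filter (fun r => ∃ n : ℕ, (n + h₀) % M = r ∧ ∀ h ∈ H, ∀ p : ℕ, p.Prime → p ∣ M → ¬ p ∣ n + h)

/-- membership in `RT` by classes -/
lemma mem_RT_iff {H : Finset ℕ} {h₀ M z x n : ℕ} (hM : 1 ≤ M) (h0 : h₀ ∈ H) (hMz : ∀ p : ℕ, p.Prime → p ∣ M → p < z) :
    (n ∈ RT H z x) ↔ ((1 ≤ n ∧ n ≤ x) ∧ (n + h₀) % M ∈ CL H h₀ M ∧ Rgh M z ((n + h₀ : ℕ) : ℤ) ∧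
      cq M z (DD H h₀) 1 (n + h₀)) := by
  unfold RT
  rw [mem_filter, mem_Icc]
  refine and_congr_right fun hn => ?_
  constructor
  · intro h
    refine ⟨?_, ?_, ?_⟩
    · unfold CL
      rw [mem_filter, mem_range]
      refine ⟨Nat.mod_lt _ (by omega), n, rfl, fun j hj p hp hpM hd => ?_⟩
      have := h j hj p hp hd
      have := hMz p hp hpM
      omega
    · intro p hp hpz _ hd
      have h1 : p ∣ n + h₀ := by exact_mod_cast hd
      have := h h₀ h0 p hp h1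
      omega
    · intro s hs
      unfold DD at hs
      rw [mem_image] at hs
      obtain ⟨j, hj, rfl⟩ := hs
      rw [mem_erase] at hj
      intro p hp hpz _ hd
      have e : ((1 : ℕ) : ℤ) * ((n + h₀ : ℕ) : ℤ) + ((j : ℤ) - h₀) = ((n + j : ℕ) : ℤ) := by
        push_cast
        ring
      rw [e] at hd
      have h1 : p ∣ n + j := by exact_mod_cast hd
      have := h j hj.2 p hp h1
      omega
  · rintro ⟨hc, hr, hq⟩ j hj p hp hd
    by_contra hlt
    push Not at hlt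
    by_cases hpM : p ∣ M
    · unfold CL at hc
      rw [mem_filter] at hc
      obtain ⟨_, n', hn', hall⟩ := hc
      have h1 : n' + h₀ ≡ n + h₀ [MOD M] := by
        unfold Nat.ModEq
        rw [hn']
      have h2 : n' ≡ n [MOD M] := Nat.ModEq.add_right_cancel' _ h1
      have h3 : n' + j ≡ n + j [MOD p] := (Nat.ModEq.of_dvd hpM h2).add_right _
      exact hall j hj p hp hpM ((h3.dvd_iff (dvd_refl p)).2 hd)
    · by_cases hjh : j = h₀
      · subst hjh
        exact hr p hp hlt hpM (by exact_mod_cast hd)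
      · have h1 := hq ((j : ℤ) - h₀) (by
          unfold DD
          exact mem_image.2 ⟨j, mem_erase.2 ⟨hjh, hj⟩, rfl⟩) p hp hlt hpM
        have e : ((1 : ℕ) : ℤ) * ((n + h₀ : ℕ) : ℤ) + ((j : ℤ) - h₀) = ((n + j : ℕ) : ℤ) := by
          push_cast
          ring
        rw [e] at h1
        exact h1 (by exact_mod_cast hd)

/-- the sum of a function over `RT` and over the classes -/
lemma sum_RT {H : Finset ℕ} {h₀ M z x : ℕ} (hM : 1 ≤ M) (h0 : h₀ ∈ H) (hMz : ∀ p : ℕ, p.Prime → p ∣ M → p < z)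
    (g : ℕ → ℝ) (hg : ∀ n, 0 ≤ g n ∧ g n ≤ 1) :
    |∑ n ∈ RT H z x, g (n + h₀) - ∑ r ∈ CL H h₀ M, NN M r z (DD H h₀) g (x + h₀)| ≤ h₀ := by
  -- the union of the classes
  set U : Finset ℕ := (CL H h₀ M).biUnion (fun r => W1 M r z (DD H h₀) 1 (x + h₀)) with hU
  have hdisj : ∀ r ∈ CL H h₀ M, ∀ r' ∈ CL H h₀ M, r ≠ r' →
      Disjoint (W1 M r z (DD H h₀) 1 (x + h₀)) (W1 M r' z (DD H h₀) 1 (x + h₀)) := by
    intro r hr r' hr' hne
    rw [Finset.disjoint_left]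
    intro n hn hn'
    unfold W1 at hn hn'
    unfold CL at hr hr'
    rw [mem_filter] at hn hn' hr hr'
    rw [mem_range] at hr hr'
    have h1 := hn.2.1
    have h2 := hn'.2.1
    rw [Nat.mod_eq_of_lt hr.1] at h1
    rw [Nat.mod_eq_of_lt hr'.1] at h2
    exact hne (h1.symm.trans h2)
  have e1 : ∑ r ∈ CL H h₀ M, NN M r z (DD H h₀) g (x + h₀) = ∑ n ∈ U, g n := by
    rw [hU, sum_biUnion (fun r hr r' hr' hne => hdisj r hr r' hr' hne)]
    rfl
  have hmem : ∀ n, n ∈ U ↔ (1 ≤ n ∧ n ≤ x + h₀) ∧ n % M ∈ CL H h₀ M ∧ Rgh M z n ∧ cq M z (DD H h₀) 1 n := by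
    intro n
    rw [hU, mem_biUnion]
    constructor
    · rintro ⟨r, hr, hn⟩
      unfold W1 at hn
      rw [mem_filter, mem_Icc] at hn
      have hr' := hr
      unfold CL at hr'
      rw [mem_filter, mem_range] at hr'
      have h1 := hn.2.1
      rw [Nat.mod_eq_of_lt hr'.1] at h1
      rw [← h1] at hr
      exact ⟨hn.1, hr, hn.2.2⟩
    · rintro ⟨h1, h2, h3⟩
      refine ⟨n % M, h2, ?_⟩
      unfold W1
      rw [mem_filter, mem_Icc]
      exact ⟨h1, (Nat.mod_mod _ _).symm, h3⟩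
  have e2 : ∑ n ∈ RT H z x, g (n + h₀) = ∑ n ∈ U.filter (fun n => h₀ < n), g n := by
    refine sum_bij (fun n _ => n + h₀) ?_ ?_ ?_ ?_
    · intro n hn
      rw [mem_RT_iff hM h0 hMz] at hn
      rw [mem_filter, hmem]
      exact ⟨⟨⟨by omega, by omega⟩, hn.2⟩, by omega⟩
    · intro a _ b _ hab
      exact Nat.add_right_cancel hab
    · intro n hn
      rw [mem_filter, hmem] at hn
      refine ⟨n - h₀, ?_, Nat.sub_add_cancel hn.2.le⟩
      rw [mem_RT_iff hM h0 hMz, Nat.sub_add_cancel hn.2.le]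
      exact ⟨⟨by omega, by omega⟩, hn.1.2⟩
    · intro n _
      rfl
  rw [e1, e2, ← Finset.sum_filter_add_sum_filter_not U (fun n => h₀ < n)]
  rw [show ∀ u v : ℝ, u - (u + v) = -v by intro u v; ring, abs_neg, abs_of_nonneg (sum_nonneg fun n _ => (hg n).1)]
  refine (sum_le_card_nsmul _ _ 1 fun m _ => (hg m).2).trans ?_
  rw [nsmul_eq_mul, mul_one]
  have h1 : (U.filter (fun n => ¬ h₀ < n)).card ≤ (Icc 1 h₀).card := by
    refine card_le_card fun n hn => ?_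
    rw [mem_filter, hmem] at hn
    rw [mem_Icc]
    exact ⟨hn.1.1.1, by omega⟩
  rw [Nat.card_Icc] at h1
  exact_mod_cast (by omega : (U.filter (fun n => ¬ h₀ < n)).card ≤ h₀)

lemma ga_mem (m a n : ℕ) : 0 ≤ ga m a n ∧ ga m a n ≤ 1 := by
  unfold ga; split_ifs <;> norm_num

lemma ga_mul (m a : ℕ) {q n : ℕ} (hq : q.Prime) (hn : 1 ≤ n) : ga m (a + 1) (q * n) = ga m a n := by
  have h1 : (q * n).primeFactorsList.length = n.primeFactorsList.length + 1 := by
    have h := (Nat.perm_primeFactorsList_mul hq.ne_zero (by omega : n ≠ 0)).length_eq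
    rw [List.length_append, Nat.primeFactorsList_prime hq, List.length_singleton] at h
    omega
  unfold ga
  rw [h1]
  have h2 : (n.primeFactorsList.length + 1) % m = (a + 1) % m ↔ n.primeFactorsList.length % m = a % m :=
    ⟨fun h => Nat.ModEq.add_right_cancel' 1 h, fun h => Nat.ModEq.add_right 1 h⟩
  by_cases h : n.primeFactorsList.length % m = a % m
  · rw [if_pos h, if_pos (h2.2 h)]
  · rw [if_neg h, if_neg (fun h' => h (h2.1 h'))]

lemma ga_sum {m : ℕ} (hm : 1 ≤ m) (n : ℕ) : ∑ a ∈ range m, ga m a n = 1 := by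
  have h1 : ∀ a ∈ range m, ga m a n = if n.primeFactorsList.length % m = a then (1 : ℝ) else 0 := by
    intro a ha
    unfold ga
    rw [Nat.mod_eq_of_lt (mem_range.1 ha)]
  rw [sum_congr rfl h1, sum_ite_eq, if_pos (mem_range.2 (Nat.mod_lt _ (by omega)))]

end ONEM

open ONEM in
/-- ONE. -/
theorem specONE (hEQ : SpecEQ) (hC1 : SpecC1) (hVLP : SpecVLP) : SpecONE := by
  intro H h₀ m ε h0 hm hε hadm
  have hmR : (0 : ℝ) < m := by exact_mod_cast (by omega : 0 < m)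
  set k := H.card with hk
  have hDk : (DD H h₀).card + 1 = k := card_DD H h₀ h0
  set η : ℝ := ε / (4 * m) with hη
  have hηp : 0 < η := by positivity
  obtain ⟨P0, hP0⟩ := hEQ (DD H h₀) m η hm hηp (DD_ne H h₀)
  obtain ⟨K, z1, hz12, hc1⟩ := Base.c1 hC1 (DD H h₀) (1 / 4) (by norm_num)
  set Q : ℕ := P0 + 2 * k + ∑ h ∈ H, h + 2 with hQ
  have hHle : ∀ j ∈ H, j ≤ Q := fun j hj => by
    have := single_le_sum (f := fun h : ℕ => h) (fun i _ => Nat.zero_le _) hj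
    omega
  set M : ℕ := Q.factorial with hM
  have hM1 : 1 ≤ M := Nat.succ_le_of_lt (Nat.factorial_pos Q)
  have hMp : ∀ p : ℕ, p.Prime → ¬ p ∣ M → Q < p := by
    intro p hp hpM
    by_contra hle
    push Not at hle
    exact hpM ((Nat.Prime.dvd_factorial hp).2 hle)
  have hMp' : ∀ p : ℕ, p.Prime → p ∣ M → p ≤ Q := fun p hp hpM => (Nat.Prime.dvd_factorial hp).1 hpM
  have hM0 : (0 : ℝ) < M := by exact_mod_cast hM1
  have hgood : Good (DD H h₀) P0 M := goodDD H h₀ hM1 h0 hMp (by omega) hHle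
  have hgood2 : Good (DD H h₀) (2 * ((DD H h₀).card + 1)) M := goodDD H h₀ hM1 h0 hMp (by omega) hHle
  obtain ⟨B, z2, hB⟩ := hP0 M hgood
  have h2k : ∀ p : ℕ, p.Prime → ¬ p ∣ M → 2 * k ≤ p := fun p hp hpM => by
    have := hMp p hp hpM
    omega
  obtain ⟨z3, hz3⟩ := hVLP k M 1 hM1 h2k
  -- the classes
  have hCLne : 1 ≤ (CL H h₀ M).card := by
    obtain ⟨n0, hn0⟩ : ∃ n0 : ℕ, ∀ p : ℕ, p.Prime → p ≤ Q → ∀ h ∈ H, ¬ p ∣ n0 + h := by
      choose! r hr using hadm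
      set P : Finset ℕ := (range (Q + 1)).filter Nat.Prime with hP
      have hPp : ∀ p ∈ P, p.Prime := fun p hp => (mem_filter.1 hp).2
      have hcop : Set.Pairwise (P : Set ℕ) (Function.onFun Nat.Coprime id) := by
        intro p hp q hq hpq
        exact (Nat.coprime_primes (hPp p hp) (hPp q hq)).2 hpq
      obtain ⟨n0, hn0⟩ := Nat.chineseRemainderOfFinset r id P (fun p hp => (hPp p hp).ne_zero) hcop
      refine ⟨n0, fun p hp hpQ i hi hd => ?_⟩
      have h1 : n0 ≡ r p [MOD p] := hn0 p (by rw [hP, mem_filter, mem_range]; exact ⟨by omega, hp⟩)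
      have h2 : n0 + i ≡ r p + i [MOD p] := h1.add_right _
      exact hr p hp i hi ((h2.dvd_iff (dvd_refl p)).1 hd)
    refine card_pos.2 ⟨(n0 + h₀) % M, ?_⟩
    unfold CL
    rw [mem_filter, mem_range]
    exact ⟨Nat.mod_lt _ hM1, n0, rfl, fun h hh p hp hpM => hn0 p hp (hMp' p hp hpM) h hh⟩
  obtain ⟨z4, hz4⟩ := exists_nat_ge ((m + 1 : ℝ) * h₀ * (8 / ε + 8) + 16)
  refine ⟨B + K + 3, z1 + z2 + z3 + z4 + M + Q + h₀ + 2, fun z hz x hx a => ?_⟩
  have hz1n : 1 ≤ z := by omega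
  have hz0 : (0 : ℝ) < z := by exact_mod_cast (by omega : 0 < z)
  have hz1' : (1 : ℝ) ≤ z := by exact_mod_cast hz1n
  set X := x + h₀ with hX
  have hMz : ∀ p : ℕ, p.Prime → p ∣ M → p < z := fun p hp hpM => by
    have := hMp' p hp hpM
    omega
  set V := VV k M z with hVd
  have hV : 0 < V := Base.VV_pos h2k
  set N : ℝ := (X : ℝ) / M * V with hN
  have hN0 : 0 ≤ N := by positivity
  have hNbig : (z : ℝ) ^ (K + 1) ≤ N := by
    have h2 : (z : ℝ) ^ (K + 3) ≤ X := by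
      have : z ^ (K + 3) ≤ X := (Nat.pow_le_pow_right hz1n (by omega)).trans (hx.trans (by omega))
      exact_mod_cast this
    have h3 : (M : ℝ) ≤ z := by exact_mod_cast (by omega : M ≤ z)
    have hzV : 1 ≤ (z : ℝ) * V := by
      have h1 := hz3 z (by omega)
      rw [pow_one] at h1
      have h2 : (z : ℝ) ^ (-1 : ℝ) ≤ (z : ℝ) ^ (-(1 : ℝ) / 4) :=
        Real.rpow_le_rpow_of_exponent_le hz1' (by norm_num)
      rw [Real.rpow_neg_one] at h2
      calc (1 : ℝ) = z * (z : ℝ)⁻¹ := by field_simp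
        _ ≤ z * V := mul_le_mul_of_nonneg_left (h2.trans h1) hz0.le
    rw [hN, div_mul_eq_mul_div, le_div_iff₀ hM0]
    calc (z : ℝ) ^ (K + 1) * M ≤ z ^ (K + 1) * z := by gcongr
      _ = z ^ (K + 1) * z * 1 := by ring
      _ ≤ z ^ (K + 1) * z * (z * V) := by gcongr
      _ = (z : ℝ) ^ (K + 3) * V := by ring
      _ ≤ X * V := by gcongr
  have hz4' : (m + 1 : ℝ) * h₀ * (8 / ε + 8) + 16 ≤ z := hz4.trans (by exact_mod_cast (by omega : z4 ≤ z))
  have hzK : (z : ℝ) * (z : ℝ) ^ K ≤ N := by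
    refine le_trans (le_of_eq ?_) hNbig
    ring
  have hzK1 : (1 : ℝ) ≤ (z : ℝ) ^ K := one_le_pow₀ hz1'
  -- EQ
  set g : ℕ → ℕ → ℝ := ga m with hg
  have hgX : z ^ B ≤ X := (Nat.pow_le_pow_right hz1n (by omega)).trans (hx.trans (by omega))
  have hEQ' : ∀ r a b : ℕ, |NN M r z (DD H h₀) (g a) X - NN M r z (DD H h₀) (g b) X| ≤ η * N := by
    intro r a b
    obtain ⟨_, h2, _⟩ := hB z (by omega) X r g hgX (ga_mem m)
      (fun a n => by rw [hg]; unfold ga; rw [Nat.add_mod_right])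
      (fun q hq _ _ a n hn => ga_mul m a hq hn)
    have h3 := h2 a b
    rw [hDk] at h3
    refine h3.trans (le_of_eq ?_)
    rw [hN]; ring
  -- total number
  set R : ℝ := ((CL H h₀ M).card : ℝ) with hR
  have hR1 : 1 ≤ R := by rw [hR]; exact_mod_cast hCLne
  have hh0 : (0 : ℝ) ≤ h₀ := Nat.cast_nonneg _
  have htotlow : R * N / 2 ≤ ((RT H z x).card : ℝ) := by
    have h1 := (abs_le.1 (sum_RT (x := x) hM1 h0 hMz (fun _ => (1 : ℝ)) (fun _ => by norm_num))).1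
    rw [sum_const, nsmul_eq_mul, mul_one] at h1
    have h2 : R * (3 / 4 * N - (z : ℝ) ^ K) ≤ ∑ r ∈ CL H h₀ M, NN M r z (DD H h₀) (fun _ => (1 : ℝ)) (x + h₀) := by
      calc R * (3 / 4 * N - (z : ℝ) ^ K) = ∑ _r ∈ CL H h₀ M, (3 / 4 * N - (z : ℝ) ^ K) := by
            rw [sum_const, nsmul_eq_mul]
        _ ≤ _ := by
          refine sum_le_sum fun r _ => ?_
          have h3 := (abs_le.1 (hc1 M r z 1 X hgood2 (by omega) (by exact_mod_cast Base.rgh_one M z))).1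
          rw [hDk] at h3
          unfold NN
          rw [sum_const, nsmul_eq_mul, mul_one]
          have h4 : (X : ℝ) / M * VV k M z = N := rfl
          rw [h4] at h3
          linarith
    have h5 : (z : ℝ) ^ K * 16 ≤ N := by
      have : (16 : ℝ) ≤ z := by
        have : 0 ≤ (m + 1 : ℝ) * h₀ * (8 / ε + 8) := by positivity
        linarith
      nlinarith
    have h6 : (h₀ : ℝ) * 8 ≤ N := by
      have h7 : (h₀ : ℝ) * 8 ≤ z := by
        have h8 : (h₀ : ℝ) * 8 ≤ (m + 1 : ℝ) * h₀ * (8 / ε + 8) := by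
          have h9 : (1 : ℝ) * h₀ * 8 ≤ (m + 1 : ℝ) * h₀ * (8 / ε + 8) := by
            apply mul_le_mul _ _ (by norm_num) (by positivity)
            · apply mul_le_mul_of_nonneg_right _ hh0
              linarith
            · have : 0 ≤ 8 / ε := by positivity
              linarith
          rw [one_mul] at h9
          exact h9
        linarith
      calc (h₀ : ℝ) * 8 ≤ z := h7
        _ = z * 1 := (mul_one _).symm
        _ ≤ z * (z : ℝ) ^ K := mul_le_mul_of_nonneg_left hzK1 hz0.le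
        _ ≤ N := hzK
    have h7 : R * ((z : ℝ) ^ K * 16) ≤ R * N := mul_le_mul_of_nonneg_left h5 (by linarith)
    have h8 : 1 * N ≤ R * N := mul_le_mul_of_nonneg_right hR1 hN0
    nlinarith
  -- the classes mod m
  have hcount : ∀ a : ℕ, (((RT H z x).filter (fun n => (n + h₀).primeFactorsList.length % m = a % m)).card : ℝ) =
      ∑ n ∈ RT H z x, g a (n + h₀) := by
    intro a
    rw [hg]
    unfold ga
    rw [card_filter]
    push_cast
    rfl
  have hdiff : ∀ a b : ℕ, |∑ n ∈ RT H z x, g a (n + h₀) - ∑ n ∈ RT H z x, g b (n + h₀)| ≤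
      R * (η * N) + 2 * h₀ := by
    intro a b
    have h1 := sum_RT (x := x) hM1 h0 hMz (g a) (ga_mem m a)
    have h2 := sum_RT (x := x) hM1 h0 hMz (g b) (ga_mem m b)
    have h3 : |∑ r ∈ CL H h₀ M, NN M r z (DD H h₀) (g a) (x + h₀) -
        ∑ r ∈ CL H h₀ M, NN M r z (DD H h₀) (g b) (x + h₀)| ≤ R * (η * N) := by
      rw [← sum_sub_distrib]
      refine (abs_sum_le_sum_abs _ _).trans ?_
      calc ∑ r ∈ CL H h₀ M, |NN M r z (DD H h₀) (g a) (x + h₀) - NN M r z (DD H h₀) (g b) (x + h₀)| ≤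
          ∑ _r ∈ CL H h₀ M, η * N := sum_le_sum fun r _ => hEQ' r a b
        _ = _ := by rw [sum_const, nsmul_eq_mul]
    rw [abs_le] at h1 h2 h3 ⊢
    constructor <;> linarith [h1.1, h1.2, h2.1, h2.2, h3.1, h3.2]
  have hsum1 : ∑ b ∈ range m, ∑ n ∈ RT H z x, g b (n + h₀) = ((RT H z x).card : ℝ) := by
    rw [sum_comm, sum_congr rfl (fun n _ => ga_sum hm (n + h₀)), sum_const, nsmul_eq_mul, mul_one]
  rw [hcount a]
  have hmain : |(m : ℝ) * ∑ n ∈ RT H z x, g a (n + h₀) - ((RT H z x).card : ℝ)| ≤ m * (R * (η * N) + 2 * h₀) := by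
    have e : (m : ℝ) * ∑ n ∈ RT H z x, g a (n + h₀) = ∑ _b ∈ range m, ∑ n ∈ RT H z x, g a (n + h₀) := by
      rw [sum_const, card_range, nsmul_eq_mul]
    rw [← hsum1, e, ← sum_sub_distrib]
    refine (abs_sum_le_sum_abs _ _).trans ?_
    calc ∑ b ∈ range m, |∑ n ∈ RT H z x, g a (n + h₀) - ∑ n ∈ RT H z x, g b (n + h₀)| ≤
        ∑ _b ∈ range m, (R * (η * N) + 2 * h₀) := sum_le_sum fun b _ => hdiff a b
      _ = _ := by rw [sum_const, card_range, nsmul_eq_mul]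
  refine hmain.trans ?_
  have h1 : ε * (R * N / 2) ≤ ε * ((RT H z x).card : ℝ) := mul_le_mul_of_nonneg_left htotlow hε.le
  refine le_trans ?_ h1
  have h2 : (m : ℝ) * (R * (η * N)) = ε * (R * N / 4) := by
    rw [hη]
    field_simp
  have h3 : (m : ℝ) * (2 * h₀) ≤ ε * (R * N / 4) := by
    have h4 : (m + 1 : ℝ) * h₀ * (8 / ε) ≤ z := by
      have : 0 ≤ (m + 1 : ℝ) * h₀ * 8 := by positivity
      nlinarith
    have h5 : (m + 1 : ℝ) * h₀ * 8 ≤ z * ε := by
      have e : (m + 1 : ℝ) * h₀ * (8 / ε) = ((m + 1 : ℝ) * h₀ * 8) / ε := by ring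
      rw [e, div_le_iff₀ hε] at h4
      exact h4
    have h6 : (z : ℝ) ≤ R * N := by
      calc (z : ℝ) = z * 1 := (mul_one _).symm
        _ ≤ z * (z : ℝ) ^ K := mul_le_mul_of_nonneg_left hzK1 hz0.le
        _ ≤ N := hzK
        _ = 1 * N := (one_mul _).symm
        _ ≤ R * N := mul_le_mul_of_nonneg_right hR1 hN0
    have h7 : z * ε ≤ R * N * ε := mul_le_mul_of_nonneg_right h6 hε.le
    nlinarith
  rw [mul_add, h2]
  linarith

end

end Pool.Agent.Lib.MP_3efbeb_nt.DL
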