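import Mathlib

/-!
# DL: Omega mod m of the elements of rough tuples, and dilates of prime triples

Elementary proof (fundamental lemma, Turan-Kubilius, second moment) that `Omega mod m` of one element of a
`z`-rough tuple `n + h` (`h` in `H`), `n <= x`, is equidistributed mod `m` (`log x / log z` large), and, with the
corners theorem, that some bounded dilate `n + e h` has all members `x^c`-rough and `Omega = 1 (mod m)` on three of them.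
-/

set_option autoImplicit false

namespace Pool.Agent.Lib.MP_3efbeb_nt.DL

open Finset
open scoped Classical

noncomputable section

/-! ## Definitions -/

/-- the primes `< z` not dividing `M` -/
def PR (M z : ℕ) : Finset ℕ := (range z).filter (fun p => p.Prime ∧ ¬ p ∣ M)

/-- `n` has no prime factor `< z` outside the primes of `M` -/
def Rgh (M z : ℕ) (n : ℤ) : Prop := ∀ p : ℕ, p.Prime → p < z → ¬ p ∣ M → ¬ (p : ℤ) ∣ n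

/-- the number of classes mod `p` in which some form `a_i y + c_i` vanishes -/
def nu {k : ℕ} (a c : Fin k → ℤ) (p : ℕ) : ℕ :=
  ((range p).filter (fun y : ℕ => ∃ i, (p : ℤ) ∣ a i * (y : ℤ) + c i)).card

/-- `prod (1 - k/p)` -/
def VV (k M z : ℕ) : ℝ := ∏ p ∈ PR M z, (1 - (k : ℝ) / p)

/-- `V' = V_(|S|+1) / V_1` -/
def VQ (S : Finset ℤ) (M z : ℕ) : ℝ := VV (S.card + 1) M z / VV 1 M z

/-- all `d m + s`, `s ∈ S`, are rough -/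
def cq (M z : ℕ) (S : Finset ℤ) (d m : ℕ) : Prop := ∀ s ∈ S, Rgh M z ((d : ℤ) * m + s)

/-- the rough integers `m ≤ Y`, `m = r (mod M)` with `d m + s` rough for `s ∈ S` -/
def W1 (M r z : ℕ) (S : Finset ℤ) (d Y : ℕ) : Finset ℕ :=
  (Icc 1 Y).filter (fun m => m % M = r % M ∧ Rgh M z m ∧ cq M z S d m)

/-- the same for two multipliers -/
def W2 (M r z : ℕ) (S : Finset ℤ) (d d' Y : ℕ) : Finset ℕ :=
  (Icc 1 Y).filter (fun m => m % M = r % M ∧ Rgh M z m ∧ cq M z S d m ∧ cq M z S d' m)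

/-- `S` is good for `M`: the primes not dividing `M` are `> P0` and do not divide `s`, `s - s'` -/
def Good (S : Finset ℤ) (P0 M : ℕ) : Prop :=
  1 ≤ M ∧ ∀ p : ℕ, p.Prime → ¬ p ∣ M → P0 < p ∧ (∀ s ∈ S, ¬ (p : ℤ) ∣ s) ∧
    (∀ s ∈ S, ∀ s' ∈ S, s ≠ s' → ¬ (p : ℤ) ∣ s - s')

/-- the primes `q = 1 (mod M)` in `(2^j, 2^(j+1)]` -/
def blk (M j : ℕ) : Finset ℕ := (Ioc (2 ^ j) (2 ^ (j + 1))).filter (fun q => q.Prime ∧ q % M = 1 % M)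

/-- the primes `q = 1 (mod M)` in `(2^J1, 2^J2]` -/
def QQ (M J1 J2 : ℕ) : Finset ℕ := (Ioc (2 ^ J1) (2 ^ J2)).filter (fun q => q.Prime ∧ q % M = 1 % M)

/-- the sum of `1/q` over a finite set -/
def Lam (Q : Finset ℕ) : ℝ := ∑ q ∈ Q, 1 / (q : ℝ)

/-- the product of `1 + A/p` over the primes `p ∤ M`, `p ∣ n` -/
def hh (A : ℝ) (M : ℕ) (n : ℤ) : ℝ := ∏ p ∈ n.natAbs.primeFactors.filter (fun p => ¬ p ∣ M), (1 + A / p)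

/-- `prod_(s,s') (s q' - s' q)` -/
def Del (S : Finset ℤ) (q q' : ℕ) : ℤ := ∏ s ∈ S, ∏ s' ∈ S, (s * (q' : ℤ) - s' * (q : ℤ))

/-! ## CNT: the fundamental lemma for `k` linear forms in a residue class -/

/-- CNT. Two-sided fundamental lemma. `ν(p)/p ≤ k/p ≤ 1/2` for the primes not dividing `M`, `|R_δ| ≤ ρ(δ) ≤ δ`.
(`Odd.SpecFLK` with `g p = ν(p)/p` for `p ∤ M`, `g p = 0` for `p ∣ M`; `1 + log z ≤ z`.) -/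
def SpecCNT : Prop := ∀ k : ℕ, ∃ C : ℕ, ∀ (b M r z Y : ℕ) (a c : Fin k → ℤ), 1 ≤ M → 2 ≤ z →
  (∀ p : ℕ, p.Prime → ¬ p ∣ M → 2 * k ≤ p) →
  (∀ p : ℕ, p.Prime → p < z → ¬ p ∣ M → ∀ i, ¬ ((p : ℤ) ∣ a i ∧ (p : ℤ) ∣ c i)) →
  |(((Icc 1 Y).filter (fun y : ℕ => y % M = r % M ∧ ∀ i, Rgh M z (a i * (y : ℤ) + c i))).card : ℝ)
      - (Y : ℝ) / M * ∏ p ∈ PR M z, (1 - (nu a c p : ℝ) / p)|
    ≤ C * Real.exp (-(b : ℝ)) * ((Y : ℝ) / M) * (∏ p ∈ PR M z, (1 - (nu a c p : ℝ) / p))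
      + C * (z : ℝ) ^ (C * (b + 1))

/-! ## C1, C2: the counts that are used -/

/-- C1 (from CNT): `W1` for `d` rough. The forms are `m`, `d m + s`; `ν(p) = |S| + 1`. -/
def SpecC1 : Prop := ∀ S : Finset ℤ, ∃ C : ℕ, ∀ (b M r z d Y : ℕ), Good S (2 * (S.card + 1)) M → 2 ≤ z → Rgh M z d →
  |((W1 M r z S d Y).card : ℝ) - (Y : ℝ) / M * VV (S.card + 1) M z|
    ≤ C * Real.exp (-(b : ℝ)) * ((Y : ℝ) / M) * VV (S.card + 1) M z + C * (z : ℝ) ^ (C * (b + 1))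

/-- C2 (from CNT): `W2`, upper bound. For `p ∤ Del`: `ν = 2k-1` and `(1-(2k-1)/p)(1-1/p) ≤ (1-k/p)²`;
for `p ∣ Del`: `ν ≥ k` and `1-1/p ≤ (1-k/p)(1+2k/p)` as `p ≥ 2k`. Here `k = |S|+1`. -/
def SpecC2 : Prop := ∀ S : Finset ℤ, ∃ C : ℕ, ∀ (b M r z d d' Y : ℕ), Good S (4 * (S.card + 1)) M → 2 ≤ z →
  Rgh M z d → Rgh M z d' → Del S d d' ≠ 0 →
  ((W2 M r z S d d' Y).card : ℝ)
    ≤ (1 + C * Real.exp (-(b : ℝ))) * ((Y : ℝ) / M) * (VV 1 M z * VQ S M z ^ 2 * hh (2 * (S.card + 1)) M (Del S d d'))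
      + C * (z : ℝ) ^ (C * (b + 1))

/-! ## VLB: lower bound for the products -/

/-- VLB (Mertens): lower bound of the right order. -/
def SpecVLB : Prop := ∀ k M : ℕ, 1 ≤ M → (∀ p : ℕ, p.Prime → ¬ p ∣ M → 2 * k ≤ p) → ∃ c : ℝ, 0 < c ∧ ∀ z : ℕ, 2 ≤ z →
  c / Real.log z ^ k ≤ VV k M z

/-- VLP (from VLB): every fixed power of `VV` beats every power of `z`. -/
def SpecVLP : Prop := ∀ k M A : ℕ, 1 ≤ M → (∀ p : ℕ, p.Prime → ¬ p ∣ M → 2 * k ≤ p) → ∃ z0 : ℕ, ∀ z : ℕ, z0 ≤ z →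
  (z : ℝ) ^ (-(1 : ℝ) / 4) ≤ VV k M z ^ A

/-! ## BLK, BT: primes in the blocks -/

/-- BLK (from `PntAP.pi_ap_interval`). -/
def SpecBLK : Prop := ∀ M : ℕ, 1 ≤ M → ∃ j0 : ℕ, ∀ j : ℕ, j0 ≤ j →
  (2 : ℝ) ^ j / (2 * (M.totient : ℝ) * j) ≤ (blk M j).card

/-- LAM (from BLK): the sum of the reciprocals. -/
def SpecLAM : Prop := ∀ (M : ℕ) (B : ℝ), 1 ≤ M → ∃ (A J0 : ℕ), ∀ J : ℕ, J0 ≤ J → B ≤ Lam (QQ M J (A * J))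

/-- BT (from `QPA.specBT` and BLK): Brun-Titchmarsh in a block. `C` is absolute. -/
def SpecBT : Prop := ∃ C : ℝ, 0 < C ∧ ∀ M : ℕ, 1 ≤ M → ∃ j0 : ℕ, ∀ j : ℕ, j0 ≤ j → ∀ d c : ℕ, 1 ≤ d → d ^ 2 ≤ 2 ^ j →
  Nat.Coprime d M → (((blk M j).filter (fun q => q % d = c % d)).card : ℝ) ≤ C * (blk M j).card / (d.totient : ℝ)

/-! ## AVG: the average of the singular series -/

/-- AVG1 (from BT and the divisor bound): one pair `(s, s')`. Expand `hh A M n = ∑_{δ ∣ n, squarefree, (δ,M)=1} A^ω(δ)/δ`;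
`δ ≤ 2^(j/2)`: BT, sum of `A^ω(δ)/(δ φ(δ))` over `δ > 1` with primes `> P0`; larger `δ`: `(1+A)^ω(n) ≤ C n^(1/8)`. -/
def SpecAVG1 : Prop := ∀ (A η : ℝ) (s s' : ℤ), 0 ≤ A → 0 < η → s ≠ 0 → s' ≠ 0 → ∃ P0 : ℕ, ∀ M : ℕ, 1 ≤ M →
  (∀ p : ℕ, p.Prime → ¬ p ∣ M → P0 < p) → ∃ j0 : ℕ, ∀ j : ℕ, j0 ≤ j → ∀ q ∈ blk M j,
  ∑ q' ∈ (blk M j).erase q, (hh A M (s * (q' : ℤ) - s' * (q : ℤ)) - 1) ≤ η * (blk M j).card

/-- AVG (from AVG1, AM-GM): `prod_i x_i ≤ (1/N) ∑ x_i^N`, `(1 + 2k/p)^N ≤ 1 + A/p`. -/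
def SpecAVG : Prop := ∀ (S : Finset ℤ) (η : ℝ), 0 < η → (∀ s ∈ S, s ≠ 0) → ∃ P0 : ℕ, ∀ M : ℕ, 1 ≤ M →
  (∀ p : ℕ, p.Prime → ¬ p ∣ M → P0 < p) → ∃ j0 : ℕ, ∀ j : ℕ, j0 ≤ j → ∀ q ∈ blk M j,
  ∑ q' ∈ (blk M j).erase q, (hh (2 * (S.card + 1)) M (Del S q q') - 1) ≤ η * (blk M j).card

/-! ## SM: second moment over `m` -/

/-- SM (from C1, C2, AVG, BLK, VLB). -/
def SpecSM : Prop := ∀ (S : Finset ℤ) (η : ℝ), 0 < η → (∀ s ∈ S, s ≠ 0) → ∃ P0 : ℕ, ∀ M : ℕ, Good S P0 M →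
  ∃ K z0 : ℕ, ∀ z : ℕ, z0 ≤ z → ∀ j : ℕ, z ≤ 2 ^ j → ∀ X r : ℕ, 2 ^ (4 * j) * z ^ K ≤ X →
  ∑ m ∈ W1 M r z ∅ 1 X, |∑ q ∈ (blk M j).filter (fun q => q * m ≤ X), ((if cq M z S q m then (1 : ℝ) else 0) - VQ S M z)|
    ≤ η * Lam (blk M j) * ((X : ℝ) / M) * VV (S.card + 1) M z

/-! ## TK: Turan-Kubilius in the rough tuples -/

/-- TK (from C1). -/
def SpecTK : Prop := ∀ (S : Finset ℤ) (η : ℝ), 0 < η → (∀ s ∈ S, s ≠ 0) → ∃ P0 : ℕ, ∀ M : ℕ, Good S P0 M →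
  ∃ K z0 : ℕ, ∀ z : ℕ, z0 ≤ z → ∀ J1 J2 : ℕ, z ≤ 2 ^ J1 → ∀ X r : ℕ, 2 ^ (8 * J2) * z ^ K ≤ X →
  1 ≤ Lam (QQ M J1 J2) →
  ∑ m ∈ W1 M r z S 1 X, ((((QQ M J1 J2).filter (fun q => q ∣ m)).card : ℝ) - Lam (QQ M J1 J2)) ^ 2
    ≤ (η * Lam (QQ M J1 J2) ^ 2 + 3 * Lam (QQ M J1 J2)) * ((X : ℝ) / M) * VV (S.card + 1) M z

/-! ## CORE -/

/-- the sum of `g` over the rough tuples -/
def NN (M r z : ℕ) (S : Finset ℤ) (g : ℕ → ℝ) (X : ℕ) : ℝ := ∑ m ∈ W1 M r z S 1 X, g m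

/-- CORE (from SM, TK). -/
def SpecCORE : Prop := ∀ (S : Finset ℤ) (η : ℝ), 0 < η → (∀ s ∈ S, s ≠ 0) → ∃ (P0 : ℕ) (B : ℝ), ∀ M : ℕ, Good S P0 M →
  ∃ K z0 : ℕ, ∀ z : ℕ, z0 ≤ z → ∀ J1 J2 : ℕ, z ≤ 2 ^ J1 → B ≤ Lam (QQ M J1 J2) →
  ∀ X r : ℕ, 2 ^ (8 * J2) * z ^ K ≤ X → ∀ g g' : ℕ → ℝ, (∀ m, |g m| ≤ 1) → (∀ m, |g' m| ≤ 1) →
  (∀ q ∈ QQ M J1 J2, ∀ m, 1 ≤ m → g (q * m) = g' m) →
  |Lam (QQ M J1 J2) * NN M r z S g X - VQ S M z * ∑ q ∈ QQ M J1 J2, NN M r z ∅ g' (X / q)|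
    ≤ η * Lam (QQ M J1 J2) * ((X : ℝ) / M) * VV (S.card + 1) M z

/-! ## TYP: large prime factors -/

/-- the indicator of: `Omega n = a (mod m)` and `n` has a prime factor `> Z` -/
def gt (m Z a n : ℕ) : ℝ :=
  if n.primeFactorsList.length % m = a % m ∧ ∃ P : ℕ, P.Prime ∧ P ∣ n ∧ Z < P then 1 else 0

/-- the indicator of `Omega n = a (mod m)` -/
def ga (m a n : ℕ) : ℝ := if n.primeFactorsList.length % m = a % m then 1 else 0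

/-- TYP (from C1 with `S = ∅`, BLK with `M = 1`): rough numbers with a prime factor `> Z`, `Z` close to `X`. For a prime
`P` in `(Z, Z^(1+θ)]` (not dividing `M`) the `D ≤ X/P`, `D = r P⁻¹ (mod M)`, rough; `P` is unique as `X < Z²`. -/
def SpecTYP : Prop := ∀ θ : ℝ, 0 < θ → ∃ σ : ℝ, 0 < σ ∧ ∀ M : ℕ, Good ∅ 2 M → ∃ K z0 : ℕ, ∀ z : ℕ, z0 ≤ z →
  ∀ Z X r : ℕ, z ≤ Z → X < Z ^ 2 → (Z : ℝ) ^ (1 + θ) * (z : ℝ) ^ K ≤ X →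
  σ * ((X : ℝ) / M) * VV 1 M z ≤ (((W1 M r z ∅ 1 X).filter (fun n => ∃ P : ℕ, P.Prime ∧ P ∣ n ∧ Z < P)).card : ℝ)

/-! ## CLOSE: the class shift -/

/-- CLOSE (from CORE, LAM): a family `g a`, `a` mod `m`, with `g (a+1) (q n) = g a n`, and total density `≥ σ` in the rough
numbers; then at some `X'` near `X` the class 1 has density `≥ σ/m - η` on the elements of the rough tuples.
`γ_a(X') = ∑_i NN (g a)(X')/(..)`, `γ_a(X') ≤` average of `γ_(a-1)(X'/q)` `+ η₁` (CORE, `S = ∅`): if `γ_1 < σ/m - ..` at all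
scales then also `γ_2`, ..., `γ_m`: contradiction; then CORE for `S i` and for `∅` give `NN S_i (g 1) = V' NN ∅ (g 1)`. -/
def SpecCLOSE : Prop := ∀ (L m : ℕ) (S : Fin L → Finset ℤ) (k : ℕ) (σ η : ℝ), 1 ≤ L → 1 ≤ m → 0 < σ → 0 < η →
  (∀ i, (S i).card + 1 = k) → (∀ i, ∀ s ∈ S i, s ≠ 0) → ∃ P0 : ℕ, ∀ M : ℕ, (∀ i, Good (S i) P0 M) →
  ∃ B z0 : ℕ, ∀ z : ℕ, z0 ≤ z → ∀ (X : ℕ) (r : Fin L → ℕ) (g : ℕ → ℕ → ℝ), z ^ B ≤ X →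
  (∀ a n, 0 ≤ g a n ∧ g a n ≤ 1) → (∀ a n, g (a + m) n = g a n) →
  (∀ q : ℕ, q.Prime → z < q → q ≤ z ^ B → ∀ a n, 1 ≤ n → g (a + 1) (q * n) = g a n) →
  (∀ i, ∀ X' ≤ X, X ≤ X' * z ^ B → σ * ((X' : ℝ) / M) * VV 1 M z ≤ ∑ a ∈ range m, NN M (r i) z ∅ (g a) X') →
  ∃ X' ≤ X, X ≤ X' * z ^ B ∧
    (σ / m - η) * L * ((X' : ℝ) / M) * VV k M z ≤ ∑ i, NN M (r i) z (S i) (g 1) X'

/-! ## GE, EQ (optional): equidistribution at every `X` -/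

/-- GE (from CORE with `S = ∅` and `PntAP.pi_ap_interval`, two ranges of primes): neighbouring classes have the same
density in the rough numbers, at every `X`. -/
def SpecGE : Prop := ∀ (m : ℕ) (η : ℝ), 1 ≤ m → 0 < η → ∃ P0 : ℕ, ∀ M : ℕ, Good ∅ P0 M →
  ∃ B z0 : ℕ, ∀ z : ℕ, z0 ≤ z → ∀ (X r : ℕ) (g : ℕ → ℕ → ℝ), z ^ B ≤ X →
  (∀ a n, 0 ≤ g a n ∧ g a n ≤ 1) → (∀ a n, g (a + m) n = g a n) →
  (∀ q : ℕ, q.Prime → z < q → q ≤ z ^ B → ∀ a n, 1 ≤ n → g (a + 1) (q * n) = g a n) → ∀ a b : ℕ,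
  |NN M r z ∅ (g a) X - NN M r z ∅ (g b) X| ≤ η * ((X : ℝ) / M) * VV 1 M z

/-! ## COMB: three points from the corners theorem -/

/-- COMB (from `corners_theorem_nat`). -/
def SpecCOMB : Prop := ∀ (δ : ℝ) (H T : Finset ℕ), 0 < δ → T ⊆ H → T.card ≤ 3 → ∃ L0 : ℕ, ∀ L : ℕ, L0 ≤ L →
  ∀ A : Finset ℕ, A ⊆ range L → δ * L ≤ A.card → ∃ t e : ℕ, 1 ≤ e ∧ (∀ h ∈ H, t + e * h < L) ∧ ∀ h ∈ T, t + e * h ∈ A

/-! ## The results -/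

/-- MAIN (from CLOSE, TYP, COMB, C1, VLB): some bounded dilate of `H` is rough, with `Omega = 1 (mod m)` and a prime
factor `> x^(1-θ)` on `T`, `|T| ≤ 3`. -/
def SpecMAIN : Prop := ∀ (m : ℕ) (H T : Finset ℕ) (θ : ℝ), 1 ≤ m → T ⊆ H → T.card ≤ 3 → 0 < θ →
  ∃ D : ℕ, ∀ ε : ℝ, 0 < ε → ∃ c : ℝ, 0 < c ∧ ∃ x₀ : ℕ, ∀ x : ℕ, x₀ ≤ x →
    (x : ℝ) ^ (1 - ε) ≤ (((Icc 1 x).filter (fun n => ∃ e ∈ Icc 1 D,
      (∀ h ∈ H, ∀ p : ℕ, p.Prime → p ∣ n + e * h → (x : ℝ) ^ c < p) ∧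
      (∀ h ∈ T, (n + e * h).primeFactorsList.length % m = 1 % m ∧
        ∃ P : ℕ, P.Prime ∧ P ∣ n + e * h ∧ (x : ℝ) ^ (1 - θ) < P))).card : ℝ)

/-- EXACT (from CLOSE, C1, VLB): no dilation, at least `|H|/m` members with `Omega = 1 (mod m)`. -/
def SpecEXACT : Prop := ∀ (m : ℕ) (H : Finset ℕ), 1 ≤ m → (∀ p : ℕ, p.Prime → ∃ r : ℕ, ∀ h ∈ H, ¬ p ∣ r + h) →
  ∀ ε : ℝ, 0 < ε → ∃ c : ℝ, 0 < c ∧ ∃ x₀ : ℕ, ∀ x : ℕ, x₀ ≤ x →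
    ∃ y : ℕ, y ≤ x ∧ (x : ℝ) ^ (1 - ε) ≤ y ∧
    c * y / Real.log y ^ H.card ≤ (((Icc 1 y).filter (fun n =>
      (∀ h ∈ H, ∀ p : ℕ, p.Prime → p ∣ n + h → (y : ℝ) ^ c < p) ∧
      H.card ≤ m * (H.filter (fun h => (n + h).primeFactorsList.length % m = 1 % m)).card)).card : ℝ)

end

end Pool.Agent.Lib.MP_3efbeb_nt.DL
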